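import Mathlib

/-!
# Basic tools: Abel summation bound, harmonic sums in residue classes
-/

namespace Pool.Agent.E456

open Finset

/-- Abel summation bound: partial sums bounded by `C`, nonnegative nonincreasing weights. -/
lemma abel_bound {E : Type*} [NormedAddCommGroup E] [NormedSpace ℝ E] (a : ℕ → E) (w : ℕ → ℝ)
    (M N : ℕ) (C : ℝ) (hMN : M ≤ N) (hw : ∀ n, M < n → 0 ≤ w n)
    (hw' : ∀ n, M < n → w (n + 1) ≤ w n)
    (ha : ∀ t, M ≤ t → t ≤ N → ‖∑ n ∈ Ioc M t, a n‖ ≤ C) :
    ‖∑ n ∈ Ioc M N, w n • a n‖ ≤ C * w (M + 1) := by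
  have hC : 0 ≤ C := by
    have := ha M le_rfl hMN
    simpa using this
  have key : ∀ t, M ≤ t → t ≤ N →
      ‖(∑ n ∈ Ioc M t, w n • a n) - w (t + 1) • ∑ n ∈ Ioc M t, a n‖ ≤ C * (w (M + 1) - w (t + 1)) := by
    intro t hMt
    induction t, hMt using Nat.le_induction with
    | base => intro _; simp
    | succ t ht ih =>
      intro htN
      have ih' := ih (by omega)
      have hins : Ioc M (t + 1) = insert (t + 1) (Ioc M t) := by
        ext x; simp only [mem_Ioc, mem_insert]; omega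
      have hnot : (t + 1) ∉ Ioc M t := by simp
      rw [hins, sum_insert hnot, sum_insert hnot]
      have e : w (t + 1) • a (t + 1) + ∑ n ∈ Ioc M t, w n • a n
          - w (t + 1 + 1) • (a (t + 1) + ∑ n ∈ Ioc M t, a n)
          = ((∑ n ∈ Ioc M t, w n • a n) - w (t + 1) • ∑ n ∈ Ioc M t, a n)
            + (w (t + 1) - w (t + 1 + 1)) • (a (t + 1) + ∑ n ∈ Ioc M t, a n) := by
        simp only [sub_smul, smul_add]
        abel
      rw [e]
      have h1 : ‖a (t + 1) + ∑ n ∈ Ioc M t, a n‖ ≤ C := by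
        rw [← sum_insert hnot, ← hins]
        exact ha _ (by omega) htN
      have h2 : 0 ≤ w (t + 1) - w (t + 1 + 1) := by
        have := hw' (t + 1) (by omega); linarith
      calc _ ≤ ‖(∑ n ∈ Ioc M t, w n • a n) - w (t + 1) • ∑ n ∈ Ioc M t, a n‖
            + ‖(w (t + 1) - w (t + 1 + 1)) • (a (t + 1) + ∑ n ∈ Ioc M t, a n)‖ := norm_add_le _ _
        _ ≤ C * (w (M + 1) - w (t + 1)) + (w (t + 1) - w (t + 1 + 1)) * C := by
            gcongr
            rw [norm_smul, Real.norm_eq_abs, abs_of_nonneg h2]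
            gcongr
        _ = _ := by ring
  have h := key N hMN le_rfl
  have h3 : ‖w (N + 1) • ∑ n ∈ Ioc M N, a n‖ ≤ w (N + 1) * C := by
    rw [norm_smul, Real.norm_eq_abs, abs_of_nonneg (hw _ (by omega))]
    exact mul_le_mul_of_nonneg_left (ha N hMN le_rfl) (hw _ (by omega))
  calc ‖∑ n ∈ Ioc M N, w n • a n‖
      = ‖((∑ n ∈ Ioc M N, w n • a n) - w (N + 1) • ∑ n ∈ Ioc M N, a n)
        + w (N + 1) • ∑ n ∈ Ioc M N, a n‖ := by congr 1; abel
    _ ≤ C * (w (M + 1) - w (N + 1)) + w (N + 1) * C := (norm_add_le _ _).trans (add_le_add h h3)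
    _ = C * w (M + 1) := by ring

lemma harmonic_upper (M N : ℕ) (hM : 0 < M) (hMN : M ≤ N) :
    ∑ n ∈ Ioc M N, (1 : ℝ) / n ≤ Real.log (N / M) := by
  induction N, hMN using Nat.le_induction with
  | base => simp [hM.ne']
  | succ t ht ih =>
    have hins : Ioc M (t + 1) = insert (t + 1) (Ioc M t) := by
      ext x; simp only [mem_Ioc, mem_insert]; omega
    have hnot : (t + 1) ∉ Ioc M t := by simp
    rw [hins, sum_insert hnot]
    have hM' : (0 : ℝ) < M := by exact_mod_cast hM
    have ht' : (0 : ℝ) < t := by exact_mod_cast (by omega : 0 < t)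
    have h1 : (1 : ℝ) / ((t + 1 : ℕ) : ℝ) ≤ Real.log ((t + 1 : ℕ) / t) := by
      have := Real.one_sub_inv_le_log_of_pos (x := ((t + 1 : ℕ) : ℝ) / t) (by positivity)
      refine le_trans (le_of_eq ?_) this
      push_cast
      field_simp
      ring
    have h2 : Real.log (((t + 1 : ℕ) : ℝ) / M) = Real.log ((t + 1 : ℕ) / t) + Real.log (t / M) := by
      rw [← Real.log_mul (by positivity) (by positivity)]
      congr 1
      field_simp
    linarith

lemma harmonic_lower (M N : ℕ) (hMN : M ≤ N) :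
    Real.log (((N : ℝ) + 1) / ((M : ℝ) + 1)) ≤ ∑ n ∈ Ioc M N, (1 : ℝ) / n := by
  induction N, hMN using Nat.le_induction with
  | base => simp [div_self (by positivity : ((M : ℝ) + 1) ≠ 0)]
  | succ t ht ih =>
    have hins : Ioc M (t + 1) = insert (t + 1) (Ioc M t) := by
      ext x; simp only [mem_Ioc, mem_insert]; omega
    have hnot : (t + 1) ∉ Ioc M t := by simp
    rw [hins, sum_insert hnot]
    have h1 : Real.log (((t : ℝ) + 1 + 1) / ((t : ℝ) + 1)) ≤ (1 : ℝ) / ((t + 1 : ℕ) : ℝ) := by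
      have := Real.log_le_sub_one_of_pos (x := ((t : ℝ) + 1 + 1) / ((t : ℝ) + 1)) (by positivity)
      refine le_trans this (le_of_eq ?_)
      push_cast
      field_simp
      ring
    have h2 : Real.log ((((t + 1 : ℕ) : ℝ) + 1) / ((M : ℝ) + 1))
        = Real.log (((t : ℝ) + 1 + 1) / ((t : ℝ) + 1)) + Real.log (((t : ℝ) + 1) / ((M : ℝ) + 1)) := by
      rw [← Real.log_mul (by positivity) (by positivity)]
      congr 1
      push_cast
      field_simp
    linarith

lemma harmonic_abs (M N : ℕ) (hM : 0 < M) (hMN : M ≤ N) :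
    |∑ n ∈ Ioc M N, (1 : ℝ) / n - Real.log (N / M)| ≤ 1 / M := by
  have hM' : (0 : ℝ) < M := by exact_mod_cast hM
  have hN' : (0 : ℝ) < N := by exact_mod_cast (by omega : 0 < N)
  rw [abs_le]
  constructor
  · have h1 := harmonic_lower M N hMN
    have h2 : Real.log ((N : ℝ) / M) - 1 / M ≤ Real.log (((N : ℝ) + 1) / ((M : ℝ) + 1)) := by
      have e : Real.log ((N : ℝ) / M) - Real.log (((N : ℝ) + 1) / ((M : ℝ) + 1))
          = Real.log (((M : ℝ) + 1) / M) - Real.log (((N : ℝ) + 1) / N) := by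
        rw [Real.log_div (by positivity) (by positivity), Real.log_div (by positivity) (by positivity),
          Real.log_div (by positivity) (by positivity), Real.log_div (by positivity) (by positivity)]
        ring
      have h3 : Real.log (((M : ℝ) + 1) / M) ≤ 1 / M := by
        have := Real.log_le_sub_one_of_pos (x := ((M : ℝ) + 1) / M) (by positivity)
        refine le_trans this (le_of_eq ?_)
        field_simp
        ring
      have h4 : 0 ≤ Real.log (((N : ℝ) + 1) / N) := by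
        apply Real.log_nonneg
        rw [le_div_iff₀ hN']
        linarith
      linarith
    linarith
  · have h1 := harmonic_upper M N hM hMN
    have : (0 : ℝ) < 1 / M := by positivity
    linarith

lemma card_Ioc_modEq (M N q c : ℕ) (hq : 0 < q) (hMN : M ≤ N) :
    |(((Ioc M N).filter (fun n => n ≡ c [MOD q])).card : ℝ) - ((N : ℝ) - M) / q| ≤ 1 := by
  have h := Nat.Ioc_filter_modEq_card M N hq c
  have hq' : (0 : ℚ) < q := by exact_mod_cast hq
  set u : ℚ := ((N : ℚ) - c) / q with hu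
  set v : ℚ := ((M : ℚ) - c) / q with hv
  have hMN' : (M : ℚ) ≤ N := by exact_mod_cast hMN
  have huv : v ≤ u := by
    rw [hu, hv]
    gcongr
  have hfl : ⌊v⌋ ≤ ⌊u⌋ := Int.floor_le_floor huv
  rw [max_eq_left (by omega)] at h
  have h' : (((Ioc M N).filter (fun n => n ≡ c [MOD q])).card : ℚ) = (⌊u⌋ : ℚ) - ⌊v⌋ := by
    have := congrArg (fun z : ℤ => (z : ℚ)) h
    push_cast at this
    exact this
  have huv' : u - v = ((N : ℚ) - M) / q := by
    rw [hu, hv]; ring
  have h1 := Int.floor_le u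
  have h2 := Int.lt_floor_add_one u
  have h3 := Int.floor_le v
  have h4 := Int.lt_floor_add_one v
  have hQ : |(((Ioc M N).filter (fun n => n ≡ c [MOD q])).card : ℚ) - ((N : ℚ) - M) / q| ≤ 1 := by
    rw [h', ← huv', abs_le]
    constructor <;> linarith
  have := (Rat.cast_le (K := ℝ)).mpr hQ
  push_cast at this
  exact this

/-- Harmonic sum in a residue class. -/
lemma harmonic_AP (M N q c : ℕ) (hM : 0 < M) (hMN : M ≤ N) (hq : 0 < q) :
    |∑ n ∈ (Ioc M N).filter (fun n => n ≡ c [MOD q]), (1 : ℝ) / n - Real.log (N / M) / q|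
      ≤ 2 / M := by
  have hM' : (0 : ℝ) < M := by exact_mod_cast hM
  have hq' : (1 : ℝ) ≤ q := by exact_mod_cast hq
  have h1 := abel_bound (E := ℝ) (fun n => (if n ≡ c [MOD q] then (1 : ℝ) else 0) - 1 / q)
    (fun n => (1 : ℝ) / n) M N 1 hMN (fun n _ => by positivity)
    (fun n hn => by
      have : (0 : ℝ) < n := by exact_mod_cast (by omega : 0 < n)
      push_cast
      gcongr
      linarith)
    (by
      intro t hMt _
      have := card_Ioc_modEq M t q c hq hMt
      rw [sum_sub_distrib, ← sum_filter, sum_const, sum_const, Nat.card_Ioc]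
      rw [Real.norm_eq_abs]
      refine le_trans (le_of_eq ?_) this
      congr 1
      rw [nsmul_eq_mul, nsmul_eq_mul, Nat.cast_sub hMt]
      ring)
  have h2 := harmonic_abs M N hM hMN
  have e : ∑ n ∈ Ioc M N, ((1 : ℝ) / n) • ((if n ≡ c [MOD q] then (1 : ℝ) else 0) - 1 / q)
      = ∑ n ∈ (Ioc M N).filter (fun n => n ≡ c [MOD q]), (1 : ℝ) / n
        - (∑ n ∈ Ioc M N, (1 : ℝ) / n) / q := by
    rw [sum_filter, sum_div, ← sum_sub_distrib]
    refine sum_congr rfl fun n _ => ?_
    simp only [smul_eq_mul]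
    split_ifs <;> ring
  rw [e, Real.norm_eq_abs] at h1
  have h3 : (1 : ℝ) * (1 / ((M + 1 : ℕ) : ℝ)) ≤ 1 / M := by
    rw [one_mul]
    push_cast
    gcongr
    linarith
  have h4 : |(∑ n ∈ Ioc M N, (1 : ℝ) / n) / q - Real.log (N / M) / q| ≤ 1 / M := by
    rw [← sub_div, abs_div, abs_of_pos (by linarith : (0 : ℝ) < q)]
    calc _ ≤ |∑ n ∈ Ioc M N, (1 : ℝ) / n - Real.log (N / M)| := div_le_self (abs_nonneg _) hq'
      _ ≤ _ := h2
  calc _ = |(∑ n ∈ (Ioc M N).filter (fun n => n ≡ c [MOD q]), (1 : ℝ) / n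
        - (∑ n ∈ Ioc M N, (1 : ℝ) / n) / q) + ((∑ n ∈ Ioc M N, (1 : ℝ) / n) / q
          - Real.log (N / M) / q)| := by congr 1; ring
    _ ≤ 1 / M + 1 / M := (abs_add_le _ _).trans (add_le_add (h1.trans h3) h4)
    _ = 2 / M := by ring

end Pool.Agent.E456
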