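import Mathlib
import Pool.Agent.E456.Basic

/-!
# Mertens' theorems
-/

namespace Pool.Agent.E456

open Finset
open scoped ArithmeticFunction.vonMangoldt ArithmeticFunction.zeta

lemma log_factorial_eq (N : ℕ) :
    Real.log (N.factorial) = ∑ n ∈ Ioc 0 N, Λ n * ((N / n : ℕ) : ℝ) := by
  have h1 : ∑ n ∈ Ioc 0 N, (Λ * (ζ : ArithmeticFunction ℝ)) n = ∑ n ∈ Ioc 0 N, Λ n * ((N / n : ℕ) : ℝ) :=
    ArithmeticFunction.sum_Ioc_mul_zeta_eq_sum Λ N
  rw [← h1, ArithmeticFunction.vonMangoldt_mul_zeta]
  induction N with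
  | zero => simp
  | succ n ih =>
    have hins : Ioc 0 (n + 1) = insert (n + 1) (Ioc 0 n) := by
      ext x; simp only [mem_Ioc, mem_insert]; omega
    have h2 : ∑ n ∈ Ioc 0 n, (Λ * (ζ : ArithmeticFunction ℝ)) n = ∑ k ∈ Ioc 0 n, Λ k * ((n / k : ℕ) : ℝ) :=
      ArithmeticFunction.sum_Ioc_mul_zeta_eq_sum Λ n
    rw [hins, sum_insert (by simp), ← ih h2, Nat.factorial_succ, Nat.cast_mul,
      Real.log_mul (by positivity) (by positivity)]
    simp [ArithmeticFunction.log_apply]

lemma mertens1_lower (N : ℕ) (hN : 1 ≤ N) :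
    Real.log N - 1 ≤ ∑ n ∈ Ioc 0 N, Λ n / n := by
  have hN' : (0 : ℝ) < N := by exact_mod_cast hN
  have h1 := log_factorial_eq N
  have h2 : ∑ n ∈ Ioc 0 N, Λ n * ((N / n : ℕ) : ℝ) ≤ N * ∑ n ∈ Ioc 0 N, Λ n / n := by
    rw [mul_sum]
    refine sum_le_sum fun n hn => ?_
    have hn' : (0 : ℝ) < n := by
      have := (mem_Ioc.mp hn).1; exact_mod_cast this
    have h3 : ((N / n : ℕ) : ℝ) ≤ (N : ℝ) / n := Nat.cast_div_le
    have h4 : 0 ≤ Λ n := ArithmeticFunction.vonMangoldt_nonneg
    calc Λ n * ((N / n : ℕ) : ℝ) ≤ Λ n * ((N : ℝ) / n) := by gcongr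
      _ = N * (Λ n / n) := by ring
  have h5 : (N : ℝ) * Real.log N - N ≤ Real.log (N.factorial) := by
    have h6 := Real.pow_div_factorial_le_exp (x := (N : ℝ)) hN'.le N
    have h7 : (N : ℝ) ^ N ≤ Real.exp N * N.factorial := by
      rwa [div_le_iff₀ (by positivity)] at h6
    have h8 := Real.log_le_log (by positivity) h7
    rw [Real.log_pow, Real.log_mul (by positivity) (by positivity), Real.log_exp] at h8
    linarith
  have h9 : (N : ℝ) * (Real.log N - 1) ≤ N * ∑ n ∈ Ioc 0 N, Λ n / n := by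
    rw [mul_sub, mul_one]
    linarith
  exact le_of_mul_le_mul_left h9 hN'

lemma mertens1_upper (N : ℕ) (hN : 1 ≤ N) :
    ∑ n ∈ Ioc 0 N, Λ n / n ≤ Real.log N + 6 := by
  have hN' : (0 : ℝ) < N := by exact_mod_cast hN
  have h1 := log_factorial_eq N
  have h2 : N * ∑ n ∈ Ioc 0 N, Λ n / n - ∑ n ∈ Ioc 0 N, Λ n
      ≤ ∑ n ∈ Ioc 0 N, Λ n * ((N / n : ℕ) : ℝ) := by
    rw [mul_sum, ← sum_sub_distrib]
    refine sum_le_sum fun n hn => ?_
    have hn0 := (mem_Ioc.mp hn).1
    have hn' : (0 : ℝ) < n := by exact_mod_cast hn0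
    have h3 : (N : ℝ) / n - 1 ≤ ((N / n : ℕ) : ℝ) := by
      have := Nat.lt_div_mul_add hn0 (a := N)
      have h : (N : ℝ) < (N / n : ℕ) * n + n := by exact_mod_cast this
      have : (N : ℝ) / n < (N / n : ℕ) + 1 := by
        rw [div_lt_iff₀ hn']; linarith
      linarith
    have h4 : 0 ≤ Λ n := ArithmeticFunction.vonMangoldt_nonneg
    calc (N : ℝ) * (Λ n / n) - Λ n = Λ n * ((N : ℝ) / n - 1) := by ring
      _ ≤ _ := by gcongr
  have h5 : Real.log (N.factorial) ≤ N * Real.log N := by
    rw [← Real.log_pow]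
    apply Real.log_le_log (by positivity)
    exact_mod_cast Nat.factorial_le_pow N
  have h6 : ∑ n ∈ Ioc 0 N, Λ n ≤ 6 * N := by
    have := Chebyshev.psi_le_const_mul_self (x := (N : ℝ)) hN'.le
    rw [Chebyshev.psi, Nat.floor_natCast] at this
    refine this.trans ?_
    have h7 : Real.log 4 ≤ 2 := by
      have : Real.log 4 = 2 * Real.log 2 := by
        rw [show (4 : ℝ) = 2 ^ 2 by norm_num, Real.log_pow]; norm_num
      rw [this]
      have := Real.log_two_lt_d9
      linarith
    nlinarith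
  have h9 : (N : ℝ) * ∑ n ∈ Ioc 0 N, Λ n / n ≤ N * (Real.log N + 6) := by
    rw [mul_add]
    linarith
  exact le_of_mul_le_mul_left h9 hN'

/-- the nonprime part of `Λ n / n` is summable -/
lemma summable_nonprime : Summable fun n : ℕ ↦ (if n.Prime then 0 else Λ n) / n := by
  have := ArithmeticFunction.vonMangoldt.summable_residueClass_non_primes_div (q := 1) (a := 0)
  refine this.congr fun n => ?_
  congr 1
  split_ifs
  · rfl
  · simp only [ArithmeticFunction.vonMangoldt.residueClass]
    rw [Set.indicator_of_mem]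
    exact Subsingleton.elim _ _

/-- The constant bounding the contribution of proper prime powers. -/
noncomputable def cpp : ℝ := ∑' n : ℕ, (if n.Prime then 0 else Λ n) / n

lemma nonprime_nonneg (n : ℕ) : 0 ≤ (if n.Prime then 0 else Λ n) / (n : ℝ) := by
  split_ifs
  · simp
  · exact div_nonneg ArithmeticFunction.vonMangoldt_nonneg (by positivity)

lemma cpp_nonneg : 0 ≤ cpp := tsum_nonneg nonprime_nonneg

lemma nonprime_sum_le (s : Finset ℕ) : ∑ n ∈ s, (if n.Prime then 0 else Λ n) / (n : ℝ) ≤ cpp :=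
  summable_nonprime.sum_le_tsum s fun n _ => nonprime_nonneg n

lemma prime_part (n : ℕ) : Λ n / (n : ℝ) = (if n.Prime then Real.log n / n else 0)
    + (if n.Prime then 0 else Λ n) / (n : ℝ) := by
  split_ifs with h
  · simp [ArithmeticFunction.vonMangoldt_apply_prime h]
  · simp

/-- Mertens' first theorem for primes in an interval. -/
lemma mertens_primes (M N : ℕ) (hM : 1 ≤ M) (hMN : M ≤ N) :
    |∑ p ∈ (Ioc M N).filter Nat.Prime, Real.log p / p - (Real.log N - Real.log M)| ≤ 7 + cpp := by
  have hN : 1 ≤ N := hM.trans hMN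
  have h1 := mertens1_lower N hN
  have h2 := mertens1_upper N hN
  have h3 := mertens1_lower M hM
  have h4 := mertens1_upper M hM
  have hU : Ioc 0 N = Ioc 0 M ∪ Ioc M N := (Ioc_union_Ioc_eq_Ioc (by omega) hMN).symm
  have hD : Disjoint (Ioc 0 M) (Ioc M N) := by
    rw [Finset.disjoint_left]; intro x hx hx'; simp only [mem_Ioc] at hx hx'; omega
  have h5 : ∑ n ∈ Ioc 0 N, Λ n / (n : ℝ) = ∑ n ∈ Ioc 0 M, Λ n / (n : ℝ) + ∑ n ∈ Ioc M N, Λ n / (n : ℝ) := by
    rw [hU, sum_union hD]
  have h6 : ∑ n ∈ Ioc M N, Λ n / (n : ℝ) = ∑ p ∈ (Ioc M N).filter Nat.Prime, Real.log p / p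
      + ∑ n ∈ Ioc M N, (if n.Prime then 0 else Λ n) / (n : ℝ) := by
    rw [sum_filter, ← sum_add_distrib]
    exact sum_congr rfl fun n _ => prime_part n
  have h7 := nonprime_sum_le (Ioc M N)
  have h8 : 0 ≤ ∑ n ∈ Ioc M N, (if n.Prime then 0 else Λ n) / (n : ℝ) :=
    sum_nonneg fun n _ => nonprime_nonneg n
  rw [abs_le]
  constructor <;> linarith

lemma log_step_lower (n : ℕ) (hn : 2 ≤ n) :
    (Real.log (n + 1) - Real.log n) / Real.log (n + 1)
      ≤ Real.log (Real.log (n + 1)) - Real.log (Real.log n) := by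
  have hn' : (2 : ℝ) ≤ n := by exact_mod_cast hn
  have h1 : 0 < Real.log n := Real.log_pos (by linarith)
  have h2 : 0 < Real.log (n + 1) := Real.log_pos (by linarith)
  have h3 := Real.one_sub_inv_le_log_of_pos (x := Real.log (n + 1) / Real.log n) (by positivity)
  rw [Real.log_div h2.ne' h1.ne'] at h3
  refine le_trans (le_of_eq ?_) h3
  field_simp

lemma log_step_upper (n : ℕ) (hn : 2 ≤ n) :
    Real.log (Real.log (n + 1)) - Real.log (Real.log n)
      ≤ (Real.log (n + 1) - Real.log n) / Real.log n := by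
  have hn' : (2 : ℝ) ≤ n := by exact_mod_cast hn
  have h1 : 0 < Real.log n := Real.log_pos (by linarith)
  have h2 : 0 < Real.log (n + 1) := Real.log_pos (by linarith)
  have h3 := Real.log_le_sub_one_of_pos (x := Real.log (n + 1) / Real.log n) (by positivity)
  rw [Real.log_div h2.ne' h1.ne'] at h3
  refine le_trans h3 (le_of_eq ?_)
  field_simp

lemma loglog_compare (M N : ℕ) (hM : 2 ≤ M) (hMN : M ≤ N) :
    |∑ n ∈ Ioc M N, (1 / Real.log n) * (Real.log n - Real.log ((n : ℝ) - 1))
      - (Real.log (Real.log N) - Real.log (Real.log M))| ≤ 1 / Real.log M - 1 / Real.log N := by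
  induction N, hMN using Nat.le_induction with
  | base => simp
  | succ t ht ih =>
    have hins : Ioc M (t + 1) = insert (t + 1) (Ioc M t) := by
      ext x; simp only [mem_Ioc, mem_insert]; omega
    rw [hins, sum_insert (by simp)]
    have ht2 : 2 ≤ t := hM.trans ht
    have ht' : (2 : ℝ) ≤ t := by exact_mod_cast ht2
    have h1 : 0 < Real.log t := Real.log_pos (by linarith)
    have h2 : 0 < Real.log (t + 1) := Real.log_pos (by linarith)
    have h3 := log_step_lower t ht2
    have h4 := log_step_upper t ht2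
    have h5 : Real.log (t + 1) - Real.log t ≤ 1 := by
      rw [← Real.log_div (by positivity) (by positivity)]
      have := Real.log_le_sub_one_of_pos (x := ((t : ℝ) + 1) / t) (by positivity)
      refine this.trans ?_
      rw [div_sub_one (by positivity), div_le_one (by positivity)]
      linarith
    have h6 : (Real.log (t + 1) - Real.log t) / Real.log t
        - (Real.log (t + 1) - Real.log t) / Real.log (t + 1) ≤ 1 / Real.log t - 1 / Real.log (t + 1) := by
      have e1 : (Real.log (t + 1) - Real.log t) / Real.log t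
        - (Real.log (t + 1) - Real.log t) / Real.log (t + 1)
        = (Real.log (t + 1) - Real.log t) * (1 / Real.log t - 1 / Real.log (t + 1)) := by ring
      rw [e1]
      have h7 : Real.log t ≤ Real.log (t + 1) := Real.log_le_log (by linarith) (by linarith)
      have h8 : 0 ≤ 1 / Real.log t - 1 / Real.log (t + 1) := by
        rw [sub_nonneg]
        exact one_div_le_one_div_of_le h1 h7
      nlinarith
    push_cast
    rw [add_sub_cancel_right]
    rw [abs_le] at ih ⊢
    have e2 : 1 / Real.log (t + 1) * (Real.log (t + 1) - Real.log t)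
        = (Real.log (t + 1) - Real.log t) / Real.log (t + 1) := by ring
    rw [e2]
    constructor <;> linarith [ih.1, ih.2]

/-- Mertens' second theorem, interval form. -/
lemma mertens2_interval (M N : ℕ) (hM : 2 ≤ M) (hMN : M ≤ N) :
    |∑ p ∈ (Ioc M N).filter Nat.Prime, (1 : ℝ) / p
      - (Real.log (Real.log N) - Real.log (Real.log M))| ≤ (8 + cpp) / Real.log M := by
  have hM' : (2 : ℝ) ≤ M := by exact_mod_cast hM
  have hlM : 0 < Real.log M := Real.log_pos (by linarith)
  have hlM1 : 0 < Real.log ((M + 1 : ℕ) : ℝ) := Real.log_pos (by push_cast; linarith)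
  have h1 := abel_bound (E := ℝ)
    (fun n => (if n.Prime then Real.log n / n else 0) - (Real.log n - Real.log ((n : ℝ) - 1)))
    (fun n => 1 / Real.log n) M N (7 + cpp) hMN
    (fun n hn => by
      have : (2 : ℝ) ≤ n := by exact_mod_cast (by omega : 2 ≤ n)
      have := Real.log_nonneg (by linarith : (1 : ℝ) ≤ n)
      positivity)
    (fun n hn => by
      have h2 : (2 : ℝ) ≤ n := by exact_mod_cast (by omega : 2 ≤ n)
      have h3 := Real.log_pos (by linarith : (1 : ℝ) < n)
      apply one_div_le_one_div_of_le h3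
      apply Real.log_le_log (by linarith)
      push_cast; linarith)
    (by
      intro t hMt _
      have h2 := mertens_primes M t (by omega) hMt
      have h3 : ∑ n ∈ Ioc M t, (Real.log n - Real.log ((n : ℝ) - 1)) = Real.log t - Real.log M := by
        clear h2
        induction t, hMt using Nat.le_induction with
        | base => simp
        | succ s hs ih =>
          have hins : Ioc M (s + 1) = insert (s + 1) (Ioc M s) := by
            ext x; simp only [mem_Ioc, mem_insert]; omega
          rw [hins, sum_insert (by simp), ih (by omega)]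
          push_cast
          rw [add_sub_cancel_right]
          ring
      rw [sum_sub_distrib, ← sum_filter, h3, Real.norm_eq_abs]
      exact h2)
  have h2 := loglog_compare M N hM hMN
  have e : ∑ n ∈ Ioc M N, (1 / Real.log n) • ((if n.Prime then Real.log n / n else 0)
      - (Real.log n - Real.log ((n : ℝ) - 1)))
      = ∑ p ∈ (Ioc M N).filter Nat.Prime, (1 : ℝ) / p
        - ∑ n ∈ Ioc M N, (1 / Real.log n) * (Real.log n - Real.log ((n : ℝ) - 1)) := by
    rw [sum_filter, ← sum_sub_distrib]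
    refine sum_congr rfl fun n hn => ?_
    have h2 : (2 : ℝ) ≤ n := by
      have := (mem_Ioc.mp hn).1; exact_mod_cast (by omega : 2 ≤ n)
    have h3 := Real.log_pos (by linarith : (1 : ℝ) < n)
    simp only [smul_eq_mul]
    split_ifs
    · field_simp
    · ring
  rw [e, Real.norm_eq_abs] at h1
  have h4 : (7 + cpp) * (1 / Real.log ((M + 1 : ℕ) : ℝ)) ≤ (7 + cpp) * (1 / Real.log M) := by
    have := cpp_nonneg
    apply mul_le_mul_of_nonneg_left _ (by linarith)
    apply one_div_le_one_div_of_le hlM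
    apply Real.log_le_log (by linarith)
    push_cast; linarith
  have h5 : 1 / Real.log M - 1 / Real.log N ≤ 1 / Real.log M := by
    have : 0 ≤ Real.log N := Real.log_nonneg (by exact_mod_cast (by omega : 1 ≤ N))
    have : 0 ≤ 1 / Real.log N := by positivity
    linarith
  have h6 : (8 + cpp) / Real.log M = (7 + cpp) * (1 / Real.log M) + 1 / Real.log M := by
    field_simp; ring
  rw [abs_le] at h1 h2 ⊢
  rw [h6]
  constructor <;> linarith [h1.1, h1.2, h2.1, h2.2]

/-- sum of reciprocals of primes up to `N` -/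
noncomputable def S1 (N : ℕ) : ℝ := ∑ p ∈ (Ioc 0 N).filter Nat.Prime, (1 : ℝ) / p

lemma S1_mono {M N : ℕ} (h : M ≤ N) : S1 M ≤ S1 N := by
  apply sum_le_sum_of_subset_of_nonneg
  · intro x hx; simp only [mem_filter, mem_Ioc] at hx ⊢; exact ⟨⟨hx.1.1, by omega⟩, hx.2⟩
  · intro x _ _; positivity

lemma S1_sub (M N : ℕ) (h : M ≤ N) : S1 N - S1 M = ∑ p ∈ (Ioc M N).filter Nat.Prime, (1 : ℝ) / p := by
  have hU : (Ioc 0 N).filter Nat.Prime = (Ioc 0 M).filter Nat.Prime ∪ (Ioc M N).filter Nat.Prime := by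
    rw [← filter_union, Ioc_union_Ioc_eq_Ioc (by omega) h]
  have hD : Disjoint ((Ioc 0 M).filter Nat.Prime) ((Ioc M N).filter Nat.Prime) := by
    rw [Finset.disjoint_left]; intro x hx hx'; simp only [mem_filter, mem_Ioc] at hx hx'; omega
  unfold S1
  rw [hU, sum_union hD]
  ring

/-- Mertens' second theorem: `∑_{p ≤ N} 1/p = log log N + O(1)`. -/
theorem mertens2 : ∃ C : ℝ, 0 < C ∧ ∀ N : ℕ, 2 ≤ N → |S1 N - Real.log (Real.log N)| ≤ C := by
  refine ⟨|S1 2 - Real.log (Real.log 2)| + (8 + cpp) / Real.log 2 + 1, ?_, fun N hN => ?_⟩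
  · have := cpp_nonneg
    have h2 : 0 < Real.log 2 := Real.log_pos (by norm_num)
    positivity
  · have h1 := mertens2_interval 2 N le_rfl hN
    rw [← S1_sub 2 N hN] at h1
    push_cast at h1
    have h2 : S1 N - Real.log (Real.log N) = (S1 N - S1 2 - (Real.log (Real.log N) - Real.log (Real.log 2)))
        + (S1 2 - Real.log (Real.log 2)) := by ring
    rw [h2]
    refine (abs_add_le _ _).trans ?_
    linarith

end Pool.Agent.E456
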