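import Mathlib

/-!
# Bonferroni inequalities and the Brun-Hooley product
-/

namespace Pool.Agent.E456

open Finset

/-- truncated alternating sum -/
noncomputable def TT (P : Finset ℕ) (x : ℕ → ℝ) (b : ℕ) : ℝ :=
  ∑ S ∈ P.powerset, if S.card ≤ b then ∏ i ∈ S, (-x i) else 0

/-- elementary symmetric sum -/
noncomputable def EE (P : Finset ℕ) (x : ℕ → ℝ) (b : ℕ) : ℝ :=
  ∑ S ∈ P.powerset, if S.card = b then ∏ i ∈ S, x i else 0

lemma TT_empty (x : ℕ → ℝ) (b : ℕ) : TT ∅ x b = 1 := by simp [TT]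

lemma EE_zero (P : Finset ℕ) (x : ℕ → ℝ) : EE P x 0 = 1 := by
  unfold EE
  rw [Finset.sum_eq_single ∅]
  · simp
  · intro S _ hS
    rw [if_neg]
    simpa using hS
  · simp

lemma EE_empty (x : ℕ → ℝ) (b : ℕ) : EE ∅ x (b + 1) = 0 := by simp [EE]

lemma TT_zero (P : Finset ℕ) (x : ℕ → ℝ) : TT P x 0 = 1 := by
  unfold TT
  rw [Finset.sum_eq_single ∅]
  · simp
  · intro S _ hS
    rw [if_neg]
    simpa using hS
  · simp

lemma TT_insert {a : ℕ} {P : Finset ℕ} (ha : a ∉ P) (x : ℕ → ℝ) (b : ℕ) :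
    TT (insert a P) x (b + 1) = TT P x (b + 1) - x a * TT P x b := by
  unfold TT
  rw [sum_powerset_insert ha, sub_eq_add_neg, ← neg_mul, mul_sum]
  congr 1
  refine sum_congr rfl fun S hS => ?_
  have haS : a ∉ S := fun h => ha (mem_powerset.mp hS h)
  rw [card_insert_of_notMem haS, prod_insert haS]
  by_cases h : S.card ≤ b
  · rw [if_pos (by omega), if_pos h]
  · rw [if_neg (by omega), if_neg h, mul_zero]

lemma EE_insert {a : ℕ} {P : Finset ℕ} (ha : a ∉ P) (x : ℕ → ℝ) (b : ℕ) :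
    EE (insert a P) x (b + 1) = EE P x (b + 1) + x a * EE P x b := by
  unfold EE
  rw [sum_powerset_insert ha, mul_sum]
  congr 1
  refine sum_congr rfl fun S hS => ?_
  have haS : a ∉ S := fun h => ha (mem_powerset.mp hS h)
  rw [card_insert_of_notMem haS, prod_insert haS]
  by_cases h : S.card = b
  · rw [if_pos (by omega), if_pos h]
  · rw [if_neg (by omega), if_neg h, mul_zero]

lemma EE_nonneg (P : Finset ℕ) (x : ℕ → ℝ) (hx : ∀ i ∈ P, 0 ≤ x i) (b : ℕ) : 0 ≤ EE P x b := by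
  unfold EE
  refine sum_nonneg fun S hS => ?_
  split_ifs
  · exact prod_nonneg fun i hi => hx i (mem_powerset.mp hS hi)
  · exact le_rfl

lemma bonferroni (P : Finset ℕ) (x : ℕ → ℝ) (hx : ∀ i ∈ P, 0 ≤ x i ∧ x i ≤ 1) (b : ℕ) :
    0 ≤ (-1) ^ b * (TT P x b - ∏ i ∈ P, (1 - x i)) ∧
      (-1) ^ b * (TT P x b - ∏ i ∈ P, (1 - x i)) ≤ EE P x (b + 1) := by
  induction P using Finset.induction_on generalizing b with
  | empty => simp [TT_empty, EE_empty]
  | insert a P ha ih =>
    have hxP : ∀ i ∈ P, 0 ≤ x i ∧ x i ≤ 1 := fun i hi => hx i (mem_insert_of_mem hi)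
    have hxa := hx a (mem_insert_self a P)
    have ih' := ih hxP
    rw [prod_insert ha]
    cases b with
    | zero =>
      have h0 := ih' 0
      rw [TT_zero] at h0 ⊢
      have hprod0 : 0 ≤ ∏ i ∈ P, (1 - x i) := prod_nonneg fun i hi => by linarith [(hxP i hi).2]
      have hprod1 : ∏ i ∈ P, (1 - x i) ≤ 1 :=
        prod_le_one (fun i hi => by linarith [(hxP i hi).2]) (fun i hi => by linarith [(hxP i hi).1])
      rw [EE_insert ha, EE_zero]
      simp only [pow_zero, one_mul] at h0 ⊢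
      constructor
      · nlinarith [hxa.1, hxa.2]
      · nlinarith [hxa.1, hxa.2, h0.2]
    | succ b =>
      have h1 := ih' (b + 1)
      have h2 := ih' b
      rw [TT_insert ha, EE_insert ha]
      have e : (-1 : ℝ) ^ (b + 1) * (TT P x (b + 1) - x a * TT P x b - (1 - x a) * ∏ i ∈ P, (1 - x i))
          = (-1 : ℝ) ^ (b + 1) * (TT P x (b + 1) - ∏ i ∈ P, (1 - x i))
            + x a * ((-1) ^ b * (TT P x b - ∏ i ∈ P, (1 - x i))) := by
        rw [pow_succ]; ring
      rw [e]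
      constructor
      · exact add_nonneg h1.1 (mul_nonneg hxa.1 h2.1)
      · exact add_le_add h1.2 (mul_le_mul_of_nonneg_left h2.2 hxa.1)

lemma pow_add_ge (s t : ℝ) (hs : 0 ≤ s) (ht : 0 ≤ t) (m : ℕ) :
    s ^ (m + 1) + (m + 1) * t * s ^ m ≤ (s + t) ^ (m + 1) := by
  induction m with
  | zero => simp
  | succ m ih =>
    have h1 : (s + t) ^ (m + 1 + 1) = (s + t) ^ (m + 1) * (s + t) := pow_succ _ _
    rw [h1]
    have h2 : (s ^ (m + 1) + (m + 1) * t * s ^ m) * (s + t) ≤ (s + t) ^ (m + 1) * (s + t) :=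
      mul_le_mul_of_nonneg_right ih (by positivity)
    refine le_trans ?_ h2
    have h3 : 0 ≤ (m + 1) * t * s ^ m * t := by positivity
    push_cast
    have e : (s ^ (m + 1) + (m + 1) * t * s ^ m) * (s + t)
        = s ^ (m + 1 + 1) + ((m : ℝ) + 1 + 1) * t * s ^ (m + 1) + (m + 1) * t * s ^ m * t := by
      ring
    rw [e]
    linarith

lemma EE_le (P : Finset ℕ) (x : ℕ → ℝ) (hx : ∀ i ∈ P, 0 ≤ x i) (b : ℕ) :
    EE P x b ≤ (∑ i ∈ P, x i) ^ b / b.factorial := by
  induction P using Finset.induction_on generalizing b with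
  | empty =>
    cases b with
    | zero => simp [EE_zero]
    | succ b => simp [EE_empty]
  | insert a P ha ih =>
    have hxP : ∀ i ∈ P, 0 ≤ x i := fun i hi => hx i (mem_insert_of_mem hi)
    have hxa := hx a (mem_insert_self a P)
    have hs : 0 ≤ ∑ i ∈ P, x i := sum_nonneg hxP
    cases b with
    | zero => simp [EE_zero]
    | succ b =>
      rw [EE_insert ha, sum_insert ha]
      have h1 := ih hxP (b + 1)
      have h2 := ih hxP b
      have h3 := pow_add_ge _ _ hs hxa b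
      have hf : (0 : ℝ) < (b + 1).factorial := by positivity
      have hf' : ((b + 1).factorial : ℝ) = (b + 1) * b.factorial := by
        rw [Nat.factorial_succ]; push_cast; ring
      calc EE P x (b + 1) + x a * EE P x b
          ≤ (∑ i ∈ P, x i) ^ (b + 1) / (b + 1).factorial + x a * ((∑ i ∈ P, x i) ^ b / b.factorial) := by
            gcongr
        _ = ((∑ i ∈ P, x i) ^ (b + 1) + (b + 1) * x a * (∑ i ∈ P, x i) ^ b) / (b + 1).factorial := by
            rw [hf']
            field_simp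
        _ ≤ (∑ i ∈ P, x i + x a) ^ (b + 1) / (b + 1).factorial := by gcongr
        _ = _ := by rw [add_comm]

/-- One block of the Brun-Hooley sieve: upper bound for the truncated sum. -/
lemma TT_le (P : Finset ℕ) (x : ℕ → ℝ) (hx : ∀ i ∈ P, 0 ≤ x i ∧ x i ≤ 1 / 2) (b : ℕ) (hb : Even b)
    (σ : ℝ) (hσ : ∑ i ∈ P, x i ≤ σ) :
    TT P x b ≤ (∏ i ∈ P, (1 - x i)) * Real.exp (Real.exp (2 * σ) * (σ ^ (b + 1) / (b + 1).factorial)) := by
  have h1 := (bonferroni P x (fun i hi => ⟨(hx i hi).1, by linarith [(hx i hi).2]⟩) b).2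
  rw [hb.neg_one_pow, one_mul] at h1
  have h0 : 0 ≤ ∑ i ∈ P, x i := sum_nonneg fun i hi => (hx i hi).1
  have h2 := EE_le P x (fun i hi => (hx i hi).1) (b + 1)
  have h3 : (∑ i ∈ P, x i) ^ (b + 1) / ((b + 1).factorial : ℝ) ≤ σ ^ (b + 1) / (b + 1).factorial := by
    gcongr
  have h4 : Real.exp (-(2 * σ)) ≤ ∏ i ∈ P, (1 - x i) := by
    have h5 : ∏ i ∈ P, Real.exp (-(2 * x i)) ≤ ∏ i ∈ P, (1 - x i) := by
      refine prod_le_prod (fun i _ => (Real.exp_pos _).le) fun i hi => ?_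
      have h6 := hx i hi
      have h7 : Real.exp (-(2 * x i)) = (Real.exp (-x i)) ^ 2 := by
        rw [← Real.exp_nat_mul]; congr 1; push_cast; ring
      have h8 : Real.exp (x i) ≥ 1 + x i := by linarith [Real.add_one_le_exp (x i)]
      have h9 : Real.exp (-(2 * x i)) = 1 / (Real.exp (x i)) ^ 2 := by
        rw [h7, Real.exp_neg, inv_pow, one_div]
      rw [h9, div_le_iff₀ (by positivity)]
      have h10 : (1 + x i) ^ 2 ≤ Real.exp (x i) ^ 2 := by
        apply pow_le_pow_left₀ (by linarith) h8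
      have h11 : 0 ≤ 1 - x i := by linarith
      calc (1 : ℝ) ≤ (1 - x i) * (1 + x i) ^ 2 := by nlinarith [h6.1, h6.2, mul_nonneg h6.1 h6.1]
        _ ≤ (1 - x i) * Real.exp (x i) ^ 2 := by gcongr
    rw [← Real.exp_sum] at h5
    refine le_trans ?_ h5
    apply Real.exp_le_exp.mpr
    rw [sum_neg_distrib, ← mul_sum]
    linarith
  have h12 : 0 ≤ σ ^ (b + 1) / (b + 1).factorial := by
    have : 0 ≤ σ := h0.trans hσ
    positivity
  have h13 : σ ^ (b + 1) / (b + 1).factorial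
      ≤ (∏ i ∈ P, (1 - x i)) * (Real.exp (2 * σ) * (σ ^ (b + 1) / (b + 1).factorial)) := by
    rw [← mul_assoc]
    have : 1 ≤ (∏ i ∈ P, (1 - x i)) * Real.exp (2 * σ) := by
      calc (1 : ℝ) = Real.exp (-(2 * σ)) * Real.exp (2 * σ) := by
            rw [← Real.exp_add]; simp
        _ ≤ _ := by gcongr
    nlinarith
  have h14 := Real.add_one_le_exp (Real.exp (2 * σ) * (σ ^ (b + 1) / (b + 1).factorial))
  have h15 : 0 ≤ ∏ i ∈ P, (1 - x i) := le_trans (Real.exp_pos _).le h4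
  calc TT P x b ≤ (∏ i ∈ P, (1 - x i)) + σ ^ (b + 1) / (b + 1).factorial := by linarith
    _ ≤ (∏ i ∈ P, (1 - x i)) * (Real.exp (2 * σ) * (σ ^ (b + 1) / (b + 1).factorial) + 1) := by
        rw [mul_add, mul_one]; linarith
    _ ≤ _ := by gcongr

/-! ### families of sets -/

/-- admissible sets for the Brun-Hooley sieve -/
def DD (blk : ℕ → Finset ℕ) (b : ℕ → ℕ) : ℕ → Finset (Finset ℕ)
  | 0 => {∅}
  | J + 1 => ((DD blk b J) ×ˢ ((blk J).powerset.filter (fun S => S.card ≤ b J))).image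
      (fun p => p.1 ∪ p.2)

lemma mem_DD_le {blk : ℕ → Finset ℕ} {b u : ℕ → ℕ} (hu : Monotone u)
    (hblk : ∀ j, ∀ i ∈ blk j, u j < i ∧ i ≤ u (j + 1)) (J : ℕ) (S : Finset ℕ)
    (hS : S ∈ DD blk b J) : ∀ i ∈ S, u 0 < i ∧ i ≤ u J := by
  induction J generalizing S with
  | zero => simp [DD] at hS; subst hS; simp
  | succ J ih =>
    simp only [DD, mem_image, mem_product, mem_filter, mem_powerset, Prod.exists] at hS
    obtain ⟨S1, S2, ⟨h1, h2, h3⟩, rfl⟩ := hS
    intro i hi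
    rw [mem_union] at hi
    rcases hi with hi | hi
    · have := ih S1 h1 i hi
      exact ⟨this.1, this.2.trans (hu (Nat.le_succ J))⟩
    · have := hblk J i (h2 hi)
      exact ⟨lt_of_le_of_lt (hu (Nat.zero_le J)) this.1, this.2⟩

lemma mem_DD_blk {blk : ℕ → Finset ℕ} {b : ℕ → ℕ} (J : ℕ) (S : Finset ℕ)
    (hS : S ∈ DD blk b J) : ∀ i ∈ S, ∃ j < J, i ∈ blk j := by
  induction J generalizing S with
  | zero => simp [DD] at hS; subst hS; simp
  | succ J ih =>
    simp only [DD, mem_image, mem_product, mem_filter, mem_powerset, Prod.exists] at hS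
    obtain ⟨S1, S2, ⟨h1, h2, h3⟩, rfl⟩ := hS
    intro i hi
    rw [mem_union] at hi
    rcases hi with hi | hi
    · obtain ⟨j, hj, hij⟩ := ih S1 h1 i hi
      exact ⟨j, by omega, hij⟩
    · exact ⟨J, by omega, h2 hi⟩

lemma sum_DD {blk : ℕ → Finset ℕ} {b u : ℕ → ℕ} (hu : Monotone u)
    (hblk : ∀ j, ∀ i ∈ blk j, u j < i ∧ i ≤ u (j + 1)) (J : ℕ) (y : ℕ → ℝ) :
    ∑ S ∈ DD blk b J, ∏ i ∈ S, y i
      = ∏ j ∈ range J, ∑ S ∈ (blk j).powerset, if S.card ≤ b j then ∏ i ∈ S, y i else 0 := by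
  induction J with
  | zero => simp [DD]
  | succ J ih =>
    rw [prod_range_succ, ← ih, DD, sum_image, sum_product]
    · rw [sum_mul_sum]
      refine sum_congr rfl fun S1 h1 => ?_
      rw [sum_filter]
      refine sum_congr rfl fun S2 h2 => ?_
      rw [mem_powerset] at h2
      have hd : Disjoint S1 S2 := by
        rw [Finset.disjoint_left]
        intro i hi1 hi2
        have := mem_DD_le hu hblk J S1 h1 i hi1
        have := hblk J i (h2 hi2)
        omega
      split_ifs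
      · rw [prod_union hd]
      · simp
    · intro p hp p' hp' hpp
      simp only [coe_product, coe_filter, Set.mem_prod, mem_coe, mem_powerset, Set.mem_ofPred_eq] at hp hp'
      have key : ∀ q : Finset ℕ × Finset ℕ, q.1 ∈ DD blk b J → q.2 ⊆ blk J →
          q.1 = (q.1 ∪ q.2).filter (fun i => i ≤ u J) ∧ q.2 = (q.1 ∪ q.2).filter (fun i => u J < i) := by
        intro q hq1 hq2
        constructor
        · ext i
          rw [mem_filter, mem_union]
          constructor
          · intro hi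
            exact ⟨Or.inl hi, (mem_DD_le hu hblk J _ hq1 i hi).2⟩
          · rintro ⟨hi | hi, h⟩
            · exact hi
            · have := hblk J i (hq2 hi); omega
        · ext i
          rw [mem_filter, mem_union]
          constructor
          · intro hi
            exact ⟨Or.inr hi, (hblk J i (hq2 hi)).1⟩
          · rintro ⟨hi | hi, h⟩
            · have := (mem_DD_le hu hblk J _ hq1 i hi).2; omega
            · exact hi
      have k1 := key p hp.1 hp.2.1
      have k2 := key p' hp'.1 hp'.2.1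
      have hpp' : p.1 ∪ p.2 = p'.1 ∪ p'.2 := hpp
      apply Prod.ext
      · rw [k1.1, k2.1, hpp']
      · rw [k1.2, k2.2, hpp']

lemma prod_DD_le {blk : ℕ → Finset ℕ} {b u : ℕ → ℕ} (hu1 : ∀ j, 1 ≤ u j)
    (hblk : ∀ j, ∀ i ∈ blk j, u j < i ∧ i ≤ u (j + 1)) (J : ℕ) (S : Finset ℕ)
    (hS : S ∈ DD blk b J) : ∏ i ∈ S, i ≤ ∏ j ∈ range J, (u (j + 1)) ^ (b j) := by
  induction J generalizing S with
  | zero => simp [DD] at hS; subst hS; simp
  | succ J ih =>
    simp only [DD, mem_image, mem_product, mem_filter, mem_powerset, Prod.exists] at hS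
    obtain ⟨S1, S2, ⟨h1, h2, h3⟩, rfl⟩ := hS
    rw [prod_range_succ]
    have hS2 : ∏ i ∈ S2, i ≤ u (J + 1) ^ b J := by
      calc ∏ i ∈ S2, i ≤ ∏ _i ∈ S2, u (J + 1) := prod_le_prod' fun i hi => (hblk J i (h2 hi)).2
        _ = u (J + 1) ^ S2.card := by rw [prod_const]
        _ ≤ u (J + 1) ^ b J := Nat.pow_le_pow_right (hu1 _) h3
    calc ∏ i ∈ S1 ∪ S2, i ≤ (∏ i ∈ S1, i) * ∏ i ∈ S2 \ S1, i := by
          rw [← union_sdiff_self_eq_union, prod_union disjoint_sdiff]
      _ ≤ (∏ i ∈ S1, i) * ∏ i ∈ S2, i := by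
          apply Nat.mul_le_mul_left
          apply prod_le_prod_of_subset_of_one_le' sdiff_subset
          intro i hi _
          have := (hblk J i (h2 hi)).1; omega
      _ ≤ _ := Nat.mul_le_mul (ih S1 h1) hS2

end Pool.Agent.E456
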