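import Mathlib
import Pool.Agent.E456.Basic
import Pool.Agent.E456.Bonf

/-!
# The Brun-Hooley upper bound sieve, logarithmically averaged, in residue classes
-/

namespace Pool.Agent.E456

open Finset

/-! ### periodic functions -/

lemma periodic_mod {f : ℕ → ℝ} {m : ℕ} (hf : ∀ n, f (n + m) = f n) (n : ℕ) : f n = f (n % m) := by
  have h : ∀ k r, f (r + m * k) = f r := by
    intro k
    induction k with
    | zero => simp
    | succ k ih => intro r; rw [mul_add, mul_one, ← add_assoc, hf, ih]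
  conv_lhs => rw [← Nat.mod_add_div n m]
  exact h _ _

lemma period_mul {f g : ℕ → ℝ} {m k : ℕ} (hm : 0 < m) (hk : 0 < k) (hmk : Nat.Coprime m k)
    (hf : ∀ n, f (n + m) = f n) (hg : ∀ n, g (n + k) = g n) :
    ∑ n ∈ range (m * k), f n * g n = (∑ n ∈ range m, f n) * ∑ n ∈ range k, g n := by
  rw [sum_mul_sum, ← sum_product']
  refine sum_nbij (fun n => (n % m, n % k)) ?_ ?_ ?_ ?_
  · intro n hn
    simp only [mem_product, mem_range]
    exact ⟨Nat.mod_lt _ hm, Nat.mod_lt _ hk⟩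
  · intro a ha b hb hab
    simp only [coe_range, Set.mem_Iio] at ha hb
    simp only [Prod.mk.injEq] at hab
    have h1 : a ≡ b [MOD m * k] := by
      rw [← Nat.modEq_and_modEq_iff_modEq_mul hmk]
      exact ⟨hab.1, hab.2⟩
    exact Nat.ModEq.eq_of_lt_of_lt h1 ha hb
  · rintro ⟨a, b⟩ hab
    simp only [coe_product, coe_range, Set.mem_prod, Set.mem_Iio] at hab
    obtain ⟨n, hn1, hn2⟩ := Nat.chineseRemainder hmk a b
    refine ⟨n % (m * k), ?_, ?_⟩
    · simp only [coe_range, Set.mem_Iio]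
      exact Nat.mod_lt _ (Nat.mul_pos hm hk)
    · simp only [Prod.mk.injEq]
      constructor
      · rw [Nat.mod_mul_right_mod]
        have : n % m = a % m := hn1
        rw [this, Nat.mod_eq_of_lt hab.1]
      · rw [Nat.mod_mul_left_mod]
        have : n % k = b % k := hn2
        rw [this, Nat.mod_eq_of_lt hab.2]
  · intro n _
    rw [periodic_mod hf n, periodic_mod hg n]

lemma prod_periodic {y : ℕ → ℕ → ℝ} (hper : ∀ l n, y l (n + l) = y l n) (S : Finset ℕ) (n : ℕ) :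
    ∏ i ∈ S, y i (n + ∏ j ∈ S, j) = ∏ i ∈ S, y i n := by
  refine prod_congr rfl fun i hi => ?_
  obtain ⟨k, hk⟩ := dvd_prod_of_mem (fun j => j) hi
  rw [hk, periodic_mod (hper i) (n + i * k), periodic_mod (hper i) n]
  congr 1
  simp

lemma period_prod {f : ℕ → ℝ} {Q : ℕ} (hQ : 0 < Q) (hf : ∀ n, f (n + Q) = f n)
    {y : ℕ → ℕ → ℝ} (hper : ∀ l n, y l (n + l) = y l n) (S : Finset ℕ)
    (hS : ∀ i ∈ S, i.Prime ∧ ¬ i ∣ Q) :
    ∑ n ∈ range (Q * ∏ i ∈ S, i), f n * ∏ i ∈ S, y i n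
      = (∑ n ∈ range Q, f n) * ∏ i ∈ S, ∑ n ∈ range i, y i n := by
  induction S using Finset.induction_on with
  | empty => simp
  | insert a S ha ih =>
    have hS' : ∀ i ∈ S, i.Prime ∧ ¬ i ∣ Q := fun i hi => hS i (mem_insert_of_mem hi)
    have haS := hS a (mem_insert_self a S)
    have hpos : 0 < ∏ i ∈ S, i := prod_pos fun i hi => (hS' i hi).1.pos
    have hcop : Nat.Coprime (Q * ∏ i ∈ S, i) a := by
      rw [Nat.coprime_comm, haS.1.coprime_iff_not_dvd]
      intro h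
      rcases (haS.1.dvd_mul).mp h with h | h
      · exact haS.2 h
      · rw [haS.1.prime.dvd_finsetProd_iff] at h
        obtain ⟨i, hi, hai⟩ := h
        have := (Nat.prime_dvd_prime_iff_eq haS.1 (hS' i hi).1).mp hai
        subst this
        exact ha hi
    rw [prod_insert ha, prod_insert ha]
    have e1 : Q * (a * ∏ i ∈ S, i) = (Q * ∏ i ∈ S, i) * a := by ring
    rw [e1]
    have e2 : ∀ n, f n * ∏ i ∈ insert a S, y i n = (f n * ∏ i ∈ S, y i n) * y a n := by
      intro n; rw [prod_insert ha]; ring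
    rw [sum_congr rfl fun n _ => e2 n]
    rw [period_mul (f := fun n => f n * ∏ i ∈ S, y i n) (g := fun n => y a n)
      (Nat.mul_pos hQ hpos) haS.1.pos hcop ?_ (hper a), ih hS']
    · ring
    · intro n
      show f (n + Q * ∏ i ∈ S, i) * ∏ i ∈ S, y i (n + Q * ∏ j ∈ S, j) = f n * ∏ i ∈ S, y i n
      congr 1
      · rw [periodic_mod hf (n + _), periodic_mod hf n]
        congr 1
        simp
      · refine prod_congr rfl fun i hi => ?_
        obtain ⟨k, hk⟩ := dvd_prod_of_mem (fun j => j) hi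
        rw [hk, periodic_mod (hper i) (n + _), periodic_mod (hper i) n]
        congr 1
        rw [show n + Q * (i * k) = n + i * (Q * k) by ring]
        simp

/-- log-average of a bounded periodic function -/
lemma periodic_log_sum {f : ℕ → ℝ} {m : ℕ} (hm : 0 < m) (hf : ∀ n, f (n + m) = f n)
    (hf1 : ∀ n, |f n| ≤ 1) (M N : ℕ) (hM : 0 < M) (hMN : M ≤ N) :
    |∑ n ∈ Ioc M N, f n / n - Real.log (N / M) * ((∑ n ∈ range m, f n) / m)| ≤ 2 * m / M := by
  have e1 : ∑ n ∈ Ioc M N, f n / n = ∑ c ∈ range m, f c *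
      ∑ n ∈ (Ioc M N).filter (fun n => n ≡ c [MOD m]), (1 : ℝ) / n := by
    have : ∀ n ∈ Ioc M N, f n / n = ∑ c ∈ range m, if n ≡ c [MOD m] then f c * (1 / n) else 0 := by
      intro n _
      rw [Finset.sum_eq_single (n % m)]
      · rw [if_pos (Nat.mod_modEq n m).symm, ← periodic_mod hf n]; ring
      · intro c hc hne
        rw [if_neg]
        intro h
        apply hne
        have : n % m = c % m := h
        rw [this, Nat.mod_eq_of_lt (mem_range.mp hc)]
      · intro h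
        exact absurd (mem_range.mpr (Nat.mod_lt n hm)) h
    rw [sum_congr rfl this, sum_comm]
    refine sum_congr rfl fun c _ => ?_
    rw [mul_sum, sum_filter]
  have e2 : Real.log (N / M) * ((∑ n ∈ range m, f n) / m)
      = ∑ c ∈ range m, f c * (Real.log (N / M) / m) := by
    rw [← sum_mul]; ring
  rw [e1, e2, ← sum_sub_distrib]
  calc |∑ c ∈ range m, (f c * ∑ n ∈ (Ioc M N).filter (fun n => n ≡ c [MOD m]), (1 : ℝ) / n
        - f c * (Real.log (N / M) / m))|
      ≤ ∑ c ∈ range m, |f c * ∑ n ∈ (Ioc M N).filter (fun n => n ≡ c [MOD m]), (1 : ℝ) / n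
        - f c * (Real.log (N / M) / m)| := abs_sum_le_sum_abs _ _
    _ ≤ ∑ c ∈ range m, (2 / M : ℝ) := by
        refine sum_le_sum fun c _ => ?_
        rw [← mul_sub, abs_mul]
        calc _ ≤ 1 * (2 / M : ℝ) :=
              mul_le_mul (hf1 c) (harmonic_AP M N m c hM hMN hm) (abs_nonneg _) zero_le_one
          _ = _ := one_mul _
    _ = 2 * m / M := by rw [sum_const, card_range, nsmul_eq_mul]; ring

/-! ### blocks -/

/-- dyadic-exponent blocks of primes -/
def blk (w j : ℕ) : Finset ℕ := (Ioc (w ^ (2 ^ j)) (w ^ (2 ^ (j + 1)))).filter Nat.Prime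

/-- truncation levels -/
def bb (J j : ℕ) : ℕ := 2 * (J - 1 - j)

/-- admissible sets -/
def SS (w J : ℕ) : Finset (Finset ℕ) := DD (blk w) (bb J) J

/-- all sieving primes -/
def pr (w J : ℕ) : Finset ℕ := (Ioc w (w ^ (2 ^ J))).filter Nat.Prime

/-- sieve majorant -/
noncomputable def nu (w J : ℕ) (x : ℕ → ℕ → ℝ) (n : ℕ) : ℝ := ∑ S ∈ SS w J, ∏ i ∈ S, (-x i n)

/-- its mean -/
noncomputable def Fbar (w J : ℕ) (y : ℕ → ℝ) : ℝ := ∑ S ∈ SS w J, ∏ i ∈ S, (-y i)

lemma blk_bounds (w j i : ℕ) (hi : i ∈ blk w j) : w ^ (2 ^ j) < i ∧ i ≤ w ^ (2 ^ (j + 1)) := by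
  simp only [blk, mem_filter, mem_Ioc] at hi
  exact hi.1

lemma u_mono (w : ℕ) (hw : 1 ≤ w) : Monotone (fun j => w ^ (2 ^ j)) := by
  intro a b hab
  exact Nat.pow_le_pow_right hw (Nat.pow_le_pow_right (by norm_num) hab)

lemma prod_pr (w J : ℕ) (hw : 1 ≤ w) (g : ℕ → ℝ) :
    ∏ i ∈ pr w J, g i = ∏ j ∈ range J, ∏ i ∈ blk w j, g i := by
  induction J with
  | zero => simp [pr]
  | succ J ih =>
    rw [prod_range_succ, ← ih]
    have h1 : w ≤ w ^ (2 ^ J) := by
      have := u_mono w hw (Nat.zero_le J)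
      simpa using this
    have h2 : w ^ (2 ^ J) ≤ w ^ (2 ^ (J + 1)) := u_mono w hw (Nat.le_succ J)
    have hU : pr w (J + 1) = pr w J ∪ blk w J := by
      unfold pr blk
      rw [← filter_union, Ioc_union_Ioc_eq_Ioc h1 h2]
    have hD : Disjoint (pr w J) (blk w J) := by
      rw [Finset.disjoint_left]
      intro x hx hx'
      simp only [pr, blk, mem_filter, mem_Ioc] at hx hx'
      omega
    rw [hU, prod_union hD]

lemma sum_SS (w J : ℕ) (hw : 1 ≤ w) (y : ℕ → ℝ) :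
    ∑ S ∈ SS w J, ∏ i ∈ S, (-y i) = ∏ j ∈ range J, TT (blk w j) y (bb J j) := by
  unfold SS TT
  exact sum_DD (u_mono w hw) (blk_bounds w) J (fun i => -y i)

lemma nu_ge (w J : ℕ) (hw : 1 ≤ w) (x : ℕ → ℕ → ℝ) (n : ℕ)
    (hx : ∀ l, 0 ≤ x l n ∧ x l n ≤ 1) :
    ∏ i ∈ pr w J, (1 - x i n) ≤ nu w J x n := by
  unfold nu
  rw [sum_SS w J hw (fun i => x i n), prod_pr w J hw]
  refine prod_le_prod (fun j _ => prod_nonneg fun i _ => by linarith [(hx i).2]) fun j _ => ?_
  have := (bonferroni (blk w j) (fun i => x i n) (fun i _ => hx i) (bb J j)).1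
  have hev : Even (bb J j) := ⟨J - 1 - j, by unfold bb; ring⟩
  rw [hev.neg_one_pow, one_mul] at this
  linarith

lemma nu_nonneg (w J : ℕ) (hw : 1 ≤ w) (x : ℕ → ℕ → ℝ) (n : ℕ)
    (hx : ∀ l, 0 ≤ x l n ∧ x l n ≤ 1) : 0 ≤ nu w J x n :=
  le_trans (prod_nonneg fun i _ => by linarith [(hx i).2]) (nu_ge w J hw x n hx)

lemma Fbar_nonneg (w J : ℕ) (hw : 1 ≤ w) (y : ℕ → ℝ) (hy : ∀ i, 0 ≤ y i ∧ y i ≤ 1) :
    0 ≤ Fbar w J y := by
  have := nu_nonneg w J hw (fun l _ => y l) 0 hy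
  exact this

lemma sum_bb_le (J : ℕ) (σ : ℝ) (hσ : 0 ≤ σ) :
    ∑ j ∈ range J, σ ^ (bb J j + 1) / ((bb J j + 1).factorial : ℝ) ≤ Real.exp σ := by
  have h1 : ∑ j ∈ range J, σ ^ (bb J j + 1) / ((bb J j + 1).factorial : ℝ)
      = ∑ i ∈ range J, σ ^ (2 * i + 1) / ((2 * i + 1).factorial : ℝ) := by
    rw [← sum_range_reflect (fun i => σ ^ (2 * i + 1) / ((2 * i + 1).factorial : ℝ)) J]
    refine sum_congr rfl fun j _ => ?_
    rfl
  rw [h1]
  have h2 : ∑ i ∈ range J, σ ^ (2 * i + 1) / ((2 * i + 1).factorial : ℝ)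
      = ∑ m ∈ (range J).image (fun i => 2 * i + 1), σ ^ m / (m.factorial : ℝ) := by
    rw [sum_image]
    intro a _ b _ hab
    simp only at hab
    omega
  rw [h2]
  refine le_trans (sum_le_sum_of_subset_of_nonneg (t := range (2 * J)) ?_ ?_)
    (Real.sum_le_exp_of_nonneg hσ (2 * J))
  · intro m hm
    simp only [mem_image, mem_range] at hm ⊢
    omega
  · intro m _ _; positivity

lemma Fbar_le (w J : ℕ) (hw : 1 ≤ w) (y : ℕ → ℝ) (σ : ℝ) (hσ0 : 0 ≤ σ)
    (hy : ∀ i ∈ pr w J, 0 ≤ y i ∧ y i ≤ 1 / 2)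
    (hσ : ∀ j < J, ∑ i ∈ blk w j, y i ≤ σ) :
    Fbar w J y ≤ (∏ i ∈ pr w J, (1 - y i)) * Real.exp (Real.exp (3 * σ)) := by
  have hblkpr : ∀ j < J, ∀ i ∈ blk w j, i ∈ pr w J := by
    intro j hj i hi
    simp only [blk, pr, mem_filter, mem_Ioc] at hi ⊢
    have h1 : w ≤ w ^ (2 ^ j) := by
      have := u_mono w hw (Nat.zero_le j)
      simpa using this
    have h2 : w ^ (2 ^ (j + 1)) ≤ w ^ (2 ^ J) := u_mono w hw (by omega)
    exact ⟨⟨by omega, by omega⟩, hi.2⟩
  unfold Fbar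
  rw [sum_SS w J hw y, prod_pr w J hw]
  have h1 : ∏ j ∈ range J, TT (blk w j) y (bb J j)
      ≤ ∏ j ∈ range J, ((∏ i ∈ blk w j, (1 - y i)) *
        Real.exp (Real.exp (2 * σ) * (σ ^ (bb J j + 1) / (bb J j + 1).factorial))) := by
    refine prod_le_prod (fun j hj => ?_) fun j hj => ?_
    · have hj' := mem_range.mp hj
      have hyj : ∀ i ∈ blk w j, 0 ≤ y i ∧ y i ≤ 1 := fun i hi => by
        have := hy i (hblkpr j hj' i hi); constructor <;> linarith [this.1, this.2]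
      have := (bonferroni (blk w j) y hyj (bb J j)).1
      have hev : Even (bb J j) := ⟨J - 1 - j, by unfold bb; ring⟩
      rw [hev.neg_one_pow, one_mul] at this
      have h0 : 0 ≤ ∏ i ∈ blk w j, (1 - y i) := prod_nonneg fun i hi => by linarith [(hyj i hi).2]
      linarith
    · have hj' := mem_range.mp hj
      have hev : Even (bb J j) := ⟨J - 1 - j, by unfold bb; ring⟩
      exact TT_le (blk w j) y (fun i hi => hy i (hblkpr j hj' i hi)) (bb J j) hev σ (hσ j hj')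
  refine h1.trans ?_
  rw [prod_mul_distrib, ← Real.exp_sum, ← mul_sum]
  have h2 := sum_bb_le J σ hσ0
  have h3 : Real.exp (3 * σ) = Real.exp (2 * σ) * Real.exp σ := by
    rw [← Real.exp_add]; congr 1; ring
  have h0 : 0 ≤ ∏ j ∈ range J, ∏ i ∈ blk w j, (1 - y i) := by
    refine prod_nonneg fun j hj => prod_nonneg fun i hi => ?_
    have := hy i (hblkpr j (mem_range.mp hj) i hi)
    linarith [this.2]
  rw [h3]
  gcongr

lemma sum_exp_bb (J : ℕ) : ∑ j ∈ range J, 2 ^ (j + 1) * bb J j + (4 * J + 4) = 4 * 2 ^ J := by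
  induction J with
  | zero => simp
  | succ J ih =>
    have h1 : ∑ j ∈ range (J + 1), 2 ^ (j + 1) * bb (J + 1) j
        = ∑ j ∈ range J, 2 ^ (j + 1) * bb J j + ∑ j ∈ range J, 2 ^ (j + 1) * 2 := by
      rw [sum_range_succ, ← sum_add_distrib]
      have : bb (J + 1) J = 0 := by simp [bb]
      rw [this, mul_zero, add_zero]
      refine sum_congr rfl fun j hj => ?_
      rw [← mul_add]
      congr 1
      have := mem_range.mp hj
      unfold bb
      omega
    have h2 : ∀ K : ℕ, ∑ j ∈ range K, 2 ^ (j + 1) * 2 + 4 = 4 * 2 ^ K := by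
      intro K
      induction K with
      | zero => simp
      | succ K ihK => rw [sum_range_succ, pow_succ]; omega
    have h3 := h2 J
    rw [h1, pow_succ]
    omega

lemma prod_SS_le (w J : ℕ) (hw : 1 ≤ w) (S : Finset ℕ) (hS : S ∈ SS w J) :
    ∏ i ∈ S, i ≤ (w ^ (2 ^ J)) ^ 4 := by
  have h1 := prod_DD_le (u := fun j => w ^ (2 ^ j)) (fun j => Nat.one_le_pow _ _ hw)
    (blk_bounds w) J S hS
  refine h1.trans ?_
  have h2 : ∏ j ∈ range J, (w ^ (2 ^ (j + 1))) ^ (bb J j) = w ^ (∑ j ∈ range J, 2 ^ (j + 1) * bb J j) := by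
    rw [← prod_pow_eq_pow_sum]
    refine prod_congr rfl fun j _ => ?_
    rw [← pow_mul]
  rw [h2, ← pow_mul]
  apply Nat.pow_le_pow_right hw
  have := sum_exp_bb J
  omega

lemma SS_prime (w J : ℕ) (S : Finset ℕ) (hS : S ∈ SS w J) : ∀ i ∈ S, i.Prime := by
  intro i hi
  obtain ⟨j, _, hij⟩ := mem_DD_blk J S hS i hi
  simp only [blk, mem_filter] at hij
  exact hij.2

lemma card_SS_le (w J : ℕ) (hw : 1 ≤ w) : (SS w J).card ≤ (w ^ (2 ^ J)) ^ 4 := by
  have h1 : ((SS w J).image (fun S => ∏ i ∈ S, i)).card = (SS w J).card := by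
    apply card_image_of_injOn
    intro S hS S' hS' h
    have h2 := Nat.primeFactors_prod (SS_prime w J S hS)
    have h3 := Nat.primeFactors_prod (SS_prime w J S' hS')
    rw [← h2, ← h3]
    exact congrArg Nat.primeFactors h
  rw [← h1]
  calc _ ≤ (Ioc 0 ((w ^ (2 ^ J)) ^ 4)).card := by
        apply card_le_card
        intro d hd
        rw [mem_image] at hd
        obtain ⟨S, hS, rfl⟩ := hd
        rw [mem_Ioc]
        exact ⟨prod_pos fun i hi => (SS_prime w J S hS i hi).pos, prod_SS_le w J hw S hS⟩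
    _ = _ := by simp

/-- local densities -/
noncomputable def xbar (x : ℕ → ℕ → ℝ) (Q : ℕ) (l : ℕ) : ℝ :=
  if l ∣ Q then 0 else (∑ n ∈ range l, x l n) / l

theorem sieve_log (w J Q c M N : ℕ) (hw : 1 ≤ w) (hQ : 0 < Q) (hM : 0 < M) (hMN : M ≤ N)
    (x : ℕ → ℕ → ℝ) (hx : ∀ l n, 0 ≤ x l n ∧ x l n ≤ 1) (hper : ∀ l n, x l (n + l) = x l n)
    (hQx : ∀ l, l.Prime → l ∣ Q → ∀ n, n ≡ c [MOD Q] → x l n = 0) :
    |∑ n ∈ (Ioc M N).filter (fun n => n ≡ c [MOD Q]), nu w J x n / n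
      - Real.log (N / M) / Q * Fbar w J (xbar x Q)| ≤ 2 * Q * ((w : ℝ) ^ (2 ^ J)) ^ 8 / M := by
  have hM' : (0 : ℝ) < M := by exact_mod_cast hM
  have hQ' : (0 : ℝ) < Q := by exact_mod_cast hQ
  have key : ∀ S ∈ SS w J, |∑ n ∈ (Ioc M N).filter (fun n => n ≡ c [MOD Q]), (∏ i ∈ S, (-x i n)) / n
      - Real.log (N / M) / Q * ∏ i ∈ S, (-xbar x Q i)| ≤ 2 * Q * ((w : ℝ) ^ (2 ^ J)) ^ 4 / M := by
    intro S hS
    have hSp := SS_prime w J S hS
    have hprod := prod_SS_le w J hw S hS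
    have hprod' : ((∏ i ∈ S, i : ℕ) : ℝ) ≤ ((w : ℝ) ^ (2 ^ J)) ^ 4 := by exact_mod_cast hprod
    by_cases hdiv : ∃ i ∈ S, i ∣ Q
    · obtain ⟨i, hi, hiQ⟩ := hdiv
      have h1 : ∏ i ∈ S, (-xbar x Q i) = 0 := by
        apply prod_eq_zero hi
        simp [xbar, hiQ]
      have h2 : ∑ n ∈ (Ioc M N).filter (fun n => n ≡ c [MOD Q]), (∏ i ∈ S, (-x i n)) / (n : ℝ) = 0 := by
        refine sum_eq_zero fun n hn => ?_
        rw [mem_filter] at hn
        rw [prod_eq_zero hi (by rw [hQx i (hSp i hi) hiQ n hn.2, neg_zero]), zero_div]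
      rw [h1, h2]
      simp only [mul_zero, sub_zero, abs_zero]
      positivity
    · push Not at hdiv
      set f : ℕ → ℝ := fun n => if n ≡ c [MOD Q] then 1 else 0 with hf
      have hfper : ∀ n, f (n + Q) = f n := by
        intro n
        have : (n + Q ≡ c [MOD Q]) ↔ (n ≡ c [MOD Q]) := by simp [Nat.ModEq]
        simp only [hf, this]
      have hper' : ∀ l n, -x l (n + l) = -x l n := by
        intro l n; rw [hper]
      have h1 := period_prod (y := fun l n => -x l n) hQ hfper hper' S (fun i hi => ⟨hSp i hi, hdiv i hi⟩)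
      have hfsum : ∑ n ∈ range Q, f n = 1 := by
        rw [Finset.sum_eq_single (c % Q)]
        · simp only [hf]
          rw [if_pos (Nat.mod_modEq c Q)]
        · intro n hn hne
          simp only [hf]
          rw [if_neg]
          intro h
          apply hne
          have : n % Q = c % Q := h
          rw [← this, Nat.mod_eq_of_lt (mem_range.mp hn)]
        · intro h
          exact absurd (mem_range.mpr (Nat.mod_lt c hQ)) h
      rw [hfsum, one_mul] at h1
      have hpos : 0 < ∏ i ∈ S, i := prod_pos fun i hi => (hSp i hi).pos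
      have h2 := periodic_log_sum (f := fun n => f n * ∏ i ∈ S, (-x i n)) (m := Q * ∏ i ∈ S, i)
        (Nat.mul_pos hQ hpos)
        (by
          intro n
          show f (n + Q * ∏ i ∈ S, i) * ∏ i ∈ S, (-x i (n + Q * ∏ j ∈ S, j)) = f n * ∏ i ∈ S, (-x i n)
          congr 1
          · rw [periodic_mod hfper (n + _), periodic_mod hfper n]
            congr 1
            simp
          · refine prod_congr rfl fun i hi => ?_
            obtain ⟨k, hk⟩ := dvd_prod_of_mem (fun j => j) hi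
            rw [hk, periodic_mod (hper i) (n + _), periodic_mod (hper i) n]
            congr 2
            rw [show n + Q * (i * k) = n + i * (Q * k) by ring]
            simp)
        (by
          intro n
          rw [abs_mul, abs_prod]
          have h3 : |f n| ≤ 1 := by
            simp only [hf]; split_ifs <;> simp
          have h4 : ∏ i ∈ S, |-x i n| ≤ 1 := by
            refine prod_le_one (fun i _ => abs_nonneg _) fun i _ => ?_
            rw [abs_neg, abs_of_nonneg (hx i n).1]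
            exact (hx i n).2
          calc |f n| * ∏ i ∈ S, |-x i n| ≤ 1 * 1 :=
                mul_le_mul h3 h4 (prod_nonneg fun i _ => abs_nonneg _) zero_le_one
            _ = 1 := one_mul 1)
        M N hM hMN
      have h5 : ∑ n ∈ Ioc M N, (f n * ∏ i ∈ S, (-x i n)) / (n : ℝ)
          = ∑ n ∈ (Ioc M N).filter (fun n => n ≡ c [MOD Q]), (∏ i ∈ S, (-x i n)) / (n : ℝ) := by
        rw [sum_filter]
        refine sum_congr rfl fun n _ => ?_
        simp only [hf]
        split_ifs <;> simp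
      have h6 : (∑ n ∈ range (Q * ∏ i ∈ S, i), f n * ∏ i ∈ S, (-x i n)) / ((Q * ∏ i ∈ S, i : ℕ) : ℝ)
          = 1 / Q * ∏ i ∈ S, (-xbar x Q i) := by
        have h7 : ∑ n ∈ range (Q * ∏ i ∈ S, i), f n * ∏ i ∈ S, (-x i n)
            = ∏ i ∈ S, ∑ n ∈ range i, (-x i n) := h1
        rw [h7]
        have h8 : ∏ i ∈ S, (-xbar x Q i) = (∏ i ∈ S, ∑ n ∈ range i, (-x i n)) / ∏ i ∈ S, (i : ℝ) := by
          rw [← prod_div_distrib]
          refine prod_congr rfl fun i hi => ?_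
          simp only [xbar, if_neg (hdiv i hi), sum_neg_distrib]
          ring
        rw [h8]
        push_cast
        have : ∏ i ∈ S, (i : ℝ) ≠ 0 := by
          rw [prod_ne_zero_iff]
          intro i hi
          exact_mod_cast (hSp i hi).ne_zero
        field_simp
      rw [h5, h6] at h2
      have h9 : Real.log (N / M) * (1 / Q * ∏ i ∈ S, (-xbar x Q i))
          = Real.log (N / M) / Q * ∏ i ∈ S, (-xbar x Q i) := by ring
      rw [h9] at h2
      refine h2.trans ?_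
      push_cast
      push_cast at hprod'
      apply div_le_div_of_nonneg_right _ hM'.le
      calc (2 : ℝ) * (Q * ∏ i ∈ S, (i : ℝ)) = 2 * Q * ∏ i ∈ S, (i : ℝ) := by ring
        _ ≤ 2 * Q * ((w : ℝ) ^ (2 ^ J)) ^ 4 := by gcongr
  have e1 : ∑ n ∈ (Ioc M N).filter (fun n => n ≡ c [MOD Q]), nu w J x n / n
      = ∑ S ∈ SS w J, ∑ n ∈ (Ioc M N).filter (fun n => n ≡ c [MOD Q]), (∏ i ∈ S, (-x i n)) / (n : ℝ) := by
    rw [sum_comm]
    refine sum_congr rfl fun n _ => ?_
    unfold nu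
    rw [sum_div]
  rw [e1]
  unfold Fbar
  rw [mul_sum, ← sum_sub_distrib]
  have hcard : ((SS w J).card : ℝ) ≤ ((w : ℝ) ^ (2 ^ J)) ^ 4 := by exact_mod_cast card_SS_le w J hw
  calc _ ≤ ∑ S ∈ SS w J, |∑ n ∈ (Ioc M N).filter (fun n => n ≡ c [MOD Q]), (∏ i ∈ S, (-x i n)) / (n : ℝ)
      - Real.log (N / M) / Q * ∏ i ∈ S, (-xbar x Q i)| := abs_sum_le_sum_abs _ _
    _ ≤ ∑ _S ∈ SS w J, 2 * Q * ((w : ℝ) ^ (2 ^ J)) ^ 4 / M := sum_le_sum key
    _ = (SS w J).card * (2 * Q * ((w : ℝ) ^ (2 ^ J)) ^ 4 / M) := by rw [sum_const, nsmul_eq_mul]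
    _ ≤ ((w : ℝ) ^ (2 ^ J)) ^ 4 * (2 * Q * ((w : ℝ) ^ (2 ^ J)) ^ 4 / M) := by gcongr
    _ = _ := by ring

end Pool.Agent.E456
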