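import Mathlib
import Pool.Agent.E456.Mertens
import Pool.Agent.E456.Sieve

/-!
# Upper bound sieve: clean form with constants
-/

namespace Pool.Agent.E456

open Finset

lemma loglog_pow (w k : ℕ) (hw : 2 ≤ w) (hk : 1 ≤ k) :
    Real.log (Real.log ((w ^ k : ℕ) : ℝ)) = Real.log k + Real.log (Real.log w) := by
  have h1 : (0 : ℝ) < Real.log w := Real.log_pos (by exact_mod_cast hw)
  have h2 : (0 : ℝ) < k := by exact_mod_cast hk
  push_cast
  rw [Real.log_pow, Real.log_mul h2.ne' h1.ne']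

/-- sum over a block is bounded -/
lemma blk_sum_le : ∃ C : ℝ, 0 < C ∧ ∀ w j : ℕ, 2 ≤ w → ∑ p ∈ blk w j, (1 : ℝ) / p ≤ C := by
  obtain ⟨C, hC, h⟩ := mertens2
  refine ⟨Real.log 2 + 2 * C, by have := Real.log_pos (by norm_num : (1:ℝ) < 2); positivity, fun w j hw => ?_⟩
  have hpow : ∀ i, 2 ≤ w ^ (2 ^ i) := fun i => by
    calc 2 ≤ w := hw
      _ = w ^ 1 := (pow_one w).symm
      _ ≤ w ^ (2 ^ i) := Nat.pow_le_pow_right (by omega) (Nat.one_le_two_pow)
  have hle : w ^ (2 ^ j) ≤ w ^ (2 ^ (j + 1)) := u_mono w (by omega) (Nat.le_succ j)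
  have h1 := S1_sub (w ^ (2 ^ j)) (w ^ (2 ^ (j + 1))) hle
  unfold blk
  rw [← h1]
  have h2 := h _ (hpow (j + 1))
  have h3 := h _ (hpow j)
  rw [loglog_pow w _ hw Nat.one_le_two_pow] at h2 h3
  rw [abs_le] at h2 h3
  have h4 : Real.log ((2 ^ (j + 1) : ℕ) : ℝ) = Real.log 2 + Real.log ((2 ^ j : ℕ) : ℝ) := by
    push_cast
    rw [Real.log_pow, Real.log_pow]
    push_cast
    ring
  rw [h4] at h2
  linarith [h2.1, h2.2, h3.1, h3.2]

/-- sum over sieving primes -/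
lemma pr_sum_eq (w J : ℕ) (hw : 1 ≤ w) :
    ∑ p ∈ pr w J, (1 : ℝ) / p = S1 (w ^ (2 ^ J)) - S1 w := by
  rw [S1_sub]
  · rfl
  · have := u_mono w hw (Nat.zero_le J)
    simpa using this

lemma prod_one_sub_le (P : Finset ℕ) (y : ℕ → ℝ) (hy : ∀ i ∈ P, y i ≤ 1) :
    ∏ i ∈ P, (1 - y i) ≤ Real.exp (-∑ i ∈ P, y i) := by
  rw [← sum_neg_distrib, Real.exp_sum]
  refine prod_le_prod (fun i hi => by linarith [hy i hi]) fun i _ => ?_
  have := Real.add_one_le_exp (-y i)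
  linarith

/-- The main term of the sieve, general bound, `w = 6`, dimension at most `3`. -/
lemma Fbar_bound : ∃ K : ℝ, 0 < K ∧ ∀ (J : ℕ) (y : ℕ → ℝ), (∀ i, 0 ≤ y i ∧ y i ≤ 3 / i) →
    Fbar 6 J y ≤ K * Real.exp (-∑ p ∈ pr 6 J, y p) := by
  obtain ⟨C, hC, h⟩ := blk_sum_le
  refine ⟨Real.exp (Real.exp (3 * (3 * C))), Real.exp_pos _, fun J y hy => ?_⟩
  have hy1 : ∀ i ∈ pr 6 J, 0 ≤ y i ∧ y i ≤ 1 / 2 := by
    intro i hi
    refine ⟨(hy i).1, (hy i).2.trans ?_⟩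
    simp only [pr, mem_filter, mem_Ioc] at hi
    have : (6 : ℝ) < i := by exact_mod_cast hi.1.1
    rw [div_le_iff₀ (by linarith)]
    linarith
  have h1 := Fbar_le 6 J (by norm_num) y (3 * C) (by positivity) hy1 (by
    intro j _
    calc ∑ i ∈ blk 6 j, y i ≤ ∑ i ∈ blk 6 j, 3 * ((1 : ℝ) / i) :=
          sum_le_sum fun i _ => (hy i).2.trans (le_of_eq (by ring))
      _ = 3 * ∑ i ∈ blk 6 j, (1 : ℝ) / i := by rw [mul_sum]
      _ ≤ 3 * C := by
          have := h 6 j (by norm_num)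
          linarith)
  have h2 := prod_one_sub_le (pr 6 J) y (fun i hi => by linarith [(hy1 i hi).2])
  calc Fbar 6 J y ≤ _ := h1
    _ ≤ Real.exp (-∑ i ∈ pr 6 J, y i) * Real.exp (Real.exp (3 * (3 * C))) := by gcongr
    _ = _ := mul_comm _ _

/-- abbreviation for the sieving limit -/
def YY (J : ℕ) : ℕ := 6 ^ (2 ^ J)

lemma YY_ge (J : ℕ) : 6 ≤ YY J := by
  unfold YY
  calc 6 = 6 ^ 1 := by norm_num
    _ ≤ 6 ^ (2 ^ J) := Nat.pow_le_pow_right (by norm_num) Nat.one_le_two_pow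

/-- choice of the sieve level -/
lemma exists_J (M : ℕ) (hM : 6 ^ 12 ≤ M) : ∃ J, YY J ^ 12 ≤ M ∧ M < YY J ^ 24 := by
  have hex : ∃ J, M < YY (J + 1) ^ 12 := by
    refine ⟨M, ?_⟩
    have h1 : M < 2 ^ M := Nat.lt_two_pow_self
    have h2 : 2 ^ M < 6 ^ (2 ^ M) := Nat.lt_pow_self (by norm_num)
    have h3 : 6 ^ (2 ^ M) ≤ 6 ^ (2 ^ (M + 1)) :=
      Nat.pow_le_pow_right (by norm_num) (Nat.pow_le_pow_right (by norm_num) (Nat.le_succ M))
    have h4 : YY (M + 1) ≤ YY (M + 1) ^ 12 := Nat.le_self_pow (by norm_num) _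
    unfold YY at *
    omega
  classical
  let J := Nat.find hex
  have hJ : M < YY (J + 1) ^ 12 := Nat.find_spec hex
  refine ⟨J, ?_, ?_⟩
  · by_cases h0 : J = 0
    · rw [h0]; simpa [YY] using hM
    · have := Nat.find_min hex (m := J - 1) (by omega)
      rw [show J - 1 + 1 = J by omega] at this
      omega
  · have : YY (J + 1) ^ 12 = YY J ^ 24 := by
      unfold YY
      rw [← pow_mul, ← pow_mul, pow_succ]
      congr 1
      ring
    rw [← this]; exact hJ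

/-- Upper bound sieve in clean form. -/
theorem sieve_upper : ∃ K : ℝ, 0 < K ∧ ∀ (J Q c M N : ℕ), 0 < Q → Q ≤ YY J → YY J ^ 12 ≤ M →
    3 * M ≤ N → ∀ (x : ℕ → ℕ → ℝ), (∀ l n, 0 ≤ x l n ∧ x l n ≤ 1) → (∀ l n, x l (n + l) = x l n) →
    (∀ l, l.Prime → l ∣ Q → ∀ n, n ≡ c [MOD Q] → x l n = 0) →
    (∀ l, xbar x Q l ≤ 3 / l) →
    ∑ n ∈ (Ioc M N).filter (fun n => n ≡ c [MOD Q]), nu 6 J x n / n
      ≤ K * (Real.log (N / M) / Q) * Real.exp (-∑ p ∈ pr 6 J, xbar x Q p) := by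
  obtain ⟨K, hK, hF⟩ := Fbar_bound
  obtain ⟨C, hC, hm⟩ := mertens2
  refine ⟨K + 2 * Real.exp (3 * C) * 6, by positivity, ?_⟩
  intro J Q c M N hQ hQY hYM hMN x hx hper hQx hxb
  have hY6 := YY_ge J
  have hY6' : (6 : ℝ) ≤ YY J := by exact_mod_cast hY6
  have hM : 0 < M := lt_of_lt_of_le (by positivity) hYM
  have hM' : (0 : ℝ) < M := by exact_mod_cast hM
  have hQ' : (0 : ℝ) < Q := by exact_mod_cast hQ
  have hN' : (0 : ℝ) < N := by exact_mod_cast (by omega : 0 < N)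
  have h1 := sieve_log 6 J Q c M N (by norm_num) hQ hM (by omega) x hx hper hQx
  have hxb0 : ∀ l, 0 ≤ xbar x Q l := by
    intro l
    unfold xbar
    split_ifs
    · exact le_rfl
    · exact div_nonneg (sum_nonneg fun n _ => (hx l n).1) (by positivity)
  have h2 := hF J (xbar x Q) (fun i => ⟨hxb0 i, hxb i⟩)
  have hlog : 1 ≤ Real.log (N / M) := by
    have h3 : (3 : ℝ) ≤ N / M := by
      rw [le_div_iff₀ hM']; exact_mod_cast hMN
    have h4 : Real.log 3 ≤ Real.log (N / M) := Real.log_le_log (by norm_num) h3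
    have h5 : (1 : ℝ) ≤ Real.log 3 := by
      rw [Real.le_log_iff_exp_le (by norm_num)]
      have := Real.exp_one_lt_d9
      linarith
    linarith
  -- the error term
  have hsum : ∑ p ∈ pr 6 J, xbar x Q p ≤ 3 * (Real.log (Real.log (YY J)) + C) := by
    calc ∑ p ∈ pr 6 J, xbar x Q p ≤ ∑ p ∈ pr 6 J, 3 * ((1 : ℝ) / p) :=
          sum_le_sum fun p _ => (hxb p).trans (le_of_eq (by ring))
      _ = 3 * (S1 (YY J) - S1 6) := by rw [← mul_sum, pr_sum_eq 6 J (by norm_num)]; rfl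
      _ ≤ 3 * (Real.log (Real.log (YY J)) + C) := by
          have h3 := (abs_le.mp (hm (YY J) (by omega))).2
          have h4 : 0 ≤ S1 6 := sum_nonneg fun p _ => by positivity
          linarith
  have hlY : 0 < Real.log (YY J) := Real.log_pos (by linarith)
  have hexp : Real.exp (-(3 * C)) / (Real.log (YY J)) ^ 3 ≤ Real.exp (-∑ p ∈ pr 6 J, xbar x Q p) := by
    have : Real.exp (-(3 * C)) / (Real.log (YY J)) ^ 3
        = Real.exp (-(3 * (Real.log (Real.log (YY J)) + C))) := by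
      rw [show -(3 * (Real.log (Real.log (YY J)) + C)) = -(3 * C) + -(3 * Real.log (Real.log (YY J))) by ring,
        Real.exp_add, Real.exp_neg (3 * Real.log _), div_eq_mul_inv]
      congr 2
      rw [show (3 : ℝ) * Real.log (Real.log (YY J)) = ((3 : ℕ) : ℝ) * Real.log (Real.log (YY J)) by norm_num,
        Real.exp_nat_mul, Real.exp_log hlY]
    rw [this]
    exact Real.exp_le_exp.mpr (by linarith)
  have hQYr : (Q : ℝ) ≤ YY J := by exact_mod_cast hQY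
  have hYMr : ((YY J : ℝ)) ^ 12 ≤ M := by exact_mod_cast hYM
  have hlogY : Real.log (YY J) ^ 3 ≤ 6 * (YY J : ℝ) := by
    have h3 := Real.pow_div_factorial_le_exp (x := Real.log (YY J)) hlY.le 3
    rw [Real.exp_log (by linarith)] at h3
    have h4 : ((3).factorial : ℝ) = 6 := by norm_num [Nat.factorial]
    rw [h4, div_le_iff₀ (by norm_num)] at h3
    linarith
  have herr : 2 * Q * (((6 : ℕ) : ℝ) ^ (2 ^ J)) ^ 8 / M
      ≤ (2 * Real.exp (3 * C) * 6) * (Real.log (N / M) / Q) * Real.exp (-∑ p ∈ pr 6 J, xbar x Q p) := by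
    have hYe : (((6 : ℕ) : ℝ) ^ (2 ^ J)) = (YY J : ℝ) := by unfold YY; push_cast; rfl
    rw [hYe]
    set Y : ℝ := (YY J : ℝ) with hYdef
    calc 2 * Q * Y ^ 8 / M ≤ 2 * Y * Y ^ 8 / Y ^ 12 := by gcongr
      _ = 2 / Y ^ 3 := by field_simp
      _ ≤ 2 * (1 / Y) * (6 / Real.log Y ^ 3) := by
          rw [show 2 * (1 / Y) * (6 / Real.log Y ^ 3) = 2 * 6 / (Y * Real.log Y ^ 3) by field_simp]
          rw [div_le_div_iff₀ (by positivity) (by positivity)]
          calc 2 * (Y * Real.log Y ^ 3) ≤ 2 * (Y * (6 * Y)) := by gcongr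
            _ = 2 * 6 * Y ^ 2 := by ring
            _ ≤ 2 * 6 * Y ^ 3 := by
                have : Y ^ 2 ≤ Y ^ 3 := pow_le_pow_right₀ (by linarith) (by norm_num)
                linarith
      _ ≤ 2 * (1 / Q) * (6 / Real.log Y ^ 3) := by gcongr
      _ = (2 * Real.exp (3 * C) * 6) * (1 / Q) * (Real.exp (-(3 * C)) / (Real.log Y) ^ 3) := by
          rw [Real.exp_neg]
          have := (Real.exp_pos (3 * C)).ne'
          field_simp
      _ ≤ (2 * Real.exp (3 * C) * 6) * (Real.log (N / M) / Q) * Real.exp (-∑ p ∈ pr 6 J, xbar x Q p) := by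
          gcongr
  have h3 := (abs_le.mp h1).2
  have h4 : Real.log (N / M) / Q * Fbar 6 J (xbar x Q)
      ≤ Real.log (N / M) / Q * (K * Real.exp (-∑ p ∈ pr 6 J, xbar x Q p)) := by
    gcongr
  calc _ ≤ Real.log (N / M) / Q * Fbar 6 J (xbar x Q) + 2 * Q * (((6 : ℕ) : ℝ) ^ (2 ^ J)) ^ 8 / M := by
        linarith
    _ ≤ Real.log (N / M) / Q * (K * Real.exp (-∑ p ∈ pr 6 J, xbar x Q p))
        + (2 * Real.exp (3 * C) * 6) * (Real.log (N / M) / Q) * Real.exp (-∑ p ∈ pr 6 J, xbar x Q p) :=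
        add_le_add h4 herr
    _ = _ := by ring

/-- Same, for `Q = 1` and the product itself. -/
theorem sieve_upper_one : ∃ K : ℝ, 0 < K ∧ ∀ (J M N : ℕ), YY J ^ 12 ≤ M →
    3 * M ≤ N → ∀ (x : ℕ → ℕ → ℝ), (∀ l n, 0 ≤ x l n ∧ x l n ≤ 1) → (∀ l n, x l (n + l) = x l n) →
    (∀ l, 2 ≤ l → ∑ n ∈ range l, x l n ≤ 3) →
    ∑ n ∈ Ioc M N, (∏ l ∈ pr 6 J, (1 - x l n)) / n
      ≤ K * Real.log (N / M) * Real.exp (-∑ l ∈ pr 6 J, (∑ n ∈ range l, x l n) / l) := by
  obtain ⟨K, hK, h⟩ := sieve_upper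
  refine ⟨K, hK, fun J M N hYM hMN x hx hper hxb => ?_⟩
  have h1 := h J 1 0 M N one_pos (by have := YY_ge J; omega) hYM hMN x hx hper
    (fun l hl hl1 => by
      exact absurd (Nat.dvd_one.mp hl1) hl.one_lt.ne')
    (fun l => by
      unfold xbar
      split_ifs with h0
      · positivity
      · rcases Nat.lt_or_ge l 2 with hl | hl
        · interval_cases l
          · simp
          · simp at h0
        · gcongr
          exact hxb l hl)
  have e1 : (Ioc M N).filter (fun n => n ≡ 0 [MOD 1]) = Ioc M N := by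
    apply filter_true_of_mem
    intro n _
    exact Nat.modEq_one
  have e2 : ∑ p ∈ pr 6 J, xbar x 1 p = ∑ l ∈ pr 6 J, (∑ n ∈ range l, x l n) / l := by
    refine sum_congr rfl fun p hp => ?_
    unfold xbar
    rw [if_neg]
    simp only [pr, mem_filter] at hp
    intro h0
    exact absurd (Nat.dvd_one.mp h0) hp.2.one_lt.ne'
  rw [e1, e2] at h1
  have h2 : ∑ n ∈ Ioc M N, (∏ l ∈ pr 6 J, (1 - x l n)) / (n : ℝ) ≤ ∑ n ∈ Ioc M N, nu 6 J x n / n := by
    refine sum_le_sum fun n _ => ?_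
    gcongr
    exact nu_ge 6 J (by norm_num) x n (fun l => hx l n)
  refine h2.trans (h1.trans (le_of_eq ?_))
  push_cast
  ring

end Pool.Agent.E456
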