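import Mathlib
import Pool.Agent.E456.Mertens

/-!
# Mertens' first theorem in a fixed residue class
-/

namespace Pool.Agent.E456

open Finset
open scoped ArithmeticFunction.vonMangoldt ArithmeticFunction.zeta

section char

variable {q : ℕ} [NeZero q] (χ : DirichletCharacter ℂ q)

lemma sum_range_char (hχ : χ ≠ 1) : ∑ c ∈ range q, χ (c : ZMod q) = 0 := by
  rw [← MulChar.sum_eq_zero_of_ne_one hχ]
  refine sum_nbij' (fun i => (i : ZMod q)) (fun a => a.val) ?_ ?_ ?_ ?_ ?_
  · intro i _; exact mem_univ _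
  · intro a _; exact mem_range.mpr (ZMod.val_lt a)
  · intro i hi
    exact ZMod.val_cast_of_lt (mem_range.mp hi)
  · intro a _
    exact ZMod.natCast_zmod_val a
  · intro i _; rfl

lemma char_partial (hχ : χ ≠ 1) (M t : ℕ) (hMt : M ≤ t) :
    ‖∑ n ∈ Ioc M t, χ (n : ZMod q)‖ ≤ q := by
  have hq : 0 < q := NeZero.pos q
  have e1 : ∑ n ∈ Ioc M t, χ (n : ZMod q)
      = ∑ c ∈ range q, χ (c : ZMod q) * (((Ioc M t).filter (fun n => n ≡ c [MOD q])).card : ℂ) := by
    have : ∀ n ∈ Ioc M t, χ (n : ZMod q) = ∑ c ∈ range q, if n ≡ c [MOD q] then χ (c : ZMod q) else 0 := by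
      intro n _
      rw [Finset.sum_eq_single (n % q)]
      · rw [if_pos (Nat.mod_modEq n q).symm]
        simp
      · intro c hc hne
        rw [if_neg]
        intro h
        apply hne
        have : n % q = c % q := h
        rw [this, Nat.mod_eq_of_lt (mem_range.mp hc)]
      · intro h
        exact absurd (mem_range.mpr (Nat.mod_lt n hq)) h
    rw [sum_congr rfl this, sum_comm]
    refine sum_congr rfl fun c _ => ?_
    rw [← sum_filter, sum_const, nsmul_eq_mul, mul_comm]
  have e2 : ∑ n ∈ Ioc M t, χ (n : ZMod q)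
      = ∑ c ∈ range q, χ (c : ZMod q) * ((((Ioc M t).filter (fun n => n ≡ c [MOD q])).card : ℂ)
          - ((t : ℂ) - M) / q) := by
    rw [e1]
    simp only [mul_sub]
    rw [sum_sub_distrib, ← sum_mul, sum_range_char χ hχ, zero_mul, sub_zero]
  rw [e2]
  calc _ ≤ ∑ c ∈ range q, ‖χ (c : ZMod q) * ((((Ioc M t).filter (fun n => n ≡ c [MOD q])).card : ℂ)
          - ((t : ℂ) - M) / q)‖ := norm_sum_le _ _
    _ ≤ ∑ _c ∈ range q, (1 : ℝ) := by
        refine sum_le_sum fun c _ => ?_
        rw [norm_mul]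
        have h1 := card_Ioc_modEq M t q c hq hMt
        have h2 : ‖((((Ioc M t).filter (fun n => n ≡ c [MOD q])).card : ℂ) - ((t : ℂ) - M) / q)‖
            = |(((Ioc M t).filter (fun n => n ≡ c [MOD q])).card : ℝ) - ((t : ℝ) - M) / q| := by
          rw [← Real.norm_eq_abs, ← Complex.norm_real]
          congr 1
          push_cast
          ring
        rw [h2]
        calc _ ≤ 1 * (1 : ℝ) := mul_le_mul (χ.norm_le_one _) h1 (abs_nonneg _) zero_le_one
          _ = 1 := one_mul 1
    _ = q := by simp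

/-- tail estimate for `σ > 1` -/
lemma char_tail_sigma (hχ : χ ≠ 1) (σ : ℝ) (hσ : 1 < σ) (y : ℕ) :
    ‖∑ n ∈ Ioc 0 y, ((n : ℝ) ^ (-σ)) • χ (n : ZMod q) - DirichletCharacter.LFunction χ σ‖
      ≤ q / ((y : ℝ) + 1) := by
  have hs : 1 < (σ : ℂ).re := by simpa using hσ
  have h1 := χ.LSeriesSummable_of_one_lt_re hs
  have h2 := h1.LSeriesHasSum
  rw [← DirichletCharacter.LFunction_eq_LSeries χ hs] at h2
  have h3 := h2.tendsto_sum_nat
  have h4 : Filter.Tendsto (fun N : ℕ => ∑ n ∈ Ioc 0 N, ((n : ℝ) ^ (-σ)) • χ (n : ZMod q)) Filter.atTop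
      (nhds (DirichletCharacter.LFunction χ σ)) := by
    have h5 := h3.comp (Filter.tendsto_add_atTop_nat 1)
    refine h5.congr fun N => ?_
    simp only [Function.comp]
    have h6 : range (N + 1) = insert 0 (Ioc 0 N) := by
      ext x; simp only [mem_range, mem_insert, mem_Ioc]; omega
    rw [h6, sum_insert (by simp)]
    rw [LSeries.term_zero, zero_add]
    refine sum_congr rfl fun n hn => ?_
    have hn0 : n ≠ 0 := by have := (mem_Ioc.mp hn).1; omega
    rw [LSeries.term_of_ne_zero hn0, Complex.real_smul, Complex.ofReal_cpow (by positivity)]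
    rw [Complex.ofReal_neg, Complex.ofReal_natCast, Complex.cpow_neg]
    rw [div_eq_mul_inv, mul_comm]
  have h7 : Filter.Tendsto (fun N : ℕ => ‖∑ n ∈ Ioc 0 y, ((n : ℝ) ^ (-σ)) • χ (n : ZMod q)
      - ∑ n ∈ Ioc 0 N, ((n : ℝ) ^ (-σ)) • χ (n : ZMod q)‖) Filter.atTop
      (nhds ‖∑ n ∈ Ioc 0 y, ((n : ℝ) ^ (-σ)) • χ (n : ZMod q) - DirichletCharacter.LFunction χ σ‖) :=
    (tendsto_const_nhds.sub h4).norm
  refine le_of_tendsto h7 ?_
  filter_upwards [Filter.eventually_ge_atTop y] with N hN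
  have hU : Ioc 0 N = Ioc 0 y ∪ Ioc y N := (Ioc_union_Ioc_eq_Ioc (by omega) hN).symm
  have hD : Disjoint (Ioc 0 y) (Ioc y N) := by
    rw [Finset.disjoint_left]; intro x hx hx'; simp only [mem_Ioc] at hx hx'; omega
  rw [hU, sum_union hD, sub_add_cancel_left, norm_neg]
  have h8 := abel_bound (fun n : ℕ => χ (n : ZMod q)) (fun n => (n : ℝ) ^ (-σ)) y N q hN
    (fun n _ => by positivity)
    (fun n hn => by
      have hn' : (0 : ℝ) < n := by exact_mod_cast (by omega : 0 < n)
      apply Real.rpow_le_rpow_of_nonpos hn' (by push_cast; linarith) (by linarith))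
    (fun t hyt _ => char_partial χ hχ y t hyt)
  refine h8.trans ?_
  rw [div_eq_mul_inv]
  have h9 : ((y + 1 : ℕ) : ℝ) ^ (-σ) ≤ ((y : ℝ) + 1)⁻¹ := by
    push_cast
    rw [← Real.rpow_neg_one]
    apply Real.rpow_le_rpow_of_exponent_le (by linarith [(Nat.cast_nonneg y : (0 : ℝ) ≤ y)]) (by linarith)
  gcongr

lemma char_tail (hχ : χ ≠ 1) (y : ℕ) :
    ‖∑ n ∈ Ioc 0 y, ((1 : ℝ) / n) • χ (n : ZMod q) - DirichletCharacter.LFunction χ 1‖
      ≤ q / ((y : ℝ) + 1) := by
  have hcont : Continuous (fun σ : ℝ => DirichletCharacter.LFunction χ (σ : ℂ)) :=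
    (DirichletCharacter.differentiable_LFunction hχ).continuous.comp Complex.continuous_ofReal
  have h1 : Filter.Tendsto (fun σ : ℝ => ‖∑ n ∈ Ioc 0 y, ((n : ℝ) ^ (-σ)) • χ (n : ZMod q)
      - DirichletCharacter.LFunction χ σ‖) (nhdsWithin 1 (Set.Ioi 1))
      (nhds ‖∑ n ∈ Ioc 0 y, ((1 : ℝ) / n) • χ (n : ZMod q) - DirichletCharacter.LFunction χ 1‖) := by
    apply Filter.Tendsto.norm
    apply Filter.Tendsto.sub
    · apply tendsto_finsetSum
      intro n hn
      have hn0 : (0 : ℝ) < n := by exact_mod_cast (mem_Ioc.mp hn).1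
      apply Filter.Tendsto.smul_const
      have : Continuous (fun σ : ℝ => (n : ℝ) ^ (-σ)) :=
        Continuous.rpow continuous_const continuous_neg (fun _ => Or.inl hn0.ne')
      have h2 := this.tendsto 1
      rw [Real.rpow_neg_one, ← one_div] at h2
      exact h2.mono_left nhdsWithin_le_nhds
    · have h2 := hcont.tendsto 1
      rw [Complex.ofReal_one] at h2
      exact h2.mono_left nhdsWithin_le_nhds
  refine le_of_tendsto h1 ?_
  filter_upwards [self_mem_nhdsWithin] with σ hσ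
  exact char_tail_sigma χ hχ σ hσ y

/-- `∑ χ(n) log n / n` bounded -/
lemma char_log_bound (hχ : χ ≠ 1) : ∃ C : ℝ, ∀ N : ℕ,
    ‖∑ n ∈ Ioc 0 N, (Real.log n / n) • χ (n : ZMod q)‖ ≤ C := by
  refine ⟨∑ n ∈ Ioc (0 : ℕ) 2, |Real.log n / n| + q * (Real.log ((2 + 1 : ℕ) : ℝ) / ((2 + 1 : ℕ) : ℝ)), fun N => ?_⟩
  have hnn : ∀ n : ℕ, 0 ≤ Real.log n / n := fun n => by
    have := Real.log_natCast_nonneg n
    positivity
  have hfirst : ∀ K : ℕ, K ≤ 2 → ‖∑ n ∈ Ioc 0 K, (Real.log n / n) • χ (n : ZMod q)‖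
      ≤ ∑ n ∈ Ioc (0 : ℕ) 2, |Real.log n / n| := by
    intro K hK
    calc _ ≤ ∑ n ∈ Ioc 0 K, ‖(Real.log n / n) • χ (n : ZMod q)‖ := norm_sum_le _ _
      _ ≤ ∑ n ∈ Ioc 0 K, |Real.log n / n| := by
          refine sum_le_sum fun n _ => ?_
          rw [norm_smul, Real.norm_eq_abs]
          calc _ ≤ |Real.log n / n| * 1 := by
                gcongr
                exact χ.norm_le_one _
            _ = _ := mul_one _
      _ ≤ _ := by
          apply sum_le_sum_of_subset_of_nonneg
          · intro x hx; simp only [mem_Ioc] at hx ⊢; omega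
          · intro _ _ _; positivity
  rcases Nat.lt_or_ge N 2 with hN | hN
  · have := hfirst N (by omega)
    have h0 := hnn (2 + 1)
    have : (0 : ℝ) ≤ q * (Real.log ((2 + 1 : ℕ) : ℝ) / ((2 + 1 : ℕ) : ℝ)) := by positivity
    linarith
  · have hU : Ioc 0 N = Ioc 0 2 ∪ Ioc 2 N := (Ioc_union_Ioc_eq_Ioc (by omega) hN).symm
    have hD : Disjoint (Ioc 0 2) (Ioc 2 N) := by
      rw [Finset.disjoint_left]; intro x hx hx'; simp only [mem_Ioc] at hx hx'; omega
    rw [hU, sum_union hD]
    have h8 := abel_bound (fun n : ℕ => χ (n : ZMod q)) (fun n => Real.log n / n) 2 N q hN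
      (fun n _ => hnn n)
      (fun n hn => by
        have hn' : (3 : ℝ) ≤ n := by exact_mod_cast hn
        have he := Real.exp_one_lt_d9
        apply Real.log_div_self_antitoneOn
        · simp only [Set.mem_Ici]; linarith
        · simp only [Set.mem_Ici]; push_cast; linarith
        · push_cast; linarith)
      (fun t hyt _ => char_partial χ hχ 2 t hyt)
    exact (norm_add_le _ _).trans (add_le_add (hfirst 2 le_rfl) h8)

/-- `∑ χ(n) Λ(n) / n` bounded for nontrivial `χ` -/
lemma char_vonMangoldt_bound (hχ : χ ≠ 1) : ∃ C : ℝ, ∀ N : ℕ,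
    ‖∑ n ∈ Ioc 0 N, (Λ n / n) • χ (n : ZMod q)‖ ≤ C := by
  obtain ⟨C, hC⟩ := char_log_bound χ hχ
  have hL : DirichletCharacter.LFunction χ 1 ≠ 0 :=
    DirichletCharacter.LFunction_ne_zero_of_one_le_re χ (Or.inl hχ) (by simp)
  have hL' : 0 < ‖DirichletCharacter.LFunction χ 1‖ := norm_pos_iff.mpr hL
  refine ⟨(C + 6 * q) / ‖DirichletCharacter.LFunction χ 1‖, fun N => ?_⟩
  rw [le_div_iff₀ hL']
  rcases Nat.eq_zero_or_pos N with hN | hN
  · subst hN
    have := hC 0
    simp only [Ioc_self, sum_empty, norm_zero] at this ⊢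
    have : (0 : ℝ) ≤ 6 * q := by positivity
    linarith
  have hN' : (0 : ℝ) < N := by exact_mod_cast hN
  -- the convolution identity
  let f : ArithmeticFunction ℂ := ⟨fun n => (Λ n / n) • χ (n : ZMod q), by simp⟩
  let g : ArithmeticFunction ℂ := ⟨fun n => ((1 : ℝ) / n) • χ (n : ZMod q), by simp⟩
  have hfg : ∀ n, 0 < n → (f * g) n = (Real.log n / n) • χ (n : ZMod q) := by
    intro n hn
    rw [ArithmeticFunction.mul_apply]
    have : ∀ p ∈ n.divisorsAntidiagonal, f p.1 * g p.2 = (Λ p.1 / n) • χ (n : ZMod q) := by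
      intro p hp
      rw [Nat.mem_divisorsAntidiagonal] at hp
      have h1 : ((p.1 : ℕ) : ℝ) * p.2 = n := by exact_mod_cast hp.1
      have hp1 : (p.1 : ℝ) ≠ 0 := by
        intro h
        rw [h, zero_mul] at h1
        exact hn.ne' (by exact_mod_cast h1.symm)
      have hp2 : (p.2 : ℝ) ≠ 0 := by
        intro h
        rw [h, mul_zero] at h1
        exact hn.ne' (by exact_mod_cast h1.symm)
      show ((Λ p.1 / p.1) • χ (p.1 : ZMod q)) * (((1 : ℝ) / p.2) • χ (p.2 : ZMod q)) = _
      rw [smul_mul_smul_comm, ← map_mul, ← Nat.cast_mul, hp.1, ← h1]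
      congr 1
      field_simp
    rw [sum_congr rfl this, ← sum_smul, ← sum_div]
    congr 2
    rw [← ArithmeticFunction.vonMangoldt_sum, ← Nat.map_div_right_divisors, sum_map]
    rfl
  have h1 := ArithmeticFunction.sum_Ioc_mul_eq_sum_sum f g N
  have h2 : ∑ n ∈ Ioc 0 N, (f * g) n = ∑ n ∈ Ioc 0 N, (Real.log n / n) • χ (n : ZMod q) :=
    sum_congr rfl fun n hn => hfg n (mem_Ioc.mp hn).1
  have h3 : (∑ n ∈ Ioc 0 N, (Λ n / n) • χ (n : ZMod q)) * DirichletCharacter.LFunction χ 1
      = ∑ n ∈ Ioc 0 N, (f * g) n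
        - ∑ n ∈ Ioc 0 N, f n * ((∑ m ∈ Ioc 0 (N / n), g m) - DirichletCharacter.LFunction χ 1) := by
    rw [h1, sum_mul, ← sum_sub_distrib]
    refine sum_congr rfl fun n _ => ?_
    show ((Λ n / n) • χ (n : ZMod q)) * _ = ((Λ n / n) • χ (n : ZMod q)) * _ - ((Λ n / n) • χ (n : ZMod q)) * _
    ring
  rw [← norm_mul, h3, h2]
  have h4 : ‖∑ n ∈ Ioc 0 N, f n * ((∑ m ∈ Ioc 0 (N / n), g m) - DirichletCharacter.LFunction χ 1)‖
      ≤ 6 * q := by
    calc _ ≤ ∑ n ∈ Ioc 0 N, ‖f n * ((∑ m ∈ Ioc 0 (N / n), g m) - DirichletCharacter.LFunction χ 1)‖ :=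
          norm_sum_le _ _
      _ ≤ ∑ n ∈ Ioc 0 N, Λ n * (q / N) := by
          refine sum_le_sum fun n hn => ?_
          have hn0 : 0 < n := (mem_Ioc.mp hn).1
          have hn' : (0 : ℝ) < n := by exact_mod_cast hn0
          rw [norm_mul]
          have h5 := char_tail χ hχ (N / n)
          have h6 : ‖f n‖ ≤ Λ n / n := by
            show ‖(Λ n / n) • χ (n : ZMod q)‖ ≤ _
            rw [norm_smul, Real.norm_eq_abs, abs_of_nonneg
              (div_nonneg ArithmeticFunction.vonMangoldt_nonneg hn'.le)]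
            calc _ ≤ Λ n / n * 1 := by
                  apply mul_le_mul_of_nonneg_left (χ.norm_le_one _)
                  exact div_nonneg ArithmeticFunction.vonMangoldt_nonneg hn'.le
              _ = _ := mul_one _
          have h7 : (q : ℝ) / (((N / n : ℕ) : ℝ) + 1) ≤ q * n / N := by
            rw [div_le_div_iff₀ (by positivity) hN']
            have := Nat.lt_div_mul_add hn0 (a := N)
            have h : (N : ℝ) < (N / n : ℕ) * n + n := by exact_mod_cast this
            have hq0 : (0 : ℝ) ≤ q := by positivity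
            nlinarith
          calc _ ≤ Λ n / n * (q * n / N) := by
                apply mul_le_mul h6 (h5.trans h7) (norm_nonneg _)
                exact div_nonneg ArithmeticFunction.vonMangoldt_nonneg hn'.le
            _ = _ := by field_simp
      _ = (∑ n ∈ Ioc 0 N, Λ n) * (q / N) := by rw [sum_mul]
      _ ≤ (6 * N) * (q / N) := by
          gcongr
          have := Chebyshev.psi_le_const_mul_self (x := (N : ℝ)) hN'.le
          rw [Chebyshev.psi, Nat.floor_natCast] at this
          refine this.trans ?_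
          have h7 : Real.log 4 ≤ 2 := by
            have : Real.log 4 = 2 * Real.log 2 := by
              rw [show (4 : ℝ) = 2 ^ 2 by norm_num, Real.log_pow]; norm_num
            rw [this]
            have := Real.log_two_lt_d9
            linarith
          nlinarith
      _ = 6 * q := by field_simp
  exact (norm_sub_le _ _).trans (add_le_add (hC N) h4)

end char

/-- The part of `∑ Λ(n)/n` not coprime to `q`. -/
lemma noncoprime_sum_le (q N : ℕ) (hq : 0 < q) :
    ∑ n ∈ (Ioc 0 N).filter (fun n => ¬ Nat.Coprime n q), Λ n / n ≤ Real.log q + cpp := by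
  have h1 : ∑ n ∈ (Ioc 0 N).filter (fun n => ¬ Nat.Coprime n q), Λ n / (n : ℝ)
      = ∑ n ∈ (Ioc 0 N).filter (fun n => ¬ Nat.Coprime n q), (if n.Prime then Real.log n / n else 0)
        + ∑ n ∈ (Ioc 0 N).filter (fun n => ¬ Nat.Coprime n q), (if n.Prime then 0 else Λ n) / (n : ℝ) := by
    rw [← sum_add_distrib]
    exact sum_congr rfl fun n _ => prime_part n
  have h2 := nonprime_sum_le ((Ioc 0 N).filter (fun n => ¬ Nat.Coprime n q))
  have h3 : ∑ n ∈ (Ioc 0 N).filter (fun n => ¬ Nat.Coprime n q), (if n.Prime then Real.log n / n else 0)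
      ≤ Real.log q := by
    rw [← sum_filter]
    calc _ ≤ ∑ p ∈ q.primeFactors, Real.log p / p := by
          apply sum_le_sum_of_subset_of_nonneg
          · intro p hp
            simp only [mem_filter, mem_Ioc] at hp
            rw [Nat.mem_primeFactors]
            refine ⟨hp.2, ?_, hq.ne'⟩
            by_contra h
            exact hp.1.2 ((Nat.Prime.coprime_iff_not_dvd hp.2).mpr h)
          · intro p _ _
            have := Real.log_natCast_nonneg p
            positivity
      _ ≤ ∑ p ∈ q.primeFactors, Real.log p := by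
          refine sum_le_sum fun p hp => ?_
          have hp1 : (1 : ℝ) ≤ p := by exact_mod_cast (Nat.prime_of_mem_primeFactors hp).one_le
          exact div_le_self (Real.log_natCast_nonneg p) hp1
      _ = Real.log (∏ p ∈ q.primeFactors, (p : ℝ)) := by
          rw [Real.log_prod]
          intro p hp
          exact_mod_cast (Nat.prime_of_mem_primeFactors hp).ne_zero
      _ ≤ Real.log q := by
          apply Real.log_le_log
          · apply prod_pos
            intro p hp
            exact_mod_cast (Nat.prime_of_mem_primeFactors hp).pos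
          · have h5 := Nat.le_of_dvd hq (Nat.prod_primeFactors_dvd q)
            have h6 : (∏ p ∈ q.primeFactors, (p : ℝ)) = ((∏ p ∈ q.primeFactors, p : ℕ) : ℝ) := by
              push_cast; rfl
            rw [h6]
            exact_mod_cast h5
  linarith

/-- Mertens in a residue class, fixed modulus. -/
theorem mertens_AP (q a : ℕ) (hq : 0 < q) (ha : Nat.Coprime a q) : ∃ C : ℝ, 0 < C ∧ ∀ N : ℕ, 1 ≤ N →
    |∑ n ∈ (Ioc 0 N).filter (fun n => n ≡ a [MOD q]), Λ n / n - Real.log N / q.totient| ≤ C := by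
  have : NeZero q := ⟨hq.ne'⟩
  have hau : IsUnit (a : ZMod q) := (ZMod.isUnit_iff_coprime a q).mpr ha
  have hφ : (0 : ℝ) < q.totient := by exact_mod_cast Nat.totient_pos.mpr hq
  classical
  -- bounds for all nontrivial characters
  have hb : ∀ χ : DirichletCharacter ℂ q, ∃ C : ℝ, 0 ≤ C ∧ (χ ≠ 1 → ∀ N : ℕ,
      ‖∑ n ∈ Ioc 0 N, (Λ n / n) • χ (n : ZMod q)‖ ≤ C) := by
    intro χ
    by_cases hχ : χ = 1
    · exact ⟨0, le_rfl, fun h => absurd hχ h⟩
    · obtain ⟨C, hC⟩ := char_vonMangoldt_bound χ hχ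
      exact ⟨C, (norm_nonneg _).trans (hC 0), fun _ => hC⟩
  choose B hB0 hB using hb
  refine ⟨(∑ χ : DirichletCharacter ℂ q, B χ) + (7 + Real.log q + cpp), ?_, fun N hN => ?_⟩
  · have h1 : 0 ≤ ∑ χ : DirichletCharacter ℂ q, B χ := sum_nonneg fun χ _ => hB0 χ
    have h2 := cpp_nonneg
    have h3 := Real.log_natCast_nonneg q
    linarith
  have hN' : (0 : ℝ) < N := by exact_mod_cast hN
  -- express via characters
  have e1 : ((∑ n ∈ (Ioc 0 N).filter (fun n => n ≡ a [MOD q]), Λ n / n : ℝ) : ℂ)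
      = (q.totient : ℂ)⁻¹ * ∑ χ : DirichletCharacter ℂ q, χ (a : ZMod q)⁻¹ *
        ∑ n ∈ Ioc 0 N, (Λ n / n) • χ (n : ZMod q) := by
    have h1 : ∀ n ∈ Ioc 0 N, (((if n ≡ a [MOD q] then Λ n / n else 0) : ℝ) : ℂ)
        = (q.totient : ℂ)⁻¹ * ∑ χ : DirichletCharacter ℂ q, χ (a : ZMod q)⁻¹ * ((Λ n / n) • χ (n : ZMod q)) := by
      intro n _
      have h2 := ArithmeticFunction.vonMangoldt.residueClass_apply hau n
      have h3 : (((if n ≡ a [MOD q] then Λ n / n else 0) : ℝ) : ℂ)
          = ((ArithmeticFunction.vonMangoldt.residueClass (a : ZMod q) n : ℝ) : ℂ) / n := by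
        simp only [ArithmeticFunction.vonMangoldt.residueClass, Set.indicator_apply, Set.mem_ofPred_eq,
          ZMod.natCast_eq_natCast_iff]
        split_ifs <;> simp
      rw [h3, h2, mul_div_assoc, sum_div]
      congr 1
      refine sum_congr rfl fun χ _ => ?_
      rw [Complex.real_smul]
      push_cast
      ring
    rw [sum_filter]
    push_cast
    rw [sum_congr rfl h1, ← mul_sum, sum_comm]
    congr 1
    refine sum_congr rfl fun χ _ => ?_
    rw [mul_sum]
  -- the trivial character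
  have h0 : ∑ n ∈ Ioc 0 N, (Λ n / n) • (1 : DirichletCharacter ℂ q) (n : ZMod q)
      = ((∑ n ∈ (Ioc 0 N).filter (fun n => Nat.Coprime n q), Λ n / n : ℝ) : ℂ) := by
    rw [sum_filter]
    push_cast
    refine sum_congr rfl fun n _ => ?_
    rw [Complex.real_smul]
    by_cases h : Nat.Coprime n q
    · rw [if_pos h, MulChar.one_apply ((ZMod.isUnit_iff_coprime n q).mpr h)]
      push_cast; ring
    · rw [if_neg h, MulChar.map_nonunit _ (fun h' => h ((ZMod.isUnit_iff_coprime n q).mp h'))]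
      simp
  have h1 : |∑ n ∈ (Ioc 0 N).filter (fun n => Nat.Coprime n q), Λ n / n - Real.log N|
      ≤ 7 + Real.log q + cpp := by
    have h2 := mertens1_lower N hN
    have h3 := mertens1_upper N hN
    have h4 := noncoprime_sum_le q N hq
    have h5 : ∑ n ∈ Ioc 0 N, Λ n / (n : ℝ) = ∑ n ∈ (Ioc 0 N).filter (fun n => Nat.Coprime n q), Λ n / n
        + ∑ n ∈ (Ioc 0 N).filter (fun n => ¬ Nat.Coprime n q), Λ n / n :=
      (sum_filter_add_sum_filter_not _ _ _).symm
    have h6 : 0 ≤ ∑ n ∈ (Ioc 0 N).filter (fun n => ¬ Nat.Coprime n q), Λ n / (n : ℝ) :=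
      sum_nonneg fun n _ => div_nonneg ArithmeticFunction.vonMangoldt_nonneg (by positivity)
    have h7 := cpp_nonneg
    have h8 := Real.log_natCast_nonneg q
    rw [abs_le]
    constructor <;> linarith
  have e2 : (((∑ n ∈ (Ioc 0 N).filter (fun n => n ≡ a [MOD q]), Λ n / n - Real.log N / q.totient : ℝ)) : ℂ)
      = (q.totient : ℂ)⁻¹ * ((((∑ n ∈ (Ioc 0 N).filter (fun n => Nat.Coprime n q), Λ n / n - Real.log N : ℝ)) : ℂ)
        + ∑ χ ∈ univ.erase (1 : DirichletCharacter ℂ q), χ (a : ZMod q)⁻¹ *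
        ∑ n ∈ Ioc 0 N, (Λ n / n) • χ (n : ZMod q)) := by
    rw [Complex.ofReal_sub, e1, ← add_sum_erase _ _ (mem_univ (1 : DirichletCharacter ℂ q)), h0]
    have : (1 : DirichletCharacter ℂ q) (a : ZMod q)⁻¹ = 1 := by
      apply MulChar.one_apply
      obtain ⟨u, hu⟩ := hau
      rw [← hu, ZMod.inv_coe_unit]
      exact Units.isUnit _
    rw [this]
    push_cast
    ring
  rw [← Real.norm_eq_abs, ← Complex.norm_real, e2, norm_mul, norm_inv, Complex.norm_natCast]
  have hφ1 : (1 : ℝ) ≤ q.totient := by exact_mod_cast Nat.totient_pos.mpr hq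
  have h2 : ‖(((∑ n ∈ (Ioc 0 N).filter (fun n => Nat.Coprime n q), Λ n / n - Real.log N : ℝ)) : ℂ)
        + ∑ χ ∈ univ.erase (1 : DirichletCharacter ℂ q), χ (a : ZMod q)⁻¹ *
        ∑ n ∈ Ioc 0 N, (Λ n / n) • χ (n : ZMod q)‖
      ≤ (7 + Real.log q + cpp) + ∑ χ : DirichletCharacter ℂ q, B χ := by
    refine (norm_add_le _ _).trans (add_le_add ?_ ?_)
    · rw [Complex.norm_real, Real.norm_eq_abs]; exact h1
    · calc _ ≤ ∑ χ ∈ univ.erase (1 : DirichletCharacter ℂ q), ‖χ (a : ZMod q)⁻¹ *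
            ∑ n ∈ Ioc 0 N, (Λ n / n) • χ (n : ZMod q)‖ := norm_sum_le _ _
        _ ≤ ∑ χ ∈ univ.erase (1 : DirichletCharacter ℂ q), B χ := by
            refine sum_le_sum fun χ hχ => ?_
            rw [norm_mul]
            calc _ ≤ 1 * B χ := by
                  apply mul_le_mul (χ.norm_le_one _) (hB χ (ne_of_mem_erase hχ) N) (norm_nonneg _) zero_le_one
              _ = _ := one_mul _
        _ ≤ _ := by
            apply sum_le_sum_of_subset_of_nonneg (subset_univ _)
            intro χ _ _; exact hB0 χ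
  calc _ ≤ 1 * ((7 + Real.log q + cpp) + ∑ χ : DirichletCharacter ℂ q, B χ) := by
        apply mul_le_mul _ h2 (norm_nonneg _) zero_le_one
        exact inv_le_one_of_one_le₀ hφ1
    _ = _ := by ring

end Pool.Agent.E456
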