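import Mathlib
import Pool.Agent.E456.MertensAP

/-!
# Equidistribution of `Λ₂(n)/n` in reduced residue classes
-/

namespace Pool.Agent.E456

open Finset
open scoped ArithmeticFunction.vonMangoldt ArithmeticFunction.zeta ArithmeticFunction.Moebius

/-- exchange of summation over divisor pairs -/
lemma sum_antidiag_swap (F : ℕ → ℕ → ℝ) (X : ℕ) :
    ∑ n ∈ Ioc 0 X, ∑ p ∈ n.divisorsAntidiagonal, F p.1 p.2
      = ∑ d ∈ Ioc 0 X, ∑ e ∈ Ioc 0 (X / d), F d e := by
  trans ∑ n ∈ Ioc 0 X, ∑ x ∈ (Ioc 0 X ×ˢ Ioc 0 X).filter (fun x => x.1 * x.2 = n), F x.1 x.2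
  · refine sum_congr rfl fun n hn ↦ ?_
    simp only [mem_Ioc] at hn
    rw [Nat.divisorsAntidiagonal_eq_prod_filter_of_le hn.1.ne' hn.2]
  · simp_rw [sum_filter]
    rw [sum_comm, sum_product]
    refine sum_congr rfl fun d hd => ?_
    simp only [mem_Ioc] at hd
    have h1 : ∀ e ∈ Ioc 0 X, (∑ n ∈ Ioc 0 X, if d * e = n then F d e else 0)
        = if e ∈ Ioc 0 (X / d) then F d e else 0 := by
      intro e he
      simp only [mem_Ioc] at he
      rw [Finset.sum_ite_eq]
      congr 1
      simp only [mem_Ioc, eq_iff_iff]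
      constructor
      · rintro ⟨_, h2⟩
        exact ⟨he.1, (Nat.le_div_iff_mul_le hd.1).mpr (by rw [mul_comm]; exact h2)⟩
      · rintro ⟨_, h2⟩
        exact ⟨Nat.mul_pos hd.1 he.1, by rw [mul_comm]; exact (Nat.le_div_iff_mul_le hd.1).mp h2⟩
    simp only
    rw [sum_congr rfl h1, ← sum_filter]
    refine sum_congr ?_ fun _ _ => rfl
    ext e
    simp only [mem_filter, mem_Ioc]
    constructor
    · exact fun h => h.2
    · exact fun h => ⟨⟨h.1, h.2.trans (Nat.div_le_self _ _)⟩, h⟩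

/-- Selberg's function `Λ₂ = Λ log + Λ * Λ` -/
noncomputable def L2 : ArithmeticFunction ℝ :=
  ArithmeticFunction.pmul Λ ArithmeticFunction.log + Λ * Λ

/-- `log²` -/
noncomputable def logsq : ArithmeticFunction ℝ :=
  ArithmeticFunction.pmul ArithmeticFunction.log ArithmeticFunction.log

lemma L2_apply (n : ℕ) : L2 n = Λ n * Real.log n + (Λ * Λ) n := by
  simp [L2, ArithmeticFunction.log_apply]

lemma L2_nonneg (n : ℕ) : 0 ≤ L2 n := by
  rw [L2_apply, ArithmeticFunction.mul_apply]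
  apply add_nonneg
  · exact mul_nonneg ArithmeticFunction.vonMangoldt_nonneg (Real.log_natCast_nonneg n)
  · exact sum_nonneg fun _ _ => mul_nonneg ArithmeticFunction.vonMangoldt_nonneg
      ArithmeticFunction.vonMangoldt_nonneg

lemma L2_mul_zeta : L2 * (ζ : ArithmeticFunction ℝ) = logsq := by
  ext n
  rw [L2, add_mul, mul_assoc, ArithmeticFunction.vonMangoldt_mul_zeta, ArithmeticFunction.add_apply,
    ArithmeticFunction.mul_apply, ArithmeticFunction.mul_apply, ← sum_add_distrib]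
  rcases Nat.eq_zero_or_pos n with hn | hn
  · subst hn; simp [logsq]
  have : ∀ p ∈ n.divisorsAntidiagonal,
      (ArithmeticFunction.pmul Λ ArithmeticFunction.log) p.1 * (ζ : ArithmeticFunction ℝ) p.2
        + Λ p.1 * ArithmeticFunction.log p.2 = Λ p.1 * Real.log n := by
    intro p hp
    rw [Nat.mem_divisorsAntidiagonal] at hp
    have hp1 : p.1 ≠ 0 := by
      rintro h; rw [h, zero_mul] at hp; exact hp.2 hp.1.symm
    have hp2 : p.2 ≠ 0 := by
      rintro h; rw [h, mul_zero] at hp; exact hp.2 hp.1.symm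
    have h1 : (n : ℝ) = p.1 * p.2 := by exact_mod_cast hp.1.symm
    rw [h1, Real.log_mul (by exact_mod_cast hp1) (by exact_mod_cast hp2)]
    simp only [ArithmeticFunction.pmul_apply, ArithmeticFunction.log_apply,
      ArithmeticFunction.natCoe_apply, ArithmeticFunction.zeta_apply, if_neg hp2]
    push_cast
    ring
  rw [sum_congr rfl this, ← sum_mul]
  have h2 : ∑ p ∈ n.divisorsAntidiagonal, Λ p.1 = Real.log n := by
    rw [← ArithmeticFunction.vonMangoldt_sum, ← Nat.map_div_right_divisors, sum_map]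
    rfl
  rw [h2]
  simp [logsq, ArithmeticFunction.log_apply]

lemma L2_eq : L2 = (μ : ArithmeticFunction ℝ) * logsq := by
  rw [← L2_mul_zeta, mul_comm, mul_assoc, ArithmeticFunction.coe_zeta_mul_coe_moebius, mul_one]

/-- the weight `log² e / e` -/
noncomputable def gg (e : ℕ) : ℝ := (Real.log e) ^ 2 / e

lemma gg_nonneg (e : ℕ) : 0 ≤ gg e := by unfold gg; positivity

lemma gg_le (e : ℕ) : gg e ≤ 4 := by
  unfold gg
  rcases Nat.eq_zero_or_pos e with he | he
  · subst he; simp
  have he' : (1 : ℝ) ≤ e := by exact_mod_cast he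
  have hs : 0 < Real.sqrt e := Real.sqrt_pos.mpr (by linarith)
  have h1 : Real.log e = 2 * Real.log (Real.sqrt e) := by
    rw [Real.log_sqrt (by linarith)]; ring
  have h2 := Real.log_le_sub_one_of_pos hs
  have h3 : 0 ≤ Real.log e := Real.log_nonneg he'
  have h4 : Real.log e ≤ 2 * Real.sqrt e := by linarith
  rw [div_le_iff₀ (by linarith)]
  calc Real.log e ^ 2 ≤ (2 * Real.sqrt e) ^ 2 := by gcongr
    _ = 4 * (Real.sqrt e) ^ 2 := by ring
    _ = 4 * e := by rw [Real.sq_sqrt (by linarith)]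

lemma gg_anti (n : ℕ) (hn : 8 ≤ n) : gg (n + 1) ≤ gg n := by
  have hn' : (8 : ℝ) ≤ n := by exact_mod_cast hn
  have he := Real.exp_one_lt_d9
  have he2 : Real.exp 2 ≤ 8 := by
    have : Real.exp 2 = Real.exp 1 ^ 2 := by rw [← Real.exp_nat_mul]; norm_num
    rw [this]
    have := Real.exp_pos 1
    nlinarith
  have h1 := Real.log_div_sqrt_antitoneOn (a := (n : ℝ)) (b := ((n + 1 : ℕ) : ℝ))
    (by simp only [Set.mem_Ici]; linarith) (by simp only [Set.mem_Ici]; push_cast; linarith)
    (by push_cast; linarith)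
  simp only at h1
  have e1 : ∀ m : ℕ, gg m = (Real.log m / Real.sqrt m) ^ 2 := by
    intro m
    unfold gg
    rw [div_pow, Real.sq_sqrt (by positivity)]
  rw [e1, e1]
  have h2 : 0 ≤ Real.log ((n + 1 : ℕ) : ℝ) / Real.sqrt ((n + 1 : ℕ) : ℝ) :=
    div_nonneg (Real.log_natCast_nonneg _) (Real.sqrt_nonneg _)
  exact pow_le_pow_left₀ h2 h1 2

/-- comparison of two residue classes -/
lemma E_compare (q r r' y : ℕ) (hq : 7 ≤ q) :
    |∑ e ∈ (Ioc 0 y).filter (fun e => e ≡ r [MOD q]), gg e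
      - ∑ e ∈ (Ioc 0 y).filter (fun e => e ≡ r' [MOD q]), gg e|
    ≤ ∑ e ∈ (Ioc 0 q).filter (fun e => e ≡ r [MOD q]), gg e
      + ∑ e ∈ (Ioc 0 q).filter (fun e => e ≡ r' [MOD q]), gg e + 2 * gg (q + 1) := by
  have hnn : ∀ (s : Finset ℕ), 0 ≤ ∑ e ∈ s, gg e := fun s => sum_nonneg fun e _ => gg_nonneg e
  rcases Nat.lt_or_ge y q with hy | hy
  · have hsub : ∀ r, ∑ e ∈ (Ioc 0 y).filter (fun e => e ≡ r [MOD q]), gg e
        ≤ ∑ e ∈ (Ioc 0 q).filter (fun e => e ≡ r [MOD q]), gg e := by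
      intro r
      apply sum_le_sum_of_subset_of_nonneg
      · intro x hx; simp only [mem_filter, mem_Ioc] at hx ⊢; exact ⟨⟨hx.1.1, by omega⟩, hx.2⟩
      · intro _ _ _; exact gg_nonneg _
    have h1 := hsub r
    have h2 := hsub r'
    have h3 := hnn ((Ioc 0 y).filter (fun e => e ≡ r [MOD q]))
    have h4 := hnn ((Ioc 0 y).filter (fun e => e ≡ r' [MOD q]))
    have h5 := gg_nonneg (q + 1)
    rw [abs_le]
    constructor <;> linarith
  · have hsplit : ∀ r, ∑ e ∈ (Ioc 0 y).filter (fun e => e ≡ r [MOD q]), gg e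
        = ∑ e ∈ (Ioc 0 q).filter (fun e => e ≡ r [MOD q]), gg e
          + ∑ e ∈ (Ioc q y).filter (fun e => e ≡ r [MOD q]), gg e := by
      intro r
      rw [← Ioc_union_Ioc_eq_Ioc (Nat.zero_le q) hy, filter_union, sum_union]
      rw [Finset.disjoint_left]; intro x hx hx'; simp only [mem_filter, mem_Ioc] at hx hx'; omega
    have h1 := abel_bound (E := ℝ) (fun n => (if n ≡ r [MOD q] then (1 : ℝ) else 0)
      - (if n ≡ r' [MOD q] then (1 : ℝ) else 0)) gg q y 2 hy (fun n _ => gg_nonneg n)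
      (fun n hn => gg_anti n (by omega))
      (by
        intro t hqt _
        have h2 := card_Ioc_modEq q t q r (by omega) hqt
        have h3 := card_Ioc_modEq q t q r' (by omega) hqt
        rw [sum_sub_distrib, ← sum_filter, ← sum_filter, sum_const, sum_const, nsmul_eq_mul,
          nsmul_eq_mul, mul_one, mul_one, Real.norm_eq_abs]
        rw [abs_le] at h2 h3 ⊢
        constructor <;> linarith [h2.1, h2.2, h3.1, h3.2])
    have e1 : ∑ n ∈ Ioc q y, gg n • ((if n ≡ r [MOD q] then (1 : ℝ) else 0)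
        - (if n ≡ r' [MOD q] then (1 : ℝ) else 0))
        = ∑ e ∈ (Ioc q y).filter (fun e => e ≡ r [MOD q]), gg e
          - ∑ e ∈ (Ioc q y).filter (fun e => e ≡ r' [MOD q]), gg e := by
      rw [sum_filter, sum_filter, ← sum_sub_distrib]
      refine sum_congr rfl fun n _ => ?_
      simp only [smul_eq_mul]
      split_ifs <;> ring
    rw [e1, Real.norm_eq_abs] at h1
    have h3 := hnn ((Ioc 0 q).filter (fun e => e ≡ r [MOD q]))
    have h4 := hnn ((Ioc 0 q).filter (fun e => e ≡ r' [MOD q]))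
    rw [hsplit r, hsplit r']
    rw [abs_le] at h1 ⊢
    constructor <;> linarith [h1.1, h1.2]

/-- For `d` coprime to `q`, there is `r` with `{e : d e ≡ c} = {e : e ≡ r}`. -/
lemma exists_inv_class (q d c : ℕ) (hq : 0 < q) (hd : Nat.Coprime d q) :
    ∃ r, ∀ e, d * e ≡ c [MOD q] ↔ e ≡ r [MOD q] := by
  obtain ⟨r, hr⟩ : ∃ r, d * r ≡ c [MOD q] := by
    obtain ⟨m, hm⟩ := Nat.exists_mul_mod_eq_of_coprime c hd hq.ne'
    exact ⟨m, hm.2⟩
  refine ⟨r, fun e => ⟨fun h => ?_, fun h => ?_⟩⟩
  · have h1 : d * e ≡ d * r [MOD q] := h.trans hr.symm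
    exact Nat.ModEq.cancel_left_of_coprime (by rw [Nat.coprime_comm] at hd; exact hd) h1
  · exact (h.mul_left d).trans hr

lemma harmonic_le (N : ℕ) : ∑ n ∈ Ioc 0 N, (1 : ℝ) / n ≤ 1 + Real.log N := by
  rcases Nat.eq_zero_or_pos N with hN | hN
  · subst hN; simp
  have hU : Ioc 0 N = insert 1 (Ioc 1 N) := by
    ext x; simp only [mem_Ioc, mem_insert]; omega
  rw [hU, sum_insert (by simp)]
  have := harmonic_upper 1 N one_pos hN
  simp only [Nat.cast_one, div_one] at this ⊢
  linarith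

lemma sum_class_inv_le (q X s : ℕ) (hq : 0 < q) :
    ∑ d ∈ (Ioc 0 X).filter (fun d => d ≡ s [MOD q]), (1 : ℝ) / d
      ≤ ∑ d ∈ (Ioc 0 q).filter (fun d => d ≡ s [MOD q]), (1 : ℝ) / d + (Real.log X + 2) / q := by
  have hq' : (0 : ℝ) < q := by exact_mod_cast hq
  have hX := Real.log_natCast_nonneg X
  rcases Nat.lt_or_ge X q with hy | hy
  · have : ∑ d ∈ (Ioc 0 X).filter (fun d => d ≡ s [MOD q]), (1 : ℝ) / d
        ≤ ∑ d ∈ (Ioc 0 q).filter (fun d => d ≡ s [MOD q]), (1 : ℝ) / d := by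
      apply sum_le_sum_of_subset_of_nonneg
      · intro x hx; simp only [mem_filter, mem_Ioc] at hx ⊢; exact ⟨⟨hx.1.1, by omega⟩, hx.2⟩
      · intro _ _ _; positivity
    have : 0 ≤ (Real.log X + 2) / q := by positivity
    linarith
  · rw [← Ioc_union_Ioc_eq_Ioc (Nat.zero_le q) hy, filter_union, sum_union]
    · have h1 := (abs_le.mp (harmonic_AP q X q s hq hy hq)).2
      have hX' : (0 : ℝ) < X := by exact_mod_cast (by omega : 0 < X)
      have h2 : Real.log (X / q) ≤ Real.log X := by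
        rw [Real.log_div hX'.ne' hq'.ne']
        have := Real.log_natCast_nonneg q
        linarith
      have h3 : Real.log (X / q) / q ≤ Real.log X / q := by gcongr
      have h4 : (Real.log X + 2) / q = Real.log X / q + 2 / q := by ring
      linarith
    · rw [Finset.disjoint_left]; intro x hx hx'; simp only [mem_filter, mem_Ioc] at hx hx'; omega

lemma card_class_Ioc_le_one (q r : ℕ) (_hq : 0 < q) :
    ((Ioc 0 q).filter (fun e => e ≡ r [MOD q])).card ≤ 1 := by
  rw [Finset.card_le_one]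
  intro a ha b hb
  simp only [mem_filter, mem_Ioc] at ha hb
  have h1 : a ≡ b [MOD q] := ha.2.trans hb.2.symm
  by_contra hne
  rcases Nat.lt_or_gt_of_ne hne with h | h
  · have h2 := (Nat.modEq_iff_dvd' h.le).mp h1
    have := Nat.le_of_dvd (by omega) h2
    omega
  · have h2 := (Nat.modEq_iff_dvd' h.le).mp h1.symm
    have := Nat.le_of_dvd (by omega) h2
    omega

lemma not_modEq_of_not_coprime (q d e c : ℕ) (hc : Nat.Coprime c q) (hd : ¬ Nat.Coprime d q) :
    ¬ (d * e ≡ c [MOD q]) := by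
  intro h
  apply hd
  have h1 : Nat.gcd (d * e) q = Nat.gcd c q := h.gcd_eq
  rw [hc] at h1
  exact Nat.Coprime.coprime_mul_right h1

lemma inner_sum_bound (q X c : ℕ) (hq : 0 < q) (hc : Nat.Coprime c q) :
    ∑ d ∈ Ioc 0 X, (1 : ℝ) / d * ∑ e ∈ (Ioc 0 q).filter (fun e => d * e ≡ c [MOD q]), gg e
      ≤ 4 * (1 + Real.log q) + (Real.log X + 2) / q * (1 + Real.log q) ^ 3 := by
  have hq' : (0 : ℝ) < q := by exact_mod_cast hq
  have hlq := Real.log_natCast_nonneg q
  have hlX := Real.log_natCast_nonneg X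
  have e1 : ∀ Z : ℕ, ∑ d ∈ Ioc 0 Z, (1 : ℝ) / d * ∑ e ∈ (Ioc 0 q).filter (fun e => d * e ≡ c [MOD q]), gg e
      = ∑ e ∈ Ioc 0 q, gg e * ∑ d ∈ (Ioc 0 Z).filter (fun d => d * e ≡ c [MOD q]), (1 : ℝ) / d := by
    intro Z
    have : ∀ d ∈ Ioc 0 Z, (1 : ℝ) / d * ∑ e ∈ (Ioc 0 q).filter (fun e => d * e ≡ c [MOD q]), gg e
        = ∑ e ∈ Ioc 0 q, if d * e ≡ c [MOD q] then gg e * (1 / d) else 0 := by
      intro d _
      rw [mul_sum, sum_filter]
      refine sum_congr rfl fun e _ => ?_
      split_ifs <;> ring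
    rw [sum_congr rfl this, sum_comm]
    refine sum_congr rfl fun e _ => ?_
    rw [mul_sum, sum_filter]
  have h1 : ∀ e ∈ Ioc 0 q, gg e * ∑ d ∈ (Ioc 0 X).filter (fun d => d * e ≡ c [MOD q]), (1 : ℝ) / d
      ≤ gg e * ∑ d ∈ (Ioc 0 q).filter (fun d => d * e ≡ c [MOD q]), (1 : ℝ) / d
        + gg e * ((Real.log X + 2) / q) := by
    intro e _
    rw [← mul_add]
    apply mul_le_mul_of_nonneg_left _ (gg_nonneg e)
    by_cases he : Nat.Coprime e q
    · obtain ⟨s, hs⟩ := exists_inv_class q e c hq he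
      have h2 : ∀ Z : ℕ, (Ioc 0 Z).filter (fun d => d * e ≡ c [MOD q])
          = (Ioc 0 Z).filter (fun d => d ≡ s [MOD q]) := by
        intro Z
        ext d
        simp only [mem_filter]
        rw [mul_comm d e, hs d]
      rw [h2, h2]
      exact sum_class_inv_le q X s hq
    · have h2 : ∀ Z : ℕ, (Ioc 0 Z).filter (fun d => d * e ≡ c [MOD q]) = ∅ := by
        intro Z
        ext d
        simp only [mem_filter, notMem_empty, iff_false, not_and]
        intro _
        rw [mul_comm]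
        exact not_modEq_of_not_coprime q e d c hc he
      rw [h2, h2]
      simp only [sum_empty, zero_add]
      positivity
  rw [e1 X]
  refine (sum_le_sum h1).trans ?_
  rw [sum_add_distrib, ← e1 q, ← sum_mul]
  have h3 : ∑ d ∈ Ioc 0 q, (1 : ℝ) / d * ∑ e ∈ (Ioc 0 q).filter (fun e => d * e ≡ c [MOD q]), gg e
      ≤ 4 * (1 + Real.log q) := by
    calc _ ≤ ∑ d ∈ Ioc 0 q, (1 : ℝ) / d * 4 := by
          refine sum_le_sum fun d _ => ?_
          apply mul_le_mul_of_nonneg_left _ (by positivity)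
          have hcard : ((Ioc 0 q).filter (fun e => d * e ≡ c [MOD q])).card ≤ 1 := by
            by_cases hd : Nat.Coprime d q
            · obtain ⟨r, hr⟩ := exists_inv_class q d c hq hd
              have : (Ioc 0 q).filter (fun e => d * e ≡ c [MOD q])
                  = (Ioc 0 q).filter (fun e => e ≡ r [MOD q]) := by
                ext e; simp only [mem_filter]; rw [hr e]
              rw [this]
              exact card_class_Ioc_le_one q r hq
            · have : (Ioc 0 q).filter (fun e => d * e ≡ c [MOD q]) = ∅ := by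
                ext e
                simp only [mem_filter, notMem_empty, iff_false, not_and]
                intro _
                exact not_modEq_of_not_coprime q d e c hc hd
              rw [this]; simp
          calc _ ≤ ∑ _e ∈ (Ioc 0 q).filter (fun e => d * e ≡ c [MOD q]), (4 : ℝ) :=
                sum_le_sum fun e _ => gg_le e
            _ = (((Ioc 0 q).filter (fun e => d * e ≡ c [MOD q])).card : ℝ) * 4 := by
                rw [sum_const, nsmul_eq_mul]
            _ ≤ 1 * 4 := by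
                gcongr
                exact_mod_cast hcard
            _ = 4 := by norm_num
      _ = (∑ d ∈ Ioc 0 q, (1 : ℝ) / d) * 4 := by rw [sum_mul]
      _ ≤ (1 + Real.log q) * 4 := by
          gcongr
          exact harmonic_le q
      _ = _ := by ring
  have h4 : ∑ e ∈ Ioc 0 q, gg e ≤ (1 + Real.log q) ^ 3 := by
    calc ∑ e ∈ Ioc 0 q, gg e ≤ ∑ e ∈ Ioc 0 q, (Real.log q) ^ 2 * ((1 : ℝ) / e) := by
          refine sum_le_sum fun e he => ?_
          rw [mem_Ioc] at he
          have he0 : (0 : ℝ) < e := by exact_mod_cast he.1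
          have h5 : Real.log e ≤ Real.log q := Real.log_le_log he0 (by exact_mod_cast he.2)
          have h6 := Real.log_natCast_nonneg e
          unfold gg
          rw [div_eq_mul_one_div]
          gcongr
      _ = (Real.log q) ^ 2 * ∑ e ∈ Ioc 0 q, (1 : ℝ) / e := by rw [mul_sum]
      _ ≤ (Real.log q) ^ 2 * (1 + Real.log q) := by
          gcongr
          exact harmonic_le q
      _ ≤ (1 + Real.log q) ^ 2 * (1 + Real.log q) := by
          gcongr
          linarith
      _ = _ := by ring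
  have h5 : (∑ e ∈ Ioc 0 q, gg e) * ((Real.log X + 2) / q) ≤ (Real.log X + 2) / q * (1 + Real.log q) ^ 3 := by
    rw [mul_comm]
    gcongr
  linarith

/-- sum of `Λ₂(m)/m` in a residue class -/
noncomputable def SL (q X c : ℕ) : ℝ := ∑ m ∈ (Ioc 0 X).filter (fun m => m ≡ c [MOD q]), L2 m / m

lemma SL_eq (q X c : ℕ) :
    SL q X c = ∑ d ∈ Ioc 0 X, (μ d : ℝ) / d *
      ∑ e ∈ (Ioc 0 (X / d)).filter (fun e => d * e ≡ c [MOD q]), gg e := by
  unfold SL
  have h1 : ∀ m ∈ Ioc 0 X, (if m ≡ c [MOD q] then L2 m / m else 0)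
      = ∑ p ∈ m.divisorsAntidiagonal, (fun d e : ℕ => if d * e ≡ c [MOD q] then
          (μ d : ℝ) / d * gg e else 0) p.1 p.2 := by
    intro m hm
    have hm0 : 0 < m := (mem_Ioc.mp hm).1
    have h2 : L2 m / m = ∑ p ∈ m.divisorsAntidiagonal, (μ p.1 : ℝ) / p.1 * gg p.2 := by
      rw [L2_eq, ArithmeticFunction.mul_apply, sum_div]
      refine sum_congr rfl fun p hp => ?_
      rw [Nat.mem_divisorsAntidiagonal] at hp
      have h1 : ((p.1 : ℕ) : ℝ) * p.2 = m := by exact_mod_cast hp.1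
      have hp1 : (p.1 : ℝ) ≠ 0 := by
        intro h; rw [h, zero_mul] at h1
        exact hm0.ne' (by exact_mod_cast h1.symm)
      have hp2 : (p.2 : ℝ) ≠ 0 := by
        intro h; rw [h, mul_zero] at h1
        exact hm0.ne' (by exact_mod_cast h1.symm)
      rw [← h1]
      simp only [logsq, ArithmeticFunction.pmul_apply, ArithmeticFunction.log_apply,
        ArithmeticFunction.intCoe_apply, gg]
      field_simp
    by_cases hc : m ≡ c [MOD q]
    · rw [if_pos hc, h2]
      refine sum_congr rfl fun p hp => ?_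
      rw [Nat.mem_divisorsAntidiagonal] at hp
      simp only
      rw [hp.1, if_pos hc]
    · rw [if_neg hc]
      symm
      refine sum_eq_zero fun p hp => ?_
      rw [Nat.mem_divisorsAntidiagonal] at hp
      simp only
      rw [hp.1, if_neg hc]
  rw [sum_filter, sum_congr rfl h1]
  rw [sum_antidiag_swap (fun d e : ℕ => if d * e ≡ c [MOD q] then (μ d : ℝ) / d * gg e else 0) X]
  refine sum_congr rfl fun d _ => ?_
  rw [mul_sum, sum_filter]

/-- comparison between two reduced classes -/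
lemma SL_compare (q X c c' : ℕ) (hq : 7 ≤ q) (hc : Nat.Coprime c q) (hc' : Nat.Coprime c' q) :
    |SL q X c - SL q X c'| ≤ 2 * (4 * (1 + Real.log q) + (Real.log X + 2) / q * (1 + Real.log q) ^ 3)
      + 2 * gg (q + 1) * (1 + Real.log X) := by
  have hq0 : 0 < q := by omega
  rw [SL_eq, SL_eq, ← sum_sub_distrib]
  have h1 : ∀ d ∈ Ioc 0 X, |(μ d : ℝ) / d * ∑ e ∈ (Ioc 0 (X / d)).filter (fun e => d * e ≡ c [MOD q]), gg e
      - (μ d : ℝ) / d * ∑ e ∈ (Ioc 0 (X / d)).filter (fun e => d * e ≡ c' [MOD q]), gg e|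
      ≤ (1 : ℝ) / d * ∑ e ∈ (Ioc 0 q).filter (fun e => d * e ≡ c [MOD q]), gg e
        + (1 : ℝ) / d * ∑ e ∈ (Ioc 0 q).filter (fun e => d * e ≡ c' [MOD q]), gg e
        + 2 * gg (q + 1) * ((1 : ℝ) / d) := by
    intro d hd
    have hd0 : (0 : ℝ) < d := by exact_mod_cast (mem_Ioc.mp hd).1
    rw [← mul_sub, abs_mul]
    have hμ : |(μ d : ℝ) / d| ≤ 1 / d := by
      rw [abs_div, abs_of_pos hd0]
      apply div_le_div_of_nonneg_right _ hd0.le
      exact_mod_cast ArithmeticFunction.abs_moebius_le_one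
    have h2 : |∑ e ∈ (Ioc 0 (X / d)).filter (fun e => d * e ≡ c [MOD q]), gg e
        - ∑ e ∈ (Ioc 0 (X / d)).filter (fun e => d * e ≡ c' [MOD q]), gg e|
        ≤ ∑ e ∈ (Ioc 0 q).filter (fun e => d * e ≡ c [MOD q]), gg e
          + ∑ e ∈ (Ioc 0 q).filter (fun e => d * e ≡ c' [MOD q]), gg e + 2 * gg (q + 1) := by
      by_cases hdq : Nat.Coprime d q
      · obtain ⟨r, hr⟩ := exists_inv_class q d c hq0 hdq
        obtain ⟨r', hr'⟩ := exists_inv_class q d c' hq0 hdq
        have e1 : ∀ Z : ℕ, (Ioc 0 Z).filter (fun e => d * e ≡ c [MOD q])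
            = (Ioc 0 Z).filter (fun e => e ≡ r [MOD q]) := by
          intro Z; ext e; simp only [mem_filter]; rw [hr e]
        have e2 : ∀ Z : ℕ, (Ioc 0 Z).filter (fun e => d * e ≡ c' [MOD q])
            = (Ioc 0 Z).filter (fun e => e ≡ r' [MOD q]) := by
          intro Z; ext e; simp only [mem_filter]; rw [hr' e]
        rw [e1, e2, e1, e2]
        exact E_compare q r r' (X / d) hq
      · have e1 : ∀ Z : ℕ, (Ioc 0 Z).filter (fun e => d * e ≡ c [MOD q]) = ∅ := by
          intro Z; ext e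
          simp only [mem_filter, notMem_empty, iff_false, not_and]
          intro _
          exact not_modEq_of_not_coprime q d e c hc hdq
        have e2 : ∀ Z : ℕ, (Ioc 0 Z).filter (fun e => d * e ≡ c' [MOD q]) = ∅ := by
          intro Z; ext e
          simp only [mem_filter, notMem_empty, iff_false, not_and]
          intro _
          exact not_modEq_of_not_coprime q d e c' hc' hdq
        rw [e1, e2, e1, e2]
        have := gg_nonneg (q + 1)
        simp only [sum_empty, sub_self, abs_zero, zero_add]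
        positivity
    calc _ ≤ (1 / d : ℝ) * (∑ e ∈ (Ioc 0 q).filter (fun e => d * e ≡ c [MOD q]), gg e
          + ∑ e ∈ (Ioc 0 q).filter (fun e => d * e ≡ c' [MOD q]), gg e + 2 * gg (q + 1)) :=
          mul_le_mul hμ h2 (abs_nonneg _) (by positivity)
      _ = _ := by ring
  refine (abs_sum_le_sum_abs _ _).trans ((sum_le_sum h1).trans ?_)
  rw [sum_add_distrib, sum_add_distrib, ← mul_sum]
  have h2 := inner_sum_bound q X c hq0 hc
  have h3 := inner_sum_bound q X c' hq0 hc'
  have h4 := harmonic_le X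
  have h5 := gg_nonneg (q + 1)
  have h6 : 2 * gg (q + 1) * ∑ i ∈ Ioc 0 X, (1 : ℝ) / i ≤ 2 * gg (q + 1) * (1 + Real.log X) := by
    gcongr
  linarith

/-- reduced residues -/
def RR (q : ℕ) : Finset ℕ := (range q).filter (fun c => Nat.Coprime c q)

lemma card_RR (q : ℕ) : (RR q).card = q.totient := by
  unfold RR
  rw [Nat.totient_eq_card_coprime]
  congr 1
  ext x
  simp only [mem_filter]
  rw [Nat.coprime_comm]

/-- partition into reduced classes -/
lemma sum_RR (q : ℕ) (hq : 0 < q) (s : Finset ℕ) (F : ℕ → ℝ) :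
    ∑ c ∈ RR q, ∑ m ∈ s.filter (fun m => m ≡ c [MOD q]), F m
      = ∑ m ∈ s.filter (fun m => Nat.Coprime m q), F m := by
  have h1 : ∀ c ∈ RR q, ∑ m ∈ s.filter (fun m => m ≡ c [MOD q]), F m
      = ∑ m ∈ s, if m ≡ c [MOD q] then F m else 0 := fun c _ => sum_filter _ _
  rw [sum_congr rfl h1, sum_comm, sum_filter]
  refine sum_congr rfl fun m _ => ?_
  by_cases hm : Nat.Coprime m q
  · rw [if_pos hm, Finset.sum_eq_single (m % q)]
    · rw [if_pos (Nat.mod_modEq m q).symm]
    · intro c hc hne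
      rw [if_neg]
      intro h
      apply hne
      have : m % q = c % q := h
      simp only [RR, mem_filter, mem_range] at hc
      rw [this, Nat.mod_eq_of_lt hc.1]
    · intro h
      exfalso
      apply h
      simp only [RR, mem_filter, mem_range]
      refine ⟨Nat.mod_lt m hq, ?_⟩
      have : Nat.gcd (m % q) q = Nat.gcd m q := (Nat.mod_modEq m q).gcd_eq
      rw [Nat.Coprime, this]; exact hm
  · rw [if_neg hm]
    refine sum_eq_zero fun c hc => ?_
    rw [if_neg]
    intro h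
    apply hm
    simp only [RR, mem_filter, mem_range] at hc
    rw [Nat.Coprime, h.gcd_eq]; exact hc.2

/-- Mertens 1 coprime to `q` -/
lemma mertens1_coprime (q N : ℕ) (hq : 0 < q) (hN : 1 ≤ N) :
    |∑ n ∈ (Ioc 0 N).filter (fun n => Nat.Coprime n q), Λ n / n - Real.log N|
      ≤ 7 + Real.log q + cpp := by
  have h2 := mertens1_lower N hN
  have h3 := mertens1_upper N hN
  have h4 := noncoprime_sum_le q N hq
  have h5 : ∑ n ∈ Ioc 0 N, Λ n / (n : ℝ) = ∑ n ∈ (Ioc 0 N).filter (fun n => Nat.Coprime n q), Λ n / n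
      + ∑ n ∈ (Ioc 0 N).filter (fun n => ¬ Nat.Coprime n q), Λ n / n :=
    (sum_filter_add_sum_filter_not _ _ _).symm
  have h6 : 0 ≤ ∑ n ∈ (Ioc 0 N).filter (fun n => ¬ Nat.Coprime n q), Λ n / (n : ℝ) :=
    sum_nonneg fun n _ => div_nonneg ArithmeticFunction.vonMangoldt_nonneg (by positivity)
  have h7 := cpp_nonneg
  have h8 := Real.log_natCast_nonneg q
  rw [abs_le]
  constructor <;> linarith

/-- total mass of `Λ₂(m)/m`, `m` coprime to `q` -/
lemma L2_total (q X : ℕ) (hq : 0 < q) (hX : 1 ≤ X) :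
    |∑ m ∈ (Ioc 0 X).filter (fun m => Nat.Coprime m q), L2 m / m - (Real.log X) ^ 2|
      ≤ (8 + Real.log q + cpp) * (2 * Real.log X + (7 + Real.log q + cpp)) := by
  set E : ℝ := 7 + Real.log q + cpp with hE
  have hlq := Real.log_natCast_nonneg q
  have hlX := Real.log_natCast_nonneg X
  have hcpp := cpp_nonneg
  have hE0 : 0 ≤ E := by rw [hE]; linarith
  set MX : ℝ := ∑ n ∈ (Ioc 0 X).filter (fun n => Nat.Coprime n q), Λ n / n with hMX
  have hM1 := mertens1_coprime q X hq hX
  rw [← hMX, ← hE] at hM1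
  -- rewrite the sum
  have e1 : ∑ m ∈ (Ioc 0 X).filter (fun m => Nat.Coprime m q), L2 m / (m : ℝ)
      = ∑ a ∈ (Ioc 0 X).filter (fun a => Nat.Coprime a q), Λ a / a *
        (Real.log a + ∑ b ∈ (Ioc 0 (X / a)).filter (fun b => Nat.Coprime b q), Λ b / b) := by
    have h1 : ∀ m ∈ Ioc 0 X, (if Nat.Coprime m q then (Λ * Λ) m / (m : ℝ) else 0)
        = ∑ p ∈ m.divisorsAntidiagonal, (fun a b : ℕ => if Nat.Coprime a q then (if Nat.Coprime b q then
          Λ a / a * (Λ b / b) else 0) else 0) p.1 p.2 := by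
      intro m hm
      have hm0 : 0 < m := (mem_Ioc.mp hm).1
      rw [ArithmeticFunction.mul_apply, sum_div]
      by_cases hc : Nat.Coprime m q
      · rw [if_pos hc]
        refine sum_congr rfl fun p hp => ?_
        rw [Nat.mem_divisorsAntidiagonal] at hp
        have h1 : ((p.1 : ℕ) : ℝ) * p.2 = m := by exact_mod_cast hp.1
        have hp1 : (p.1 : ℝ) ≠ 0 := by
          intro h; rw [h, zero_mul] at h1
          exact hm0.ne' (by exact_mod_cast h1.symm)
        have hp2 : (p.2 : ℝ) ≠ 0 := by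
          intro h; rw [h, mul_zero] at h1
          exact hm0.ne' (by exact_mod_cast h1.symm)
        rw [← hp.1] at hc
        rw [Nat.coprime_mul_iff_left] at hc
        simp only
        rw [if_pos hc.1, if_pos hc.2, ← h1]
        field_simp
      · rw [if_neg hc]
        symm
        refine sum_eq_zero fun p hp => ?_
        rw [Nat.mem_divisorsAntidiagonal] at hp
        rw [← hp.1, Nat.coprime_mul_iff_left] at hc
        simp only
        split_ifs with h1 h2
        · exact absurd ⟨h1, h2⟩ hc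
        · rfl
        · rfl
    have h2 : ∑ m ∈ (Ioc 0 X).filter (fun m => Nat.Coprime m q), (Λ * Λ) m / (m : ℝ)
        = ∑ a ∈ (Ioc 0 X).filter (fun a => Nat.Coprime a q), Λ a / a *
        (∑ b ∈ (Ioc 0 (X / a)).filter (fun b => Nat.Coprime b q), Λ b / b) := by
      rw [sum_filter, sum_congr rfl h1]
      rw [sum_antidiag_swap (fun a b : ℕ => if Nat.Coprime a q then (if Nat.Coprime b q then
          Λ a / a * (Λ b / b) else 0) else 0) X, sum_filter]
      refine sum_congr rfl fun a _ => ?_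
      split_ifs
      · rw [mul_sum, sum_filter]
      · simp
    have h3 : ∑ m ∈ (Ioc 0 X).filter (fun m => Nat.Coprime m q), L2 m / (m : ℝ)
        = ∑ m ∈ (Ioc 0 X).filter (fun m => Nat.Coprime m q), Λ m / m * Real.log m
          + ∑ m ∈ (Ioc 0 X).filter (fun m => Nat.Coprime m q), (Λ * Λ) m / (m : ℝ) := by
      rw [← sum_add_distrib]
      refine sum_congr rfl fun m _ => ?_
      rw [L2_apply]; ring
    rw [h3, h2, ← sum_add_distrib]
    refine sum_congr rfl fun a _ => ?_
    ring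
  have h1 : ∀ a ∈ (Ioc 0 X).filter (fun a => Nat.Coprime a q),
      |(Real.log a + ∑ b ∈ (Ioc 0 (X / a)).filter (fun b => Nat.Coprime b q), Λ b / b) - Real.log X|
      ≤ 1 + E := by
    intro a ha
    simp only [mem_filter, mem_Ioc] at ha
    have ha0 : (0 : ℝ) < a := by exact_mod_cast ha.1.1
    have hXa : 1 ≤ X / a := (Nat.one_le_div_iff ha.1.1).mpr ha.1.2
    have h2 := mertens1_coprime q (X / a) hq hXa
    have hXa' : (1 : ℝ) ≤ ((X / a : ℕ) : ℝ) := by exact_mod_cast hXa
    have h3 : ((X / a : ℕ) : ℝ) ≤ (X : ℝ) / a := Nat.cast_div_le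
    have h4 : (X : ℝ) / a ≤ 2 * ((X / a : ℕ) : ℝ) := by
      have := Nat.lt_div_mul_add ha.1.1 (a := X)
      have h : (X : ℝ) < (X / a : ℕ) * a + a := by exact_mod_cast this
      rw [div_le_iff₀ ha0]
      nlinarith
    have h5 : Real.log ((X / a : ℕ) : ℝ) ≤ Real.log ((X : ℝ) / a) := Real.log_le_log (by linarith) h3
    have h6 : Real.log ((X : ℝ) / a) ≤ Real.log 2 + Real.log ((X / a : ℕ) : ℝ) := by
      rw [← Real.log_mul (by norm_num) (by linarith)]
      apply Real.log_le_log _ h4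
      have hX0 : (0 : ℝ) < X := by exact_mod_cast hX
      positivity
    have h7 : Real.log ((X : ℝ) / a) = Real.log X - Real.log a := by
      rw [Real.log_div _ ha0.ne']
      have hX0 : (0 : ℝ) < X := by exact_mod_cast hX
      exact hX0.ne'
    have h8 : Real.log 2 ≤ 1 := by have := Real.log_two_lt_d9; linarith
    rw [← hE] at h2
    rw [abs_le] at h2 ⊢
    constructor <;> linarith [h2.1, h2.2]
  have h2 : |∑ m ∈ (Ioc 0 X).filter (fun m => Nat.Coprime m q), L2 m / (m : ℝ) - Real.log X * MX|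
      ≤ (1 + E) * MX := by
    rw [e1, hMX, mul_sum, mul_sum, ← sum_sub_distrib]
    refine (abs_sum_le_sum_abs _ _).trans (sum_le_sum fun a ha => ?_)
    have h3 := h1 a ha
    have h4 : 0 ≤ Λ a / (a : ℝ) := div_nonneg ArithmeticFunction.vonMangoldt_nonneg (by positivity)
    rw [show Λ a / (a : ℝ) * (Real.log a + ∑ b ∈ (Ioc 0 (X / a)).filter (fun b => Nat.Coprime b q), Λ b / b)
      - Real.log X * (Λ a / a) = (Λ a / a) * ((Real.log a + ∑ b ∈ (Ioc 0 (X / a)).filter
        (fun b => Nat.Coprime b q), Λ b / b) - Real.log X) by ring, abs_mul, abs_of_nonneg h4, mul_comm]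
    gcongr
  have h3 : MX ≤ Real.log X + E := by linarith [(abs_le.mp hM1).2]
  have h4 : |Real.log X * MX - (Real.log X) ^ 2| ≤ Real.log X * E := by
    rw [show Real.log X * MX - (Real.log X) ^ 2 = Real.log X * (MX - Real.log X) by ring, abs_mul,
      abs_of_nonneg hlX]
    gcongr
  have h5 : (1 + E) * MX ≤ (1 + E) * (Real.log X + E) := by
    apply mul_le_mul_of_nonneg_left h3; linarith
  have h6 : (8 + Real.log q + cpp) = 1 + E := by rw [hE]; ring
  rw [h6]
  calc |∑ m ∈ (Ioc 0 X).filter (fun m => Nat.Coprime m q), L2 m / (m : ℝ) - (Real.log X) ^ 2|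
      = |(∑ m ∈ (Ioc 0 X).filter (fun m => Nat.Coprime m q), L2 m / (m : ℝ) - Real.log X * MX)
        + (Real.log X * MX - (Real.log X) ^ 2)| := by congr 1; ring
    _ ≤ (1 + E) * (Real.log X + E) + Real.log X * E :=
        (abs_add_le _ _).trans (add_le_add (h2.trans h5) h4)
    _ ≤ (1 + E) * (2 * Real.log X + E) := by nlinarith

/-- Equidistribution of `Λ₂(m)/m` in reduced classes, uniform in `q`. -/
theorem SL_equi : ∃ C : ℝ, 0 < C ∧ ∀ q X c : ℕ, 7 ≤ q → 1 ≤ X → Nat.Coprime c q →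
    |SL q X c - (Real.log X) ^ 2 / q.totient|
      ≤ C * ((1 + Real.log q) + (1 + Real.log q) ^ 3 * (1 + Real.log X) / q.totient) := by
  have hcpp := cpp_nonneg
  refine ⟨8 + 4 + 16 + (8 + cpp) * (2 * (9 + cpp)), by positivity, fun q X c hq hX hc => ?_⟩
  have hq0 : 0 < q := by omega
  have hq' : (0 : ℝ) < q := by exact_mod_cast hq0
  have hlq := Real.log_natCast_nonneg q
  have hlX := Real.log_natCast_nonneg X
  have hφ0 : 0 < q.totient := Nat.totient_pos.mpr hq0
  have hφ : (0 : ℝ) < q.totient := by exact_mod_cast hφ0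
  have hφq : (q.totient : ℝ) ≤ q := by exact_mod_cast Nat.totient_le q
  set l : ℝ := 1 + Real.log q with hl
  have hl1 : 1 ≤ l := by rw [hl]; linarith
  set A : ℝ := 1 + Real.log X with hA
  have hA1 : 1 ≤ A := by rw [hA]; linarith
  -- D bound
  have hD : ∀ c', Nat.Coprime c' q → |SL q X c - SL q X c'|
      ≤ 8 * l + (4 + 16) * (l ^ 3 * A / q.totient) := by
    intro c' hc'
    refine (SL_compare q X c c' hq hc hc').trans ?_
    have h1 : (Real.log X + 2) / q * (1 + Real.log q) ^ 3 ≤ 2 * (l ^ 3 * A / q.totient) := by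
      rw [← hl]
      have : (Real.log X + 2) ≤ 2 * A := by rw [hA]; linarith
      calc (Real.log X + 2) / q * l ^ 3 ≤ (2 * A) / q.totient * l ^ 3 := by gcongr
        _ = _ := by ring
    have h2 : gg (q + 1) ≤ 4 * l ^ 2 / q.totient := by
      unfold gg
      have h3 : Real.log ((q + 1 : ℕ) : ℝ) ≤ 2 * l := by
        have h4 : ((q + 1 : ℕ) : ℝ) ≤ 2 * q := by
          push_cast
          have : (1 : ℝ) ≤ q := by exact_mod_cast hq0
          linarith
        have h5 : Real.log ((q + 1 : ℕ) : ℝ) ≤ Real.log (2 * q) :=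
          Real.log_le_log (by positivity) h4
        rw [Real.log_mul (by norm_num) hq'.ne'] at h5
        have := Real.log_two_lt_d9
        rw [hl]; linarith
      have h6 := Real.log_natCast_nonneg (q + 1)
      calc Real.log ((q + 1 : ℕ) : ℝ) ^ 2 / ((q + 1 : ℕ) : ℝ) ≤ (2 * l) ^ 2 / q.totient := by
            gcongr
            have := Nat.totient_le q
            omega
        _ = 4 * l ^ 2 / q.totient := by ring
    have h3 : 2 * gg (q + 1) * A ≤ 16 * (l ^ 3 * A / q.totient) := by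
      have h4 : l ^ 2 ≤ l ^ 3 := pow_le_pow_right₀ hl1 (by norm_num)
      calc 2 * gg (q + 1) * A ≤ 2 * (4 * l ^ 2 / q.totient) * A := by gcongr
        _ ≤ 2 * (4 * l ^ 3 / q.totient) * A := by gcongr
        _ = 8 * (l ^ 3 * A / q.totient) := by ring
        _ ≤ 16 * (l ^ 3 * A / q.totient) := by
            have : 0 ≤ l ^ 3 * A / q.totient := by positivity
            linarith
    linarith
  have hT := L2_total q X hq0 hX
  rw [← sum_RR q hq0] at hT
  have e1 : SL q X c - (Real.log X) ^ 2 / q.totient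
      = (1 / q.totient) * (∑ c' ∈ RR q, (SL q X c - SL q X c')
        + (∑ c' ∈ RR q, SL q X c' - (Real.log X) ^ 2)) := by
    rw [sum_sub_distrib, sum_const, card_RR, nsmul_eq_mul]
    field_simp
    ring
  rw [e1, abs_mul, abs_of_pos (by positivity : (0 : ℝ) < 1 / q.totient)]
  have h1 : |∑ c' ∈ RR q, (SL q X c - SL q X c')| ≤ q.totient * (8 * l + (4 + 16) * (l ^ 3 * A / q.totient)) := by
    calc _ ≤ ∑ c' ∈ RR q, |SL q X c - SL q X c'| := abs_sum_le_sum_abs _ _
      _ ≤ ∑ _c' ∈ RR q, (8 * l + (4 + 16) * (l ^ 3 * A / q.totient)) := by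
          refine sum_le_sum fun c' hc' => hD c' ?_
          simp only [RR, mem_filter] at hc'
          exact hc'.2
      _ = _ := by rw [sum_const, card_RR, nsmul_eq_mul]
  have h2 : |∑ c' ∈ RR q, SL q X c' - (Real.log X) ^ 2| ≤ (8 + cpp) * (2 * (9 + cpp)) * (l ^ 3 * A) := by
    refine hT.trans ?_
    have h3 : 8 + Real.log q + cpp ≤ (8 + cpp) * l := by rw [hl]; nlinarith
    have h4 : 2 * Real.log X + (7 + Real.log q + cpp) ≤ 2 * (9 + cpp) * (l * A) := by
      have : l * A = 1 + Real.log q + Real.log X + Real.log q * Real.log X := by rw [hl, hA]; ring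
      rw [this]
      nlinarith [mul_nonneg hlq hlX, mul_nonneg hcpp hlq, mul_nonneg hcpp hlX,
        mul_nonneg hcpp (mul_nonneg hlq hlX)]
    have h5 : l ^ 2 ≤ l ^ 3 := pow_le_pow_right₀ hl1 (by norm_num)
    calc (8 + Real.log q + cpp) * (2 * Real.log X + (7 + Real.log q + cpp))
        ≤ ((8 + cpp) * l) * (2 * (9 + cpp) * (l * A)) := by gcongr
      _ = (8 + cpp) * (2 * (9 + cpp)) * (l ^ 2 * A) := by ring
      _ ≤ _ := by gcongr
  calc 1 / (q.totient : ℝ) * |∑ c' ∈ RR q, (SL q X c - SL q X c') + (∑ c' ∈ RR q, SL q X c' - (Real.log X) ^ 2)|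
      ≤ 1 / (q.totient : ℝ) * (q.totient * (8 * l + (4 + 16) * (l ^ 3 * A / q.totient))
        + (8 + cpp) * (2 * (9 + cpp)) * (l ^ 3 * A)) := by
        gcongr
        exact (abs_add_le _ _).trans (add_le_add h1 h2)
    _ = 8 * l + (4 + 16 + (8 + cpp) * (2 * (9 + cpp))) * (l ^ 3 * A / q.totient) := by
        field_simp
        ring
    _ ≤ _ := by
        have h6 : 0 ≤ l ^ 3 * A / q.totient := by positivity
        nlinarith [mul_nonneg hcpp h6, mul_nonneg hcpp (by linarith : (0:ℝ) ≤ l)]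

end Pool.Agent.E456
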