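import Mathlib
import Pool.Agent.E456.SieveUp
import Pool.Agent.E456.Selberg

/-!
# Brun-Titchmarsh type bounds from the sieve
-/

namespace Pool.Agent.E456

open Finset

/-- indicator of divisibility -/
noncomputable def x0 (l n : ℕ) : ℝ := if l ∣ n then 1 else 0

lemma x0_bounds (l n : ℕ) : 0 ≤ x0 l n ∧ x0 l n ≤ 1 := by
  unfold x0; split_ifs <;> simp

lemma x0_per (l n : ℕ) : x0 l (n + l) = x0 l n := by
  unfold x0; simp

lemma x0_vanish (Q c : ℕ) (hc : Nat.Coprime c Q) (l : ℕ) (hl : l.Prime) (hlQ : l ∣ Q) (n : ℕ)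
    (hn : n ≡ c [MOD Q]) : x0 l n = 0 := by
  unfold x0
  rw [if_neg]
  intro h
  have h1 : Nat.gcd n Q = 1 := by rw [hn.gcd_eq]; exact hc
  have h2 : l ∣ Nat.gcd n Q := Nat.dvd_gcd h hlQ
  rw [h1] at h2
  exact hl.one_lt.ne' (Nat.dvd_one.mp h2)

lemma x0_sum (l : ℕ) (hl : 0 < l) : ∑ n ∈ range l, x0 l n = 1 := by
  rw [Finset.sum_eq_single 0]
  · simp [x0]
  · intro n hn hne
    unfold x0
    rw [if_neg]
    intro h
    have := Nat.le_of_dvd (by omega) h
    have := mem_range.mp hn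
    omega
  · intro h; exact absurd (mem_range.mpr hl) h

lemma xbar_x0 (Q l : ℕ) (hl : 0 < l) : xbar x0 Q l = if l ∣ Q then 0 else (1 : ℝ) / l := by
  unfold xbar
  rw [x0_sum l hl]

lemma xbar_x0_le (Q l : ℕ) : xbar x0 Q l ≤ 3 / l := by
  rcases Nat.eq_zero_or_pos l with h | h
  · subst h; simp [xbar]
  · rw [xbar_x0 Q l h]
    split_ifs
    · positivity
    · gcongr; norm_num

lemma xbar_x0_nonneg (Q l : ℕ) : 0 ≤ xbar x0 Q l := by
  rcases Nat.eq_zero_or_pos l with h | h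
  · subst h; simp [xbar]
  · rw [xbar_x0 Q l h]
    split_ifs
    · exact le_rfl
    · positivity

/-- sum of reciprocals of prime divisors -/
noncomputable def hh (k : ℕ) : ℝ := ∑ p ∈ k.primeFactors, (1 : ℝ) / p

lemma hh_nonneg (k : ℕ) : 0 ≤ hh k := sum_nonneg fun p _ => by positivity

lemma exp_hh_le (Q : ℕ) (hQ : 0 < Q) : Real.exp (hh Q) ≤ Q / Q.totient := by
  have hQ' : (0 : ℝ) < Q := by exact_mod_cast hQ
  have hφ : (0 : ℝ) < Q.totient := by exact_mod_cast Nat.totient_pos.mpr hQ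
  have h1 : (Q.totient : ℝ) = Q * ∏ p ∈ Q.primeFactors, (1 - (p : ℝ)⁻¹) := by
    have := Nat.totient_eq_mul_prod_factors Q
    have h2 := congrArg (fun z : ℚ => (z : ℝ)) this
    push_cast at h2
    exact h2
  have h2 : ∏ p ∈ Q.primeFactors, (1 - (p : ℝ)⁻¹) ≤ Real.exp (-hh Q) := by
    have := prod_one_sub_le Q.primeFactors (fun p => (1 : ℝ) / p) (fun p hp => by
      have : (1 : ℝ) ≤ p := by exact_mod_cast (Nat.prime_of_mem_primeFactors hp).one_le
      rw [div_le_one (by linarith)]; exact this)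
    simp only [one_div] at this
    unfold hh
    simp only [one_div]
    exact this
  rw [le_div_iff₀ hφ, h1]
  calc Real.exp (hh Q) * (Q * ∏ p ∈ Q.primeFactors, (1 - (p : ℝ)⁻¹))
      ≤ Real.exp (hh Q) * (Q * Real.exp (-hh Q)) := by gcongr
    _ = Q := by rw [mul_left_comm, ← Real.exp_add]; simp

/-- lower bound for the sum over sieving primes not dividing `Q` -/
lemma sum_xbar_x0_ge : ∃ C : ℝ, ∀ J Q : ℕ, 0 < Q →
    Real.log (Real.log (YY J)) - C - hh Q ≤ ∑ p ∈ pr 6 J, xbar x0 Q p := by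
  obtain ⟨C, hC, hm⟩ := mertens2
  refine ⟨C + S1 6, fun J Q hQ => ?_⟩
  have h1 : ∑ p ∈ pr 6 J, xbar x0 Q p = ∑ p ∈ pr 6 J, (1 : ℝ) / p
      - ∑ p ∈ (pr 6 J).filter (fun p => p ∣ Q), (1 : ℝ) / p := by
    rw [sum_filter, ← sum_sub_distrib]
    refine sum_congr rfl fun p hp => ?_
    simp only [pr, mem_filter, mem_Ioc] at hp
    rw [xbar_x0 Q p (by omega)]
    split_ifs <;> ring
  have h2 : ∑ p ∈ (pr 6 J).filter (fun p => p ∣ Q), (1 : ℝ) / p ≤ hh Q := by
    apply sum_le_sum_of_subset_of_nonneg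
    · intro p hp
      simp only [pr, mem_filter, mem_Ioc] at hp
      rw [Nat.mem_primeFactors]
      exact ⟨hp.1.2, hp.2, hQ.ne'⟩
    · intro _ _ _; positivity
  have h3 := (abs_le.mp (hm (YY J) (by have := YY_ge J; omega))).1
  rw [h1, pr_sum_eq 6 J (by norm_num)]
  have : (6 ^ 2 ^ J : ℕ) = YY J := rfl
  rw [this]
  linarith

/-- the mean of the basic majorant -/
noncomputable def F0 (J Q : ℕ) : ℝ := Fbar 6 J (xbar x0 Q)

lemma F0_nonneg (J Q : ℕ) : 0 ≤ F0 J Q := by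
  unfold F0
  refine Fbar_nonneg 6 J (by norm_num) _ fun l => ⟨xbar_x0_nonneg Q l, ?_⟩
  rcases Nat.eq_zero_or_pos l with h | h
  · subst h; simp [xbar]
  · rw [xbar_x0 Q l h]
    have : (1 : ℝ) ≤ l := by exact_mod_cast h
    split_ifs
    · norm_num
    · rw [div_le_one (by linarith)]; exact this

lemma F0_le : ∃ K : ℝ, 0 < K ∧ ∀ J Q : ℕ, 0 < Q →
    F0 J Q * (Q.totient / Q) ≤ K / Real.log (YY J) := by
  obtain ⟨K, hK, hF⟩ := Fbar_bound
  obtain ⟨C, hC⟩ := sum_xbar_x0_ge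
  refine ⟨K * Real.exp C, by positivity, fun J Q hQ => ?_⟩
  have hQ' : (0 : ℝ) < Q := by exact_mod_cast hQ
  have hφ : (0 : ℝ) < Q.totient := by exact_mod_cast Nat.totient_pos.mpr hQ
  have hlY : 0 < Real.log (YY J) := by
    apply Real.log_pos
    have := YY_ge J
    exact_mod_cast (by omega : 1 < YY J)
  have h1 := hF J (xbar x0 Q) (fun i => ⟨xbar_x0_nonneg Q i, xbar_x0_le Q i⟩)
  have h2 := hC J Q hQ
  have h3 : Real.exp (-∑ p ∈ pr 6 J, xbar x0 Q p) ≤ Real.exp C * (Q / Q.totient) / Real.log (YY J) := by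
    calc Real.exp (-∑ p ∈ pr 6 J, xbar x0 Q p)
        ≤ Real.exp (C + hh Q - Real.log (Real.log (YY J))) := Real.exp_le_exp.mpr (by linarith)
      _ = Real.exp C * Real.exp (hh Q) / Real.log (YY J) := by
          rw [Real.exp_sub, Real.exp_add, Real.exp_log hlY]
      _ ≤ _ := by
          gcongr
          exact exp_hh_le Q hQ
  unfold F0
  calc Fbar 6 J (xbar x0 Q) * (Q.totient / Q)
      ≤ (K * (Real.exp C * (Q / Q.totient) / Real.log (YY J))) * (Q.totient / Q) := by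
        gcongr
        exact h1.trans (by gcongr)
    _ = K * Real.exp C / Real.log (YY J) := by
        field_simp

/-- Brun-Titchmarsh, logarithmic form. -/
theorem BT : ∃ K : ℝ, 0 < K ∧ ∀ J Q c M N : ℕ, 0 < Q → Q ≤ YY J → YY J ^ 12 ≤ M → 3 * M ≤ N →
    Nat.Coprime c Q →
    ∑ p ∈ (Ioc M N).filter (fun p => p.Prime ∧ p ≡ c [MOD Q]), (1 : ℝ) / p
      ≤ K * Real.log (N / M) / (Q.totient * Real.log (YY J)) := by
  obtain ⟨K, hK, h⟩ := sieve_upper
  obtain ⟨C, hC⟩ := sum_xbar_x0_ge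
  refine ⟨K * Real.exp C, by positivity, fun J Q c M N hQ hQY hYM hMN hc => ?_⟩
  have hQ' : (0 : ℝ) < Q := by exact_mod_cast hQ
  have hφ : (0 : ℝ) < Q.totient := by exact_mod_cast Nat.totient_pos.mpr hQ
  have hlY : 0 < Real.log (YY J) := by
    apply Real.log_pos
    have := YY_ge J
    exact_mod_cast (by omega : 1 < YY J)
  have h1 := h J Q c M N hQ hQY hYM hMN x0 x0_bounds x0_per (x0_vanish Q c hc) (xbar_x0_le Q)
  have h2 := hC J Q hQ
  have h3 : Real.exp (-∑ p ∈ pr 6 J, xbar x0 Q p) ≤ Real.exp C * (Q / Q.totient) / Real.log (YY J) := by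
    calc Real.exp (-∑ p ∈ pr 6 J, xbar x0 Q p)
        ≤ Real.exp (C + hh Q - Real.log (Real.log (YY J))) := Real.exp_le_exp.mpr (by linarith)
      _ = Real.exp C * Real.exp (hh Q) / Real.log (YY J) := by
          rw [Real.exp_sub, Real.exp_add, Real.exp_log hlY]
      _ ≤ _ := by
          gcongr
          exact exp_hh_le Q hQ
  have hM0 : 0 < M := lt_of_lt_of_le (by have := YY_ge J; positivity) hYM
  have hM' : (0 : ℝ) < M := by exact_mod_cast hM0
  have hlog : 0 ≤ Real.log (N / M) := by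
    apply Real.log_nonneg
    rw [le_div_iff₀ hM', one_mul]
    exact_mod_cast (by omega : M ≤ N)
  have h4 : ∑ p ∈ (Ioc M N).filter (fun p => p.Prime ∧ p ≡ c [MOD Q]), (1 : ℝ) / p
      ≤ ∑ n ∈ (Ioc M N).filter (fun n => n ≡ c [MOD Q]), nu 6 J x0 n / n := by
    calc _ ≤ ∑ p ∈ (Ioc M N).filter (fun p => p.Prime ∧ p ≡ c [MOD Q]), nu 6 J x0 p / p := by
          refine sum_le_sum fun p hp => ?_
          simp only [mem_filter, mem_Ioc] at hp
          have h5 := nu_ge 6 J (by norm_num) x0 p (fun l => x0_bounds l p)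
          have h6 : ∏ i ∈ pr 6 J, (1 - x0 i p) = 1 := by
            refine prod_eq_one fun i hi => ?_
            simp only [pr, mem_filter, mem_Ioc] at hi
            unfold x0
            rw [if_neg]
            · ring
            · intro hdvd
              have h7 := (Nat.prime_dvd_prime_iff_eq hi.2 hp.2.1).mp hdvd
              have h8 : i ≤ YY J := hi.1.2
              have h9 : YY J ≤ YY J ^ 12 := Nat.le_self_pow (by norm_num) _
              omega
          rw [h6] at h5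
          gcongr
      _ ≤ _ := by
          apply sum_le_sum_of_subset_of_nonneg
          · intro p hp; simp only [mem_filter] at hp ⊢; exact ⟨hp.1, hp.2.2⟩
          · intro n _ _
            exact div_nonneg (nu_nonneg 6 J (by norm_num) x0 n (fun l => x0_bounds l n)) (by positivity)
  calc _ ≤ K * (Real.log (N / M) / Q) * Real.exp (-∑ p ∈ pr 6 J, xbar x0 Q p) := h4.trans h1
    _ ≤ K * (Real.log (N / M) / Q) * (Real.exp C * (Q / Q.totient) / Real.log (YY J)) := by gcongr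
    _ = _ := by field_simp

/-! ### counting in fibres -/

lemma fiber_card_le (q Q a a' : ℕ) (hQ : 0 < Q) (hqQ : q ∣ Q) (ha : Nat.Coprime a q)
    (ha' : Nat.Coprime a' q) :
    ((RR Q).filter (fun c => c ≡ a [MOD q])).card ≤ ((RR Q).filter (fun c => c ≡ a' [MOD q])).card := by
  have hq : 0 < q := Nat.pos_of_dvd_of_pos hqQ hQ
  obtain ⟨r, hr⟩ := exists_inv_class q a a' hq ha
  have hr1 : a * r ≡ a' [MOD q] := (hr r).mpr (Nat.ModEq.refl r)
  have hrq : Nat.Coprime r q := by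
    have h1 : Nat.gcd (a * r) q = 1 := by rw [hr1.gcd_eq]; exact ha'
    exact Nat.Coprime.coprime_mul_left h1
  obtain ⟨s, hsQ, hs, hsr⟩ := Nat.forall_exists_prime_gt_and_modEq Q hq.ne' hrq
  have hsc : Nat.Coprime s Q := by
    rw [hs.coprime_iff_not_dvd]
    intro h
    have := Nat.le_of_dvd hQ h
    omega
  refine card_le_card_of_injOn (fun c => (s * c) % Q) ?_ ?_
  · intro c hc
    simp only [RR, coe_filter, mem_filter, mem_range, Set.mem_ofPred_eq] at hc ⊢
    refine ⟨⟨Nat.mod_lt _ hQ, ?_⟩, ?_⟩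
    · have h1 : Nat.gcd (s * c % Q) Q = Nat.gcd (s * c) Q := (Nat.mod_modEq _ _).gcd_eq
      rw [Nat.Coprime, h1]
      exact Nat.Coprime.mul_left hsc hc.1.2
    · have h1 : s * c % Q ≡ s * c [MOD q] := (Nat.mod_modEq (s * c) Q).of_dvd hqQ
      have h2 : s * c ≡ r * a [MOD q] := hsr.mul hc.2
      refine h1.trans (h2.trans ?_)
      rw [mul_comm]; exact hr1
  · intro c hc c' hc' h
    simp only [RR, coe_filter, mem_filter, mem_range, Set.mem_ofPred_eq] at hc hc'
    have h1 : s * c ≡ s * c' [MOD Q] := h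
    have h2 : c ≡ c' [MOD Q] :=
      Nat.ModEq.cancel_left_of_coprime (by rw [Nat.gcd_comm]; exact hsc) h1
    exact Nat.ModEq.eq_of_lt_of_lt h2 hc.1.1 hc'.1.1

lemma fiber_card (q Q a : ℕ) (hQ : 0 < Q) (hqQ : q ∣ Q) (ha : Nat.Coprime a q) :
    q.totient * ((RR Q).filter (fun c => c ≡ a [MOD q])).card = Q.totient := by
  have hq : 0 < q := Nat.pos_of_dvd_of_pos hqQ hQ
  have h1 := sum_RR q hq (RR Q) (fun _ => 1)
  have h2 : (RR Q).filter (fun m => Nat.Coprime m q) = RR Q := by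
    apply filter_true_of_mem
    intro m hm
    simp only [RR, mem_filter] at hm
    exact Nat.Coprime.coprime_dvd_right hqQ hm.2
  rw [h2, sum_const, card_RR, nsmul_eq_mul, mul_one] at h1
  have h3 : ∀ c ∈ RR q, ∑ m ∈ (RR Q).filter (fun m => m ≡ c [MOD q]), (1 : ℝ)
      = (((RR Q).filter (fun c => c ≡ a [MOD q])).card : ℝ) := by
    intro c hc
    simp only [RR, mem_filter] at hc
    rw [sum_const, nsmul_eq_mul, mul_one]
    congr 1
    exact le_antisymm (fiber_card_le q Q c a hQ hqQ hc.2 ha) (fiber_card_le q Q a c hQ hqQ ha hc.2)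
  rw [sum_congr rfl h3, sum_const, card_RR, nsmul_eq_mul] at h1
  exact_mod_cast h1

lemma totient_lcm_mul_gcd (a b : ℕ) :
    (Nat.lcm a b).totient * (Nat.gcd a b).totient = a.totient * b.totient := by
  let f : ArithmeticFunction ℕ := ⟨Nat.totient, Nat.totient_zero⟩
  have hf : f.IsMultiplicative := by
    refine ⟨?_, fun {m n} h => ?_⟩
    · show Nat.totient 1 = 1
      exact Nat.totient_one
    · show Nat.totient (m * n) = _
      exact Nat.totient_mul h
  exact hf.lcm_apply_mul_gcd_apply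

lemma crt_card (q q' p p' : ℕ) (hq : 0 < q) (hq' : 0 < q') (hp : Nat.Coprime p q)
    (hp' : Nat.Coprime p' q') :
    ((RR (Nat.lcm q q')).filter (fun c => c ≡ p [MOD q] ∧ c ≡ p' [MOD q'])).card
      = if p ≡ p' [MOD Nat.gcd q q'] then 1 else 0 := by
  have hQ : 0 < Nat.lcm q q' := Nat.lcm_pos hq hq'
  split_ifs with h
  · obtain ⟨k, hk1, hk2⟩ := Nat.chineseRemainder' h
    rw [card_eq_one]
    refine ⟨k % Nat.lcm q q', ?_⟩
    have e1 : k % Nat.lcm q q' ≡ p [MOD q] :=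
      ((Nat.mod_modEq k (Nat.lcm q q')).of_dvd (Nat.dvd_lcm_left q q')).trans hk1
    have e2 : k % Nat.lcm q q' ≡ p' [MOD q'] :=
      ((Nat.mod_modEq k (Nat.lcm q q')).of_dvd (Nat.dvd_lcm_right q q')).trans hk2
    ext c
    simp only [mem_filter, RR, mem_range, mem_singleton]
    constructor
    · rintro ⟨⟨hc1, _⟩, hc3, hc4⟩
      have h1 : c ≡ k % Nat.lcm q q' [MOD Nat.lcm q q'] := by
        have h3 := (Nat.modEq_iff_dvd).mp (hc3.trans e1.symm)
        have h4 := (Nat.modEq_iff_dvd).mp (hc4.trans e2.symm)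
        rw [Nat.modEq_iff_dvd]
        exact Int.coe_lcm_dvd h3 h4
      exact Nat.ModEq.eq_of_lt_of_lt h1 hc1 (Nat.mod_lt _ hQ)
    · rintro rfl
      refine ⟨⟨Nat.mod_lt _ hQ, ?_⟩, e1, e2⟩
      have h1 : Nat.Coprime (k % Nat.lcm q q') q := by
        rw [Nat.Coprime, e1.gcd_eq]; exact hp
      have h2 : Nat.Coprime (k % Nat.lcm q q') q' := by
        rw [Nat.Coprime, e2.gcd_eq]; exact hp'
      exact Nat.Coprime.coprime_dvd_right (Nat.lcm_dvd_mul q q') (Nat.Coprime.mul_right h1 h2)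
  · rw [card_eq_zero, filter_eq_empty_iff]
    rintro c _ ⟨h1, h2⟩
    apply h
    exact (h1.of_dvd (Nat.gcd_dvd_left q q')).symm.trans (h2.of_dvd (Nat.gcd_dvd_right q q'))

end Pool.Agent.E456
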