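import Mathlib
import Pool.Agent.E456.BT

/-!
# Variance of primes in residue classes, dual large sieve argument
-/

namespace Pool.Agent.E456

open Finset

/-- weight of a prime -/
noncomputable def wt (p : ℕ) : ℝ := Real.log p / p

lemma wt_nonneg (p : ℕ) : 0 ≤ wt p := div_nonneg (Real.log_natCast_nonneg p) (by positivity)

/-- mass in a class -/
noncomputable def Th (P : Finset ℕ) (q c : ℕ) : ℝ := ∑ p ∈ P.filter (fun p => p ≡ c [MOD q]), wt p

/-- total mass -/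
noncomputable def Lb (P : Finset ℕ) : ℝ := ∑ p ∈ P, wt p

/-- variance -/
noncomputable def VV (P : Finset ℕ) (q : ℕ) : ℝ := q.totient * ∑ c ∈ RR q, (Th P q c) ^ 2 - (Lb P) ^ 2

/-- centred density -/
noncomputable def gq (P : Finset ℕ) (q n : ℕ) : ℝ :=
  if Nat.Coprime n q then q.totient * Th P q n - Lb P else 0

lemma Th_nonneg (P : Finset ℕ) (q c : ℕ) : 0 ≤ Th P q c := sum_nonneg fun p _ => wt_nonneg p

lemma Lb_nonneg (P : Finset ℕ) : 0 ≤ Lb P := sum_nonneg fun p _ => wt_nonneg p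

lemma Th_le_Lb (P : Finset ℕ) (q c : ℕ) : Th P q c ≤ Lb P :=
  sum_le_sum_of_subset_of_nonneg (filter_subset _ _) fun p _ _ => wt_nonneg p

lemma Th_congr (P : Finset ℕ) (q : ℕ) {n m : ℕ} (h : n ≡ m [MOD q]) : Th P q n = Th P q m := by
  unfold Th
  congr 1
  ext p
  simp only [mem_filter]
  constructor
  · rintro ⟨h1, h2⟩; exact ⟨h1, h2.trans h⟩
  · rintro ⟨h1, h2⟩; exact ⟨h1, h2.trans h.symm⟩

lemma coprime_congr {q n m : ℕ} (h : n ≡ m [MOD q]) : Nat.Coprime n q ↔ Nat.Coprime m q := by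
  unfold Nat.Coprime
  rw [h.gcd_eq]

lemma gq_congr (P : Finset ℕ) (q : ℕ) {n m : ℕ} (h : n ≡ m [MOD q]) : gq P q n = gq P q m := by
  unfold gq
  rw [Th_congr P q h]
  by_cases hm : Nat.Coprime m q
  · rw [if_pos hm, if_pos ((coprime_congr h).mpr hm)]
  · rw [if_neg hm, if_neg (fun h' => hm ((coprime_congr h).mp h'))]

lemma sum_Th (P : Finset ℕ) (q : ℕ) (hq : 0 < q) (hP : ∀ p ∈ P, Nat.Coprime p q) :
    ∑ c ∈ RR q, Th P q c = Lb P := by
  unfold Th Lb
  rw [sum_RR q hq P wt, filter_true_of_mem hP]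

lemma VV_nonneg (P : Finset ℕ) (q : ℕ) (hq : 0 < q) (hP : ∀ p ∈ P, Nat.Coprime p q) :
    0 ≤ VV P q := by
  unfold VV
  rw [sub_nonneg, ← sum_Th P q hq hP, ← card_RR]
  exact sq_sum_le_card_mul_sum_sq

/-- first identity -/
lemma V_identity (P : Finset ℕ) (q : ℕ) (hq : 0 < q) (hP : ∀ p ∈ P, Nat.Coprime p q) :
    ∑ p ∈ P, wt p * gq P q p = VV P q := by
  have h1 := sum_RR q hq P (fun p => wt p * gq P q p)
  rw [filter_true_of_mem hP] at h1
  rw [← h1]
  have h2 : ∀ c ∈ RR q, ∑ m ∈ P.filter (fun m => m ≡ c [MOD q]), wt m * gq P q m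
      = q.totient * (Th P q c) ^ 2 - Lb P * Th P q c := by
    intro c hc
    simp only [RR, mem_filter] at hc
    have : ∀ m ∈ P.filter (fun m => m ≡ c [MOD q]), wt m * gq P q m
        = wt m * (q.totient * Th P q c - Lb P) := by
      intro m hm
      rw [mem_filter] at hm
      rw [gq_congr P q hm.2]
      unfold gq
      rw [if_pos hc.2]
    rw [sum_congr rfl this, ← sum_mul]
    show Th P q c * (q.totient * Th P q c - Lb P) = _
    ring
  rw [sum_congr rfl h2, sum_sub_distrib, ← mul_sum, ← mul_sum, sum_Th P q hq hP]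
  unfold VV
  ring

lemma sum_Th_mul (P : Finset ℕ) (q q' : ℕ) (hq : 0 < q) (hq' : 0 < q')
    (hP : ∀ p ∈ P, Nat.Coprime p q) (hP' : ∀ p ∈ P, Nat.Coprime p q') :
    ∑ c ∈ RR (Nat.lcm q q'), Th P q c * Th P q' c
      = ∑ p ∈ P, ∑ p' ∈ P, wt p * wt p' * (if p ≡ p' [MOD Nat.gcd q q'] then 1 else 0) := by
  have h1 : ∀ c, Th P q c * Th P q' c
      = ∑ p ∈ P, ∑ p' ∈ P, wt p * wt p' * (if c ≡ p [MOD q] ∧ c ≡ p' [MOD q'] then 1 else 0) := by
    intro c
    unfold Th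
    rw [sum_filter, sum_filter, sum_mul_sum]
    refine sum_congr rfl fun p _ => sum_congr rfl fun p' _ => ?_
    by_cases h : p ≡ c [MOD q]
    · by_cases h' : p' ≡ c [MOD q']
      · have h3 : c ≡ p [MOD q] ∧ c ≡ p' [MOD q'] := ⟨h.symm, h'.symm⟩
        rw [if_pos h, if_pos h', if_pos h3]; ring
      · have h3 : ¬ (c ≡ p [MOD q] ∧ c ≡ p' [MOD q']) := fun hh => h' hh.2.symm
        rw [if_pos h, if_neg h', if_neg h3]; ring
    · have h3 : ¬ (c ≡ p [MOD q] ∧ c ≡ p' [MOD q']) := fun hh => h hh.1.symm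
      rw [if_neg h, if_neg h3]; ring
  rw [sum_congr rfl fun c _ => h1 c, sum_comm]
  refine sum_congr rfl fun p hp => ?_
  rw [sum_comm]
  refine sum_congr rfl fun p' hp' => ?_
  rw [← mul_sum]
  congr 1
  have h2 := crt_card q q' p p' hq hq' (hP p hp) (hP' p' hp')
  rw [← sum_filter, sum_const, nsmul_eq_mul, mul_one, h2]
  split_ifs <;> simp

lemma sum_Th_sq (P : Finset ℕ) (g : ℕ) (hg : 0 < g) (hP : ∀ p ∈ P, Nat.Coprime p g) :
    ∑ u ∈ RR g, (Th P g u) ^ 2
      = ∑ p ∈ P, ∑ p' ∈ P, wt p * wt p' * (if p ≡ p' [MOD g] then 1 else 0) := by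
  have h := sum_Th_mul P g g hg hg hP hP
  rw [Nat.lcm_self, Nat.gcd_self] at h
  rw [← h]
  exact sum_congr rfl fun u _ => by ring

lemma sum_Th_lcm (P : Finset ℕ) (q Q : ℕ) (hQ : 0 < Q) (hqQ : q ∣ Q)
    (hP : ∀ p ∈ P, Nat.Coprime p q) :
    q.totient * ∑ c ∈ RR Q, Th P q c = Q.totient * Lb P := by
  have h1 : ∑ c ∈ RR Q, Th P q c
      = ∑ p ∈ P, wt p * (((RR Q).filter (fun c => c ≡ p [MOD q])).card : ℝ) := by
    unfold Th
    simp_rw [sum_filter]
    rw [sum_comm]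
    refine sum_congr rfl fun p _ => ?_
    rw [card_filter]
    push_cast
    rw [mul_sum]
    refine sum_congr rfl fun c _ => ?_
    by_cases h : p ≡ c [MOD q]
    · rw [if_pos h, if_pos h.symm, mul_one]
    · rw [if_neg h, if_neg (fun h' => h h'.symm), mul_zero]
  rw [h1, mul_sum]
  unfold Lb
  rw [mul_sum]
  refine sum_congr rfl fun p hp => ?_
  have h2 := fiber_card q Q p hQ hqQ (hP p hp)
  have h3 : (q.totient : ℝ) * (((RR Q).filter (fun c => c ≡ p [MOD q])).card : ℝ) = Q.totient := by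
    exact_mod_cast h2
  calc (q.totient : ℝ) * (wt p * (((RR Q).filter (fun c => c ≡ p [MOD q])).card : ℝ))
      = wt p * ((q.totient : ℝ) * (((RR Q).filter (fun c => c ≡ p [MOD q])).card : ℝ)) := by ring
    _ = _ := by rw [h3]; ring

/-- second identity -/
lemma lcm_identity (P : Finset ℕ) (q q' : ℕ) (hq : 0 < q) (hq' : 0 < q')
    (hP : ∀ p ∈ P, Nat.Coprime p q) (hP' : ∀ p ∈ P, Nat.Coprime p q') :
    ∑ c ∈ RR (Nat.lcm q q'), gq P q c * gq P q' c
      = (Nat.lcm q q').totient * VV P (Nat.gcd q q') := by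
  have hQ : 0 < Nat.lcm q q' := Nat.lcm_pos hq hq'
  have hg : 0 < Nat.gcd q q' := Nat.gcd_pos_of_pos_left _ hq
  have hPg : ∀ p ∈ P, Nat.Coprime p (Nat.gcd q q') := fun p hp =>
    Nat.Coprime.coprime_dvd_right (Nat.gcd_dvd_left q q') (hP p hp)
  have h1 : ∀ c ∈ RR (Nat.lcm q q'), gq P q c * gq P q' c
      = (q.totient * q'.totient : ℝ) * (Th P q c * Th P q' c)
        - Lb P * (q.totient * Th P q c) - Lb P * (q'.totient * Th P q' c) + (Lb P) ^ 2 := by
    intro c hc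
    simp only [RR, mem_filter] at hc
    unfold gq
    rw [if_pos (Nat.Coprime.coprime_dvd_right (Nat.dvd_lcm_left q q') hc.2),
      if_pos (Nat.Coprime.coprime_dvd_right (Nat.dvd_lcm_right q q') hc.2)]
    ring
  rw [sum_congr rfl h1, sum_add_distrib, sum_sub_distrib, sum_sub_distrib, ← mul_sum, ← mul_sum,
    ← mul_sum, ← mul_sum, ← mul_sum, sum_Th_lcm P q _ hQ (Nat.dvd_lcm_left q q') hP,
    sum_Th_lcm P q' _ hQ (Nat.dvd_lcm_right q q') hP', sum_const, card_RR, nsmul_eq_mul,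
    sum_Th_mul P q q' hq hq' hP hP', ← sum_Th_sq P _ hg hPg]
  have h2 : (q.totient * q'.totient : ℝ) = (Nat.lcm q q').totient * (Nat.gcd q q').totient := by
    exact_mod_cast (totient_lcm_mul_gcd q q').symm
  rw [h2]
  unfold VV
  ring

lemma gq_abs_le (P : Finset ℕ) (q n : ℕ) (hq : 0 < q) : |gq P q n| ≤ 2 * q * Lb P := by
  have hL := Lb_nonneg P
  have hq1 : (1 : ℝ) ≤ q := by exact_mod_cast hq
  unfold gq
  split_ifs
  · have h1 := Th_nonneg P q n
    have h2 := Th_le_Lb P q n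
    have h3 : (q.totient : ℝ) ≤ q := by exact_mod_cast Nat.totient_le q
    have h4 : (q.totient : ℝ) * Th P q n ≤ q * Lb P := by gcongr
    have h5 : 0 ≤ (q.totient : ℝ) * Th P q n := by positivity
    rw [abs_le]
    constructor <;> nlinarith
  · simp only [abs_zero]; positivity

/-- grouping a sum over integers by residue classes of the lcm -/
lemma group_lcm (P : Finset ℕ) (q q' : ℕ) (hq : 0 < q) (hq' : 0 < q') (s : Finset ℕ) (F : ℕ → ℝ) :
    ∑ n ∈ s, F n * (gq P q n * gq P q' n)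
      = ∑ c ∈ RR (Nat.lcm q q'), (gq P q c * gq P q' c) *
          ∑ n ∈ s.filter (fun n => n ≡ c [MOD Nat.lcm q q']), F n := by
  have hQ : 0 < Nat.lcm q q' := Nat.lcm_pos hq hq'
  have h1 := sum_RR (Nat.lcm q q') hQ s (fun n => F n * (gq P q n * gq P q' n))
  have h2 : ∑ n ∈ s.filter (fun n => Nat.Coprime n (Nat.lcm q q')), F n * (gq P q n * gq P q' n)
      = ∑ n ∈ s, F n * (gq P q n * gq P q' n) := by
    apply sum_filter_of_ne
    intro n _ hne
    by_contra hnc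
    apply hne
    have h3 : ¬ Nat.Coprime n q ∨ ¬ Nat.Coprime n q' := by
      by_contra h
      push Not at h
      exact hnc (Nat.Coprime.coprime_dvd_right (Nat.lcm_dvd_mul q q') (Nat.Coprime.mul_right h.1 h.2))
    rcases h3 with h | h
    · unfold gq; rw [if_neg h]; ring
    · unfold gq; rw [if_neg h]; ring
  rw [← h2, ← h1]
  refine sum_congr rfl fun c _ => ?_
  rw [mul_sum]
  refine sum_congr rfl fun n hn => ?_
  rw [mem_filter] at hn
  rw [gq_congr P q (hn.2.of_dvd (Nat.dvd_lcm_left q q')),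
    gq_congr P q' (hn.2.of_dvd (Nat.dvd_lcm_right q q'))]
  ring

/-- correlation of two centred densities against the majorant -/
lemma corr_bound : ∃ K : ℝ, 0 < K ∧ ∀ (P : Finset ℕ) (J q q' M N : ℕ), 0 < q → 0 < q' → 0 < M → M ≤ N →
    (∀ p ∈ P, Nat.Coprime p q) → (∀ p ∈ P, Nat.Coprime p q') →
    ∑ n ∈ Ioc M N, (nu 6 J x0 n / n) * (gq P q n * gq P q' n)
      ≤ K * (Real.log (N / M) / Real.log (YY J)) * VV P (Nat.gcd q q')
        + 8 * ((q : ℝ) * q') ^ 3 * (Lb P) ^ 2 * (YY J : ℝ) ^ 8 / M := by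
  obtain ⟨K, hK, hF⟩ := F0_le
  refine ⟨K, hK, fun P J q q' M N hq hq' hM hMN hP hP' => ?_⟩
  have hM' : (0 : ℝ) < M := by exact_mod_cast hM
  have hlog : 0 ≤ Real.log (N / M) := by
    apply Real.log_nonneg
    rw [le_div_iff₀ hM', one_mul]
    exact_mod_cast hMN
  have hqr : (0 : ℝ) < q := by exact_mod_cast hq
  have hqr' : (0 : ℝ) < q' := by exact_mod_cast hq'
  set Q := Nat.lcm q q' with hQdef
  have hQ : 0 < Q := Nat.lcm_pos hq hq'
  have hQ' : (0 : ℝ) < Q := by exact_mod_cast hQ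
  have hQle : (Q : ℝ) ≤ q * q' := by
    have := Nat.le_of_dvd (Nat.mul_pos hq hq') (Nat.lcm_dvd_mul q q')
    exact_mod_cast this
  rw [group_lcm P q q' hq hq']
  have hsv : ∀ c ∈ RR Q, |∑ n ∈ (Ioc M N).filter (fun n => n ≡ c [MOD Q]), nu 6 J x0 n / n
      - Real.log (N / M) / Q * F0 J Q| ≤ 2 * Q * (YY J : ℝ) ^ 8 / M := by
    intro c hc
    simp only [RR, mem_filter] at hc
    have := sieve_log 6 J Q c M N (by norm_num) hQ hM hMN x0 x0_bounds x0_per (x0_vanish Q c hc.2)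
    have e : (((6 : ℕ) : ℝ) ^ (2 ^ J)) = (YY J : ℝ) := by unfold YY; push_cast; rfl
    rw [e] at this
    exact this
  have h1 : ∑ c ∈ RR Q, (gq P q c * gq P q' c) *
      ∑ n ∈ (Ioc M N).filter (fun n => n ≡ c [MOD Q]), nu 6 J x0 n / n
      = (Real.log (N / M) / Q * F0 J Q) * ∑ c ∈ RR Q, (gq P q c * gq P q' c)
        + ∑ c ∈ RR Q, (gq P q c * gq P q' c) *
          (∑ n ∈ (Ioc M N).filter (fun n => n ≡ c [MOD Q]), nu 6 J x0 n / n
            - Real.log (N / M) / Q * F0 J Q) := by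
    rw [mul_sum, ← sum_add_distrib]
    refine sum_congr rfl fun c _ => ?_
    ring
  rw [h1, lcm_identity P q q' hq hq' hP hP', ← hQdef]
  have hg : 0 < Nat.gcd q q' := Nat.gcd_pos_of_pos_left _ hq
  have hV : 0 ≤ VV P (Nat.gcd q q') := VV_nonneg P _ hg fun p hp =>
    Nat.Coprime.coprime_dvd_right (Nat.gcd_dvd_left q q') (hP p hp)
  apply add_le_add
  · have h2 := hF J Q hQ
    calc Real.log (N / M) / Q * F0 J Q * (Q.totient * VV P (Nat.gcd q q'))
        = Real.log (N / M) * (F0 J Q * (Q.totient / Q)) * VV P (Nat.gcd q q') := by ring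
      _ ≤ Real.log (N / M) * (K / Real.log (YY J)) * VV P (Nat.gcd q q') := by gcongr
      _ = _ := by ring
  · refine (le_abs_self _).trans ((abs_sum_le_sum_abs _ _).trans ?_)
    have hL := Lb_nonneg P
    calc _ ≤ ∑ _c ∈ RR Q, (2 * q * Lb P) * (2 * q' * Lb P) * (2 * Q * (YY J : ℝ) ^ 8 / M) := by
          refine sum_le_sum fun c hc => ?_
          rw [abs_mul, abs_mul]
          apply mul_le_mul _ (hsv c hc) (abs_nonneg _) (by positivity)
          exact mul_le_mul (gq_abs_le P q c hq) (gq_abs_le P q' c hq') (abs_nonneg _) (by positivity)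
      _ = Q.totient * ((2 * q * Lb P) * (2 * q' * Lb P) * (2 * Q * (YY J : ℝ) ^ 8 / M)) := by
          rw [sum_const, card_RR, nsmul_eq_mul]
      _ ≤ (q * q') * ((2 * q * Lb P) * (2 * q' * Lb P) * (2 * (q * q') * (YY J : ℝ) ^ 8 / M)) := by
          gcongr
          calc (Q.totient : ℝ) ≤ Q := by exact_mod_cast Nat.totient_le Q
            _ ≤ q * q' := hQle
      _ = _ := by ring

/-- Dual large sieve inequality for variances. -/
theorem dual_sieve : ∃ K : ℝ, 0 < K ∧ ∀ (J M N : ℕ) (I : Finset ℕ) (q : ℕ → ℕ) (B : ℝ), 0 < M → M ≤ N →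
    YY J ≤ M → (∀ i ∈ I, 0 < q i ∧ q i ≤ M ∧ (q i : ℝ) ≤ B) →
    (∑ i ∈ I, VV ((Ioc M N).filter Nat.Prime) (q i)) ^ 2
      ≤ Lb ((Ioc M N).filter Nat.Prime) * Real.log N *
        (K * (Real.log (N / M) / Real.log (YY J)) *
          ∑ i ∈ I, ∑ j ∈ I, VV ((Ioc M N).filter Nat.Prime) (Nat.gcd (q i) (q j))
          + (I.card : ℝ) ^ 2 * (8 * B ^ 6 * (Lb ((Ioc M N).filter Nat.Prime)) ^ 2 * (YY J : ℝ) ^ 8 / M)) := by
  obtain ⟨K, hK, hc⟩ := corr_bound
  refine ⟨K, hK, fun J M N I q B hM hMN hYM hI => ?_⟩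
  set P := (Ioc M N).filter Nat.Prime with hPdef
  have hM' : (0 : ℝ) < M := by exact_mod_cast hM
  have hN' : (0 : ℝ) < N := by exact_mod_cast (by omega : 0 < N)
  have hPc : ∀ i ∈ I, ∀ p ∈ P, Nat.Coprime p (q i) := by
    intro i hi p hp
    rw [hPdef, mem_filter, mem_Ioc] at hp
    have := hI i hi
    rw [hp.2.coprime_iff_not_dvd]
    intro h
    have := Nat.le_of_dvd this.1 h
    omega
  have h1 : ∑ i ∈ I, VV P (q i) = ∑ p ∈ P, wt p * ∑ i ∈ I, gq P (q i) p := by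
    rw [sum_congr rfl fun i hi => (V_identity P (q i) (hI i hi).1 (hPc i hi)).symm, sum_comm]
    refine sum_congr rfl fun p _ => ?_
    rw [mul_sum]
  have h2 : (∑ p ∈ P, wt p * ∑ i ∈ I, gq P (q i) p) ^ 2
      ≤ (∑ p ∈ P, wt p) * ∑ p ∈ P, wt p * (∑ i ∈ I, gq P (q i) p) ^ 2 := by
    have := sum_mul_sq_le_sq_mul_sq P (fun p => Real.sqrt (wt p))
      (fun p => Real.sqrt (wt p) * ∑ i ∈ I, gq P (q i) p)
    have e1 : ∑ p ∈ P, Real.sqrt (wt p) * (Real.sqrt (wt p) * ∑ i ∈ I, gq P (q i) p)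
        = ∑ p ∈ P, wt p * ∑ i ∈ I, gq P (q i) p := by
      refine sum_congr rfl fun p _ => ?_
      rw [← mul_assoc, Real.mul_self_sqrt (wt_nonneg p)]
    have e2 : ∑ p ∈ P, Real.sqrt (wt p) ^ 2 = ∑ p ∈ P, wt p :=
      sum_congr rfl fun p _ => Real.sq_sqrt (wt_nonneg p)
    have e3 : ∑ p ∈ P, (Real.sqrt (wt p) * ∑ i ∈ I, gq P (q i) p) ^ 2
        = ∑ p ∈ P, wt p * (∑ i ∈ I, gq P (q i) p) ^ 2 := by
      refine sum_congr rfl fun p _ => ?_
      rw [mul_pow, Real.sq_sqrt (wt_nonneg p)]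
    rw [e1, e2, e3] at this
    exact this
  have hlN : 0 ≤ Real.log N := Real.log_natCast_nonneg N
  have h3 : ∑ p ∈ P, wt p * (∑ i ∈ I, gq P (q i) p) ^ 2
      ≤ Real.log N * ∑ n ∈ Ioc M N, nu 6 J x0 n / n * (∑ i ∈ I, gq P (q i) n) ^ 2 := by
    have hpos : ∀ n, 0 ≤ nu 6 J x0 n / (n : ℝ) := fun n =>
      div_nonneg (nu_nonneg 6 J (by norm_num) x0 n (fun l => x0_bounds l n)) (by positivity)
    calc _ ≤ ∑ p ∈ P, Real.log N * (nu 6 J x0 p / p * (∑ i ∈ I, gq P (q i) p) ^ 2) := by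
          refine sum_le_sum fun p hp => ?_
          rw [hPdef, mem_filter, mem_Ioc] at hp
          have hp0 : (0 : ℝ) < p := by exact_mod_cast hp.2.pos
          have h5 := nu_ge 6 J (by norm_num) x0 p (fun l => x0_bounds l p)
          have h6 : ∏ i ∈ pr 6 J, (1 - x0 i p) = 1 := by
            refine prod_eq_one fun i hi => ?_
            simp only [pr, mem_filter, mem_Ioc] at hi
            unfold x0
            rw [if_neg]
            · ring
            · intro hdvd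
              have h7 := (Nat.prime_dvd_prime_iff_eq hi.2 hp.2).mp hdvd
              have h8 : i ≤ YY J := hi.1.2
              omega
          rw [h6] at h5
          have h9 : Real.log p ≤ Real.log N := Real.log_le_log hp0 (by exact_mod_cast hp.1.2)
          rw [← mul_assoc]
          apply mul_le_mul_of_nonneg_right _ (sq_nonneg _)
          unfold wt
          calc Real.log p / p ≤ Real.log N / p := by gcongr
            _ = Real.log N * (1 / p) := by ring
            _ ≤ Real.log N * (nu 6 J x0 p / p) := by gcongr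
      _ = Real.log N * ∑ p ∈ P, (nu 6 J x0 p / p * (∑ i ∈ I, gq P (q i) p) ^ 2) := by rw [mul_sum]
      _ ≤ _ := by
          apply mul_le_mul_of_nonneg_left _ hlN
          apply sum_le_sum_of_subset_of_nonneg (filter_subset _ _)
          intro n _ _
          exact mul_nonneg (hpos n) (sq_nonneg _)
  have h4 : ∑ n ∈ Ioc M N, nu 6 J x0 n / n * (∑ i ∈ I, gq P (q i) n) ^ 2
      = ∑ i ∈ I, ∑ j ∈ I, ∑ n ∈ Ioc M N, nu 6 J x0 n / n * (gq P (q i) n * gq P (q j) n) := by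
    rw [sum_congr rfl fun n _ => by
      rw [sq, sum_mul_sum, mul_sum]]
    rw [sum_comm]
    refine sum_congr rfl fun i _ => ?_
    rw [sum_congr rfl fun n _ => by rw [mul_sum]]
    rw [sum_comm]
  have h5 : ∑ i ∈ I, ∑ j ∈ I, ∑ n ∈ Ioc M N, nu 6 J x0 n / n * (gq P (q i) n * gq P (q j) n)
      ≤ K * (Real.log (N / M) / Real.log (YY J)) *
          ∑ i ∈ I, ∑ j ∈ I, VV P (Nat.gcd (q i) (q j))
          + (I.card : ℝ) ^ 2 * (8 * B ^ 6 * (Lb P) ^ 2 * (YY J : ℝ) ^ 8 / M) := by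
    calc _ ≤ ∑ i ∈ I, ∑ j ∈ I, (K * (Real.log (N / M) / Real.log (YY J)) * VV P (Nat.gcd (q i) (q j))
          + 8 * B ^ 6 * (Lb P) ^ 2 * (YY J : ℝ) ^ 8 / M) := by
          refine sum_le_sum fun i hi => sum_le_sum fun j hj => ?_
          refine (hc P J (q i) (q j) M N (hI i hi).1 (hI j hj).1 hM hMN (hPc i hi) (hPc j hj)).trans ?_
          have hi0 : (0 : ℝ) ≤ q i := by positivity
          have hj0 : (0 : ℝ) ≤ q j := by positivity
          have hB : 0 ≤ B := hi0.trans (hI i hi).2.2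
          have h6 : ((q i : ℝ) * q j) ^ 3 ≤ B ^ 6 := by
            calc ((q i : ℝ) * q j) ^ 3 ≤ (B * B) ^ 3 := by
                  gcongr
                  · exact (hI i hi).2.2
                  · exact (hI j hj).2.2
              _ = B ^ 6 := by ring
          gcongr
      _ = _ := by
          simp_rw [sum_add_distrib, sum_const, nsmul_eq_mul, ← mul_sum]
          ring
  rw [h1]
  have hL : 0 ≤ Lb P := Lb_nonneg P
  calc _ ≤ _ := h2
    _ ≤ (∑ p ∈ P, wt p) * (Real.log N * ∑ n ∈ Ioc M N, nu 6 J x0 n / n * (∑ i ∈ I, gq P (q i) n) ^ 2) := by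
        apply mul_le_mul_of_nonneg_left h3
        exact hL
    _ = Lb P * Real.log N * ∑ i ∈ I, ∑ j ∈ I, ∑ n ∈ Ioc M N, nu 6 J x0 n / n * (gq P (q i) n * gq P (q j) n) := by
        rw [h4]
        unfold Lb
        ring
    _ ≤ _ := by gcongr

end Pool.Agent.E456
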