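import Mathlib
import Pool.Agent.E456.Variance

/-!
# The variance is small for almost all moduli `k W`, `k ≤ log N`
-/

namespace Pool.Agent.E456

open Finset Filter

/-- primes in `(N, N^8]` -/
def Pn (N : ℕ) : Finset ℕ := (Ioc N (N ^ 8)).filter Nat.Prime

/-- number of multipliers -/
noncomputable def KK (N : ℕ) : ℕ := ⌊Real.log N⌋₊

lemma log_pow_eventually (m : ℕ) (C : ℝ) : ∀ᶠ N : ℕ in atTop, C * Real.log N ^ m ≤ N := by
  have h1 : (fun x : ℝ => C * Real.log x ^ m) =o[atTop] (id : ℝ → ℝ) :=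
    (Real.isLittleO_pow_log_id_atTop (n := m)).const_mul_left C
  have h2 := h1.def (c := 1) one_pos
  have h3 := tendsto_natCast_atTop_atTop (R := ℝ) |>.eventually h2
  filter_upwards [h3] with N hN
  simp only [id, one_mul, Real.norm_eq_abs] at hN
  have h4 : |(N : ℝ)| = N := abs_of_nonneg (by positivity)
  rw [h4] at hN
  exact (le_abs_self _).trans hN

lemma log_ge_eventually (A : ℝ) : ∀ᶠ N : ℕ in atTop, A ≤ Real.log N :=
  (Real.tendsto_log_atTop.comp tendsto_natCast_atTop_atTop).eventually_ge_atTop A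

lemma log_N8 (N : ℕ) : Real.log ((N ^ 8 : ℕ) : ℝ) = 8 * Real.log N := by
  push_cast; rw [Real.log_pow]; norm_num

lemma Lb_bounds (N : ℕ) (hN : 1 ≤ N) : |Lb (Pn N) - 7 * Real.log N| ≤ 7 + cpp := by
  have := mertens_primes N (N ^ 8) hN (Nat.le_self_pow (by norm_num) N)
  rw [log_N8] at this
  have e : 8 * Real.log N - Real.log N = 7 * Real.log N := by ring
  rw [e] at this
  exact this

lemma log_ratio_N8 (N : ℕ) (hN : 1 ≤ N) : Real.log (((N ^ 8 : ℕ) : ℝ) / N) = 7 * Real.log N := by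
  have hN' : (0 : ℝ) < N := by exact_mod_cast hN
  rw [Real.log_div (by positivity) hN'.ne', log_N8]
  ring

lemma log_YY_ge (N J : ℕ) (hN : 1 ≤ N) (hJ : N < YY J ^ 24) : Real.log N / 24 ≤ Real.log (YY J) := by
  have hN' : (0 : ℝ) < N := by exact_mod_cast hN
  have h1 : (N : ℝ) ≤ (YY J : ℝ) ^ 24 := by exact_mod_cast hJ.le
  have h2 := Real.log_le_log hN' h1
  rw [Real.log_pow] at h2
  push_cast at h2
  linarith

/-- uniform bound for `Th` -/
lemma Th_bound : ∃ K : ℝ, 0 < K ∧ ∀ W : ℕ, ∀ᶠ N : ℕ in atTop, ∀ q c : ℕ, 0 < q → (q : ℝ) ≤ W * Real.log N →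
    Nat.Coprime c q → Th (Pn N) q c ≤ K * Real.log N / q.totient := by
  obtain ⟨K, hK, h⟩ := BT
  refine ⟨K * 7 * 24 * 8, by positivity, fun W => ?_⟩
  filter_upwards [log_pow_eventually 24 ((W : ℝ) ^ 24), log_ge_eventually 1,
    eventually_ge_atTop (6 ^ 12)] with N h1 h2 h3 q c hq hqW hc
  obtain ⟨J, hJ1, hJ2⟩ := exists_J N h3
  have hN' : (0 : ℝ) < N := by exact_mod_cast (by omega : 0 < N)
  have hφ : (0 : ℝ) < q.totient := by exact_mod_cast Nat.totient_pos.mpr hq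
  have hqY : q ≤ YY J := by
    by_contra hlt
    push Not at hlt
    have h4 : (YY J : ℝ) ^ 24 ≤ (W * Real.log N) ^ 24 := by
      apply pow_le_pow_left₀ (by positivity)
      exact (by exact_mod_cast hlt.le : (YY J : ℝ) ≤ q).trans hqW
    have h5 : (N : ℝ) < (YY J : ℝ) ^ 24 := by exact_mod_cast hJ2
    rw [mul_pow] at h4
    linarith
  have h8 : 3 * N ≤ N ^ 8 := by
    calc 3 * N ≤ N * N := Nat.mul_le_mul_right N (by omega)
      _ = N ^ 2 := by ring
      _ ≤ N ^ 8 := Nat.pow_le_pow_right (by omega) (by norm_num)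
  have h4 := h J q c N (N ^ 8) hq hqY hJ1 h8 hc
  rw [log_ratio_N8 N (by omega)] at h4
  have h5 := log_YY_ge N J (by omega) hJ2
  have hlY : 0 < Real.log (YY J) := by linarith
  have h6 : Th (Pn N) q c ≤ (8 * Real.log N) * ∑ p ∈ (Ioc N (N ^ 8)).filter
      (fun p => p.Prime ∧ p ≡ c [MOD q]), (1 : ℝ) / p := by
    unfold Th Pn
    rw [filter_filter, mul_sum]
    refine sum_le_sum fun p hp => ?_
    simp only [mem_filter, mem_Ioc] at hp
    have hp0 : (0 : ℝ) < p := by exact_mod_cast hp.2.1.pos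
    have h7 : Real.log p ≤ 8 * Real.log N := by
      rw [← log_N8]
      exact Real.log_le_log hp0 (by exact_mod_cast hp.1.2)
    unfold wt
    rw [div_eq_mul_one_div]
    gcongr
  calc Th (Pn N) q c ≤ _ := h6
    _ ≤ (8 * Real.log N) * (K * (7 * Real.log N) / (q.totient * Real.log (YY J))) := by gcongr
    _ ≤ (8 * Real.log N) * (K * (7 * Real.log N) / (q.totient * (Real.log N / 24))) := by
        gcongr
    _ = K * 7 * 24 * 8 * Real.log N / q.totient := by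
        field_simp

lemma coprime_Pn (N q : ℕ) (hq : 0 < q) (hqN : q ≤ N) : ∀ p ∈ Pn N, Nat.Coprime p q := by
  intro p hp
  simp only [Pn, mem_filter, mem_Ioc] at hp
  rw [hp.2.coprime_iff_not_dvd]
  intro h
  have := Nat.le_of_dvd hq h
  omega

lemma VV_le_of_Th (N q : ℕ) (B : ℝ) (hq : 0 < q) (hqN : q ≤ N)
    (h : ∀ c ∈ RR q, Th (Pn N) q c ≤ B / q.totient) :
    VV (Pn N) q ≤ Lb (Pn N) * (B - Lb (Pn N)) := by
  have hφ : (0 : ℝ) < q.totient := by exact_mod_cast Nat.totient_pos.mpr hq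
  have h1 : ∑ c ∈ RR q, (Th (Pn N) q c) ^ 2 ≤ (B / q.totient) * Lb (Pn N) := by
    rw [← sum_Th (Pn N) q hq (coprime_Pn N q hq hqN), mul_sum]
    refine sum_le_sum fun c hc => ?_
    rw [sq]
    exact mul_le_mul_of_nonneg_right (h c hc) (Th_nonneg _ _ _)
  unfold VV
  calc (q.totient : ℝ) * ∑ c ∈ RR q, (Th (Pn N) q c) ^ 2 - (Lb (Pn N)) ^ 2
      ≤ q.totient * ((B / q.totient) * Lb (Pn N)) - (Lb (Pn N)) ^ 2 := by gcongr
    _ = Lb (Pn N) * (B - Lb (Pn N)) := by field_simp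

lemma Lb_le (N : ℕ) (hN : 1 ≤ N) (h : 7 + cpp ≤ Real.log N) : Lb (Pn N) ≤ 8 * Real.log N := by
  have := (abs_le.mp (Lb_bounds N hN)).2
  linarith

/-- uniform bound for variances -/
lemma VV_bound : ∃ A : ℝ, 0 < A ∧ ∀ W : ℕ, ∀ᶠ N : ℕ in atTop, ∀ q : ℕ, 0 < q → (q : ℝ) ≤ W * Real.log N →
    VV (Pn N) q ≤ A * Real.log N ^ 2 := by
  obtain ⟨K, hK, h⟩ := Th_bound
  refine ⟨8 * K, by positivity, fun W => ?_⟩
  filter_upwards [h W, log_pow_eventually 1 W, log_ge_eventually (7 + cpp), eventually_ge_atTop 1]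
    with N h1 h2 h3 h4 q hq hqW
  have hcpp := cpp_nonneg
  have hlN : 0 ≤ Real.log N := by linarith
  have hqN : q ≤ N := by
    rw [pow_one] at h2
    exact_mod_cast hqW.trans h2
  have h5 := VV_le_of_Th N q (K * Real.log N) hq hqN (fun c hc => by
    simp only [RR, mem_filter] at hc
    exact h1 q c hq hqW hc.2)
  have hL := Lb_nonneg (Pn N)
  have hL8 := Lb_le N h4 h3
  calc VV (Pn N) q ≤ _ := h5
    _ ≤ Lb (Pn N) * (K * Real.log N) := by
        apply mul_le_mul_of_nonneg_left _ hL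
        linarith
    _ ≤ (8 * Real.log N) * (K * Real.log N) := by gcongr
    _ = _ := by ring

/-- for fixed modulus the variance is small -/
lemma VV_fixed (q : ℕ) (hq : 0 < q) (δ : ℝ) (hδ : 0 < δ) :
    ∀ᶠ N : ℕ in atTop, VV (Pn N) q ≤ δ * Real.log N ^ 2 := by
  have hb : ∀ c : ℕ, ∃ C : ℝ, 0 < C ∧ (Nat.Coprime c q → ∀ N : ℕ, 1 ≤ N →
      |∑ n ∈ (Ioc 0 N).filter (fun n => n ≡ c [MOD q]), ArithmeticFunction.vonMangoldt n / n
        - Real.log N / q.totient| ≤ C) := by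
    intro c
    by_cases hc : Nat.Coprime c q
    · obtain ⟨C, hC, h⟩ := mertens_AP q c hq hc
      exact ⟨C, hC, fun _ => h⟩
    · exact ⟨1, one_pos, fun h => absurd h hc⟩
  choose C hC0 hC using hb
  have hφ : (0 : ℝ) < q.totient := by exact_mod_cast Nat.totient_pos.mpr hq
  set D : ℝ := q.totient * (2 * ∑ c ∈ RR q, C c) + (7 + cpp) with hD
  have hcpp := cpp_nonneg
  have hS : 0 ≤ ∑ c ∈ RR q, C c := sum_nonneg fun c _ => (hC0 c).le
  have hD0 : 0 ≤ D := by positivity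
  filter_upwards [log_ge_eventually (7 + cpp), log_ge_eventually (8 * D / δ), eventually_ge_atTop q,
    eventually_ge_atTop 1] with N h1 h2 h3 h4
  have hlN : 0 ≤ Real.log N := by linarith
  have h5 := VV_le_of_Th N q (7 * Real.log N + q.totient * (2 * ∑ c ∈ RR q, C c)) hq h3 (by
    intro c hc
    have hc' := hc
    simp only [RR, mem_filter] at hc'
    have h6 := hC c hc'.2 N h4
    have h7 := hC c hc'.2 (N ^ 8) (Nat.one_le_pow _ _ h4)
    rw [log_N8] at h7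
    have hle : N ≤ N ^ 8 := Nat.le_self_pow (by norm_num) N
    have hsplit : ∑ n ∈ (Ioc 0 (N ^ 8)).filter (fun n => n ≡ c [MOD q]), ArithmeticFunction.vonMangoldt n / (n : ℝ)
        = ∑ n ∈ (Ioc 0 N).filter (fun n => n ≡ c [MOD q]), ArithmeticFunction.vonMangoldt n / (n : ℝ)
          + ∑ n ∈ (Ioc N (N ^ 8)).filter (fun n => n ≡ c [MOD q]), ArithmeticFunction.vonMangoldt n / (n : ℝ) := by
      rw [← Ioc_union_Ioc_eq_Ioc (Nat.zero_le N) hle, filter_union, sum_union]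
      rw [Finset.disjoint_left]; intro x hx hx'; simp only [mem_filter, mem_Ioc] at hx hx'; omega
    have h8 : Th (Pn N) q c
        ≤ ∑ n ∈ (Ioc N (N ^ 8)).filter (fun n => n ≡ c [MOD q]), ArithmeticFunction.vonMangoldt n / (n : ℝ) := by
      unfold Th Pn
      rw [filter_filter]
      calc _ = ∑ n ∈ (Ioc N (N ^ 8)).filter (fun n => n.Prime ∧ n ≡ c [MOD q]),
            ArithmeticFunction.vonMangoldt n / (n : ℝ) := by
            refine sum_congr rfl fun p hp => ?_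
            simp only [mem_filter] at hp
            unfold wt
            rw [ArithmeticFunction.vonMangoldt_apply_prime hp.2.1]
        _ ≤ _ := by
            apply sum_le_sum_of_subset_of_nonneg
            · intro p hp; simp only [mem_filter] at hp ⊢; exact ⟨hp.1, hp.2.2⟩
            · intro n _ _
              exact div_nonneg ArithmeticFunction.vonMangoldt_nonneg (by positivity)
    have h9 : C c ≤ ∑ c ∈ RR q, C c := single_le_sum (fun i _ => (hC0 i).le) hc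
    have e : (7 * Real.log N + q.totient * (2 * ∑ c ∈ RR q, C c)) / q.totient
        = 8 * Real.log N / q.totient - Real.log N / q.totient + 2 * ∑ c ∈ RR q, C c := by
      field_simp
      ring
    rw [e]
    have h10 := abs_le.mp h6
    have h11 := abs_le.mp h7
    linarith [h10.1, h11.2])
  have hL := Lb_nonneg (Pn N)
  have hL8 := Lb_le N h4 h1
  have hLlow := (abs_le.mp (Lb_bounds N h4)).1
  calc VV (Pn N) q ≤ _ := h5
    _ ≤ Lb (Pn N) * D := by
        apply mul_le_mul_of_nonneg_left _ hL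
        rw [hD]; linarith
    _ ≤ (8 * Real.log N) * D := by gcongr
    _ ≤ δ * Real.log N ^ 2 := by
        rw [div_le_iff₀ hδ] at h2
        nlinarith

lemma gcd_sum_le (f : ℕ → ℝ) (K : ℕ) (hf : ∀ g ∈ Ioc 0 K, 0 ≤ f g) :
    ∑ i ∈ Ioc 0 K, ∑ j ∈ Ioc 0 K, f (Nat.gcd i j) ≤ ∑ g ∈ Ioc 0 K, ((K : ℝ) / g) ^ 2 * f g := by
  have h1 : ∀ i ∈ Ioc 0 K, ∀ j ∈ Ioc 0 K, f (Nat.gcd i j)
      ≤ ∑ g ∈ Ioc 0 K, (if g ∣ i then 1 else 0) * (if g ∣ j then 1 else 0) * f g := by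
    intro i hi j hj
    rw [mem_Ioc] at hi hj
    have hg : Nat.gcd i j ∈ Ioc 0 K := by
      rw [mem_Ioc]
      exact ⟨Nat.gcd_pos_of_pos_left _ hi.1, (Nat.le_of_dvd hi.1 (Nat.gcd_dvd_left i j)).trans hi.2⟩
    have := single_le_sum (f := fun g => (if g ∣ i then (1 : ℝ) else 0) * (if g ∣ j then 1 else 0) * f g)
      (s := Ioc 0 K) (fun g hg => by
        have := hf g hg
        split_ifs <;> simp [this]) hg
    simp only [Nat.gcd_dvd_left, Nat.gcd_dvd_right, if_true, one_mul] at this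
    exact this
  calc _ ≤ ∑ i ∈ Ioc 0 K, ∑ j ∈ Ioc 0 K, ∑ g ∈ Ioc 0 K,
        (if g ∣ i then (1 : ℝ) else 0) * (if g ∣ j then 1 else 0) * f g :=
        sum_le_sum fun i hi => sum_le_sum fun j hj => h1 i hi j hj
    _ = ∑ g ∈ Ioc 0 K, (∑ i ∈ Ioc 0 K, if g ∣ i then (1 : ℝ) else 0) ^ 2 * f g := by
        rw [sum_congr rfl fun i _ => sum_comm, sum_comm]
        refine sum_congr rfl fun g _ => ?_
        rw [sq, sum_mul_sum, sum_mul]
        refine sum_congr rfl fun i _ => ?_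
        rw [sum_mul]
    _ ≤ _ := by
        refine sum_le_sum fun g hg => ?_
        apply mul_le_mul_of_nonneg_right _ (hf g hg)
        apply pow_le_pow_left₀ (sum_nonneg fun i _ => by split_ifs <;> simp)
        rw [← sum_filter, sum_const, nsmul_eq_mul, mul_one, Nat.Ioc_filter_dvd_card_eq_div]
        exact Nat.cast_div_le

lemma inv_sq_sum_le (G : ℕ) : ∑ g ∈ Ioc 0 G, (1 : ℝ) / (g : ℝ) ^ 2 ≤ 2 := by
  have h : ∀ G : ℕ, ∑ g ∈ Ioc 0 (G + 1), (1 : ℝ) / (g : ℝ) ^ 2 ≤ 2 - 1 / (G + 1) := by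
    intro G
    induction G with
    | zero => simp; norm_num
    | succ G ih =>
      have hins : Ioc 0 (G + 1 + 1) = insert (G + 1 + 1) (Ioc 0 (G + 1)) := by
        ext x; simp only [mem_Ioc, mem_insert]; omega
      rw [hins, sum_insert (by simp)]
      have h1 : (1 : ℝ) / (((G + 1 + 1 : ℕ) : ℝ)) ^ 2 ≤ 1 / ((G : ℝ) + 1) - 1 / ((G : ℝ) + 1 + 1) := by
        push_cast
        rw [div_sub_div _ _ (by positivity) (by positivity), div_le_div_iff₀ (by positivity) (by positivity)]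
        nlinarith
      push_cast at *
      linarith
  rcases Nat.eq_zero_or_pos G with h0 | h0
  · subst h0; simp
  · obtain ⟨k, rfl⟩ : ∃ k, G = k + 1 := ⟨G - 1, by omega⟩
    have := h k
    have : (0 : ℝ) < 1 / (k + 1) := by positivity
    linarith

lemma inv_sq_tail_le (G K : ℕ) (hG : 0 < G) : ∑ g ∈ Ioc G K, (1 : ℝ) / (g : ℝ) ^ 2 ≤ 1 / G := by
  rcases Nat.lt_or_ge K G with h | h
  · rw [Ioc_eq_empty (by omega)]; simp
  · have : ∑ g ∈ Ioc G K, (1 : ℝ) / (g : ℝ) ^ 2 ≤ 1 / G - 1 / K := by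
      induction K, h using Nat.le_induction with
      | base => simp
      | succ K hK ih =>
        have hins : Ioc G (K + 1) = insert (K + 1) (Ioc G K) := by
          ext x; simp only [mem_Ioc, mem_insert]; omega
        rw [hins, sum_insert (by simp)]
        have hK0 : (0 : ℝ) < K := by exact_mod_cast (by omega : 0 < K)
        have h1 : (1 : ℝ) / (((K + 1 : ℕ) : ℝ)) ^ 2 ≤ 1 / (K : ℝ) - 1 / ((K : ℝ) + 1) := by
          push_cast
          rw [div_sub_div _ _ (by positivity) (by positivity), div_le_div_iff₀ (by positivity) (by positivity)]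
          nlinarith
        push_cast at *
        linarith
    have h2 : (0 : ℝ) ≤ 1 / K := by positivity
    linarith

/-- total variance over `k W`, `k ≤ log N` -/
theorem VV_total (W : ℕ) (hW : 0 < W) (δ : ℝ) (hδ : 0 < δ) :
    ∀ᶠ N : ℕ in atTop, ∑ k ∈ Ioc 0 (KK N), VV (Pn N) (k * W) ≤ δ * KK N * Real.log N ^ 2 := by
  obtain ⟨K, hK, hds⟩ := dual_sieve
  obtain ⟨A, hA, hVb⟩ := VV_bound
  -- parameters
  obtain ⟨G, hG⟩ := exists_nat_gt (64 * 168 * K * A * 4 / δ ^ 2)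
  have hG0 : 0 < G := by
    have : (0 : ℝ) < G := lt_trans (by positivity) hG
    exact_mod_cast this
  set δ' : ℝ := δ ^ 2 / (64 * 168 * K * 2 * 4) with hδ'
  have hδ'0 : 0 < δ' := by positivity
  have hfix : ∀ᶠ N : ℕ in atTop, ∀ g ∈ Ioc 0 G, VV (Pn N) (g * W) ≤ δ' * Real.log N ^ 2 := by
    rw [eventually_all_finset]
    intro g hg
    rw [mem_Ioc] at hg
    exact VV_fixed (g * W) (Nat.mul_pos hg.1 hW) δ' hδ'0
  have hcpp := cpp_nonneg
  filter_upwards [hfix, hVb W, log_ge_eventually (7 + cpp), eventually_ge_atTop (6 ^ 12),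
    log_pow_eventually 1 W, log_pow_eventually 48 ((8 * (W : ℝ) ^ 6 * 64 * 64 * 4 / δ ^ 2) ^ 6)]
    with N h1 h2 h3 h4 h5 h6
  obtain ⟨J, hJ1, hJ2⟩ := exists_J N h4
  have hN0 : 0 < N := by omega
  have hN' : (0 : ℝ) < N := by exact_mod_cast hN0
  set L : ℝ := Real.log N with hL
  have hL1 : 1 ≤ L := by linarith
  have hL0 : 0 < L := by linarith
  have hKK : (KK N : ℝ) ≤ L := Nat.floor_le hL0.le
  have hY := log_YY_ge N J (by omega) hJ2
  rw [← hL] at hY
  have hlY : 0 < Real.log (YY J) := by linarith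
  have hYM : YY J ≤ N := le_trans (Nat.le_self_pow (by norm_num) _) hJ1
  have hqle : ∀ i ∈ Ioc 0 (KK N), ((i * W : ℕ) : ℝ) ≤ W * L := by
    intro i hi
    rw [mem_Ioc] at hi
    push_cast
    have : (i : ℝ) ≤ L := (by exact_mod_cast hi.2 : (i : ℝ) ≤ KK N).trans hKK
    rw [mul_comm]
    gcongr
  have hqN : ∀ i ∈ Ioc 0 (KK N), i * W ≤ N := by
    intro i hi
    rw [pow_one] at h5
    exact_mod_cast (hqle i hi).trans h5
  have hmain := hds J N (N ^ 8) (Ioc 0 (KK N)) (fun k => k * W) (W * L) hN0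
    (Nat.le_self_pow (by norm_num) N) hYM (fun i hi => ⟨Nat.mul_pos (mem_Ioc.mp hi).1 hW, hqN i hi, hqle i hi⟩)
  have hPn : (Ioc N (N ^ 8)).filter Nat.Prime = Pn N := rfl
  rw [hPn, log_N8, log_ratio_N8 N (by omega), ← hL] at hmain
  simp only [Nat.card_Ioc, tsub_zero] at hmain
  -- gcd sum
  have hVV0 : ∀ g ∈ Ioc 0 (KK N), 0 ≤ VV (Pn N) (g * W) := fun g hg =>
    VV_nonneg _ _ (Nat.mul_pos (mem_Ioc.mp hg).1 hW)
      (coprime_Pn N _ (Nat.mul_pos (mem_Ioc.mp hg).1 hW) (hqN g hg))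
  have hgcd : ∑ i ∈ Ioc 0 (KK N), ∑ j ∈ Ioc 0 (KK N), VV (Pn N) (Nat.gcd (i * W) (j * W))
      ≤ (KK N : ℝ) ^ 2 * L ^ 2 * (2 * δ' + A / G) := by
    have e1 : ∀ i j : ℕ, Nat.gcd (i * W) (j * W) = Nat.gcd i j * W := fun i j => Nat.gcd_mul_right i W j
    simp_rw [e1]
    refine (gcd_sum_le (fun g => VV (Pn N) (g * W)) (KK N) hVV0).trans ?_
    have hbound : ∀ g ∈ Ioc 0 (KK N), ((KK N : ℝ) / g) ^ 2 * VV (Pn N) (g * W)
        ≤ (KK N : ℝ) ^ 2 * L ^ 2 * ((if g ≤ G then δ' * (1 / (g : ℝ) ^ 2) else 0)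
          + (if g ≤ G then 0 else A * (1 / (g : ℝ) ^ 2))) := by
      intro g hg
      rw [div_pow, div_eq_mul_one_div]
      by_cases hgG : g ≤ G
      · rw [if_pos hgG, if_pos hgG, add_zero]
        have := h1 g (by rw [mem_Ioc] at hg ⊢; exact ⟨hg.1, hgG⟩)
        calc _ ≤ (KK N : ℝ) ^ 2 * (1 / (g : ℝ) ^ 2) * (δ' * L ^ 2) := by gcongr
          _ = _ := by ring
      · rw [if_neg hgG, if_neg hgG, zero_add]
        have := h2 (g * W) (Nat.mul_pos (mem_Ioc.mp hg).1 hW) (hqle g hg)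
        calc _ ≤ (KK N : ℝ) ^ 2 * (1 / (g : ℝ) ^ 2) * (A * L ^ 2) := by gcongr
          _ = _ := by ring
    refine (sum_le_sum hbound).trans ?_
    rw [← mul_sum, sum_add_distrib]
    apply mul_le_mul_of_nonneg_left _ (by positivity)
    apply add_le_add
    · rw [← sum_filter, ← mul_sum]
      calc δ' * ∑ g ∈ (Ioc 0 (KK N)).filter (fun g => g ≤ G), (1 : ℝ) / (g : ℝ) ^ 2
          ≤ δ' * ∑ g ∈ Ioc 0 G, (1 : ℝ) / (g : ℝ) ^ 2 := by
            apply mul_le_mul_of_nonneg_left _ hδ'0.le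
            apply sum_le_sum_of_subset_of_nonneg
            · intro g hg; simp only [mem_filter, mem_Ioc] at hg ⊢; exact ⟨hg.1.1, hg.2⟩
            · intro _ _ _; positivity
        _ ≤ δ' * 2 := by gcongr; exact inv_sq_sum_le G
        _ = 2 * δ' := by ring
    · have e2 : ∑ g ∈ Ioc 0 (KK N), (if g ≤ G then 0 else A * (1 / (g : ℝ) ^ 2))
          = ∑ g ∈ (Ioc 0 (KK N)).filter (fun g => ¬ g ≤ G), A * (1 / (g : ℝ) ^ 2) := by
        rw [sum_filter]
        refine sum_congr rfl fun g _ => ?_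
        by_cases h : g ≤ G <;> simp [h]
      rw [e2, ← mul_sum]
      calc A * ∑ g ∈ (Ioc 0 (KK N)).filter (fun g => ¬ g ≤ G), (1 : ℝ) / (g : ℝ) ^ 2
          ≤ A * ∑ g ∈ Ioc G (KK N), (1 : ℝ) / (g : ℝ) ^ 2 := by
            apply mul_le_mul_of_nonneg_left _ hA.le
            apply sum_le_sum_of_subset_of_nonneg
            · intro g hg; simp only [mem_filter, mem_Ioc] at hg ⊢; omega
            · intro _ _ _; positivity
        _ ≤ A * (1 / G) := by gcongr; exact inv_sq_tail_le G (KK N) hG0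
        _ = A / G := by ring
  -- error term
  have hLb0 := Lb_nonneg (Pn N)
  have hLb8 := Lb_le N (by omega) h3
  rw [← hL] at hLb8
  have herr : 8 * (W * L) ^ 6 * (Lb (Pn N)) ^ 2 * (YY J : ℝ) ^ 8 / N ≤ δ ^ 2 / (64 * 4) * 1 := by
    have hYpos : (0 : ℝ) < YY J := by
      have := YY_ge J; exact_mod_cast (by omega : 0 < YY J)
    have h7 : (YY J : ℝ) ^ 8 / N ≤ 1 / (YY J : ℝ) ^ 4 := by
      rw [div_le_div_iff₀ hN' (by positivity), one_mul, ← pow_add]
      exact_mod_cast hJ1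
    have h8 : (8 * (W : ℝ) ^ 6 * 64 * 64 * 4 / δ ^ 2) * L ^ 8 ≤ (YY J : ℝ) ^ 4 := by
      have h9 : ((8 * (W : ℝ) ^ 6 * 64 * 64 * 4 / δ ^ 2) * L ^ 8) ^ 6 ≤ ((YY J : ℝ) ^ 4) ^ 6 := by
        rw [mul_pow, ← pow_mul, ← pow_mul]
        norm_num
        refine h6.trans ?_
        exact_mod_cast hJ2.le
      exact le_of_pow_le_pow_left₀ (by norm_num) (by positivity) h9
    calc 8 * (W * L) ^ 6 * (Lb (Pn N)) ^ 2 * (YY J : ℝ) ^ 8 / N
        = 8 * (W * L) ^ 6 * (Lb (Pn N)) ^ 2 * ((YY J : ℝ) ^ 8 / N) := by ring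
      _ ≤ 8 * (W * L) ^ 6 * (8 * L) ^ 2 * (1 / (YY J : ℝ) ^ 4) := by gcongr
      _ = (8 * (W : ℝ) ^ 6 * 64 * L ^ 8) / (YY J : ℝ) ^ 4 := by ring
      _ ≤ δ ^ 2 / (64 * 4) * 1 := by
          rw [mul_one, div_le_iff₀ (by positivity)]
          have e3 : (8 * (W : ℝ) ^ 6 * 64 * L ^ 8)
              = δ ^ 2 / (64 * 4) * ((8 * (W : ℝ) ^ 6 * 64 * 64 * 4 / δ ^ 2) * L ^ 8) := by
            field_simp
          rw [e3]
          gcongr
  -- combine
  have hfinal : (∑ k ∈ Ioc 0 (KK N), VV (Pn N) (k * W)) ^ 2 ≤ (δ * KK N * L ^ 2) ^ 2 := by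
    refine hmain.trans ?_
    have h7 : 7 * L / Real.log (YY J) ≤ 168 := by
      rw [div_le_iff₀ hlY]; linarith
    have h8 : K * (7 * L / Real.log (YY J)) *
        ∑ i ∈ Ioc 0 (KK N), ∑ j ∈ Ioc 0 (KK N), VV (Pn N) (Nat.gcd (i * W) (j * W))
        ≤ K * 168 * ((KK N : ℝ) ^ 2 * L ^ 2 * (2 * δ' + A / G)) := by
      have h9 : 0 ≤ ∑ i ∈ Ioc 0 (KK N), ∑ j ∈ Ioc 0 (KK N), VV (Pn N) (Nat.gcd (i * W) (j * W)) := by
        refine sum_nonneg fun i hi => sum_nonneg fun j hj => ?_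
        have hg : 0 < Nat.gcd (i * W) (j * W) :=
          Nat.gcd_pos_of_pos_left _ (Nat.mul_pos (mem_Ioc.mp hi).1 hW)
        have hgN : Nat.gcd (i * W) (j * W) ≤ N :=
          (Nat.le_of_dvd (Nat.mul_pos (mem_Ioc.mp hi).1 hW) (Nat.gcd_dvd_left _ _)).trans (hqN i hi)
        exact VV_nonneg _ _ hg (coprime_Pn N _ hg hgN)
      gcongr
    have h10 : A / G ≤ δ ^ 2 / (64 * 168 * K * 4) := by
      have hGpos : (0 : ℝ) < G := by exact_mod_cast hG0
      rw [div_le_div_iff₀ hGpos (by positivity)]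
      rw [div_lt_iff₀ (by positivity)] at hG
      nlinarith
    have h11 : K * 168 * ((KK N : ℝ) ^ 2 * L ^ 2 * (2 * δ' + A / G))
        ≤ (KK N : ℝ) ^ 2 * L ^ 2 * (δ ^ 2 / (64 * 2)) := by
      calc K * 168 * ((KK N : ℝ) ^ 2 * L ^ 2 * (2 * δ' + A / G))
          ≤ K * 168 * ((KK N : ℝ) ^ 2 * L ^ 2 * (2 * δ' + δ ^ 2 / (64 * 168 * K * 4))) := by gcongr
        _ = (KK N : ℝ) ^ 2 * L ^ 2 * (δ ^ 2 / (64 * 2)) := by
            rw [hδ']; field_simp; ring
    have h12 : (KK N : ℝ) ^ 2 * (8 * (W * L) ^ 6 * (Lb (Pn N)) ^ 2 * (YY J : ℝ) ^ 8 / N)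
        ≤ (KK N : ℝ) ^ 2 * L ^ 2 * (δ ^ 2 / (64 * 4)) := by
      have hL2 : 1 ≤ L ^ 2 := one_le_pow₀ hL1
      calc _ ≤ (KK N : ℝ) ^ 2 * (δ ^ 2 / (64 * 4) * 1) := by gcongr
        _ ≤ (KK N : ℝ) ^ 2 * (δ ^ 2 / (64 * 4) * L ^ 2) := by gcongr
        _ = _ := by ring
    calc _ ≤ (8 * L) * (8 * L) * ((KK N : ℝ) ^ 2 * L ^ 2 * (δ ^ 2 / (64 * 2))
          + (KK N : ℝ) ^ 2 * L ^ 2 * (δ ^ 2 / (64 * 4))) := by
          apply mul_le_mul _ (add_le_add (h8.trans h11) h12) _ (by positivity)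
          · gcongr
          · apply add_nonneg
            · apply mul_nonneg (by positivity)
              refine sum_nonneg fun i hi => sum_nonneg fun j hj => ?_
              have hg : 0 < Nat.gcd (i * W) (j * W) :=
                Nat.gcd_pos_of_pos_left _ (Nat.mul_pos (mem_Ioc.mp hi).1 hW)
              have hgN : Nat.gcd (i * W) (j * W) ≤ N :=
                (Nat.le_of_dvd (Nat.mul_pos (mem_Ioc.mp hi).1 hW) (Nat.gcd_dvd_left _ _)).trans (hqN i hi)
              exact VV_nonneg _ _ hg (coprime_Pn N _ hg hgN)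
            · positivity
      _ = (KK N : ℝ) ^ 2 * L ^ 4 * δ ^ 2 * (3 / 4) := by ring
      _ ≤ (KK N : ℝ) ^ 2 * L ^ 4 * δ ^ 2 * 1 := by gcongr; norm_num
      _ = _ := by ring
  exact le_of_pow_le_pow_left₀ (by norm_num) (by positivity) hfinal

/-- few `k` have large variance -/
theorem VV_few (W : ℕ) (hW : 0 < W) (δ : ℝ) (hδ : 0 < δ) :
    ∀ᶠ N : ℕ in atTop,
      (((Ioc 0 (KK N)).filter (fun k => δ * Real.log N ^ 2 < VV (Pn N) (k * W))).card : ℝ) ≤ δ * KK N := by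
  filter_upwards [VV_total W hW (δ ^ 2) (by positivity), log_ge_eventually 1, log_pow_eventually 1 W,
    eventually_ge_atTop 1] with N h1 h2 h3 h4
  have hL0 : 0 < Real.log N := by linarith
  have hKK : (KK N : ℝ) ≤ Real.log N := Nat.floor_le hL0.le
  have hqN : ∀ i ∈ Ioc 0 (KK N), i * W ≤ N := by
    intro i hi
    rw [mem_Ioc] at hi
    rw [pow_one] at h3
    have : (i : ℝ) ≤ Real.log N := (by exact_mod_cast hi.2 : (i : ℝ) ≤ KK N).trans hKK
    have h5 : ((i * W : ℕ) : ℝ) ≤ N := by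
      push_cast
      calc (i : ℝ) * W ≤ Real.log N * W := by gcongr
        _ = W * Real.log N := mul_comm _ _
        _ ≤ N := h3
    exact_mod_cast h5
  have h5 : (((Ioc 0 (KK N)).filter (fun k => δ * Real.log N ^ 2 < VV (Pn N) (k * W))).card : ℝ)
      * (δ * Real.log N ^ 2) ≤ ∑ k ∈ Ioc 0 (KK N), VV (Pn N) (k * W) := by
    calc _ = ∑ _k ∈ (Ioc 0 (KK N)).filter (fun k => δ * Real.log N ^ 2 < VV (Pn N) (k * W)),
          δ * Real.log N ^ 2 := by rw [sum_const, nsmul_eq_mul]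
      _ ≤ ∑ k ∈ (Ioc 0 (KK N)).filter (fun k => δ * Real.log N ^ 2 < VV (Pn N) (k * W)),
          VV (Pn N) (k * W) := sum_le_sum fun k hk => (mem_filter.mp hk).2.le
      _ ≤ _ := by
          apply sum_le_sum_of_subset_of_nonneg (filter_subset _ _)
          intro k hk _
          exact VV_nonneg _ _ (Nat.mul_pos (mem_Ioc.mp hk).1 hW)
            (coprime_Pn N _ (Nat.mul_pos (mem_Ioc.mp hk).1 hW) (hqN k hk))
  have h6 : (((Ioc 0 (KK N)).filter (fun k => δ * Real.log N ^ 2 < VV (Pn N) (k * W))).card : ℝ)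
      * (δ * Real.log N ^ 2) ≤ (δ * KK N) * (δ * Real.log N ^ 2) := by
    refine (h5.trans h1).trans (le_of_eq ?_)
    ring
  exact le_of_mul_le_mul_right h6 (by positivity)

end Pool.Agent.E456
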