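import Mathlib
import Pool.Agent.E456.VarSmall

/-!
# Averages of `exp (A * hh k)`
-/

namespace Pool.Agent.E456

open Finset Filter

lemma exp_sub_one_le (t : ℝ) : Real.exp t - 1 ≤ t * Real.exp t := by
  have h := Real.add_one_le_exp (-t)
  have h2 : Real.exp t * Real.exp (-t) = 1 := by rw [← Real.exp_add]; simp
  have h3 := Real.exp_pos t
  nlinarith

/-- general weighted average -/
lemma weighted_exp_hh (A M : ℝ) (hA : 0 ≤ A) (hM : 0 ≤ M) (K : ℕ) (w : ℕ → ℝ) (hw : ∀ k, 0 ≤ w k)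
    (h : ∀ D : ℕ, 0 < D → ∑ k ∈ (Ioc 0 K).filter (fun k => D ∣ k), w k ≤ M / D) :
    ∑ k ∈ Ioc 0 K, w k * Real.exp (A * hh k) ≤ M * Real.exp (2 * (A * Real.exp A)) := by
  set P := (Ioc 0 K).filter Nat.Prime with hP
  set g : ℕ → ℝ := fun p => Real.exp (A / p) - 1 with hg
  have hg0 : ∀ p, 0 ≤ g p := by
    intro p
    simp only [hg]
    have : 1 ≤ Real.exp (A / p) := Real.one_le_exp (by positivity)
    linarith
  have hgB : ∀ p ∈ P, g p ≤ A * Real.exp A / p := by
    intro p hp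
    have hpP : p.Prime := (mem_filter.mp hp).2
    have hp1 : (1 : ℝ) ≤ p := by exact_mod_cast hpP.one_le
    have h1 := exp_sub_one_le (A / p)
    have h2 : Real.exp (A / p) ≤ Real.exp A := Real.exp_le_exp.mpr (div_le_self hA hp1)
    calc g p ≤ A / p * Real.exp (A / p) := h1
      _ ≤ A / p * Real.exp A := by gcongr
      _ = _ := by ring
  have h1 : ∀ k ∈ Ioc 0 K, w k * Real.exp (A * hh k)
      = ∑ S ∈ P.powerset, (∏ p ∈ S, g p) * (if (∏ p ∈ S, p) ∣ k then w k else 0) := by
    intro k hk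
    rw [mem_Ioc] at hk
    have hsub : k.primeFactors ⊆ P := by
      intro p hp
      rw [Nat.mem_primeFactors] at hp
      simp only [hP, mem_filter, mem_Ioc]
      exact ⟨⟨hp.1.pos, (Nat.le_of_dvd hk.1 hp.2.1).trans hk.2⟩, hp.1⟩
    have h2 : Real.exp (A * hh k) = ∑ S ∈ k.primeFactors.powerset, ∏ p ∈ S, g p := by
      unfold hh
      rw [mul_sum, Real.exp_sum]
      have : ∀ p ∈ k.primeFactors, Real.exp (A * (1 / (p : ℝ))) = 1 + g p := by
        intro p _; simp only [hg]; rw [mul_one_div]; ring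
      rw [prod_congr rfl this, prod_one_add]
    rw [h2, mul_sum]
    have h3 : ∀ S ∈ P.powerset, (∏ p ∈ S, g p) * (if (∏ p ∈ S, p) ∣ k then w k else 0)
        = if S ∈ k.primeFactors.powerset then w k * ∏ p ∈ S, g p else 0 := by
      intro S hS
      rw [mem_powerset] at hS
      have h4 : S ∈ k.primeFactors.powerset ↔ (∏ p ∈ S, p) ∣ k := by
        rw [mem_powerset]
        constructor
        · intro h5
          exact (prod_dvd_prod_of_subset _ _ _ h5).trans (Nat.prod_primeFactors_dvd k)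
        · intro h5 p hp
          rw [Nat.mem_primeFactors]
          exact ⟨(mem_filter.mp (hS hp)).2, (dvd_prod_of_mem _ hp).trans h5, hk.1.ne'⟩
      by_cases h5 : S ∈ k.primeFactors.powerset
      · rw [if_pos h5, if_pos (h4.mp h5)]; ring
      · rw [if_neg h5, if_neg (fun h6 => h5 (h4.mpr h6))]; ring
    rw [sum_congr rfl h3, ← sum_filter]
    congr 1
    ext S
    simp only [mem_filter, mem_powerset]
    exact ⟨fun h => ⟨h.trans hsub, h⟩, fun h => h.2⟩
  rw [sum_congr rfl h1, sum_comm]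
  have h2 : ∀ S ∈ P.powerset, ∑ k ∈ Ioc 0 K, (∏ p ∈ S, g p) * (if (∏ p ∈ S, p) ∣ k then w k else 0)
      ≤ M * ∏ p ∈ S, (A * Real.exp A / (p : ℝ) ^ 2) := by
    intro S hS
    rw [mem_powerset] at hS
    have hDpos : 0 < ∏ p ∈ S, p := prod_pos fun p hp => ((mem_filter.mp (hS hp)).2).pos
    rw [← mul_sum, ← sum_filter]
    have hgprod : 0 ≤ ∏ p ∈ S, g p := prod_nonneg fun p _ => hg0 p
    calc (∏ p ∈ S, g p) * ∑ k ∈ (Ioc 0 K).filter (fun k => (∏ p ∈ S, p) ∣ k), w k
        ≤ (∏ p ∈ S, g p) * (M / ((∏ p ∈ S, p : ℕ) : ℝ)) := by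
          apply mul_le_mul_of_nonneg_left (h _ hDpos) hgprod
      _ = M * ((∏ p ∈ S, g p) / ∏ p ∈ S, (p : ℝ)) := by push_cast; ring
      _ = M * ∏ p ∈ S, (g p / p) := by rw [prod_div_distrib]
      _ ≤ M * ∏ p ∈ S, (A * Real.exp A / (p : ℝ) ^ 2) := by
          apply mul_le_mul_of_nonneg_left _ hM
          apply Finset.prod_le_prod
          · intro p _; exact div_nonneg (hg0 p) (by positivity)
          · intro p hp
            calc g p / p ≤ (A * Real.exp A / p) / p := by
                  apply div_le_div_of_nonneg_right (hgB p (hS hp)) (by positivity)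
              _ = _ := by rw [div_div, sq]
  refine (sum_le_sum h2).trans ?_
  rw [← mul_sum]
  apply mul_le_mul_of_nonneg_left _ hM
  rw [← prod_one_add]
  calc ∏ p ∈ P, (1 + A * Real.exp A / (p : ℝ) ^ 2) ≤ ∏ p ∈ P, Real.exp (A * Real.exp A / (p : ℝ) ^ 2) := by
        apply Finset.prod_le_prod
        · intro p _; positivity
        · intro p _
          have := Real.add_one_le_exp (A * Real.exp A / (p : ℝ) ^ 2)
          linarith
    _ = Real.exp (∑ p ∈ P, A * Real.exp A / (p : ℝ) ^ 2) := (Real.exp_sum _ _).symm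
    _ ≤ Real.exp (2 * (A * Real.exp A)) := by
        apply Real.exp_le_exp.mpr
        calc ∑ p ∈ P, A * Real.exp A / (p : ℝ) ^ 2 ≤ ∑ p ∈ Ioc 0 K, A * Real.exp A / (p : ℝ) ^ 2 := by
              apply sum_le_sum_of_subset_of_nonneg (filter_subset _ _)
              intro _ _ _; positivity
          _ = (A * Real.exp A) * ∑ p ∈ Ioc 0 K, 1 / (p : ℝ) ^ 2 := by
              rw [mul_sum]; exact sum_congr rfl fun l _ => by ring
          _ ≤ (A * Real.exp A) * 2 := by
              apply mul_le_mul_of_nonneg_left (inv_sq_sum_le K) (by positivity)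
          _ = _ := by ring

lemma sum_exp_hh (A : ℝ) (hA : 0 ≤ A) (K : ℕ) :
    ∑ k ∈ Ioc 0 K, Real.exp (A * hh k) ≤ K * Real.exp (2 * (A * Real.exp A)) := by
  have := weighted_exp_hh A K hA (by positivity) K (fun _ => 1) (fun _ => zero_le_one) (by
    intro D hD
    rw [sum_const, nsmul_eq_mul, mul_one, Nat.Ioc_filter_dvd_card_eq_div]
    exact Nat.cast_div_le)
  simpa using this

lemma sum_exp_hh_div (A : ℝ) (hA : 0 ≤ A) (K : ℕ) (hK : 1 ≤ K) :
    ∑ k ∈ Ioc 0 K, Real.exp (A * hh k) / k ≤ (1 + Real.log K) * Real.exp (2 * (A * Real.exp A)) := by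
  have hK' : (1 : ℝ) ≤ K := by exact_mod_cast hK
  have hlK := Real.log_nonneg hK'
  have := weighted_exp_hh A (1 + Real.log K) hA (by positivity) K (fun k => 1 / (k : ℝ)) (fun _ => by positivity) (by
    intro D hD
    have hD' : (0 : ℝ) < D := by exact_mod_cast hD
    have h1 : ∑ k ∈ (Ioc 0 K).filter (fun k => D ∣ k), (1 : ℝ) / (k : ℝ)
        ≤ ∑ j ∈ Ioc 0 K, (1 : ℝ) / ((D * j : ℕ) : ℝ) := by
      have e : ∑ k ∈ (Ioc 0 K).image (fun j : ℕ => D * j), (1 : ℝ) / (k : ℝ)
          = ∑ j ∈ Ioc 0 K, (1 : ℝ) / ((D * j : ℕ) : ℝ) :=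
        sum_image (fun a _ b _ h => Nat.eq_of_mul_eq_mul_left hD h)
      rw [← e]
      apply sum_le_sum_of_subset_of_nonneg
      · intro k hk
        simp only [mem_filter, mem_Ioc] at hk
        obtain ⟨j, hj⟩ := hk.2
        rw [mem_image]
        refine ⟨j, ?_, hj.symm⟩
        rw [mem_Ioc]
        constructor
        · rcases Nat.eq_zero_or_pos j with h0 | h0
          · subst h0; omega
          · exact h0
        · calc j ≤ D * j := Nat.le_mul_of_pos_left j hD
            _ ≤ K := by omega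
      · intro _ _ _; positivity
    refine h1.trans ?_
    have h2 : ∑ j ∈ Ioc 0 K, (1 : ℝ) / ((D * j : ℕ) : ℝ) = (1 / D) * ∑ j ∈ Ioc 0 K, (1 : ℝ) / j := by
      rw [mul_sum]
      refine sum_congr rfl fun j _ => ?_
      push_cast
      rw [div_mul_div_comm, one_mul]
    rw [h2]
    calc (1 / D : ℝ) * ∑ j ∈ Ioc 0 K, (1 : ℝ) / j ≤ (1 / D) * (1 + Real.log K) := by
          apply mul_le_mul_of_nonneg_left (harmonic_le K) (by positivity)
      _ = _ := by ring)
  refine le_trans (le_of_eq ?_) this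
  exact sum_congr rfl fun k _ => by ring

end Pool.Agent.E456
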