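import Mathlib
import Pool.Agent.E456.VarSmall

/-!
# Lower bound for `∑ log² p / p` in reduced classes of small variance
-/

namespace Pool.Agent.E456

open Finset Filter
open scoped ArithmeticFunction.vonMangoldt

lemma nonprime_tail (ε : ℝ) (hε : 0 < ε) : ∀ᶠ N : ℕ in atTop, ∀ s : Finset ℕ, (∀ n ∈ s, N < n) →
    ∑ n ∈ s, (if n.Prime then 0 else Λ n) / (n : ℝ) ≤ ε := by
  have h := summable_iff_vanishing_norm.mp summable_nonprime ε hε
  obtain ⟨s0, hs0⟩ := h
  filter_upwards [eventually_ge_atTop (s0.sup id)] with N hN s hs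
  have hd : Disjoint s s0 := by
    rw [Finset.disjoint_left]
    intro x hx hx0
    have h1 := hs x hx
    have h2 : x ≤ s0.sup id := Finset.le_sup (f := id) hx0
    omega
  have := hs0 s hd
  exact (le_abs_self _).trans this.le

lemma bilinear_le (N q c : ℕ) (hN : 1 ≤ N) :
    ∑ m ∈ (Ioc (N ^ 2) (N ^ 8)).filter (fun m => m ≡ c [MOD q]), (Λ * Λ : ArithmeticFunction ℝ) m / m
      ≤ 2 * ∑ a ∈ Ioc 0 (N ^ 4), Λ a / a *
          ∑ b ∈ (Ioc N (N ^ 8)).filter (fun b => a * b ≡ c [MOD q]), Λ b / b := by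
  set X := N ^ 8 with hX
  set G : ℕ → ℕ → ℝ := fun a b => if (a ≤ N ^ 4 ∧ N < b) ∧ a * b ≡ c [MOD q] then
    (Λ a / a) * (Λ b / b) else 0 with hG
  have hΛ : ∀ a : ℕ, 0 ≤ Λ a / (a : ℝ) := fun a =>
    div_nonneg ArithmeticFunction.vonMangoldt_nonneg (by positivity)
  have hG0 : ∀ a b, 0 ≤ G a b := by
    intro a b; simp only [hG]; split_ifs
    · exact mul_nonneg (hΛ a) (hΛ b)
    · exact le_rfl
  have h1 : ∑ m ∈ (Ioc (N ^ 2) X).filter (fun m => m ≡ c [MOD q]), (Λ * Λ : ArithmeticFunction ℝ) m / m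
      ≤ ∑ m ∈ Ioc 0 X, ∑ p ∈ m.divisorsAntidiagonal, (fun a b => G a b + G b a) p.1 p.2 := by
    have hsub : (Ioc (N ^ 2) X).filter (fun m => m ≡ c [MOD q]) ⊆ Ioc 0 X := by
      intro m hm; simp only [mem_filter, mem_Ioc] at hm ⊢; omega
    refine le_trans (sum_le_sum fun m hm => ?_)
      (sum_le_sum_of_subset_of_nonneg hsub fun m _ _ => sum_nonneg fun p _ => add_nonneg (hG0 _ _) (hG0 _ _))
    simp only [mem_filter, mem_Ioc] at hm
    rw [ArithmeticFunction.mul_apply, sum_div]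
    refine sum_le_sum fun p hp => ?_
    rw [Nat.mem_divisorsAntidiagonal] at hp
    have hm0 : (0 : ℝ) < m := by exact_mod_cast (by omega : 0 < m)
    have e1 : Λ p.1 * Λ p.2 / m = (Λ p.1 / p.1) * (Λ p.2 / p.2) := by
      rw [div_mul_div_comm]
      congr 1
      exact_mod_cast hp.1.symm
    rw [e1]
    have hpos1 : 0 < p.1 := Nat.pos_of_ne_zero (by rintro h; rw [h, zero_mul] at hp; exact hp.2 hp.1.symm)
    have hpos2 : 0 < p.2 := Nat.pos_of_ne_zero (by rintro h; rw [h, mul_zero] at hp; exact hp.2 hp.1.symm)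
    have hcong : p.1 * p.2 ≡ c [MOD q] := by rw [hp.1]; exact hm.2
    have hcong' : p.2 * p.1 ≡ c [MOD q] := by rw [mul_comm]; exact hcong
    rcases le_total p.1 p.2 with h | h
    · have ha : p.1 ≤ N ^ 4 := by
        by_contra hlt
        push Not at hlt
        have : N ^ 4 * N ^ 4 < p.1 * p.2 := Nat.mul_lt_mul_of_lt_of_le hlt (hlt.le.trans h) (by positivity)
        rw [hp.1] at this
        have e2 : N ^ 4 * N ^ 4 = N ^ 8 := by ring
        omega
      have hb : N < p.2 := by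
        by_contra hlt
        push Not at hlt
        have : p.1 * p.2 ≤ N * N := Nat.mul_le_mul (h.trans hlt) hlt
        rw [hp.1] at this
        have e2 : N * N = N ^ 2 := by ring
        omega
      have e3 : G p.1 p.2 = (Λ p.1 / p.1) * (Λ p.2 / p.2) := by
        simp only [hG]; rw [if_pos ⟨⟨ha, hb⟩, hcong⟩]
      simp only
      rw [e3]
      linarith [hG0 p.2 p.1]
    · have ha : p.2 ≤ N ^ 4 := by
        by_contra hlt
        push Not at hlt
        have : N ^ 4 * N ^ 4 < p.2 * p.1 := Nat.mul_lt_mul_of_lt_of_le hlt (hlt.le.trans h) (by positivity)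
        rw [mul_comm p.2, hp.1] at this
        have e2 : N ^ 4 * N ^ 4 = N ^ 8 := by ring
        omega
      have hb : N < p.1 := by
        by_contra hlt
        push Not at hlt
        have : p.1 * p.2 ≤ N * N := Nat.mul_le_mul hlt (h.trans hlt)
        rw [hp.1] at this
        have e2 : N * N = N ^ 2 := by ring
        omega
      have e3 : G p.2 p.1 = (Λ p.1 / p.1) * (Λ p.2 / p.2) := by
        simp only [hG]; rw [if_pos ⟨⟨ha, hb⟩, hcong'⟩]; ring
      simp only
      rw [e3]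
      linarith [hG0 p.1 p.2]
  refine h1.trans ?_
  rw [sum_antidiag_swap (fun a b => G a b + G b a) X]
  have h2 : ∑ d ∈ Ioc 0 X, ∑ e ∈ Ioc 0 (X / d), (G d e + G e d)
      ≤ ∑ d ∈ Ioc 0 X, ∑ e ∈ Ioc 0 X, (G d e + G e d) := by
    refine sum_le_sum fun d _ => ?_
    apply sum_le_sum_of_subset_of_nonneg
    · intro e he; simp only [mem_Ioc] at he ⊢; exact ⟨he.1, he.2.trans (Nat.div_le_self _ _)⟩
    · intro e _ _; exact add_nonneg (hG0 _ _) (hG0 _ _)
  refine h2.trans ?_
  have h3 : ∑ d ∈ Ioc 0 X, ∑ e ∈ Ioc 0 X, (G d e + G e d) = 2 * ∑ d ∈ Ioc 0 X, ∑ e ∈ Ioc 0 X, G d e := by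
    simp_rw [sum_add_distrib]
    rw [sum_comm (f := fun d e => G e d)]
    ring
  rw [h3]
  apply mul_le_mul_of_nonneg_left _ (by norm_num)
  have hle : N ^ 4 ≤ X := Nat.pow_le_pow_right hN (by norm_num)
  have h4 : ∑ d ∈ Ioc 0 X, ∑ e ∈ Ioc 0 X, G d e = ∑ d ∈ Ioc 0 (N ^ 4), ∑ e ∈ Ioc 0 X, G d e := by
    symm
    apply sum_subset
    · intro d hd; simp only [mem_Ioc] at hd ⊢; omega
    · intro d hd hd'
      simp only [mem_Ioc] at hd hd'
      refine sum_eq_zero fun e _ => ?_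
      simp only [hG]
      rw [if_neg]
      rintro ⟨⟨h, _⟩, _⟩
      exact hd' ⟨hd.1, h⟩
  rw [h4]
  refine sum_le_sum fun a ha => ?_
  simp only [mem_Ioc] at ha
  rw [mul_sum, sum_filter]
  have h5 : ∑ e ∈ Ioc 0 X, G a e = ∑ e ∈ Ioc N X, G a e := by
    symm
    apply sum_subset
    · intro d hd; simp only [mem_Ioc] at hd ⊢; omega
    · intro d hd hd'
      simp only [mem_Ioc] at hd hd'
      simp only [hG]
      rw [if_neg]
      rintro ⟨⟨_, h⟩, _⟩
      exact hd' ⟨h, hd.2⟩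
  rw [h5]
  refine sum_le_sum fun b hb => ?_
  simp only [mem_Ioc] at hb
  simp only [hG]
  by_cases h : a * b ≡ c [MOD q]
  · rw [if_pos ⟨⟨ha.2, hb.1⟩, h⟩, if_pos h]
  · rw [if_neg (fun h' => h h'.2), if_neg h]

lemma class_count_le (q a c : ℕ) (hc : Nat.Coprime c q) :
    ∑ v ∈ RR q, (if a * v ≡ c [MOD q] then (1 : ℝ) else 0) ≤ 1 := by
  rw [← sum_filter, sum_const, nsmul_eq_mul, mul_one]
  by_cases ha : Nat.Coprime a q
  · have : ((RR q).filter (fun v => a * v ≡ c [MOD q])).card ≤ 1 := by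
      rw [card_le_one]
      intro v hv v' hv'
      simp only [RR, mem_filter, mem_range] at hv hv'
      have h1 : a * v ≡ a * v' [MOD q] := hv.2.trans hv'.2.symm
      have h2 : v ≡ v' [MOD q] := Nat.ModEq.cancel_left_of_coprime (by rw [Nat.gcd_comm]; exact ha) h1
      exact Nat.ModEq.eq_of_lt_of_lt h2 hv.1.1 hv'.1.1
    exact_mod_cast this
  · have : (RR q).filter (fun v => a * v ≡ c [MOD q]) = ∅ := by
      ext v
      simp only [mem_filter, notMem_empty, iff_false, not_and]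
      intro _
      exact not_modEq_of_not_coprime q a v c hc ha
    rw [this]
    simp

/-- inner sum over `b` as a sum over classes -/
lemma inner_class (q a c N : ℕ) (hq : 0 < q) (hc : Nat.Coprime c q) (ε : ℝ) (hε : 0 ≤ ε)
    (hnp : ∀ s : Finset ℕ, (∀ n ∈ s, N < n) → ∑ n ∈ s, (if n.Prime then 0 else Λ n) / (n : ℝ) ≤ ε) :
    ∑ b ∈ (Ioc N (N ^ 8)).filter (fun b => a * b ≡ c [MOD q]), Λ b / b
      ≤ ∑ v ∈ RR q, (if a * v ≡ c [MOD q] then (1 : ℝ) else 0) * (Th (Pn N) q v + ε) := by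
  have hnn : ∀ v ∈ RR q, 0 ≤ (if a * v ≡ c [MOD q] then (1 : ℝ) else 0) * (Th (Pn N) q v + ε) := by
    intro v _
    have := Th_nonneg (Pn N) q v
    split_ifs
    · linarith
    · simp
  by_cases ha : Nat.Coprime a q
  · obtain ⟨r, hr⟩ := exists_inv_class q a c hq ha
    have hv : r % q ∈ RR q := by
      simp only [RR, mem_filter, mem_range]
      refine ⟨Nat.mod_lt _ hq, ?_⟩
      have h1 : a * r ≡ c [MOD q] := (hr r).mpr (Nat.ModEq.refl r)
      have h2 : Nat.Coprime (a * r) q := (coprime_congr h1).mpr hc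
      have h3 : Nat.Coprime r q := Nat.Coprime.coprime_mul_left h2
      exact (coprime_congr (Nat.mod_modEq r q)).mpr h3
    have hav : a * (r % q) ≡ c [MOD q] := (hr _).mpr (Nat.mod_modEq r q)
    refine le_trans ?_ (single_le_sum hnn hv)
    rw [if_pos hav, one_mul]
    have e1 : (Ioc N (N ^ 8)).filter (fun b => a * b ≡ c [MOD q])
        = (Ioc N (N ^ 8)).filter (fun b => b ≡ r [MOD q]) := by
      ext b; simp only [mem_filter]; rw [hr b]
    rw [e1]
    have e2 : ∑ b ∈ (Ioc N (N ^ 8)).filter (fun b => b ≡ r [MOD q]), Λ b / (b : ℝ)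
        = ∑ b ∈ (Ioc N (N ^ 8)).filter (fun b => b ≡ r [MOD q]), (if b.Prime then Real.log b / b else 0)
          + ∑ b ∈ (Ioc N (N ^ 8)).filter (fun b => b ≡ r [MOD q]), (if b.Prime then 0 else Λ b) / (b : ℝ) := by
      rw [← sum_add_distrib]
      exact sum_congr rfl fun b _ => prime_part b
    rw [e2, Th_congr (Pn N) q (Nat.mod_modEq r q)]
    apply add_le_add
    · unfold Th Pn wt
      rw [← sum_filter, filter_filter, filter_filter]
      apply le_of_eq
      congr 1
      ext b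
      simp only [mem_filter]
      tauto
    · apply hnp
      intro n hn
      simp only [mem_filter, mem_Ioc] at hn
      exact hn.1.1
  · have : (Ioc N (N ^ 8)).filter (fun b => a * b ≡ c [MOD q]) = ∅ := by
      ext v
      simp only [mem_filter, notMem_empty, iff_false, not_and]
      intro _
      exact not_modEq_of_not_coprime q a v c hc ha
    rw [this, sum_empty]
    exact sum_nonneg hnn

/-- Cauchy–Schwarz against the variance -/
lemma dev_le (P : Finset ℕ) (q : ℕ) (hq : 0 < q) (hP : ∀ p ∈ P, Nat.Coprime p q) (V : ℝ) (hV : 0 ≤ V)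
    (h : VV P q ≤ V ^ 2) :
    ∑ v ∈ RR q, |Th P q v - Lb P / q.totient| ≤ V := by
  have hφ : (0 : ℝ) < q.totient := by exact_mod_cast Nat.totient_pos.mpr hq
  have h1 : (∑ v ∈ RR q, |Th P q v - Lb P / q.totient|) ^ 2
      ≤ ((RR q).card : ℝ) * ∑ v ∈ RR q, |Th P q v - Lb P / q.totient| ^ 2 := sq_sum_le_card_mul_sum_sq
  rw [card_RR] at h1
  have h2 : (q.totient : ℝ) * ∑ v ∈ RR q, |Th P q v - Lb P / q.totient| ^ 2 = VV P q := by
    have h3 : ∀ v ∈ RR q, |Th P q v - Lb P / q.totient| ^ 2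
        = (Th P q v) ^ 2 - 2 * (Lb P / q.totient) * Th P q v + (Lb P / q.totient) ^ 2 := by
      intro v _; rw [sq_abs]; ring
    rw [sum_congr rfl h3, sum_add_distrib, sum_sub_distrib, ← mul_sum, sum_Th P q hq hP, sum_const,
      card_RR, nsmul_eq_mul]
    unfold VV
    field_simp
    ring
  rw [h2] at h1
  exact le_of_sq_le_sq (h1.trans h) hV

lemma loglog_eventually (A W : ℝ) (hW : 0 < W) (hA : 0 ≤ A) : ∀ᶠ N : ℕ in atTop,
    A * (1 + Real.log (W * Real.log N)) ^ 3 ≤ Real.log N ∧ 1 ≤ W * Real.log N := by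
  have h1 : (fun x : ℝ => (A * 8) * Real.log x ^ 3) =o[atTop] (id : ℝ → ℝ) :=
    (Real.isLittleO_pow_log_id_atTop (n := 3)).const_mul_left (A * 8)
  have h2 := h1.def (c := 1) one_pos
  have htend : Tendsto (fun N : ℕ => Real.log N) atTop atTop :=
    Real.tendsto_log_atTop.comp tendsto_natCast_atTop_atTop
  have h3 := htend.eventually h2
  filter_upwards [h3, log_ge_eventually (Real.exp 1 * W + 1), log_ge_eventually (1 / W), log_ge_eventually 1]
    with N hN h4 h5 h6
  have hL : 0 < Real.log N := by linarith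
  rw [div_le_iff₀ hW] at h5
  constructor
  · simp only [id, one_mul, Real.norm_eq_abs] at hN
    have hlog : 1 + Real.log (W * Real.log N) ≤ 2 * Real.log (Real.log N) := by
      rw [Real.log_mul hW.ne' hL.ne']
      have h7 : Real.log (Real.exp 1 * W) ≤ Real.log (Real.log N) :=
        Real.log_le_log (by positivity) (by linarith)
      rw [Real.log_mul (Real.exp_pos 1).ne' hW.ne', Real.log_exp] at h7
      linarith
    have h8 : 0 ≤ 1 + Real.log (W * Real.log N) := by
      have : 0 ≤ Real.log (W * Real.log N) := Real.log_nonneg (by linarith)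
      linarith
    calc A * (1 + Real.log (W * Real.log N)) ^ 3 ≤ A * (2 * Real.log (Real.log N)) ^ 3 := by gcongr
      _ = (A * 8) * Real.log (Real.log N) ^ 3 := by ring
      _ ≤ |(A * 8) * Real.log (Real.log N) ^ 3| := le_abs_self _
      _ ≤ |Real.log N| := hN
      _ = Real.log N := abs_of_pos hL
  · linarith

/-- bound for primes powers in a class beyond `N0` -/
lemma A2_bound (K : ℝ) (hBT : ∀ J Q c M N : ℕ, 0 < Q → Q ≤ YY J → YY J ^ 12 ≤ M → 3 * M ≤ N →
    Nat.Coprime c Q →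
    ∑ p ∈ (Ioc M N).filter (fun p => p.Prime ∧ p ≡ c [MOD Q]), (1 : ℝ) / p
      ≤ K * Real.log (N / M) / (Q.totient * Real.log (YY J))) (hK : 0 < K)
    (J q r N0 N : ℕ) (hq : 0 < q) (hqY : q ≤ YY J) (hJ : YY J ^ 12 ≤ N0) (hN : 3 * N0 ≤ N ^ 4)
    (hr : Nat.Coprime r q) (hN1 : 1 ≤ N) (hN0 : 1 ≤ N0) :
    ∑ a ∈ (Ioc N0 (N ^ 4)).filter (fun a => a ≡ r [MOD q]), Λ a / a
      ≤ 16 * K * Real.log N ^ 2 / (q.totient * Real.log (YY J)) + cpp := by
  have h1 : ∑ a ∈ (Ioc N0 (N ^ 4)).filter (fun a => a ≡ r [MOD q]), Λ a / (a : ℝ)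
      = ∑ a ∈ (Ioc N0 (N ^ 4)).filter (fun a => a ≡ r [MOD q]), (if a.Prime then Real.log a / a else 0)
        + ∑ a ∈ (Ioc N0 (N ^ 4)).filter (fun a => a ≡ r [MOD q]), (if a.Prime then 0 else Λ a) / (a : ℝ) := by
    rw [← sum_add_distrib]
    exact sum_congr rfl fun b _ => prime_part b
  rw [h1]
  have hφ : (0 : ℝ) < q.totient := by exact_mod_cast Nat.totient_pos.mpr hq
  have hYY : 0 < Real.log (YY J) := Real.log_pos (by have := YY_ge J; exact_mod_cast (by omega : 1 < YY J))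
  have hL0 : 0 ≤ Real.log N := Real.log_natCast_nonneg N
  apply add_le_add _ (nonprime_sum_le _)
  rw [← sum_filter, filter_filter]
  calc ∑ a ∈ (Ioc N0 (N ^ 4)).filter (fun a => a ≡ r [MOD q] ∧ a.Prime), Real.log a / (a : ℝ)
      ≤ ∑ a ∈ (Ioc N0 (N ^ 4)).filter (fun a => a ≡ r [MOD q] ∧ a.Prime), (4 * Real.log N) * ((1 : ℝ) / a) := by
        refine sum_le_sum fun a ha => ?_
        simp only [mem_filter, mem_Ioc] at ha
        rw [div_eq_mul_one_div]
        have ha0 : (0 : ℝ) < a := by exact_mod_cast (by omega : 0 < a)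
        have h2 : Real.log a ≤ 4 * Real.log N := by
          have h3 : (a : ℝ) ≤ (N : ℝ) ^ 4 := by exact_mod_cast ha.1.2
          have h4 := Real.log_le_log ha0 h3
          rw [Real.log_pow] at h4
          exact_mod_cast h4
        gcongr
    _ = (4 * Real.log N) * ∑ a ∈ (Ioc N0 (N ^ 4)).filter (fun a => a.Prime ∧ a ≡ r [MOD q]), (1 : ℝ) / a := by
        rw [← mul_sum]
        congr 2
        ext a
        simp only [mem_filter]
        tauto
    _ ≤ (4 * Real.log N) * (K * Real.log (((N ^ 4 : ℕ) : ℝ) / N0) / (q.totient * Real.log (YY J))) := by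
        apply mul_le_mul_of_nonneg_left (hBT J q r N0 (N ^ 4) hq hqY hJ hN hr) (by positivity)
    _ ≤ (4 * Real.log N) * (K * (4 * Real.log N) / (q.totient * Real.log (YY J))) := by
        have h3 : Real.log (((N ^ 4 : ℕ) : ℝ) / N0) ≤ 4 * Real.log N := by
          have hN0' : (1 : ℝ) ≤ N0 := by exact_mod_cast hN0
          have hN' : (1 : ℝ) ≤ N := by exact_mod_cast hN1
          rw [Real.log_div (by positivity) (by positivity)]
          push_cast
          rw [Real.log_pow]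
          have := Real.log_nonneg hN0'
          push_cast
          linarith
        gcongr
    _ = _ := by ring

lemma exists_root (h N : ℕ) (hh : 1 ≤ h) (hN : 1 ≤ N) : ∃ N0 : ℕ, 1 ≤ N0 ∧ N0 ≤ N ∧
    Real.log N0 ≤ Real.log N / h ∧ Real.log N / h - Real.log 2 ≤ Real.log N0 := by
  have hN' : (1 : ℝ) ≤ N := by exact_mod_cast hN
  have hL0 : 0 ≤ Real.log N := Real.log_nonneg hN'
  have hh' : (1 : ℝ) ≤ h := by exact_mod_cast hh
  set e : ℝ := Real.exp (Real.log N / h) with he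
  have he1 : 1 ≤ e := Real.one_le_exp (by positivity)
  have hfl : 1 ≤ ⌊e⌋₊ := Nat.le_floor (by exact_mod_cast he1)
  refine ⟨⌊e⌋₊, hfl, ?_, ?_, ?_⟩
  · have h1 : e ≤ N := by
      rw [he]
      calc Real.exp (Real.log N / h) ≤ Real.exp (Real.log N) := by
            apply Real.exp_le_exp.mpr
            exact div_le_self hL0 hh'
        _ = N := Real.exp_log (by linarith)
    exact_mod_cast (Nat.floor_le (by linarith)).trans h1
  · have h1 : ((⌊e⌋₊ : ℕ) : ℝ) ≤ e := Nat.floor_le (by linarith)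
    have h2 := Real.log_le_log (by exact_mod_cast hfl) h1
    rw [he, Real.log_exp] at h2
    rw [← he] at h2
    exact h2
  · have h1 : e < ((⌊e⌋₊ : ℕ) : ℝ) + 1 := Nat.lt_floor_add_one e
    have h2 : ((⌊e⌋₊ : ℕ) : ℝ) + 1 ≤ 2 * ((⌊e⌋₊ : ℕ) : ℝ) := by
      have : (1 : ℝ) ≤ ((⌊e⌋₊ : ℕ) : ℝ) := by exact_mod_cast hfl
      linarith
    have h3 := Real.log_le_log (by linarith) (h1.le.trans h2)
    rw [Real.log_mul (by norm_num) (by have : (1 : ℝ) ≤ ((⌊e⌋₊ : ℕ) : ℝ) := by exact_mod_cast hfl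
                                       linarith)] at h3
    have h4 : Real.log e = Real.log N / h := by rw [he, Real.log_exp]
    rw [h4] at h3
    linarith

end Pool.Agent.E456
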