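import Mathlib
import Pool.Agent.E456.FirstLog

/-!
# Lower bound for `∑ log² p / p` in reduced classes of small variance, main theorem
-/

namespace Pool.Agent.E456

open Finset Filter
open scoped ArithmeticFunction.vonMangoldt

/-- The bilinear sum, bounded via the variance. -/
lemma bilinear_class (q c N N0 : ℕ) (hq : 0 < q) (hc : Nat.Coprime c q) (hN : 1 ≤ N) (hN0 : 1 ≤ N0)
    (ε : ℝ) (hε : 0 ≤ ε)
    (hnp : ∀ s : Finset ℕ, (∀ n ∈ s, N < n) → ∑ n ∈ s, (if n.Prime then 0 else Λ n) / (n : ℝ) ≤ ε)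
    (T B V : ℝ) (hT : ∀ v ∈ RR q, Th (Pn N) q v ≤ T) (hT0 : 0 ≤ T) (hB0 : 0 ≤ B)
    (hB : ∀ v ∈ RR q, ∑ a ∈ (Ioc N0 (N ^ 4)).filter (fun a => a * v ≡ c [MOD q]), Λ a / (a : ℝ) ≤ B)
    (hV : ∑ v ∈ RR q, |Th (Pn N) q v - Lb (Pn N) / q.totient| ≤ V) :
    ∑ a ∈ Ioc 0 (N ^ 4), Λ a / a * ∑ b ∈ (Ioc N (N ^ 8)).filter (fun b => a * b ≡ c [MOD q]), Λ b / b
      ≤ (Lb (Pn N) / q.totient + ε) * (4 * Real.log N + 6) + T * (Real.log N0 + 6) + B * V := by
  have hφ : (0 : ℝ) < q.totient := by exact_mod_cast Nat.totient_pos.mpr hq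
  have hΛ : ∀ a : ℕ, 0 ≤ Λ a / (a : ℝ) := fun a =>
    div_nonneg ArithmeticFunction.vonMangoldt_nonneg (by positivity)
  have hL := Lb_nonneg (Pn N)
  set D : ℝ := Lb (Pn N) / q.totient with hD
  have hD0 : 0 ≤ D := by positivity
  -- split the value
  set E : ℕ → ℝ := fun v => |Th (Pn N) q v - D| with hE
  have h1 : ∀ a ∈ Ioc 0 (N ^ 4), Λ a / (a : ℝ) * ∑ b ∈ (Ioc N (N ^ 8)).filter (fun b => a * b ≡ c [MOD q]), Λ b / b
      ≤ (D + ε) * (Λ a / a) + (if a ≤ N0 then T * (Λ a / a) else 0)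
        + (if a ≤ N0 then 0 else ∑ v ∈ RR q, (if a * v ≡ c [MOD q] then (1 : ℝ) else 0) * (E v * (Λ a / a))) := by
    intro a _
    have h2 := inner_class q a c N hq hc ε hε hnp
    have hcc := class_count_le q a c hc
    have hcc0 : ∀ v ∈ RR q, (0 : ℝ) ≤ (if a * v ≡ c [MOD q] then (1 : ℝ) else 0) := by
      intro v _; split_ifs <;> norm_num
    have h3 : ∑ v ∈ RR q, (if a * v ≡ c [MOD q] then (1 : ℝ) else 0) * (Th (Pn N) q v + ε)
        ≤ (D + ε) + (if a ≤ N0 then T else
          ∑ v ∈ RR q, (if a * v ≡ c [MOD q] then (1 : ℝ) else 0) * E v) := by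
      by_cases ha : a ≤ N0
      · rw [if_pos ha]
        calc _ ≤ ∑ v ∈ RR q, (if a * v ≡ c [MOD q] then (1 : ℝ) else 0) * (T + ε) := by
              refine sum_le_sum fun v hv => ?_
              apply mul_le_mul_of_nonneg_left _ (hcc0 v hv)
              linarith [hT v hv]
          _ = (∑ v ∈ RR q, (if a * v ≡ c [MOD q] then (1 : ℝ) else 0)) * (T + ε) := by rw [sum_mul]
          _ ≤ 1 * (T + ε) := by gcongr
          _ ≤ _ := by linarith
      · rw [if_neg ha]
        calc _ ≤ ∑ v ∈ RR q, ((if a * v ≡ c [MOD q] then (1 : ℝ) else 0) * (D + ε)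
              + (if a * v ≡ c [MOD q] then (1 : ℝ) else 0) * E v) := by
              refine sum_le_sum fun v hv => ?_
              rw [← mul_add]
              apply mul_le_mul_of_nonneg_left _ (hcc0 v hv)
              have := le_abs_self (Th (Pn N) q v - D)
              simp only [hE]
              linarith
          _ = (∑ v ∈ RR q, (if a * v ≡ c [MOD q] then (1 : ℝ) else 0)) * (D + ε)
              + ∑ v ∈ RR q, (if a * v ≡ c [MOD q] then (1 : ℝ) else 0) * E v := by
              rw [sum_add_distrib, sum_mul]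
          _ ≤ 1 * (D + ε) + ∑ v ∈ RR q, (if a * v ≡ c [MOD q] then (1 : ℝ) else 0) * E v := by
              gcongr
          _ = _ := by ring
    have h4 := mul_le_mul_of_nonneg_left (h2.trans h3) (hΛ a)
    refine h4.trans (le_of_eq ?_)
    by_cases ha : a ≤ N0
    · simp only [if_pos ha]; ring
    · simp only [if_neg ha]
      rw [mul_add, mul_sum]
      have : ∑ i ∈ RR q, Λ a / ↑a * ((if a * i ≡ c [MOD q] then (1 : ℝ) else 0) * E i)
          = ∑ v ∈ RR q, (if a * v ≡ c [MOD q] then (1 : ℝ) else 0) * (E v * (Λ a / a)) :=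
        sum_congr rfl fun v _ => by ring
      rw [this]
      ring
  refine (sum_le_sum h1).trans ?_
  rw [sum_add_distrib, sum_add_distrib, ← mul_sum]
  have hN4 : 1 ≤ N ^ 4 := Nat.one_le_pow _ _ hN
  have hm1 := mertens1_upper (N ^ 4) hN4
  have hm2 := mertens1_upper N0 hN0
  have hlog4 : Real.log ((N ^ 4 : ℕ) : ℝ) = 4 * Real.log N := by
    push_cast; rw [Real.log_pow]; norm_num
  rw [hlog4] at hm1
  apply add_le_add (add_le_add _ _) _
  · exact mul_le_mul_of_nonneg_left hm1 (by linarith)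
  · rw [← sum_filter, ← mul_sum]
    apply mul_le_mul_of_nonneg_left _ hT0
    refine le_trans ?_ hm2
    apply sum_le_sum_of_subset_of_nonneg
    · intro a ha; simp only [mem_filter, mem_Ioc] at ha ⊢; omega
    · intro a _ _; exact hΛ a
  · have e1 : ∑ a ∈ Ioc 0 (N ^ 4), (if a ≤ N0 then 0 else
        ∑ v ∈ RR q, (if a * v ≡ c [MOD q] then (1 : ℝ) else 0) * (E v * (Λ a / a)))
        = ∑ a ∈ Ioc N0 (N ^ 4), ∑ v ∈ RR q, (if a * v ≡ c [MOD q] then (1 : ℝ) else 0) * (E v * (Λ a / a)) := by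
      have e2 : ∀ a ∈ Ioc 0 (N ^ 4), (if a ≤ N0 then 0 else
        ∑ v ∈ RR q, (if a * v ≡ c [MOD q] then (1 : ℝ) else 0) * (E v * (Λ a / a)))
        = (if N0 < a then ∑ v ∈ RR q, (if a * v ≡ c [MOD q] then (1 : ℝ) else 0) * (E v * (Λ a / a)) else 0) := by
        intro a _
        by_cases ha : a ≤ N0
        · rw [if_pos ha, if_neg (by omega)]
        · rw [if_neg ha, if_pos (by omega)]
      rw [sum_congr rfl e2, ← sum_filter]
      congr 1
      ext a; simp only [mem_filter, mem_Ioc]; omega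
    rw [e1, sum_comm]
    calc ∑ v ∈ RR q, ∑ a ∈ Ioc N0 (N ^ 4), (if a * v ≡ c [MOD q] then (1 : ℝ) else 0) * (E v * (Λ a / a))
        = ∑ v ∈ RR q, E v * ∑ a ∈ (Ioc N0 (N ^ 4)).filter (fun a => a * v ≡ c [MOD q]), Λ a / (a : ℝ) := by
          refine sum_congr rfl fun v _ => ?_
          rw [mul_sum, sum_filter]
          refine sum_congr rfl fun a _ => ?_
          split_ifs <;> simp
      _ ≤ ∑ v ∈ RR q, E v * B := by
          refine sum_le_sum fun v hv => ?_
          exact mul_le_mul_of_nonneg_left (hB v hv) (abs_nonneg _)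
      _ = B * ∑ v ∈ RR q, E v := by rw [← sum_mul, mul_comm]
      _ ≤ B * V := mul_le_mul_of_nonneg_left hV hB0

/-- main lower bound -/
theorem log_sq_lower (W : ℕ) (hW : 0 < W) : ∃ δ : ℝ, 0 < δ ∧ ∀ᶠ N : ℕ in atTop, ∀ q c : ℕ, 7 ≤ q →
    (q : ℝ) ≤ W * Real.log N → VV (Pn N) q ≤ δ * Real.log N ^ 2 → Nat.Coprime c q →
    Real.log N ^ 2 / q.totient ≤ ∑ p ∈ (Ioc (N ^ 2) (N ^ 8)).filter (fun p => p.Prime ∧ p ≡ c [MOD q]),
      (Real.log p) ^ 2 / p := by
  obtain ⟨K1, hK1, hTh⟩ := Th_bound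
  obtain ⟨K2, hK2, hBT⟩ := BT
  obtain ⟨C, hC, hSL⟩ := SL_equi
  have hcpp := cpp_nonneg
  have hW' : (0 : ℝ) < W := by exact_mod_cast hW
  obtain ⟨h, hh⟩ := exists_nat_gt (8 * K1 + 1)
  have hh1 : 1 ≤ h := by
    have : (1 : ℝ) < h := by linarith
    exact_mod_cast this.le
  have hh' : (0 : ℝ) < h := by exact_mod_cast hh1
  set B0 : ℝ := 16 * K2 * 48 * h + cpp * W + 1 with hB0
  have hB0p : 0 < B0 := by positivity
  refine ⟨(1 / (4 * B0)) ^ 2, by positivity, ?_⟩
  filter_upwards [hTh W, nonprime_tail (1 / (100 * W)) (by positivity),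
    loglog_eventually (100 * C * W + 100 * C) W hW' (by positivity),
    log_ge_eventually (100 * (7 + cpp) + 1000 + 100 * K1), log_ge_eventually (2 * h * Real.log 2),
    log_ge_eventually (h * (Real.log 2 + 12 * Real.log 6)),
    log_pow_eventually (48 * h) ((W : ℝ) ^ (48 * h)), log_pow_eventually 1 W, eventually_ge_atTop 3]
    with N h1 h2 h3 h4 h5 h6 h7 h8 h9 q c hq hqW hVV hc
  set L : ℝ := Real.log N with hL
  have hL1 : 1000 ≤ L := by linarith
  have hL0 : 0 < L := by linarith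
  have hq0 : 0 < q := by omega
  have hq' : (0 : ℝ) < q := by exact_mod_cast hq0
  have hφ : (0 : ℝ) < q.totient := by exact_mod_cast Nat.totient_pos.mpr hq0
  have hφq : (q.totient : ℝ) ≤ q := by exact_mod_cast Nat.totient_le q
  have hφW : (q.totient : ℝ) ≤ W * L := hφq.trans hqW
  have hqN : q ≤ N := by
    rw [pow_one] at h8
    exact_mod_cast hqW.trans h8
  have hLφ : 1 / W ≤ L / q.totient := by
    rw [div_le_div_iff₀ hW' hφ]; linarith
  have hN1 : 1 ≤ N := by omega
  have hN' : (1 : ℝ) ≤ N := by exact_mod_cast hN1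
  -- N0
  obtain ⟨N0, hN01, hN0N, hN0a, hN0b⟩ := exists_root h N hh1 hN1
  rw [← hL] at hN0a hN0b
  have hlN0 : L / (2 * h) ≤ Real.log N0 := by
    have : L / (2 * h) = L / h - L / (2 * h) := by field_simp; ring
    have h10 : Real.log 2 ≤ L / (2 * h) := by
      rw [le_div_iff₀ (by positivity)]; linarith
    linarith
  have hN0big : 6 ^ 12 ≤ N0 := by
    have h10 : 12 * Real.log 6 ≤ Real.log N0 := by
      have : Real.log 2 + 12 * Real.log 6 ≤ L / h := by
        rw [le_div_iff₀ hh']; linarith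
      linarith
    have h11 : Real.log ((6 : ℝ) ^ 12) ≤ Real.log N0 := by
      rw [Real.log_pow]; exact_mod_cast h10
    have h12 := (Real.log_le_log_iff (by positivity) (by exact_mod_cast hN01)).mp h11
    exact_mod_cast h12
  obtain ⟨J, hJ1, hJ2⟩ := exists_J N0 hN0big
  have hY := log_YY_ge N0 J hN01 hJ2
  have hlY : L / (48 * h) ≤ Real.log (YY J) := by
    have : L / (48 * h) = L / (2 * h) / 24 := by field_simp; ring
    linarith
  have hlY0 : 0 < Real.log (YY J) := lt_of_lt_of_le (by positivity) hlY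
  have hqY : q ≤ YY J := by
    by_contra hlt
    push Not at hlt
    have h10 : (YY J : ℝ) ≤ W * L := (by exact_mod_cast hlt.le : (YY J : ℝ) ≤ q).trans hqW
    have hYpos : (0 : ℝ) < YY J := by have := YY_ge J; exact_mod_cast (by omega : 0 < YY J)
    have h11 : (N : ℝ) < (YY J : ℝ) ^ (48 * h) := by
      have h12 : L < (48 * h : ℕ) * Real.log (YY J) := by
        have h13 : Real.log N0 < 24 * Real.log (YY J) := by
          have h14 : (N0 : ℝ) < (YY J : ℝ) ^ 24 := by exact_mod_cast hJ2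
          have h15 := Real.log_lt_log (by exact_mod_cast hN01) h14
          rw [Real.log_pow] at h15
          exact_mod_cast h15
        have h14 : L / (2 * h) < 24 * Real.log (YY J) := lt_of_le_of_lt hlN0 h13
        rw [div_lt_iff₀ (by positivity)] at h14
        push_cast
        linarith
      rw [← Real.log_pow] at h12
      exact (Real.log_lt_log_iff (by linarith) (by positivity)).mp h12
    have h12 : (YY J : ℝ) ^ (48 * h) ≤ (W * L) ^ (48 * h) := pow_le_pow_left₀ hYpos.le h10 _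
    rw [mul_pow] at h12
    linarith
  have hN0N4 : 3 * N0 ≤ N ^ 4 := by
    calc 3 * N0 ≤ N * N := Nat.mul_le_mul h9 hN0N
      _ = N ^ 2 := by ring
      _ ≤ N ^ 4 := Nat.pow_le_pow_right hN1 (by norm_num)
  -- the bilinear bound
  have hBbound : ∀ v ∈ RR q, ∑ a ∈ (Ioc N0 (N ^ 4)).filter (fun a => a * v ≡ c [MOD q]), Λ a / (a : ℝ)
      ≤ B0 * L / q.totient := by
    intro v hv
    simp only [RR, mem_filter, mem_range] at hv
    obtain ⟨r, hr⟩ := exists_inv_class q v c hq0 hv.2
    have hrq : Nat.Coprime r q := by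
      have h10 : v * r ≡ c [MOD q] := (hr r).mpr (Nat.ModEq.refl r)
      have h11 : Nat.Coprime (v * r) q := (coprime_congr h10).mpr hc
      exact Nat.Coprime.coprime_mul_left h11
    have e1 : (Ioc N0 (N ^ 4)).filter (fun a => a * v ≡ c [MOD q])
        = (Ioc N0 (N ^ 4)).filter (fun a => a ≡ r [MOD q]) := by
      ext a; simp only [mem_filter]; rw [mul_comm a v, hr a]
    rw [e1]
    refine (A2_bound K2 hBT hK2 J q r N0 N hq0 hqY hJ1 hN0N4 hrq hN1 hN01).trans ?_
    rw [← hL]
    calc 16 * K2 * L ^ 2 / (q.totient * Real.log (YY J)) + cpp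
        ≤ 16 * K2 * L ^ 2 / (q.totient * (L / (48 * h))) + cpp * W * (L / q.totient) := by
          have h10 : cpp ≤ cpp * W * (L / q.totient) := by
            calc cpp = cpp * W * (1 / W) := by field_simp
              _ ≤ _ := by gcongr
          gcongr
      _ = (16 * K2 * 48 * h + cpp * W) * L / q.totient := by
          field_simp
      _ ≤ _ := by
          apply div_le_div_of_nonneg_right _ hφ.le
          apply mul_le_mul_of_nonneg_right _ hL0.le
          rw [hB0]
          linarith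
  have hdev := dev_le (Pn N) q hq0 (coprime_Pn N q hq0 hqN) (1 / (4 * B0) * L) (by positivity)
    (by rw [mul_pow]; exact hVV)
  have hbil := bilinear_class q c N N0 hq0 hc hN1 hN01 (1 / (100 * W)) (by positivity) h2
    (K1 * L / q.totient) (B0 * L / q.totient) (1 / (4 * B0) * L)
    (fun v hv => by
      simp only [RR, mem_filter, mem_range] at hv
      exact h1 q v hq0 hqW hv.2) (by positivity) (by positivity) hBbound hdev
  rw [← hL] at hbil
  have hbil2 := bilinear_le N q c hN1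
  -- the Selberg main term
  have hS8 := hSL q (N ^ 8) c hq (Nat.one_le_pow _ _ hN1) hc
  have hS2 := hSL q (N ^ 2) c hq (Nat.one_le_pow _ _ hN1) hc
  have hlog2 : Real.log ((N ^ 2 : ℕ) : ℝ) = 2 * L := by
    push_cast; rw [Real.log_pow, hL]; norm_num
  rw [log_N8, ← hL] at hS8
  rw [hlog2] at hS2
  have hsplit : SL q (N ^ 8) c = SL q (N ^ 2) c
      + ∑ m ∈ (Ioc (N ^ 2) (N ^ 8)).filter (fun m => m ≡ c [MOD q]), L2 m / m := by
    unfold SL
    have hle : N ^ 2 ≤ N ^ 8 := Nat.pow_le_pow_right hN1 (by norm_num)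
    rw [← Ioc_union_Ioc_eq_Ioc (Nat.zero_le (N ^ 2)) hle, filter_union, sum_union]
    rw [Finset.disjoint_left]; intro x hx hx'; simp only [mem_filter, mem_Ioc] at hx hx'; omega
  have hL2 : ∑ m ∈ (Ioc (N ^ 2) (N ^ 8)).filter (fun m => m ≡ c [MOD q]), L2 m / m
      = ∑ m ∈ (Ioc (N ^ 2) (N ^ 8)).filter (fun m => m ≡ c [MOD q]), Λ m / m * Real.log m
        + ∑ m ∈ (Ioc (N ^ 2) (N ^ 8)).filter (fun m => m ≡ c [MOD q]), (Λ * Λ : ArithmeticFunction ℝ) m / m := by
    rw [← sum_add_distrib]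
    refine sum_congr rfl fun m _ => ?_
    rw [L2_apply]; ring
  have hΛlog : ∑ m ∈ (Ioc (N ^ 2) (N ^ 8)).filter (fun m => m ≡ c [MOD q]), Λ m / m * Real.log m
      ≤ ∑ p ∈ (Ioc (N ^ 2) (N ^ 8)).filter (fun p => p.Prime ∧ p ≡ c [MOD q]), (Real.log p) ^ 2 / p
        + 8 * L * (1 / (100 * W)) := by
    have e1 : ∑ m ∈ (Ioc (N ^ 2) (N ^ 8)).filter (fun m => m ≡ c [MOD q]), Λ m / m * Real.log m
        = ∑ m ∈ (Ioc (N ^ 2) (N ^ 8)).filter (fun m => m ≡ c [MOD q]),
            (if m.Prime then (Real.log m) ^ 2 / m else 0)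
          + ∑ m ∈ (Ioc (N ^ 2) (N ^ 8)).filter (fun m => m ≡ c [MOD q]),
            ((if m.Prime then 0 else Λ m) / (m : ℝ)) * Real.log m := by
      rw [← sum_add_distrib]
      refine sum_congr rfl fun m _ => ?_
      rw [prime_part m]
      split_ifs
      · ring
      · ring
    rw [e1]
    apply add_le_add
    · rw [← sum_filter, filter_filter]
      apply le_of_eq
      congr 1
      ext m; simp only [mem_filter]; tauto
    · calc _ ≤ ∑ m ∈ (Ioc (N ^ 2) (N ^ 8)).filter (fun m => m ≡ c [MOD q]),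
            ((if m.Prime then 0 else Λ m) / (m : ℝ)) * (8 * L) := by
            refine sum_le_sum fun m hm => ?_
            simp only [mem_filter, mem_Ioc] at hm
            apply mul_le_mul_of_nonneg_left _ (nonprime_nonneg m)
            rw [hL, ← log_N8]
            exact Real.log_le_log (by exact_mod_cast (by omega : 0 < m)) (by exact_mod_cast hm.1.2)
        _ = (∑ m ∈ (Ioc (N ^ 2) (N ^ 8)).filter (fun m => m ≡ c [MOD q]),
            ((if m.Prime then 0 else Λ m) / (m : ℝ))) * (8 * L) := by rw [sum_mul]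
        _ ≤ (1 / (100 * W)) * (8 * L) := by
            apply mul_le_mul_of_nonneg_right _ (by positivity)
            apply h2
            intro n hn
            simp only [mem_filter, mem_Ioc] at hn
            have : N ≤ N ^ 2 := Nat.le_self_pow (by norm_num) N
            omega
        _ = _ := by ring
  -- error terms
  set u : ℝ := L ^ 2 / q.totient with hu
  have hu0 : 0 < u := by positivity
  have hε : L * (1 / (100 * W)) ≤ u / 100 := by
    rw [hu]
    calc L * (1 / (100 * W)) = (1 / W) * L / 100 := by field_simp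
      _ ≤ (L / q.totient) * L / 100 := by gcongr
      _ = _ := by ring
  have hlq : Real.log q ≤ Real.log (W * L) := Real.log_le_log hq' hqW
  have hlq0 := Real.log_natCast_nonneg q
  set l : ℝ := 1 + Real.log (W * L) with hl
  have hl1 : 1 ≤ l := by rw [hl]; linarith
  have hll : l ≤ l ^ 3 := le_self_pow₀ hl1 (by norm_num)
  have h3' : 100 * C * W * l ^ 3 + 100 * C * l ^ 3 ≤ L := by
    have := h3.1
    rw [add_mul] at this
    exact this
  have hw3 : 100 * C * W * l ^ 3 ≤ L := by
    have : 0 ≤ 100 * C * l ^ 3 := by positivity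
    linarith
  have hw4 : 100 * C * l ^ 3 ≤ L := by
    have : 0 ≤ 100 * C * W * l ^ 3 := by positivity
    linarith
  have hSerr : ∀ X : ℝ, 0 ≤ X → X ≤ 8 * L → C * ((1 + Real.log q) + (1 + Real.log q) ^ 3 * (1 + X) / q.totient)
      ≤ u / 5 := by
    intro X hX0 hX
    have hlog1 : 1 + Real.log q ≤ l := by rw [hl]; linarith
    have e1 : C * (1 + Real.log q) ≤ u / 100 := by
      calc C * (1 + Real.log q) ≤ C * l ^ 3 := by gcongr; linarith
        _ = (100 * C * W * l ^ 3) * (1 / W) / 100 := by field_simp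
        _ ≤ L * (L / q.totient) / 100 := by gcongr
        _ = u / 100 := by rw [hu]; ring
    have e2 : C * ((1 + Real.log q) ^ 3 * (1 + X) / q.totient) ≤ 9 * u / 100 := by
      calc C * ((1 + Real.log q) ^ 3 * (1 + X) / q.totient) ≤ C * (l ^ 3 * (9 * L) / q.totient) := by
            gcongr
            linarith
        _ = (100 * C * l ^ 3) * (9 * L) / q.totient / 100 := by ring
        _ ≤ L * (9 * L) / q.totient / 100 := by gcongr
        _ = 9 * u / 100 := by rw [hu]; ring
    rw [mul_add]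
    linarith
  have hS8' := (abs_le.mp hS8).1
  have hS2' := (abs_le.mp hS2).2
  have he8 := hSerr (8 * L) (by positivity) le_rfl
  have he2 := hSerr (2 * L) (by positivity) (by linarith)
  have hLb := (abs_le.mp (Lb_bounds N hN1)).2
  rw [← hL] at hLb
  have hb1 : (Lb (Pn N) / q.totient + 1 / (100 * W)) * (4 * L + 6) ≤ 28 * u + u / 2 := by
    have e1 : Lb (Pn N) ≤ 7 * L + L / 100 := by linarith
    have e2 : 4 * L + 6 ≤ 4 * L + 6 * (L / 1000) := by linarith
    calc (Lb (Pn N) / q.totient + 1 / (100 * W)) * (4 * L + 6)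
        ≤ ((7 * L + L / 100) / q.totient + 1 / (100 * W)) * (4 * L + 6 * (L / 1000)) := by gcongr
      _ = (7.01 * 4.006) * u + 4.006 * (L * (1 / (100 * W))) := by rw [hu]; field_simp; ring
      _ ≤ (7.01 * 4.006) * u + 4.006 * (u / 100) := by gcongr
      _ ≤ 28 * u + u / 2 := by linarith
  have hb2 : K1 * L / q.totient * (Real.log N0 + 6) ≤ u / 4 := by
    calc K1 * L / q.totient * (Real.log N0 + 6) ≤ K1 * L / q.totient * (L / h + 6) := by gcongr
      _ = (K1 / h) * u + (6 * K1) * L / q.totient := by rw [hu]; field_simp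
      _ ≤ (1 / 8) * u + (6 * (L / 100)) * L / q.totient := by
          have e1 : K1 / h ≤ 1 / 8 := by
            rw [div_le_div_iff₀ hh' (by norm_num)]; linarith
          have e2 : K1 ≤ L / 100 := by linarith
          gcongr
      _ = (1 / 8) * u + (6 / 100) * u := by rw [hu]; ring
      _ ≤ u / 4 := by linarith
  have hb3 : B0 * L / q.totient * (1 / (4 * B0) * L) = u / 4 := by
    rw [hu]; field_simp
  have hm1 : (8 * L) ^ 2 / q.totient = 64 * u := by rw [hu]; ring
  have hm2 : (2 * L) ^ 2 / q.totient = 4 * u := by rw [hu]; ring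
  rw [hm1] at hS8'
  rw [hm2] at hS2'
  rw [hb3] at hbil
  linarith

end Pool.Agent.E456
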