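import Mathlib
import Pool.Agent.E456.FirstLog2

/-!
# First moment of `r(n) = #{k ≤ log N : n k + 1 prime}` over `z`-rough `n`
-/

namespace Pool.Agent.E456

open Finset Filter

/-- primes up to `z` -/
def PZ (z : ℕ) : Finset ℕ := (Ioc 0 z).filter Nat.Prime

/-- product of the primes up to `z` -/
def WZ (z : ℕ) : ℕ := ∏ l ∈ PZ z, l

/-- number of small multipliers giving a prime -/
noncomputable def rr (N n : ℕ) : ℕ := ((Ioc 0 (KK N)).filter (fun k => (n * k + 1).Prime)).card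

lemma PZ_prime {z l : ℕ} (h : l ∈ PZ z) : l.Prime := (mem_filter.mp h).2

lemma WZ_pos (z : ℕ) : 0 < WZ z := prod_pos fun l hl => (PZ_prime hl).pos

lemma coprime_WZ (z n : ℕ) : Nat.Coprime n (WZ z) ↔ ∀ l ∈ PZ z, ¬ l ∣ n := by
  unfold WZ
  rw [Nat.coprime_prod_right_iff]
  constructor
  · intro h l hl hd
    have := h l hl
    rw [Nat.coprime_comm, (PZ_prime hl).coprime_iff_not_dvd] at this
    exact this hd
  · intro h l hl
    rw [Nat.coprime_comm, (PZ_prime hl).coprime_iff_not_dvd]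
    exact h l hl

/-- residues `r` with `r` and `1 + k r` coprime to `W` -/
def SK (z k : ℕ) : Finset ℕ := (RR (WZ z)).filter (fun r => Nat.Coprime (1 + k * r) (WZ z))

/-- local factor -/
noncomputable def yk (k l n : ℕ) : ℝ := if l ∣ n ∨ l ∣ 1 + k * n then 0 else 1

lemma yk_per (k l n : ℕ) : yk k l (n + l) = yk k l n := by
  unfold yk
  have h1 : l ∣ n + l ↔ l ∣ n := by simp
  have h2 : l ∣ 1 + k * (n + l) ↔ l ∣ 1 + k * n := by
    rw [mul_add, ← add_assoc]
    exact Nat.dvd_add_left (Dvd.intro_left k rfl)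
  simp only [h1, h2]

lemma card_SK (z k : ℕ) : ((SK z k).card : ℝ) = ∏ l ∈ PZ z, ∑ n ∈ range l, yk k l n := by
  have h1 := period_prod (f := fun _ => (1 : ℝ)) (Q := 1) one_pos (fun _ => rfl) (y := yk k) (yk_per k) (PZ z)
    (fun i hi => ⟨PZ_prime hi, fun h => (PZ_prime hi).one_lt.ne' (Nat.dvd_one.mp h)⟩)
  simp only [one_mul, sum_const, card_range, one_smul] at h1
  rw [← h1]
  unfold SK RR
  rw [filter_filter, card_filter]
  push_cast
  unfold WZ
  refine sum_congr rfl fun n _ => ?_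
  have h2 : ∏ i ∈ PZ z, yk k i n = if ∀ l ∈ PZ z, ¬ (l ∣ n ∨ l ∣ 1 + k * n) then 1 else 0 := by
    split_ifs with h
    · apply prod_eq_one
      intro i hi
      unfold yk
      rw [if_neg (h i hi)]
    · push Not at h
      obtain ⟨l, hl, hl2⟩ := h
      apply prod_eq_zero hl
      unfold yk
      rw [if_pos hl2]
  rw [h2]
  have h3 : (Nat.Coprime n (∏ l ∈ PZ z, l) ∧ Nat.Coprime (1 + k * n) (∏ l ∈ PZ z, l))
      ↔ ∀ l ∈ PZ z, ¬ (l ∣ n ∨ l ∣ 1 + k * n) := by
    have e1 := coprime_WZ z n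
    have e2 := coprime_WZ z (1 + k * n)
    unfold WZ at e1 e2
    rw [e1, e2]
    constructor
    · rintro ⟨h1, h2⟩ l hl (h | h)
      · exact h1 l hl h
      · exact h2 l hl h
    · intro h
      exact ⟨fun l hl h' => h l hl (Or.inl h'), fun l hl h' => h l hl (Or.inr h')⟩
  by_cases h : ∀ l ∈ PZ z, ¬ (l ∣ n ∨ l ∣ 1 + k * n)
  · rw [if_pos h, if_pos (h3.mpr h)]
  · rw [if_neg h, if_neg (fun h' => h (h3.mp h'))]

lemma yk_nonneg (k l n : ℕ) : 0 ≤ yk k l n := by unfold yk; split_ifs <;> norm_num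

lemma sum_yk_ge (k l : ℕ) (hl : l.Prime) : (l : ℝ) - 2 ≤ ∑ n ∈ range l, yk k l n := by
  have h1 : ∀ n ∈ range l, 1 - (if l ∣ n then (1 : ℝ) else 0) - (if l ∣ 1 + k * n then 1 else 0) ≤ yk k l n := by
    intro n _
    unfold yk
    by_cases h1 : l ∣ n <;> by_cases h2 : l ∣ 1 + k * n <;> simp [h1, h2]
  refine le_trans ?_ (sum_le_sum h1)
  rw [sum_sub_distrib, sum_sub_distrib]
  have h2 : ∑ n ∈ range l, (if l ∣ n then (1 : ℝ) else 0) = 1 := by
    have := x0_sum l hl.pos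
    exact this
  have h3 : ∑ n ∈ range l, (if l ∣ 1 + k * n then (1 : ℝ) else 0) ≤ 1 := by
    rw [← sum_filter, sum_const, nsmul_eq_mul, mul_one]
    have : ((range l).filter (fun n => l ∣ 1 + k * n)).card ≤ 1 := by
      rw [card_le_one]
      intro a ha b hb
      simp only [mem_filter, mem_range] at ha hb
      have hk : ¬ l ∣ k := by
        intro h
        have := (Nat.dvd_add_left (dvd_mul_of_dvd_left h a)).mp ha.2
        exact hl.one_lt.ne' (Nat.dvd_one.mp this)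
      have h4 : 1 + k * a ≡ 1 + k * b [MOD l] := by
        rw [Nat.ModEq, Nat.mod_eq_zero_of_dvd ha.2, Nat.mod_eq_zero_of_dvd hb.2]
      have h5 : k * a ≡ k * b [MOD l] := Nat.ModEq.add_left_cancel' 1 h4
      have h6 : a ≡ b [MOD l] := Nat.ModEq.cancel_left_of_coprime
        ((hl.coprime_iff_not_dvd.mpr hk)) h5
      exact Nat.ModEq.eq_of_lt_of_lt h6 ha.1 hb.1
    exact_mod_cast this
  rw [h2, sum_const, card_range, nsmul_eq_mul, mul_one]
  linarith

lemma sum_yk_two (k : ℕ) (hk : Even k) : (1 : ℝ) ≤ ∑ n ∈ range 2, yk k 2 n := by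
  rw [sum_range_succ, sum_range_one]
  have h1 : yk k 2 1 = 1 := by
    unfold yk
    rw [if_neg]
    rintro (h | h)
    · omega
    · obtain ⟨m, hm⟩ := hk
      omega
  rw [h1]
  linarith [yk_nonneg k 2 0]

lemma totient_WZ (z : ℕ) : ((WZ z).totient : ℝ) = ∏ l ∈ PZ z, ((l : ℝ) - 1) := by
  have h : ∀ S : Finset ℕ, (∀ l ∈ S, l.Prime) → ((∏ l ∈ S, l).totient : ℝ) = ∏ l ∈ S, ((l : ℝ) - 1) := by
    intro S
    induction S using Finset.induction_on with
    | empty => simp
    | insert a S ha ih =>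
      intro hS
      have haP := hS a (mem_insert_self a S)
      rw [prod_insert ha, prod_insert ha, Nat.totient_mul, Nat.totient_prime haP]
      · push_cast
        rw [Nat.cast_sub haP.one_le, ih fun l hl => hS l (mem_insert_of_mem hl)]
        simp
      · rw [Nat.coprime_prod_right_iff]
        intro i hi
        rw [Nat.coprime_primes haP (hS i (mem_insert_of_mem hi))]
        rintro rfl
        exact ha hi
  exact h (PZ z) fun l hl => PZ_prime hl

lemma local_factor_ge (l : ℕ) (hl : 3 ≤ l) :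
    Real.exp (-(1 / (l : ℝ) + 6 / (l : ℝ) ^ 2)) * ((l : ℝ) - 1) ≤ (l : ℝ) - 2 := by
  have hl' : (3 : ℝ) ≤ l := by exact_mod_cast hl
  have h1 : 0 < ((l : ℝ) - 2) / ((l : ℝ) - 1) := div_pos (by linarith) (by linarith)
  have h2 := Real.one_sub_inv_le_log_of_pos h1
  have h3 : 1 - (((l : ℝ) - 2) / ((l : ℝ) - 1))⁻¹ = -(1 / ((l : ℝ) - 2)) := by
    have : (l : ℝ) - 2 ≠ 0 := by linarith
    have : (l : ℝ) - 1 ≠ 0 := by linarith
    field_simp
    ring
  rw [h3] at h2
  have h4 : 1 / ((l : ℝ) - 2) ≤ 1 / (l : ℝ) + 6 / (l : ℝ) ^ 2 := by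
    rw [div_add_div _ _ (by linarith) (by positivity), div_le_div_iff₀ (by linarith) (by positivity)]
    nlinarith [mul_nonneg (by linarith : (0:ℝ) ≤ l - 3) (by positivity : (0:ℝ) ≤ (l:ℝ))]
  have h5 : Real.exp (-(1 / (l : ℝ) + 6 / (l : ℝ) ^ 2)) ≤ ((l : ℝ) - 2) / ((l : ℝ) - 1) := by
    rw [← Real.exp_log h1]
    exact Real.exp_le_exp.mpr (by linarith)
  rw [le_div_iff₀ (by linarith)] at h5
  exact h5

lemma SK_lower : ∃ c : ℝ, 0 < c ∧ ∀ z k : ℕ, 2 ≤ z → Even k →
    c / Real.log z * (WZ z).totient ≤ (SK z k).card := by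
  obtain ⟨C, hC, hm⟩ := mertens2
  refine ⟨Real.exp (-(C + 12)), Real.exp_pos _, fun z k hz hk => ?_⟩
  rw [card_SK, totient_WZ]
  have hz' : (2 : ℝ) ≤ z := by exact_mod_cast hz
  have hlz : 0 < Real.log z := Real.log_pos (by linarith)
  have h1 : ∏ l ∈ PZ z, (Real.exp (-(1 / (l : ℝ) + 6 / (l : ℝ) ^ 2)) * ((l : ℝ) - 1))
      ≤ ∏ l ∈ PZ z, ∑ n ∈ range l, yk k l n := by
    apply Finset.prod_le_prod
    · intro l hl
      have : (2 : ℝ) ≤ l := by exact_mod_cast (PZ_prime hl).two_le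
      exact mul_nonneg (Real.exp_pos _).le (by linarith)
    · intro l hl
      rcases (PZ_prime hl).eq_two_or_odd' with h2 | h2
      · subst h2
        refine le_trans ?_ (sum_yk_two k hk)
        have : Real.exp (-(1 / ((2 : ℕ) : ℝ) + 6 / ((2 : ℕ) : ℝ) ^ 2)) ≤ 1 := by
          apply Real.exp_le_one_iff.mpr
          norm_num
        push_cast at *
        linarith
      · have h3 : 3 ≤ l := by
          have := (PZ_prime hl).two_le
          obtain ⟨m, hm⟩ := h2
          omega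
        exact (local_factor_ge l h3).trans (sum_yk_ge k l (PZ_prime hl))
  refine le_trans ?_ h1
  rw [prod_mul_distrib]
  apply mul_le_mul_of_nonneg_right
  · rw [← Real.exp_sum, sum_neg_distrib, sum_add_distrib]
    have h2 : ∑ l ∈ PZ z, (1 : ℝ) / l = S1 z := rfl
    rw [h2]
    have h3 := (abs_le.mp (hm z hz)).2
    have h4 : ∑ l ∈ PZ z, 6 / (l : ℝ) ^ 2 ≤ 12 := by
      calc ∑ l ∈ PZ z, 6 / (l : ℝ) ^ 2 ≤ ∑ l ∈ Ioc 0 z, 6 / (l : ℝ) ^ 2 := by
            apply sum_le_sum_of_subset_of_nonneg (filter_subset _ _)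
            intro _ _ _; positivity
        _ = 6 * ∑ l ∈ Ioc 0 z, 1 / (l : ℝ) ^ 2 := by
            rw [mul_sum]; exact sum_congr rfl fun l _ => by ring
        _ ≤ 6 * 2 := by gcongr; exact inv_sq_sum_le z
        _ = 12 := by norm_num
    calc Real.exp (-(C + 12)) / Real.log z = Real.exp (-(C + 12) - Real.log (Real.log z)) := by
          rw [Real.exp_sub, Real.exp_log hlz]
      _ ≤ _ := Real.exp_le_exp.mpr (by linarith)
  · apply prod_nonneg
    intro l hl
    have : (2 : ℝ) ≤ l := by exact_mod_cast (PZ_prime hl).two_le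
    linarith

lemma totient_mul_le (k : ℕ) : ∀ W : ℕ, (k * W).totient ≤ k * W.totient := by
  induction k using Nat.recOnMul with
  | zero => intro W; simp
  | one => intro W; simp
  | prime p hp =>
    intro W
    by_cases hd : p ∣ W
    · rw [Nat.totient_mul_of_prime_of_dvd hp hd]
    · rw [Nat.totient_mul_of_prime_of_not_dvd hp hd]
      exact Nat.mul_le_mul_right _ (Nat.sub_le _ _)
  | mul a b iha ihb =>
    intro W
    rw [mul_assoc, mul_assoc]
    exact (iha (b * W)).trans (Nat.mul_le_mul_left a (ihb W))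

/-- the injection `p ↦ (p-1)/k` -/
lemma inner_k (N k W r : ℕ) (hk : 0 < k) (hkN : k < N) (hW : 0 < W) :
    ∑ p ∈ (Ioc (N ^ 2) (N ^ 8)).filter (fun p => p.Prime ∧ p ≡ 1 + k * r [MOD k * W]), (k : ℝ) / p
      ≤ ∑ n ∈ (Ioc N (N ^ 8)).filter (fun n => (n * k + 1).Prime ∧ n ≡ r [MOD W]), (1 : ℝ) / n := by
  set A := (Ioc (N ^ 2) (N ^ 8)).filter (fun p => p.Prime ∧ p ≡ 1 + k * r [MOD k * W]) with hA
  have hk' : (0 : ℝ) < k := by exact_mod_cast hk
  -- structure of elements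
  have hstr : ∀ p ∈ A, ∃ n, p = n * k + 1 ∧ n = (p - 1) / k ∧ n ≡ r [MOD W] ∧ N < n ∧ n ≤ N ^ 8 ∧ p.Prime := by
    intro p hp
    simp only [hA, mem_filter, mem_Ioc] at hp
    obtain ⟨⟨hp1, hp2⟩, hpp, hpm⟩ := hp
    have h1 : p ≡ 1 [MOD k] := by
      have h2 : p ≡ 1 + k * r [MOD k] := hpm.of_mul_right W
      exact h2.trans (by simpa using (Nat.ModEq.add_left 1 (Nat.modEq_zero_iff_dvd.mpr (Dvd.intro r rfl))))
    have h2 : k ∣ p - 1 := (Nat.modEq_iff_dvd' hpp.one_le).mp h1.symm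
    obtain ⟨n, hn⟩ := h2
    have hp3 : p = n * k + 1 := by
      have := hpp.one_le
      rw [mul_comm] at hn
      omega
    refine ⟨n, hp3, ?_, ?_, ?_, ?_, hpp⟩
    · rw [hn]; exact (Nat.mul_div_cancel_left n hk).symm
    · have hp4 : p = 1 + k * n := by rw [hp3]; ring
      rw [hp4] at hpm
      have h3 : k * n ≡ k * r [MOD k * W] := Nat.ModEq.add_left_cancel' 1 hpm
      exact Nat.ModEq.mul_left_cancel' hk.ne' h3
    · by_contra hlt
      push Not at hlt
      have h4 : n * k ≤ N * (N - 1) := Nat.mul_le_mul hlt (by omega)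
      have h5 : N * (N - 1) + N = N ^ 2 := by
        obtain ⟨t, rfl⟩ : ∃ t, N = t + 1 := ⟨N - 1, by omega⟩
        simp only [Nat.add_sub_cancel]; ring
      omega
    · have : n ≤ n * k := Nat.le_mul_of_pos_right n hk
      omega
  have hinj : Set.InjOn (fun p => (p - 1) / k) (A : Set ℕ) := by
    intro p hp p' hp' h
    obtain ⟨n, h1, h2, _⟩ := hstr p (mem_coe.mp hp)
    obtain ⟨n', h1', h2', _⟩ := hstr p' (mem_coe.mp hp')
    simp only at h
    rw [h1, h1', h2, h2', h]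
  calc ∑ p ∈ A, (k : ℝ) / p ≤ ∑ p ∈ A, (1 : ℝ) / (((p - 1) / k : ℕ) : ℝ) := by
        refine sum_le_sum fun p hp => ?_
        obtain ⟨n, h1, h2, _, h4, _⟩ := hstr p hp
        rw [← h2, h1]
        have hn : (0 : ℝ) < n := by exact_mod_cast (by omega : 0 < n)
        rw [div_le_div_iff₀ (by positivity) hn]
        push_cast
        nlinarith
    _ = ∑ n ∈ A.image (fun p => (p - 1) / k), (1 : ℝ) / (n : ℝ) := by
        rw [sum_image hinj]
    _ ≤ _ := by
        apply sum_le_sum_of_subset_of_nonneg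
        · intro n hn
          rw [mem_image] at hn
          obtain ⟨p, hp, hpn⟩ := hn
          obtain ⟨m, h1, h2, h3, h4, h5, h6⟩ := hstr p hp
          rw [← h2] at hpn
          subst hpn
          simp only [mem_filter, mem_Ioc]
          exact ⟨⟨h4, h5⟩, by rw [← h1]; exact h6, h3⟩
        · intro _ _ _; positivity

lemma coprime_one_add (k r W : ℕ) (h : Nat.Coprime (1 + k * r) W) : Nat.Coprime (1 + k * r) (k * W) := by
  apply Nat.Coprime.mul_right _ h
  rw [Nat.coprime_add_mul_left_left]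
  exact Nat.coprime_one_left k

/-- lower bound for a good multiplier -/
lemma good_k (N k z : ℕ) (hN : 2 ≤ N) (hk : 0 < k) (hkN : k < N)
    (h : ∀ c : ℕ, Nat.Coprime c (k * WZ z) → Real.log N ^ 2 / (k * WZ z).totient
      ≤ ∑ p ∈ (Ioc (N ^ 2) (N ^ 8)).filter (fun p => p.Prime ∧ p ≡ c [MOD k * WZ z]), (Real.log p) ^ 2 / p) :
    ((SK z k).card : ℝ) / (64 * (WZ z).totient)
      ≤ ∑ n ∈ (Ioc N (N ^ 8)).filter (fun n => Nat.Coprime n (WZ z) ∧ (n * k + 1).Prime), (1 : ℝ) / n := by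
  have hW := WZ_pos z
  have hk' : (0 : ℝ) < k := by exact_mod_cast hk
  have hφW : (0 : ℝ) < (WZ z).totient := by exact_mod_cast Nat.totient_pos.mpr hW
  have hφkW : (0 : ℝ) < (k * WZ z).totient := by
    exact_mod_cast Nat.totient_pos.mpr (Nat.mul_pos hk hW)
  have hL : 0 < Real.log N := Real.log_pos (by exact_mod_cast (by omega : 1 < N))
  have h1 : ∀ r ∈ SK z k, 1 / (64 * ((WZ z).totient : ℝ))
      ≤ ∑ n ∈ (Ioc N (N ^ 8)).filter (fun n => (n * k + 1).Prime ∧ n ≡ r [MOD WZ z]), (1 : ℝ) / n := by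
    intro r hr
    simp only [SK, mem_filter] at hr
    have h2 := h (1 + k * r) (coprime_one_add k r _ hr.2)
    refine le_trans ?_ (inner_k N k (WZ z) r hk hkN hW)
    have h3 : ∑ p ∈ (Ioc (N ^ 2) (N ^ 8)).filter (fun p => p.Prime ∧ p ≡ 1 + k * r [MOD k * WZ z]),
        (Real.log p) ^ 2 / (p : ℝ) ≤ (64 * Real.log N ^ 2 / k) *
          ∑ p ∈ (Ioc (N ^ 2) (N ^ 8)).filter (fun p => p.Prime ∧ p ≡ 1 + k * r [MOD k * WZ z]), (k : ℝ) / p := by
      rw [mul_sum]
      refine sum_le_sum fun p hp => ?_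
      simp only [mem_filter, mem_Ioc] at hp
      have hp0 : (0 : ℝ) < p := by exact_mod_cast hp.2.1.pos
      have h4 : Real.log p ≤ 8 * Real.log N := by
        rw [← log_N8]
        exact Real.log_le_log hp0 (by exact_mod_cast hp.1.2)
      have h5 : 0 ≤ Real.log p := Real.log_natCast_nonneg p
      calc Real.log p ^ 2 / p ≤ (8 * Real.log N) ^ 2 / p := by gcongr
        _ = _ := by field_simp; ring
    have h4 := h2.trans h3
    have h5 : 1 / (64 * ((WZ z).totient : ℝ)) ≤ (Real.log N ^ 2 / (k * WZ z).totient) / (64 * Real.log N ^ 2 / k) := by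
      have h6 : ((k * WZ z).totient : ℝ) ≤ k * (WZ z).totient := by exact_mod_cast totient_mul_le k (WZ z)
      rw [div_div_eq_mul_div, div_mul_eq_mul_div, div_div, div_le_div_iff₀ (by positivity) (by positivity)]
      calc 1 * (((k * WZ z).totient : ℝ) * (64 * Real.log N ^ 2))
          ≤ 1 * ((k * (WZ z).totient) * (64 * Real.log N ^ 2)) := by gcongr
        _ = _ := by ring
    refine h5.trans ?_
    rw [div_le_iff₀ (by positivity)]
    refine h4.trans (le_of_eq ?_)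
    ring
  have h2 : ((SK z k).card : ℝ) / (64 * (WZ z).totient)
      ≤ ∑ r ∈ SK z k, ∑ n ∈ (Ioc N (N ^ 8)).filter (fun n => (n * k + 1).Prime ∧ n ≡ r [MOD WZ z]), (1 : ℝ) / n := by
    calc _ = ∑ _r ∈ SK z k, 1 / (64 * ((WZ z).totient : ℝ)) := by
          rw [sum_const, nsmul_eq_mul]; ring
      _ ≤ _ := sum_le_sum h1
  refine h2.trans ?_
  have h3 : ∑ r ∈ SK z k, ∑ n ∈ (Ioc N (N ^ 8)).filter (fun n => (n * k + 1).Prime ∧ n ≡ r [MOD WZ z]), (1 : ℝ) / (n : ℝ)
      ≤ ∑ r ∈ RR (WZ z), ∑ n ∈ ((Ioc N (N ^ 8)).filter (fun n => (n * k + 1).Prime)).filter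
          (fun n => n ≡ r [MOD WZ z]), (1 : ℝ) / (n : ℝ) := by
    simp_rw [filter_filter]
    apply sum_le_sum_of_subset_of_nonneg (filter_subset _ _)
    intro r _ _
    exact sum_nonneg fun n _ => by positivity
  refine h3.trans (le_of_eq ?_)
  rw [sum_RR (WZ z) hW _ (fun n => (1 : ℝ) / (n : ℝ)), filter_filter]
  congr 1
  ext n
  simp only [mem_filter]
  tauto

lemma WZ_ge (z : ℕ) (hz : 5 ≤ z) : 7 ≤ WZ z := by
  have h : ∏ l ∈ ({2, 3, 5} : Finset ℕ), l ∣ WZ z := by
    apply prod_dvd_prod_of_subset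
    intro l hl
    simp only [mem_insert, mem_singleton] at hl
    simp only [PZ, mem_filter, mem_Ioc]
    rcases hl with rfl | rfl | rfl
    · exact ⟨by omega, by norm_num⟩
    · exact ⟨by omega, by norm_num⟩
    · exact ⟨by omega, by norm_num⟩
  have h2 := Nat.le_of_dvd (WZ_pos z) h
  have h3 : ∏ l ∈ ({2, 3, 5} : Finset ℕ), l = 30 := by decide
  omega

lemma card_even (K : ℕ) : (K : ℝ) / 2 - 1 / 2 ≤ (((Ioc 0 K).filter Even).card : ℝ) := by
  have h : K / 2 ≤ ((Ioc 0 K).filter Even).card := by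
    have h1 : ((Ioc 0 (K / 2)).image (fun i => 2 * i)).card = K / 2 := by
      rw [card_image_of_injective _ (fun a b h => by simpa using h)]; simp
    rw [← h1]
    apply card_le_card
    intro x hx
    rw [mem_image] at hx
    obtain ⟨i, hi, rfl⟩ := hx
    simp only [mem_filter, mem_Ioc] at hi ⊢
    exact ⟨by omega, even_two_mul i⟩
  have h2 : (K : ℝ) / 2 - 1 / 2 ≤ ((K / 2 : ℕ) : ℝ) := by
    have h3 : K ≤ 2 * (K / 2) + 1 := by omega
    have h4 : (K : ℝ) ≤ 2 * ((K / 2 : ℕ) : ℝ) + 1 := by exact_mod_cast h3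
    linarith
  exact h2.trans (by exact_mod_cast h)

/-- first moment -/
theorem first_moment : ∃ c : ℝ, 0 < c ∧ ∀ z : ℕ, 5 ≤ z → ∀ᶠ N : ℕ in atTop,
    c * Real.log N / Real.log z
      ≤ ∑ n ∈ (Ioc N (N ^ 8)).filter (fun n => Nat.Coprime n (WZ z)), (rr N n : ℝ) / n := by
  obtain ⟨c, hc, hSK⟩ := SK_lower
  refine ⟨c / 1024, by positivity, fun z hz => ?_⟩
  have hWpos := WZ_pos z
  obtain ⟨δ, hδ, hlog⟩ := log_sq_lower (WZ z) hWpos
  set δ' : ℝ := min δ (1 / 8) with hδ'
  have hδ'0 : 0 < δ' := by rw [hδ']; positivity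
  filter_upwards [hlog, VV_few (WZ z) hWpos δ' hδ'0, log_ge_eventually 16, log_pow_eventually 1 1,
    eventually_ge_atTop 2] with N h1 h2 h3 h4 h5
  set L : ℝ := Real.log N with hL
  have hL0 : 0 < L := by linarith
  have hKK : (KK N : ℝ) ≤ L := Nat.floor_le hL0.le
  have hKK2 : L < KK N + 1 := Nat.lt_floor_add_one L
  have hlz : 0 < Real.log z := Real.log_pos (by exact_mod_cast (by omega : 1 < z))
  have hφW : (0 : ℝ) < (WZ z).totient := by exact_mod_cast Nat.totient_pos.mpr hWpos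
  -- good even multipliers
  set G : Finset ℕ := (Ioc 0 (KK N)).filter (fun k => Even k ∧ ¬ (δ' * L ^ 2 < VV (Pn N) (k * WZ z))) with hG
  have hGcard : L / 8 ≤ (G.card : ℝ) := by
    have h6 : ((Ioc 0 (KK N)).filter Even).card ≤ G.card
        + ((Ioc 0 (KK N)).filter (fun k => δ' * L ^ 2 < VV (Pn N) (k * WZ z))).card := by
      rw [hG]
      refine le_trans (card_le_card ?_) (card_union_le _ _)
      intro k hk
      simp only [mem_union, mem_filter] at hk ⊢
      by_cases h : δ' * L ^ 2 < VV (Pn N) (k * WZ z)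
      · exact Or.inr ⟨hk.1, h⟩
      · exact Or.inl ⟨hk.1, hk.2, h⟩
    have h7 : (((Ioc 0 (KK N)).filter Even).card : ℝ) ≤ G.card
        + ((Ioc 0 (KK N)).filter (fun k => δ' * L ^ 2 < VV (Pn N) (k * WZ z))).card := by exact_mod_cast h6
    have h8 := card_even (KK N)
    have h9 : δ' * (KK N : ℝ) ≤ 1 / 8 * KK N := by
      apply mul_le_mul_of_nonneg_right (min_le_right _ _) (by positivity)
    linarith
  have hgood : ∀ k ∈ G, c / Real.log z / 64
      ≤ ∑ n ∈ (Ioc N (N ^ 8)).filter (fun n => Nat.Coprime n (WZ z) ∧ (n * k + 1).Prime), (1 : ℝ) / n := by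
    intro k hk
    simp only [hG, mem_filter, mem_Ioc, not_lt] at hk
    obtain ⟨⟨hk0, hkK⟩, hke, hkV⟩ := hk
    have hkL : (k : ℝ) ≤ L := (by exact_mod_cast hkK : (k : ℝ) ≤ KK N).trans hKK
    have hkN : k < N := by
      have h6 : (k : ℝ) < N := by
        refine lt_of_le_of_lt hkL ?_
        have := Real.log_le_sub_one_of_pos (by exact_mod_cast (by omega : 0 < N) : (0 : ℝ) < N)
        linarith
      exact_mod_cast h6
    have h6 := good_k N k z h5 hk0 hkN (fun c' hc' => by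
      have h7 : 7 ≤ k * WZ z := by
        calc 7 ≤ WZ z := WZ_ge z hz
          _ ≤ k * WZ z := Nat.le_mul_of_pos_left _ hk0
      apply h1 (k * WZ z) c' h7 _ _ hc'
      · push_cast
        calc (k : ℝ) * WZ z ≤ L * WZ z := by gcongr
          _ = _ := mul_comm _ _
      · refine hkV.trans ?_
        apply mul_le_mul_of_nonneg_right (min_le_left _ _) (by positivity))
    refine le_trans ?_ h6
    rw [le_div_iff₀ (by positivity)]
    calc c / Real.log z / 64 * (64 * ((WZ z).totient : ℝ)) = c / Real.log z * (WZ z).totient := by ring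
      _ ≤ _ := hSK z k (by omega) hke
  have hswap : ∑ k ∈ Ioc 0 (KK N), ∑ n ∈ (Ioc N (N ^ 8)).filter
      (fun n => Nat.Coprime n (WZ z) ∧ (n * k + 1).Prime), (1 : ℝ) / n
      = ∑ n ∈ (Ioc N (N ^ 8)).filter (fun n => Nat.Coprime n (WZ z)), (rr N n : ℝ) / n := by
    have e1 : ∀ k ∈ Ioc 0 (KK N), ∑ n ∈ (Ioc N (N ^ 8)).filter
        (fun n => Nat.Coprime n (WZ z) ∧ (n * k + 1).Prime), (1 : ℝ) / (n : ℝ)
        = ∑ n ∈ (Ioc N (N ^ 8)).filter (fun n => Nat.Coprime n (WZ z)),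
          if (n * k + 1).Prime then (1 : ℝ) / n else 0 := by
      intro k _
      rw [← sum_filter, filter_filter]
    rw [sum_congr rfl e1, sum_comm]
    refine sum_congr rfl fun n _ => ?_
    rw [← sum_filter, sum_const, nsmul_eq_mul]
    unfold rr
    ring
  rw [← hswap]
  calc c / 1024 * L / Real.log z ≤ (L / 8) * (c / Real.log z / 64) := by
        rw [div_mul_eq_mul_div, div_div, div_div, div_mul_div_comm, div_le_div_iff₀ (by positivity) (by positivity)]
        have : 0 < c * L * Real.log z := by positivity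
        nlinarith
    _ ≤ (G.card : ℝ) * (c / Real.log z / 64) := by gcongr
    _ = ∑ _k ∈ G, (c / Real.log z / 64) := by rw [sum_const, nsmul_eq_mul]
    _ ≤ ∑ k ∈ G, ∑ n ∈ (Ioc N (N ^ 8)).filter
      (fun n => Nat.Coprime n (WZ z) ∧ (n * k + 1).Prime), (1 : ℝ) / (n : ℝ) := sum_le_sum hgood
    _ ≤ _ := by
        apply sum_le_sum_of_subset_of_nonneg (filter_subset _ _)
        intro k _ _
        exact sum_nonneg fun n _ => by positivity

end Pool.Agent.E456
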