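import Mathlib
import Pool.Agent.E456.FirstMoment
import Pool.Agent.E456.HSum

/-!
# Second moment of `r(n)` over `z`-rough `n`
-/

namespace Pool.Agent.E456

open Finset Filter

/-- sieving indicator -/
noncomputable def x2 (z k₁ k₂ l n : ℕ) : ℝ :=
  if (l ≤ z ∧ l ∣ n) ∨ l ∣ n * k₁ + 1 ∨ l ∣ n * k₂ + 1 then 1 else 0

lemma x2_bounds (z k₁ k₂ l n : ℕ) : 0 ≤ x2 z k₁ k₂ l n ∧ x2 z k₁ k₂ l n ≤ 1 := by
  unfold x2; split_ifs <;> simp

lemma dvd_shift (l n k : ℕ) : l ∣ (n + l) * k + 1 ↔ l ∣ n * k + 1 := by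
  have : (n + l) * k + 1 = (n * k + 1) + l * k := by ring
  rw [this]
  exact Nat.dvd_add_left (Dvd.intro k rfl)

lemma x2_per (z k₁ k₂ l n : ℕ) : x2 z k₁ k₂ l (n + l) = x2 z k₁ k₂ l n := by
  unfold x2
  have h1 : l ∣ n + l ↔ l ∣ n := by simp
  simp only [h1, dvd_shift]

/-- root indicator -/
noncomputable def rt (l k n : ℕ) : ℝ := if l ∣ n * k + 1 then 1 else 0

lemma rt_sum_le (l k : ℕ) : ∑ n ∈ range l, rt l k n ≤ 1 := by
  unfold rt
  rw [← sum_filter, sum_const, nsmul_eq_mul, mul_one]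
  have : ((range l).filter (fun n => l ∣ n * k + 1)).card ≤ 1 := by
    rw [card_le_one]
    intro a ha b hb
    simp only [mem_filter, mem_range] at ha hb
    have hg : Nat.gcd l k = 1 := by
      have h1 : Nat.gcd l k ∣ a * k + 1 := (Nat.gcd_dvd_left l k).trans ha.2
      have h2 : Nat.gcd l k ∣ a * k := dvd_mul_of_dvd_right (Nat.gcd_dvd_right l k) a
      exact Nat.dvd_one.mp ((Nat.dvd_add_right h2).mp h1)
    have h4 : a * k + 1 ≡ b * k + 1 [MOD l] := by
      rw [Nat.ModEq, Nat.mod_eq_zero_of_dvd ha.2, Nat.mod_eq_zero_of_dvd hb.2]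
    have h5 : a * k ≡ b * k [MOD l] := Nat.ModEq.add_right_cancel' 1 h4
    have h6 : a ≡ b [MOD l] := Nat.ModEq.cancel_right_of_coprime hg h5
    exact Nat.ModEq.eq_of_lt_of_lt h6 ha.1 hb.1
  exact_mod_cast this

lemma rt_sum_eq (l k : ℕ) (hl : l.Prime) (hk : ¬ l ∣ k) : ∑ n ∈ range l, rt l k n = 1 := by
  apply le_antisymm (rt_sum_le l k)
  obtain ⟨r, hr⟩ := exists_inv_class l k (l - 1) hl.pos ((hl.coprime_iff_not_dvd.mpr hk).symm)
  have h1 : rt l k (r % l) = 1 := by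
    unfold rt
    rw [if_pos]
    have h2 : k * (r % l) ≡ l - 1 [MOD l] := (hr _).mpr (Nat.mod_modEq r l)
    have h3 : k * (r % l) + 1 ≡ l - 1 + 1 [MOD l] := h2.add_right 1
    rw [Nat.sub_add_cancel hl.one_le] at h3
    have h4 : k * (r % l) + 1 ≡ 0 [MOD l] := h3.trans (by simp [Nat.ModEq])
    rw [mul_comm]
    exact (Nat.modEq_zero_iff_dvd).mp h4
  calc (1 : ℝ) = rt l k (r % l) := h1.symm
    _ ≤ _ := single_le_sum (f := fun n => rt l k n) (fun n _ => by unfold rt; split_ifs <;> norm_num)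
        (mem_range.mpr (Nat.mod_lt r hl.pos))

lemma x2_sum_le (z k₁ k₂ l : ℕ) (hl : 2 ≤ l) : ∑ n ∈ range l, x2 z k₁ k₂ l n ≤ 3 := by
  have h1 : ∀ n ∈ range l, x2 z k₁ k₂ l n ≤ x0 l n + rt l k₁ n + rt l k₂ n := by
    intro n _
    unfold x2 x0 rt
    by_cases h1 : l ≤ z <;> by_cases h2 : l ∣ n <;> by_cases h3 : l ∣ n * k₁ + 1 <;>
      by_cases h4 : l ∣ n * k₂ + 1 <;> simp [h1, h2, h3, h4] <;> norm_num
  refine (sum_le_sum h1).trans ?_
  rw [sum_add_distrib, sum_add_distrib, x0_sum l (by omega)]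
  linarith [rt_sum_le l k₁, rt_sum_le l k₂]

/-- indicator `[l ∣ k]` -/
noncomputable def dv (l k : ℕ) : ℝ := if l ∣ k then 1 else 0

lemma dv_nonneg (l k : ℕ) : 0 ≤ dv l k := by unfold dv; split_ifs <;> norm_num

noncomputable def lz (z l : ℕ) : ℝ := if l ≤ z then 1 else 0

lemma lz_bounds (z l : ℕ) : 0 ≤ lz z l ∧ lz z l ≤ 1 := by unfold lz; split_ifs <;> norm_num

lemma x2_sum_ge (z k₁ k₂ l : ℕ) (hl : l.Prime) (hk : k₂ ≤ k₁) :
    2 + lz z l - 3 * (dv l k₁ + dv l k₂ + dv l (k₁ - k₂)) ≤ ∑ n ∈ range l, x2 z k₁ k₂ l n := by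
  have hnn : 0 ≤ ∑ n ∈ range l, x2 z k₁ k₂ l n := sum_nonneg fun n _ => (x2_bounds z k₁ k₂ l n).1
  have hz := (lz_bounds z l).2
  by_cases h : l ∣ k₁ ∨ l ∣ k₂ ∨ l ∣ (k₁ - k₂)
  · have h1 : 1 ≤ dv l k₁ + dv l k₂ + dv l (k₁ - k₂) := by
      have a1 := dv_nonneg l k₁
      have a2 := dv_nonneg l k₂
      have a3 := dv_nonneg l (k₁ - k₂)
      rcases h with h | h | h
      · have : dv l k₁ = 1 := by unfold dv; rw [if_pos h]
        linarith
      · have : dv l k₂ = 1 := by unfold dv; rw [if_pos h]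
        linarith
      · have : dv l (k₁ - k₂) = 1 := by unfold dv; rw [if_pos h]
        linarith
    linarith
  · push Not at h
    obtain ⟨h1, h2, h3⟩ := h
    have e1 : dv l k₁ = 0 := by unfold dv; rw [if_neg h1]
    have e2 : dv l k₂ = 0 := by unfold dv; rw [if_neg h2]
    have e3 : dv l (k₁ - k₂) = 0 := by unfold dv; rw [if_neg h3]
    have h4 : ∀ n ∈ range l, lz z l * x0 l n + rt l k₁ n + rt l k₂ n ≤ x2 z k₁ k₂ l n := by
      intro n _
      have hn1 : l ∣ n → ¬ l ∣ n * k₁ + 1 := by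
        intro ha hb
        have := (Nat.dvd_add_right (dvd_mul_of_dvd_left ha k₁)).mp hb
        exact hl.one_lt.ne' (Nat.dvd_one.mp this)
      have hn2 : l ∣ n → ¬ l ∣ n * k₂ + 1 := by
        intro ha hb
        have := (Nat.dvd_add_right (dvd_mul_of_dvd_left ha k₂)).mp hb
        exact hl.one_lt.ne' (Nat.dvd_one.mp this)
      have hn3 : l ∣ n * k₁ + 1 → ¬ l ∣ n * k₂ + 1 := by
        intro ha hb
        have h5 : l ∣ (n * k₁ + 1) - (n * k₂ + 1) := Nat.dvd_sub ha hb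
        have h6 : (n * k₁ + 1) - (n * k₂ + 1) = n * (k₁ - k₂) := by
          rw [Nat.mul_sub]; omega
        rw [h6] at h5
        rcases (hl.dvd_mul).mp h5 with h7 | h7
        · exact hn1 h7 ha
        · exact h3 h7
      unfold x2 x0 rt lz
      by_cases g1 : l ≤ z <;> by_cases g2 : l ∣ n <;> by_cases g3 : l ∣ n * k₁ + 1 <;>
        by_cases g4 : l ∣ n * k₂ + 1 <;> simp [g1, g2, g3, g4]
      all_goals first
        | exact absurd g3 (hn1 g2)
        | exact absurd g4 (hn2 g2)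
        | exact absurd g4 (hn3 g3)
    refine le_trans (le_of_eq ?_) (sum_le_sum h4)
    rw [sum_add_distrib, sum_add_distrib, ← mul_sum, x0_sum l hl.pos, rt_sum_eq l k₁ hl h1,
      rt_sum_eq l k₂ hl h2, e1, e2, e3]
    ring

lemma x2_sum_ge_diag (z k l : ℕ) (hl : l.Prime) :
    1 + lz z l - 2 * dv l k ≤ ∑ n ∈ range l, x2 z k k l n := by
  have hnn : 0 ≤ ∑ n ∈ range l, x2 z k k l n := sum_nonneg fun n _ => (x2_bounds z k k l n).1
  have hz := (lz_bounds z l).2
  by_cases h : l ∣ k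
  · have : dv l k = 1 := by unfold dv; rw [if_pos h]
    linarith
  · have e1 : dv l k = 0 := by unfold dv; rw [if_neg h]
    have h4 : ∀ n ∈ range l, lz z l * x0 l n + rt l k n ≤ x2 z k k l n := by
      intro n _
      have hn1 : l ∣ n → ¬ l ∣ n * k + 1 := by
        intro ha hb
        have := (Nat.dvd_add_right (dvd_mul_of_dvd_left ha k)).mp hb
        exact hl.one_lt.ne' (Nat.dvd_one.mp this)
      unfold x2 x0 rt lz
      by_cases g1 : l ≤ z <;> by_cases g2 : l ∣ n <;> by_cases g3 : l ∣ n * k + 1 <;>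
        simp [g1, g2, g3]
      all_goals exact absurd g3 (hn1 g2)
    refine le_trans (le_of_eq ?_) (sum_le_sum h4)
    rw [sum_add_distrib, ← mul_sum, x0_sum l hl.pos, rt_sum_eq l k hl h, e1]
    ring

lemma pr_dv_le (J k : ℕ) (hk : 0 < k) : ∑ l ∈ pr 6 J, dv l k / l ≤ hh k := by
  unfold dv hh
  have h1 : ∀ l ∈ pr 6 J, (if l ∣ k then (1 : ℝ) else 0) / l = if l ∣ k then (1 : ℝ) / l else 0 := by
    intro l _; split_ifs <;> simp
  rw [sum_congr rfl h1, ← sum_filter]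
  apply sum_le_sum_of_subset_of_nonneg
  · intro l hl
    simp only [pr, mem_filter] at hl
    rw [Nat.mem_primeFactors]
    exact ⟨hl.1.2, hl.2, hk.ne'⟩
  · intro _ _ _; positivity

lemma pr_lz (J z : ℕ) (hz : 6 ≤ z) (hzJ : z ≤ YY J) : ∑ l ∈ pr 6 J, lz z l / l = S1 z - S1 6 := by
  rw [S1_sub 6 z hz]
  unfold lz
  have h1 : ∀ l ∈ pr 6 J, (if l ≤ z then (1 : ℝ) else 0) / l = if l ≤ z then (1 : ℝ) / l else 0 := by
    intro l _; split_ifs <;> simp
  rw [sum_congr rfl h1, ← sum_filter]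
  congr 1
  ext l
  unfold YY at hzJ
  simp only [pr, mem_filter, mem_Ioc]
  constructor
  · rintro ⟨⟨h1, h2⟩, h3⟩; exact ⟨⟨h1.1, h3⟩, h2⟩
  · rintro ⟨⟨h1, h3⟩, h2⟩; exact ⟨⟨⟨h1, h3.trans hzJ⟩, h2⟩, h3⟩

lemma pr_sum_lower (C : ℝ) (hm : ∀ N : ℕ, 2 ≤ N → |S1 N - Real.log (Real.log N)| ≤ C) (J : ℕ) :
    Real.log (Real.log (YY J)) - C - S1 6 ≤ ∑ l ∈ pr 6 J, (1 : ℝ) / l := by
  rw [pr_sum_eq 6 J (by norm_num)]
  have h := (abs_le.mp (hm (6 ^ (2 ^ J)) (by have := YY_ge J; unfold YY at this; omega))).1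
  unfold YY
  linarith

/-- the count of pairs -/
lemma pair_bound : ∃ C : ℝ, 0 < C ∧ ∀ J M N z k₁ k₂ : ℕ, YY J ^ 12 ≤ M → 3 * M ≤ N → 6 ≤ z → z ≤ YY J →
    0 < k₂ → k₂ < k₁ →
    ∑ n ∈ (Ioc M N).filter (fun n => Nat.Coprime n (WZ z) ∧ (n * k₁ + 1).Prime ∧ (n * k₂ + 1).Prime), (1 : ℝ) / n
      ≤ C * Real.log (N / M) / (Real.log z * Real.log (YY J) ^ 2)
        * Real.exp (3 * (hh k₁ + hh k₂ + hh (k₁ - k₂))) := by
  obtain ⟨K, hK, hs⟩ := sieve_upper_one
  obtain ⟨C, hC, hm⟩ := mertens2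
  refine ⟨K * Real.exp (3 * C + 3 * S1 6), by positivity, fun J M N z k₁ k₂ hYM hMN hz hzJ hk2 hk => ?_⟩
  have h1 := hs J M N hYM hMN (x2 z k₁ k₂) (x2_bounds z k₁ k₂) (x2_per z k₁ k₂) (x2_sum_le z k₁ k₂)
  have hYJ := YY_ge J
  have hYM' : YY J ≤ M := le_trans (Nat.le_self_pow (by norm_num) _) hYM
  have hM0 : 0 < M := by omega
  have h2 : ∑ n ∈ (Ioc M N).filter (fun n => Nat.Coprime n (WZ z) ∧ (n * k₁ + 1).Prime ∧ (n * k₂ + 1).Prime), (1 : ℝ) / n
      ≤ ∑ n ∈ Ioc M N, (∏ l ∈ pr 6 J, (1 - x2 z k₁ k₂ l n)) / n := by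
    rw [sum_filter]
    refine sum_le_sum fun n hn => ?_
    rw [mem_Ioc] at hn
    have hnn : 0 ≤ ∏ l ∈ pr 6 J, (1 - x2 z k₁ k₂ l n) :=
      prod_nonneg fun l _ => by linarith [(x2_bounds z k₁ k₂ l n).2]
    split_ifs with h
    · have h3 : ∏ l ∈ pr 6 J, (1 - x2 z k₁ k₂ l n) = 1 := by
        apply prod_eq_one
        intro l hl
        simp only [pr, mem_filter, mem_Ioc] at hl
        have hlY : l ≤ YY J := hl.1.2
        unfold x2
        rw [if_neg, sub_zero]
        rintro (⟨h4, h5⟩ | h4 | h4)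
        · have := (coprime_WZ z n).mp h.1 l (by
            simp only [PZ, mem_filter, mem_Ioc]
            exact ⟨⟨hl.2.pos, h4⟩, hl.2⟩)
          exact this h5
        · have := (Nat.prime_dvd_prime_iff_eq hl.2 h.2.1).mp h4
          have h6 : n ≤ n * k₁ := Nat.le_mul_of_pos_right n (by omega)
          omega
        · have := (Nat.prime_dvd_prime_iff_eq hl.2 h.2.2).mp h4
          have h6 : n ≤ n * k₂ := Nat.le_mul_of_pos_right n hk2
          omega
      rw [h3]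
    · exact div_nonneg hnn (by positivity)
  refine h2.trans (h1.trans ?_)
  have hlz : 0 < Real.log z := Real.log_pos (by exact_mod_cast (by omega : 1 < z))
  have hlY : 0 < Real.log (YY J) := Real.log_pos (by exact_mod_cast (by omega : 1 < YY J))
  have hlNM : 0 ≤ Real.log (N / M) := by
    apply Real.log_nonneg
    rw [one_le_div (by exact_mod_cast hM0)]
    exact_mod_cast (by omega : M ≤ N)
  have h3 : 2 * Real.log (Real.log (YY J)) + Real.log (Real.log z) - (3 * C + 3 * S1 6)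
      - 3 * (hh k₁ + hh k₂ + hh (k₁ - k₂)) ≤ ∑ l ∈ pr 6 J, (∑ n ∈ range l, x2 z k₁ k₂ l n) / l := by
    have h4 : ∀ l ∈ pr 6 J, 2 * ((1 : ℝ) / l) + lz z l / l - 3 * (dv l k₁ / l + dv l k₂ / l + dv l (k₁ - k₂) / l)
        ≤ (∑ n ∈ range l, x2 z k₁ k₂ l n) / l := by
      intro l hl
      simp only [pr, mem_filter] at hl
      have h5 := x2_sum_ge z k₁ k₂ l hl.2 hk.le
      have hl0 : (0 : ℝ) < l := by exact_mod_cast hl.2.pos
      rw [le_div_iff₀ hl0]
      refine le_trans (le_of_eq ?_) h5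
      field_simp
    refine le_trans ?_ (sum_le_sum h4)
    rw [sum_sub_distrib, sum_add_distrib, ← mul_sum, ← mul_sum, sum_add_distrib, sum_add_distrib,
      pr_lz J z hz hzJ]
    have h5 := pr_sum_lower C hm J
    have h6 := (abs_le.mp (hm z (by omega))).1
    have h7 := pr_dv_le J k₁ (by omega)
    have h8 := pr_dv_le J k₂ hk2
    have h9 := pr_dv_le J (k₁ - k₂) (by omega)
    linarith
  calc K * Real.log (N / M) * Real.exp (-∑ l ∈ pr 6 J, (∑ n ∈ range l, x2 z k₁ k₂ l n) / l)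
      ≤ K * Real.log (N / M) * Real.exp (-(2 * Real.log (Real.log (YY J)) + Real.log (Real.log z)
        - (3 * C + 3 * S1 6) - 3 * (hh k₁ + hh k₂ + hh (k₁ - k₂)))) := by
        apply mul_le_mul_of_nonneg_left _ (by positivity)
        exact Real.exp_le_exp.mpr (by linarith)
    _ = K * Real.exp (3 * C + 3 * S1 6) * Real.log (N / M) / (Real.log z * Real.log (YY J) ^ 2)
        * Real.exp (3 * (hh k₁ + hh k₂ + hh (k₁ - k₂))) := by
        have e1 : -(2 * Real.log (Real.log (YY J)) + Real.log (Real.log z)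
          - (3 * C + 3 * S1 6) - 3 * (hh k₁ + hh k₂ + hh (k₁ - k₂)))
          = (3 * C + 3 * S1 6) + 3 * (hh k₁ + hh k₂ + hh (k₁ - k₂))
            - (Real.log (Real.log (YY J)) + Real.log (Real.log (YY J)) + Real.log (Real.log z)) := by ring
        rw [e1, Real.exp_sub, Real.exp_add (3 * C + 3 * S1 6),
          Real.exp_add (Real.log (Real.log (YY J)) + Real.log (Real.log (YY J))) (Real.log (Real.log z)),
          Real.exp_add (Real.log (Real.log (YY J))) (Real.log (Real.log (YY J))), Real.exp_log hlz, Real.exp_log hlY]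
        field_simp

/-- the diagonal count -/
lemma diag_bound : ∃ C : ℝ, 0 < C ∧ ∀ J M N z k : ℕ, YY J ^ 12 ≤ M → 3 * M ≤ N → 6 ≤ z → z ≤ YY J →
    0 < k →
    ∑ n ∈ (Ioc M N).filter (fun n => Nat.Coprime n (WZ z) ∧ (n * k + 1).Prime), (1 : ℝ) / n
      ≤ C * Real.log (N / M) / (Real.log z * Real.log (YY J))
        * Real.exp (2 * hh k) := by
  obtain ⟨K, hK, hs⟩ := sieve_upper_one
  obtain ⟨C, hC, hm⟩ := mertens2
  refine ⟨K * Real.exp (2 * C + 2 * S1 6), by positivity, fun J M N z k hYM hMN hz hzJ hk => ?_⟩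
  have h1 := hs J M N hYM hMN (x2 z k k) (x2_bounds z k k) (x2_per z k k) (x2_sum_le z k k)
  have hYJ := YY_ge J
  have hYM' : YY J ≤ M := le_trans (Nat.le_self_pow (by norm_num) _) hYM
  have hM0 : 0 < M := by omega
  have h2 : ∑ n ∈ (Ioc M N).filter (fun n => Nat.Coprime n (WZ z) ∧ (n * k + 1).Prime), (1 : ℝ) / n
      ≤ ∑ n ∈ Ioc M N, (∏ l ∈ pr 6 J, (1 - x2 z k k l n)) / n := by
    rw [sum_filter]
    refine sum_le_sum fun n hn => ?_
    rw [mem_Ioc] at hn
    have hnn : 0 ≤ ∏ l ∈ pr 6 J, (1 - x2 z k k l n) :=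
      prod_nonneg fun l _ => by linarith [(x2_bounds z k k l n).2]
    split_ifs with h
    · have h3 : ∏ l ∈ pr 6 J, (1 - x2 z k k l n) = 1 := by
        apply prod_eq_one
        intro l hl
        simp only [pr, mem_filter, mem_Ioc] at hl
        have hlY : l ≤ YY J := hl.1.2
        unfold x2
        rw [if_neg, sub_zero]
        rintro (⟨h4, h5⟩ | h4 | h4)
        · have := (coprime_WZ z n).mp h.1 l (by
            simp only [PZ, mem_filter, mem_Ioc]
            exact ⟨⟨hl.2.pos, h4⟩, hl.2⟩)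
          exact this h5
        · have := (Nat.prime_dvd_prime_iff_eq hl.2 h.2).mp h4
          have h6 : n ≤ n * k := Nat.le_mul_of_pos_right n (by omega)
          omega
        · have := (Nat.prime_dvd_prime_iff_eq hl.2 h.2).mp h4
          have h6 : n ≤ n * k := Nat.le_mul_of_pos_right n hk
          omega
      rw [h3]
    · exact div_nonneg hnn (by positivity)
  refine h2.trans (h1.trans ?_)
  have hlz : 0 < Real.log z := Real.log_pos (by exact_mod_cast (by omega : 1 < z))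
  have hlY : 0 < Real.log (YY J) := Real.log_pos (by exact_mod_cast (by omega : 1 < YY J))
  have hlNM : 0 ≤ Real.log (N / M) := by
    apply Real.log_nonneg
    rw [one_le_div (by exact_mod_cast hM0)]
    exact_mod_cast (by omega : M ≤ N)
  have h3 : Real.log (Real.log (YY J)) + Real.log (Real.log z) - (2 * C + 2 * S1 6)
      - 2 * hh k ≤ ∑ l ∈ pr 6 J, (∑ n ∈ range l, x2 z k k l n) / l := by
    have h4 : ∀ l ∈ pr 6 J, ((1 : ℝ) / l) + lz z l / l - 2 * (dv l k / l)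
        ≤ (∑ n ∈ range l, x2 z k k l n) / l := by
      intro l hl
      simp only [pr, mem_filter] at hl
      have h5 := x2_sum_ge_diag z k l hl.2
      have hl0 : (0 : ℝ) < l := by exact_mod_cast hl.2.pos
      rw [le_div_iff₀ hl0]
      refine le_trans (le_of_eq ?_) h5
      field_simp
    refine le_trans ?_ (sum_le_sum h4)
    rw [sum_sub_distrib, sum_add_distrib, ← mul_sum, pr_lz J z hz hzJ]
    have h5 := pr_sum_lower C hm J
    have h6 := (abs_le.mp (hm z (by omega))).1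
    have h7 := pr_dv_le J k (by omega)
    linarith
  calc K * Real.log (N / M) * Real.exp (-∑ l ∈ pr 6 J, (∑ n ∈ range l, x2 z k k l n) / l)
      ≤ K * Real.log (N / M) * Real.exp (-(Real.log (Real.log (YY J)) + Real.log (Real.log z)
        - (2 * C + 2 * S1 6) - 2 * hh k)) := by
        apply mul_le_mul_of_nonneg_left _ (by positivity)
        exact Real.exp_le_exp.mpr (by linarith)
    _ = K * Real.exp (2 * C + 2 * S1 6) * Real.log (N / M) / (Real.log z * Real.log (YY J))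
        * Real.exp (2 * hh k) := by
        have e1 : -(Real.log (Real.log (YY J)) + Real.log (Real.log z)
          - (2 * C + 2 * S1 6) - 2 * hh k)
          = (2 * C + 2 * S1 6) + 2 * hh k
            - (Real.log (Real.log (YY J)) + Real.log (Real.log z)) := by ring
        rw [e1, Real.exp_sub, Real.exp_add (2 * C + 2 * S1 6),
          Real.exp_add (Real.log (Real.log (YY J))) (Real.log (Real.log z)), Real.exp_log hlz, Real.exp_log hlY]
        field_simp

lemma exp_three (a b c : ℝ) : Real.exp (3 * (a + b + c))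
    ≤ Real.exp (9 * a) + Real.exp (9 * b) + Real.exp (9 * c) := by
  have ha := Real.exp_pos (9 * a)
  have hb := Real.exp_pos (9 * b)
  have hc := Real.exp_pos (9 * c)
  rcases le_total a b with h1 | h1
  · rcases le_total b c with h2 | h2
    · have : Real.exp (3 * (a + b + c)) ≤ Real.exp (9 * c) := Real.exp_le_exp.mpr (by linarith)
      linarith
    · have : Real.exp (3 * (a + b + c)) ≤ Real.exp (9 * b) := Real.exp_le_exp.mpr (by linarith)
      linarith
  · rcases le_total a c with h2 | h2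
    · have : Real.exp (3 * (a + b + c)) ≤ Real.exp (9 * c) := Real.exp_le_exp.mpr (by linarith)
      linarith
    · have : Real.exp (3 * (a + b + c)) ≤ Real.exp (9 * a) := Real.exp_le_exp.mpr (by linarith)
      linarith

lemma sum_pairs_le (K : ℕ) (A : ℝ) (hA : ∑ k ∈ Ioc 0 K, Real.exp (9 * hh k) ≤ A * K) :
    ∑ k₁ ∈ Ioc 0 K, ∑ k₂ ∈ (Ioc 0 K).filter (fun k₂ => k₂ < k₁), Real.exp (3 * (hh k₁ + hh k₂ + hh (k₁ - k₂)))
      ≤ 3 * A * K ^ 2 := by
  have h1 : ∀ k₁ ∈ Ioc 0 K, ∑ k₂ ∈ (Ioc 0 K).filter (fun k₂ => k₂ < k₁),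
      Real.exp (3 * (hh k₁ + hh k₂ + hh (k₁ - k₂)))
      ≤ K * Real.exp (9 * hh k₁) + A * K + A * K := by
    intro k₁ hk₁
    rw [mem_Ioc] at hk₁
    calc _ ≤ ∑ k₂ ∈ (Ioc 0 K).filter (fun k₂ => k₂ < k₁),
          (Real.exp (9 * hh k₁) + Real.exp (9 * hh k₂) + Real.exp (9 * hh (k₁ - k₂))) :=
          sum_le_sum fun k₂ _ => exp_three _ _ _
      _ = ((Ioc 0 K).filter (fun k₂ => k₂ < k₁)).card * Real.exp (9 * hh k₁)
          + ∑ k₂ ∈ (Ioc 0 K).filter (fun k₂ => k₂ < k₁), Real.exp (9 * hh k₂)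
          + ∑ k₂ ∈ (Ioc 0 K).filter (fun k₂ => k₂ < k₁), Real.exp (9 * hh (k₁ - k₂)) := by
          rw [sum_add_distrib, sum_add_distrib, sum_const, nsmul_eq_mul]
      _ ≤ _ := by
          apply add_le_add (add_le_add _ _) _
          · apply mul_le_mul_of_nonneg_right _ (Real.exp_pos _).le
            have := card_filter_le (Ioc 0 K) (fun k₂ => k₂ < k₁)
            rw [Nat.card_Ioc, tsub_zero] at this
            exact_mod_cast this
          · refine le_trans ?_ hA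
            apply sum_le_sum_of_subset_of_nonneg (filter_subset _ _)
            intro _ _ _; positivity
          · refine le_trans ?_ hA
            have e : ∑ d ∈ ((Ioc 0 K).filter (fun k₂ => k₂ < k₁)).image (fun k₂ => k₁ - k₂), Real.exp (9 * hh d)
                = ∑ k₂ ∈ (Ioc 0 K).filter (fun k₂ => k₂ < k₁), Real.exp (9 * hh (k₁ - k₂)) := by
              apply sum_image
              intro a ha b hb h
              simp only [coe_filter, Set.mem_ofPred_eq, mem_Ioc] at ha hb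
              simp only at h
              omega
            rw [← e]
            apply sum_le_sum_of_subset_of_nonneg
            · intro d hd
              rw [mem_image] at hd
              obtain ⟨k₂, hk₂, rfl⟩ := hd
              simp only [mem_filter, mem_Ioc] at hk₂ ⊢
              omega
            · intro _ _ _; positivity
  refine (sum_le_sum h1).trans ?_
  rw [sum_add_distrib, sum_add_distrib, ← mul_sum, sum_const, Nat.card_Ioc, tsub_zero, nsmul_eq_mul]
  have hK : (0 : ℝ) ≤ K := by positivity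
  have := mul_le_mul_of_nonneg_left hA hK
  nlinarith

lemma sq_count (I : Finset ℕ) (P : ℕ → Prop) [DecidablePred P] :
    ((I.filter P).card : ℝ) ^ 2 = ∑ k ∈ I, (if P k then (1 : ℝ) else 0)
      + 2 * ∑ k₁ ∈ I, ∑ k₂ ∈ I.filter (fun k₂ => k₂ < k₁), (if P k₁ ∧ P k₂ then (1 : ℝ) else 0) := by
  have h1 : ((I.filter P).card : ℝ) = ∑ k ∈ I, (if P k then (1 : ℝ) else 0) := by
    rw [← sum_filter, sum_const, nsmul_eq_mul, mul_one]
  have h2 : ∀ k₁ ∈ I, ∀ k₂ ∈ I, (if P k₁ then (1 : ℝ) else 0) * (if P k₂ then (1 : ℝ) else 0)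
      = (if k₂ = k₁ then (if P k₁ then (1 : ℝ) else 0) else 0)
        + (if k₂ < k₁ then (if P k₁ ∧ P k₂ then (1 : ℝ) else 0) else 0)
        + (if k₁ < k₂ then (if P k₂ ∧ P k₁ then (1 : ℝ) else 0) else 0) := by
    intro k₁ _ k₂ _
    rcases lt_trichotomy k₁ k₂ with h | h | h
    · rw [if_neg h.ne', if_neg (by omega : ¬ k₂ < k₁), if_pos h]
      by_cases a : P k₁ <;> by_cases b : P k₂ <;> simp [a, b]
    · subst h
      rw [if_pos rfl, if_neg (lt_irrefl k₁)]
      by_cases a : P k₁ <;> simp [a]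
    · rw [if_neg h.ne, if_pos h, if_neg (by omega : ¬ k₁ < k₂)]
      by_cases a : P k₁ <;> by_cases b : P k₂ <;> simp [a, b]
  rw [h1, sq, sum_mul_sum, sum_congr rfl fun k₁ h₁ => sum_congr rfl fun k₂ h₂ => h2 k₁ h₁ k₂ h₂]
  simp_rw [sum_add_distrib]
  have e1 : ∑ k₁ ∈ I, ∑ k₂ ∈ I, (if k₂ = k₁ then (if P k₁ then (1 : ℝ) else 0) else 0)
      = ∑ k ∈ I, (if P k then (1 : ℝ) else 0) := by
    refine sum_congr rfl fun k₁ hk₁ => ?_
    rw [Finset.sum_ite_eq' I k₁ (fun _ => if P k₁ then (1 : ℝ) else 0), if_pos hk₁]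
  have e2 : ∑ k₁ ∈ I, ∑ k₂ ∈ I, (if k₁ < k₂ then (if P k₂ ∧ P k₁ then (1 : ℝ) else 0) else 0)
      = ∑ k₁ ∈ I, ∑ k₂ ∈ I, (if k₂ < k₁ then (if P k₁ ∧ P k₂ then (1 : ℝ) else 0) else 0) := sum_comm
  rw [e1, e2]
  simp_rw [sum_filter]
  ring

/-- second moment -/
theorem second_moment : ∃ C : ℝ, 0 < C ∧ ∀ z : ℕ, 6 ≤ z → ∀ᶠ N : ℕ in atTop,
    ∑ n ∈ (Ioc N (N ^ 8)).filter (fun n => Nat.Coprime n (WZ z)), (rr N n : ℝ) ^ 2 / n
      ≤ C * Real.log N / Real.log z := by
  obtain ⟨C1, hC1, hp⟩ := pair_bound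
  obtain ⟨C2, hC2, hd⟩ := diag_bound
  set A : ℝ := Real.exp (2 * (9 * Real.exp 9)) with hA
  have hA0 : 0 < A := Real.exp_pos _
  refine ⟨7 * 24 * C2 * A + 2 * (7 * 24 ^ 2 * C1 * (3 * A)), by positivity, fun z hz => ?_⟩
  filter_upwards [eventually_ge_atTop (6 ^ 12), eventually_ge_atTop (z ^ 24), log_ge_eventually 1] with N h1 h2 h3
  obtain ⟨J, hJ1, hJ2⟩ := exists_J N h1
  have hN1 : 1 ≤ N := by omega
  set L : ℝ := Real.log N with hL
  have hL0 : 0 < L := by linarith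
  have hKK : (KK N : ℝ) ≤ L := Nat.floor_le hL0.le
  have hzJ : z ≤ YY J := by
    have : z ^ 24 < YY J ^ 24 := by omega
    exact (lt_of_pow_lt_pow_left₀ 24 (by omega) this).le
  have hY := log_YY_ge N J hN1 hJ2
  rw [← hL] at hY
  have hlY : 0 < Real.log (YY J) := by linarith
  have hlz : 0 < Real.log z := Real.log_pos (by exact_mod_cast (by omega : 1 < z))
  have h8 : 3 * N ≤ N ^ 8 := by
    calc 3 * N ≤ N * N := Nat.mul_le_mul_right N (by omega)
      _ = N ^ 2 := by ring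
      _ ≤ N ^ 8 := Nat.pow_le_pow_right (by omega) (by norm_num)
  set R := (Ioc N (N ^ 8)).filter (fun n => Nat.Coprime n (WZ z)) with hR
  have e0 : ∑ n ∈ R, (rr N n : ℝ) ^ 2 / n
      = ∑ k ∈ Ioc 0 (KK N), ∑ n ∈ (Ioc N (N ^ 8)).filter (fun n => Nat.Coprime n (WZ z) ∧ (n * k + 1).Prime), (1 : ℝ) / n
        + 2 * ∑ k₁ ∈ Ioc 0 (KK N), ∑ k₂ ∈ (Ioc 0 (KK N)).filter (fun k₂ => k₂ < k₁),
          ∑ n ∈ (Ioc N (N ^ 8)).filter (fun n => Nat.Coprime n (WZ z) ∧ (n * k₁ + 1).Prime ∧ (n * k₂ + 1).Prime), (1 : ℝ) / n := by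
    have e1 : ∀ n ∈ R, (rr N n : ℝ) ^ 2 / n
        = ∑ k ∈ Ioc 0 (KK N), (if (n * k + 1).Prime then (1 : ℝ) / n else 0)
          + 2 * ∑ k₁ ∈ Ioc 0 (KK N), ∑ k₂ ∈ (Ioc 0 (KK N)).filter (fun k₂ => k₂ < k₁),
            (if (n * k₁ + 1).Prime ∧ (n * k₂ + 1).Prime then (1 : ℝ) / n else 0) := by
      intro n _
      unfold rr
      rw [sq_count, add_div, sum_div, mul_div_assoc, sum_div]
      congr 1
      · refine sum_congr rfl fun k _ => ?_
        split_ifs <;> simp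
      · congr 1
        refine sum_congr rfl fun k₁ _ => ?_
        rw [sum_div]
        refine sum_congr rfl fun k₂ _ => ?_
        split_ifs <;> simp
    rw [sum_congr rfl e1, sum_add_distrib, ← mul_sum, sum_comm]
    congr 1
    · refine sum_congr rfl fun k _ => ?_
      rw [← sum_filter, hR, filter_filter]
    · congr 1
      rw [sum_comm]
      refine sum_congr rfl fun k₁ _ => ?_
      rw [sum_comm]
      refine sum_congr rfl fun k₂ _ => ?_
      rw [← sum_filter, hR, filter_filter]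
  rw [e0]
  have hlr := log_ratio_N8 N hN1
  rw [← hL] at hlr
  have hdiag : ∑ k ∈ Ioc 0 (KK N), ∑ n ∈ (Ioc N (N ^ 8)).filter (fun n => Nat.Coprime n (WZ z) ∧ (n * k + 1).Prime), (1 : ℝ) / (n : ℝ)
      ≤ 7 * 24 * C2 * A * (L / Real.log z) := by
    calc _ ≤ ∑ k ∈ Ioc 0 (KK N), (7 * 24 * C2 / Real.log z) * Real.exp (9 * hh k) := by
          refine sum_le_sum fun k hk => ?_
          rw [mem_Ioc] at hk
          refine (hd J N (N ^ 8) z k hJ1 h8 hz hzJ hk.1).trans ?_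
          rw [hlr]
          apply mul_le_mul _ _ (Real.exp_pos _).le (by positivity)
          · rw [div_le_div_iff₀ (by positivity) hlz]
            have h5 : L ≤ 24 * Real.log (YY J) := by linarith
            calc C2 * (7 * L) * Real.log z ≤ C2 * (7 * (24 * Real.log (YY J))) * Real.log z := by gcongr
              _ = _ := by ring
          · apply Real.exp_le_exp.mpr
            have := hh_nonneg k
            linarith
      _ = (7 * 24 * C2 / Real.log z) * ∑ k ∈ Ioc 0 (KK N), Real.exp (9 * hh k) := by rw [mul_sum]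
      _ ≤ (7 * 24 * C2 / Real.log z) * (KK N * A) := by
          apply mul_le_mul_of_nonneg_left (sum_exp_hh 9 (by norm_num) (KK N)) (by positivity)
      _ ≤ (7 * 24 * C2 / Real.log z) * (L * A) := by gcongr
      _ = _ := by ring
  have hoff : ∑ k₁ ∈ Ioc 0 (KK N), ∑ k₂ ∈ (Ioc 0 (KK N)).filter (fun k₂ => k₂ < k₁),
          ∑ n ∈ (Ioc N (N ^ 8)).filter (fun n => Nat.Coprime n (WZ z) ∧ (n * k₁ + 1).Prime ∧ (n * k₂ + 1).Prime), (1 : ℝ) / (n : ℝ)
      ≤ 7 * 24 ^ 2 * C1 * (3 * A) * (L / Real.log z) := by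
    calc _ ≤ ∑ k₁ ∈ Ioc 0 (KK N), ∑ k₂ ∈ (Ioc 0 (KK N)).filter (fun k₂ => k₂ < k₁),
          (7 * 24 ^ 2 * C1 / (Real.log z * L)) * Real.exp (3 * (hh k₁ + hh k₂ + hh (k₁ - k₂))) := by
          refine sum_le_sum fun k₁ hk₁ => sum_le_sum fun k₂ hk₂ => ?_
          simp only [mem_filter, mem_Ioc] at hk₁ hk₂
          refine (hp J N (N ^ 8) z k₁ k₂ hJ1 h8 hz hzJ hk₂.1.1 hk₂.2).trans ?_
          rw [hlr]
          apply mul_le_mul_of_nonneg_right _ (Real.exp_pos _).le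
          rw [div_le_div_iff₀ (by positivity) (by positivity)]
          have h5 : L ≤ 24 * Real.log (YY J) := by linarith
          calc C1 * (7 * L) * (Real.log z * L) = C1 * 7 * Real.log z * (L * L) := by ring
            _ ≤ C1 * 7 * Real.log z * ((24 * Real.log (YY J)) * (24 * Real.log (YY J))) := by gcongr
            _ = _ := by ring
      _ = (7 * 24 ^ 2 * C1 / (Real.log z * L)) * ∑ k₁ ∈ Ioc 0 (KK N), ∑ k₂ ∈ (Ioc 0 (KK N)).filter (fun k₂ => k₂ < k₁),
          Real.exp (3 * (hh k₁ + hh k₂ + hh (k₁ - k₂))) := by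
          rw [mul_sum]
          exact sum_congr rfl fun k₁ _ => by rw [mul_sum]
      _ ≤ (7 * 24 ^ 2 * C1 / (Real.log z * L)) * (3 * A * (KK N) ^ 2) := by
          apply mul_le_mul_of_nonneg_left _ (by positivity)
          apply sum_pairs_le
          rw [mul_comm]
          exact sum_exp_hh 9 (by norm_num) (KK N)
      _ ≤ (7 * 24 ^ 2 * C1 / (Real.log z * L)) * (3 * A * L ^ 2) := by gcongr
      _ = _ := by field_simp
  calc _ ≤ 7 * 24 * C2 * A * (L / Real.log z) + 2 * (7 * 24 ^ 2 * C1 * (3 * A) * (L / Real.log z)) := by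
        linarith
    _ = _ := by ring

end Pool.Agent.E456
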