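import Mathlib
import Pool.Agent.E456.FirstMoment

/-!
# The structure of the least `m` with `n ∣ φ(m)`
-/

namespace Pool.Agent.E456

open Finset Filter

/-- least positive `m` with `n ∣ φ(m)` -/
noncomputable def mm (n : ℕ) : ℕ := sInf {m : ℕ | 0 < m ∧ n ∣ Nat.totient m}

lemma mm_set_nonempty (n : ℕ) (hn : 0 < n) : {m : ℕ | 0 < m ∧ n ∣ Nat.totient m}.Nonempty := by
  refine ⟨n * n, Nat.mul_pos hn hn, ?_⟩
  have h := Nat.totient_gcd_mul_totient_mul n n
  rw [Nat.gcd_self, mul_assoc] at h
  have h2 := Nat.eq_of_mul_eq_mul_left (Nat.totient_pos.mpr hn) h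
  rw [h2]
  exact dvd_mul_left n _

lemma mm_spec (n : ℕ) (hn : 0 < n) : 0 < mm n ∧ n ∣ (mm n).totient :=
  Nat.sInf_mem (mm_set_nonempty n hn)

lemma mm_le {n m : ℕ} (hm : 0 < m) (h : n ∣ m.totient) : mm n ≤ m :=
  Nat.sInf_le ⟨hm, h⟩

lemma le_mm (n : ℕ) (hn : 0 < n) : n ≤ mm n := by
  obtain ⟨h1, h2⟩ := mm_spec n hn
  exact (Nat.le_of_dvd (Nat.totient_pos.mpr h1) h2).trans (Nat.totient_le _)

/-- exponent -/
def ee (a q : ℕ) : ℕ := if q ∣ a then 2 else 1

lemma totient_prod (T : Finset ℕ) (hT : ∀ q ∈ T, q.Prime) (e : ℕ → ℕ) :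
    (∏ q ∈ T, q ^ e q).totient = ∏ q ∈ T, (q ^ e q).totient := by
  induction T using Finset.induction_on with
  | empty => simp
  | insert a T ha ih =>
    rw [prod_insert ha, prod_insert ha, Nat.totient_mul, ih fun q hq => hT q (mem_insert_of_mem hq)]
    rw [Nat.coprime_prod_right_iff]
    intro i hi
    apply Nat.Coprime.pow
    rw [Nat.coprime_primes (hT a (mem_insert_self a T)) (hT i (mem_insert_of_mem hi))]
    rintro rfl
    exact ha hi

theorem struct (n : ℕ) (hn : Squarefree n) : ∃ (T : Finset ℕ) (a : ℕ → ℕ),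
    (∀ q ∈ T, q.Prime) ∧ (∀ q ∈ T, 1 < a q) ∧ (∏ q ∈ T, a q = n) ∧
    (mm n = ∏ q ∈ T, q ^ ee (a q) q) ∧ (∀ q ∈ T, a q ∣ (q ^ ee (a q) q).totient) := by
  have hn0 : 0 < n := Nat.pos_of_ne_zero hn.ne_zero
  obtain ⟨hm0, hnm⟩ := mm_spec n hn0
  set m := mm n with hm
  have h1 : ∀ l ∈ n.primeFactors, ∃ q ∈ m.primeFactors, l ∣ q ^ (m.factorization q - 1) * (q - 1) := by
    intro l hl
    rw [Nat.mem_primeFactors] at hl
    have h2 : l ∣ m.totient := hl.2.1.trans hnm
    rw [Nat.totient_eq_prod_factorization hm0.ne', Finsupp.prod] at h2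
    obtain ⟨q, hq, hlq⟩ := (Nat.Prime.prime hl.1).exists_mem_finset_dvd h2
    exact ⟨q, by simpa using hq, hlq⟩
  choose! f hf1 hf2 using h1
  set a : ℕ → ℕ := fun q => ∏ l ∈ n.primeFactors.filter (fun l => f l = q), l with ha
  have ha1 : ∀ q, 1 ≤ a q := fun q => Nat.one_le_iff_ne_zero.mpr
    (prod_ne_zero_iff.mpr fun l hl => by
      simp only [mem_filter, Nat.mem_primeFactors] at hl
      exact hl.1.1.ne_zero)
  set T := m.primeFactors.filter (fun q => 1 < a q) with hT
  have hprodm : ∏ q ∈ m.primeFactors, a q = n := by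
    simp only [ha]
    rw [prod_fiberwise_of_maps_to (fun l hl => hf1 l hl) (fun l => l)]
    exact Nat.prod_primeFactors_of_squarefree hn
  have hprodT : ∏ q ∈ T, a q = n := by
    rw [← hprodm, hT]
    apply prod_subset (filter_subset _ _)
    intro q hq hq'
    simp only [mem_filter, not_and, not_lt] at hq'
    exact le_antisymm (hq' hq) (ha1 q)
  have hTp : ∀ q ∈ T, q.Prime := fun q hq => Nat.prime_of_mem_primeFactors (mem_filter.mp hq).1
  have hmem : ∀ q l, q.Prime → l ∈ n.primeFactors.filter (fun l => f l = q) → l = q ∨ l ∣ q - 1 := by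
    intro q l hq hl
    simp only [mem_filter] at hl
    have h2 := hf2 l hl.1
    rw [hl.2] at h2
    have hlp := (Nat.mem_primeFactors.mp hl.1).1
    rcases (hlp.dvd_mul).mp h2 with h3 | h3
    · left
      exact (Nat.prime_dvd_prime_iff_eq hlp hq).mp (hlp.dvd_of_dvd_pow h3)
    · exact Or.inr h3
  have hadvd : ∀ q ∈ T, a q ∣ (q ^ ee (a q) q).totient := by
    intro q hq
    have hqp := hTp q hq
    have key : ∀ D, (∀ l ∈ n.primeFactors.filter (fun l => f l = q), l ∣ D) → a q ∣ D := by
      intro D hD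
      apply Finset.prod_primes_dvd
      · intro l hl
        simp only [mem_filter, Nat.mem_primeFactors] at hl
        exact hl.1.1.prime
      · exact hD
    unfold ee
    split_ifs with h
    · rw [Nat.totient_prime_pow hqp (by norm_num)]
      apply key
      intro l hl
      rcases hmem q l hqp hl with h3 | h3
      · rw [h3]; simp
      · exact dvd_mul_of_dvd_right h3 _
    · rw [pow_one, Nat.totient_prime hqp]
      apply key
      intro l hl
      rcases hmem q l hqp hl with h3 | h3
      · exfalso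
        apply h
        rw [← h3]
        conv_rhs => rw [ha]
        simp only
        rw [h3] at hl ⊢
        exact dvd_prod_of_mem (fun l => l) hl
      · exact h3
  refine ⟨T, a, hTp, fun q hq => (mem_filter.mp hq).2, hprodT, ?_, hadvd⟩
  -- equality of `m`
  set m' := ∏ q ∈ T, q ^ ee (a q) q with hm'
  have hm'0 : 0 < m' := prod_pos fun q hq => pow_pos (hTp q hq).pos _
  have h2 : n ∣ m'.totient := by
    rw [hm', totient_prod T hTp (fun q => ee (a q) q), ← hprodT]
    exact prod_dvd_prod_of_dvd _ _ hadvd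
  have h3 : m' ∣ m := by
    have h4 : m = ∏ q ∈ m.primeFactors, q ^ m.factorization q := by
      conv_lhs => rw [← Nat.prod_factorization_pow_eq_self hm0.ne']
      rfl
    conv_rhs => rw [h4]
    refine (prod_dvd_prod_of_dvd _ _ fun q hq => ?_).trans (prod_dvd_prod_of_subset T _ _ (filter_subset _ _))
    apply pow_dvd_pow
    have hqp := hTp q hq
    have hqm : q ∈ m.primeFactors := (mem_filter.mp hq).1
    have hv1 : 1 ≤ m.factorization q := by
      rw [Nat.mem_primeFactors] at hqm
      exact (hqp.dvd_iff_one_le_factorization hm0.ne').mp hqm.2.1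
    unfold ee
    split_ifs with h
    · -- `q ∣ a q`
      have h5 : q ∣ ∏ l ∈ n.primeFactors.filter (fun l => f l = q), l := h
      obtain ⟨l, hl, hql⟩ := hqp.prime.exists_mem_finset_dvd h5
      simp only [mem_filter] at hl
      have hlp := (Nat.mem_primeFactors.mp hl.1).1
      have h6 : q = l := (Nat.prime_dvd_prime_iff_eq hqp hlp).mp hql
      have h7 := hf2 l hl.1
      rw [hl.2, ← h6] at h7
      by_contra hlt
      have h8 : m.factorization q - 1 = 0 := by omega
      rw [h8, pow_zero, one_mul] at h7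
      have := Nat.le_of_dvd (by have := hqp.two_le; omega) h7
      have := hqp.two_le
      omega
    · exact hv1
  exact le_antisymm (mm_le hm'0 h2) (Nat.le_of_dvd hm0 h3)

/-- multiplier count -/
noncomputable def cnt (K a a' : ℕ) : ℕ :=
  ((Ioc 0 K).filter (fun k => (a * k + 1).Prime ∧ k * mm a' ≤ K * a')).card

lemma ee_cases (a q : ℕ) : (ee a q = 1 ∧ ¬ q ∣ a) ∨ (ee a q = 2 ∧ q ∣ a) := by
  unfold ee; split_ifs with h
  · exact Or.inr ⟨rfl, h⟩
  · exact Or.inl ⟨rfl, h⟩

lemma prod_lt_one {T : Finset ℕ} {a : ℕ → ℕ} (ha : ∀ q ∈ T, 1 < a q) (h : ∏ q ∈ T, a q = 1) : T = ∅ := by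
  by_contra hne
  obtain ⟨q, hq⟩ := Finset.nonempty_iff_ne_empty.mpr hne
  have h1 := dvd_prod_of_mem a hq
  rw [h] at h1
  have := Nat.dvd_one.mp h1
  have := ha q hq
  omega

/-- The dichotomy. -/
theorem dichotomy (n K : ℕ) (hn : Squarefree n) (hn1 : 1 < n) (hmK : mm n ≤ K * n) (hmp : ¬ (mm n).Prime) :
    (Real.log n ≤ 2 * ∑ p ∈ n.divisorsAntidiagonal.filter (fun p => 1 < p.1 ∧ 1 < p.2),
        Real.log p.1 * cnt K p.1 p.2) ∨
    (∃ s t n' : ℕ, 0 < s ∧ 0 < t ∧ 0 < n' ∧ t ≤ K ∧ n' ≤ n ∧ s ^ 2 ≤ K * n ∧ n < s ^ 4 + 1 ∧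
      n = n' * (s * s.totient / t) ∧ s ^ 2 * n' ≤ K * n) := by
  obtain ⟨T, a, hTp, ha1, hprod, hmeq, hadvd⟩ := struct n hn
  have hn0 : 0 < n := by omega
  set T1 := T.filter (fun q => ee (a q) q = 1) with hT1
  set T2 := T.filter (fun q => ¬ ee (a q) q = 1) with hT2
  have hlog : Real.log n = ∑ q ∈ T, Real.log (a q) := by
    rw [← hprod]
    push_cast
    rw [Real.log_prod]
    intro q hq
    have := ha1 q hq
    exact_mod_cast (by omega : a q ≠ 0)
  have hlogsplit : Real.log n = ∑ q ∈ T1, Real.log (a q) + ∑ q ∈ T2, Real.log (a q) := by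
    rw [hlog, hT1, hT2, sum_filter_add_sum_filter_not]
  have hcop : ∀ q ∈ T, ∀ q' ∈ T, q ≠ q' → Nat.Coprime (a q) (a q') := by
    intro q hq q' hq' hne
    have h1 : a q * a q' ∣ n := by
      rw [← hprod, ← prod_erase_mul T a hq, mul_comm]
      apply mul_dvd_mul_right
      exact dvd_prod_of_mem a (mem_erase.mpr ⟨hne.symm, hq'⟩)
    have h2 : Squarefree (a q * a q') := hn.squarefree_of_dvd h1
    exact Nat.coprime_of_squarefree_mul h2
  rcases le_total (Real.log n) (2 * ∑ q ∈ T1, Real.log (a q)) with hcase | hcase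
  · left
    refine hcase.trans ?_
    apply mul_le_mul_of_nonneg_left _ (by norm_num)
    -- the map q ↦ (a q, n / a q)
    have hkey : ∀ q ∈ T1, (a q, n / a q) ∈ n.divisorsAntidiagonal.filter (fun p => 1 < p.1 ∧ 1 < p.2) ∧
        1 ≤ cnt K (a q) (n / a q) := by
      intro q hq
      simp only [hT1, mem_filter] at hq
      obtain ⟨hqT, hqe⟩ := hq
      have hqp := hTp q hqT
      have haq := ha1 q hqT
      have hdvd : a q ∣ n := by rw [← hprod]; exact dvd_prod_of_mem a hqT
      have hmul : a q * (n / a q) = n := Nat.mul_div_cancel' hdvd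
      have hrest : n / a q = ∏ q' ∈ T.erase q, a q' := by
        apply Nat.div_eq_of_eq_mul_right (by omega)
        rw [mul_prod_erase T a hqT, hprod]
      have hrest1 : 1 < n / a q := by
        by_contra hlt
        push Not at hlt
        have h0 : 0 < n / a q := Nat.div_pos (Nat.le_of_dvd hn0 hdvd) (by omega)
        have h1 : n / a q = 1 := by omega
        rw [hrest] at h1
        have h2 : T.erase q = ∅ := prod_lt_one (fun q' hq' => ha1 q' (mem_of_mem_erase hq')) h1
        have h3 : mm n = q := by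
          rw [hmeq, ← mul_prod_erase T (fun q => q ^ ee (a q) q) hqT, h2, prod_empty, hqe]
          simp
        exact hmp (h3 ▸ hqp)
      refine ⟨?_, ?_⟩
      · simp only [mem_filter, Nat.mem_divisorsAntidiagonal]
        exact ⟨⟨hmul, hn0.ne'⟩, haq, hrest1⟩
      · have h4 : a q ∣ q - 1 := by
          have := hadvd q hqT
          rw [hqe, pow_one, Nat.totient_prime hqp] at this
          exact this
        obtain ⟨k, hk⟩ := h4
        have hk0 : 0 < k := by
          rcases Nat.eq_zero_or_pos k with h | h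
          · subst h; have := hqp.two_le; omega
          · exact h
        have hqk : q = a q * k + 1 := by have := hqp.two_le; omega
        have hmr : mm (n / a q) ≤ ∏ q' ∈ T.erase q, q' ^ ee (a q') q' := by
          apply mm_le
          · exact prod_pos fun q' hq' => pow_pos (hTp q' (mem_of_mem_erase hq')).pos _
          · rw [totient_prod (T.erase q) (fun q' hq' => hTp q' (mem_of_mem_erase hq')) (fun q' => ee (a q') q'), hrest]
            exact prod_dvd_prod_of_dvd _ _ fun q' hq' => hadvd q' (mem_of_mem_erase hq')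
        have hmn : mm n = q * ∏ q' ∈ T.erase q, q' ^ ee (a q') q' := by
          rw [hmeq, ← mul_prod_erase T (fun q => q ^ ee (a q) q) hqT, hqe, pow_one]
        have h5 : q * mm (n / a q) ≤ K * n := by
          calc q * mm (n / a q) ≤ q * ∏ q' ∈ T.erase q, q' ^ ee (a q') q' := Nat.mul_le_mul_left _ hmr
            _ = mm n := hmn.symm
            _ ≤ K * n := hmK
        have h6 : k * mm (n / a q) ≤ K * (n / a q) := by
          have h7 : a q * (k * mm (n / a q)) ≤ a q * (K * (n / a q)) := by
            calc a q * (k * mm (n / a q)) = (a q * k) * mm (n / a q) := by ring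
              _ ≤ q * mm (n / a q) := Nat.mul_le_mul_right _ (by omega)
              _ ≤ K * n := h5
              _ = K * (a q * (n / a q)) := by rw [hmul]
              _ = a q * (K * (n / a q)) := by ring
          exact Nat.le_of_mul_le_mul_left h7 (by omega)
        unfold cnt
        apply Nat.one_le_iff_ne_zero.mpr
        apply Nat.pos_iff_ne_zero.mp
        apply card_pos.mpr
        refine ⟨k, ?_⟩
        simp only [mem_filter, mem_Ioc]
        refine ⟨⟨hk0, ?_⟩, ?_, h6⟩
        · have h8 := le_mm (n / a q) (by omega)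
          have h9 : k * (n / a q) ≤ K * (n / a q) := (Nat.mul_le_mul_left k h8).trans h6
          exact Nat.le_of_mul_le_mul_right h9 (by omega)
        · rw [← hqk]; exact hqp
    have hinj : Set.InjOn (fun q => (a q, n / a q)) (T1 : Set ℕ) := by
      intro q hq q' hq' h
      simp only [Prod.mk.injEq] at h
      by_contra hne
      have hq1 := (mem_filter.mp (mem_coe.mp hq)).1
      have hq2 := (mem_filter.mp (mem_coe.mp hq')).1
      have h1 := hcop q hq1 q' hq2 hne
      rw [h.1, Nat.coprime_self] at h1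
      have := ha1 q' hq2
      omega
    calc ∑ q ∈ T1, Real.log (a q) ≤ ∑ q ∈ T1, Real.log (a q) * cnt K (a q) (n / a q) := by
          refine sum_le_sum fun q hq => ?_
          have h1 := (hkey q hq).2
          have h2 : (1 : ℝ) ≤ cnt K (a q) (n / a q) := by exact_mod_cast h1
          have h3 := Real.log_natCast_nonneg (a q)
          nlinarith
      _ = ∑ p ∈ T1.image (fun q => (a q, n / a q)), Real.log p.1 * cnt K p.1 p.2 := by
          rw [sum_image hinj]
      _ ≤ _ := by
          apply sum_le_sum_of_subset_of_nonneg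
          · intro p hp
            rw [mem_image] at hp
            obtain ⟨q, hq, rfl⟩ := hp
            exact (hkey q hq).1
          · intro p _ _
            exact mul_nonneg (Real.log_natCast_nonneg _) (by positivity)
  · right
    -- powerful part
    set s := ∏ q ∈ T2, q with hs
    set n2 := ∏ q ∈ T2, a q with hn2
    set n1 := ∏ q ∈ T1, a q with hn1'
    have hn12 : n1 * n2 = n := by
      rw [hn1', hn2, hT1, hT2, prod_filter_mul_prod_filter_not, hprod]
    have hs0 : 0 < s := prod_pos fun q hq => (hTp q (mem_filter.mp hq).1).pos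
    have hn20 : 0 < n2 := Nat.pos_of_ne_zero (by rintro h; rw [h, mul_zero] at hn12; omega)
    have hn10 : 0 < n1 := Nat.pos_of_ne_zero (by rintro h; rw [h, zero_mul] at hn12; omega)
    have he2 : ∀ q ∈ T2, ee (a q) q = 2 := by
      intro q hq
      rcases ee_cases (a q) q with h | h
      · exact absurd h.1 (mem_filter.mp hq).2
      · exact h.1
    have hsφ : n2 ∣ s * s.totient := by
      have h1 : s * s.totient = (∏ q ∈ T2, q ^ 2).totient := by
        have h2 := totient_prod T2 (fun q hq => hTp q (mem_filter.mp hq).1) (fun _ => 2)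
        have h3 := totient_prod T2 (fun q hq => hTp q (mem_filter.mp hq).1) (fun _ => 1)
        simp only [pow_one] at h3
        rw [h2, hs, h3, ← prod_mul_distrib]
        refine prod_congr rfl fun q hq => ?_
        have hqp := hTp q (mem_filter.mp hq).1
        rw [Nat.totient_prime_pow hqp (by norm_num), Nat.totient_prime hqp]
        simp
      rw [h1, totient_prod T2 (fun q hq => hTp q (mem_filter.mp hq).1) (fun _ => 2), hn2]
      apply prod_dvd_prod_of_dvd
      intro q hq
      have h2 := hadvd q (mem_filter.mp hq).1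
      rw [he2 q hq] at h2
      exact h2
    obtain ⟨t, ht⟩ := hsφ
    have hφs : 0 < s.totient := Nat.totient_pos.mpr hs0
    have ht0 : 0 < t := by
      rcases Nat.eq_zero_or_pos t with h | h
      · subst h
        rw [mul_zero] at ht
        have := Nat.mul_pos hs0 hφs
        omega
      · exact h
    have hm1 : mm n = s ^ 2 * ∏ q ∈ T1, q := by
      rw [hmeq, ← prod_filter_mul_prod_filter_not T (fun q => ee (a q) q = 1), mul_comm]
      congr 1
      · rw [hs, ← prod_pow]
        exact prod_congr rfl fun q hq => by rw [he2 q hq]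
      · refine prod_congr rfl fun q hq => ?_
        rw [(mem_filter.mp hq).2, pow_one]
    have hn1T : n1 ≤ ∏ q ∈ T1, q := by
      apply Finset.prod_le_prod'
      intro q hq
      have h1 := hadvd q (mem_filter.mp hq).1
      rw [(mem_filter.mp hq).2, pow_one] at h1
      have hqp := hTp q (mem_filter.mp hq).1
      exact (Nat.le_of_dvd (Nat.totient_pos.mpr hqp.pos) h1).trans (Nat.totient_le q)
    have hsn : s ^ 2 * n1 ≤ K * n := by
      calc s ^ 2 * n1 ≤ s ^ 2 * ∏ q ∈ T1, q := Nat.mul_le_mul_left _ hn1T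
        _ = mm n := hm1.symm
        _ ≤ K * n := hmK
    have hs2K : s ^ 2 ≤ K * n2 := by
      have h1 : n1 * s ^ 2 ≤ n1 * (K * n2) := by
        calc n1 * s ^ 2 = s ^ 2 * n1 := mul_comm _ _
          _ ≤ K * n := hsn
          _ = n1 * (K * n2) := by rw [← hn12]; ring
      exact Nat.le_of_mul_le_mul_left h1 hn10
    have hφle : s * s.totient ≤ s ^ 2 := by
      rw [sq]; exact Nat.mul_le_mul_left _ (Nat.totient_le s)
    have htK : t ≤ K := by
      have h1 : n2 * t ≤ n2 * K := by
        calc n2 * t = s * s.totient := ht.symm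
          _ ≤ s ^ 2 := hφle
          _ ≤ K * n2 := hs2K
          _ = n2 * K := mul_comm _ _
      exact Nat.le_of_mul_le_mul_left h1 hn20
    have hn2s : n2 ≤ s ^ 2 := by
      have h1 : n2 ≤ n2 * t := Nat.le_mul_of_pos_right _ ht0
      omega
    have hlog1 : Real.log n ≤ 2 * Real.log n2 := by
      have h1 : Real.log n2 = ∑ q ∈ T2, Real.log (a q) := by
        rw [hn2]
        push_cast
        rw [Real.log_prod]
        intro q hq
        have := ha1 q (mem_filter.mp hq).1
        exact_mod_cast (by omega : a q ≠ 0)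
      rw [h1]
      linarith
    have hnn2 : n ≤ n2 ^ 2 := by
      have h1 : Real.log n ≤ Real.log ((n2 : ℝ) ^ 2) := by
        rw [Real.log_pow]; exact_mod_cast hlog1
      have h2 := (Real.log_le_log_iff (by exact_mod_cast hn0) (by positivity)).mp h1
      exact_mod_cast h2
    refine ⟨s, t, n1, hs0, ht0, hn10, htK, ?_, ?_, ?_, ?_, hsn⟩
    · rw [← hn12]; exact Nat.le_mul_of_pos_right _ hn20
    · exact (Nat.le_mul_of_pos_right _ hn10).trans hsn
    · have h1 : n2 ^ 2 ≤ (s ^ 2) ^ 2 := Nat.pow_le_pow_left hn2s 2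
      have h2 : (s ^ 2) ^ 2 = s ^ 4 := by ring
      omega
    · rw [ht, Nat.mul_div_cancel _ ht0]
      exact hn12.symm

end Pool.Agent.E456
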