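import Mathlib
import Pool.Agent.E456.Struct
import Pool.Agent.E456.HSum

/-!
# Sums over squarefree `z`-rough numbers; typical numbers
-/

namespace Pool.Agent.E456

open Finset Filter

/-- number of prime factors up to `Y` -/
def om (Y n : ℕ) : ℕ := (n.primeFactors.filter (fun l => l ≤ Y)).card

/-- squarefree rough numbers in an interval -/
def SQ (z M x : ℕ) : Finset ℕ := (Ioc M x).filter (fun n => Squarefree n ∧ Nat.Coprime n (WZ z))

lemma rough_prime_gt {z n l : ℕ} (h : Nat.Coprime n (WZ z)) (hl : l.Prime) (hd : l ∣ n) : z < l := by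
  by_contra hlt
  push Not at hlt
  exact (coprime_WZ z n).mp h l (by simp only [PZ, mem_filter, mem_Ioc]; exact ⟨⟨hl.pos, hlt⟩, hl⟩) hd

lemma sqf_prod (z M x : ℕ) (f : ℕ → ℝ) (hf : ∀ l, 0 ≤ f l) :
    ∑ n ∈ SQ z M x, ∏ l ∈ n.primeFactors, f l ≤ ∏ l ∈ (Ioc z x).filter Nat.Prime, (1 + f l) := by
  rw [prod_one_add]
  have hinj : Set.InjOn (fun n => n.primeFactors) (SQ z M x : Set ℕ) := by
    intro n hn m hm h
    have h1 := (mem_filter.mp (mem_coe.mp hn)).2.1
    have h2 := (mem_filter.mp (mem_coe.mp hm)).2.1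
    simp only at h
    rw [← Nat.prod_primeFactors_of_squarefree h1, ← Nat.prod_primeFactors_of_squarefree h2, h]
  rw [← sum_image (f := fun S => ∏ l ∈ S, f l) hinj]
  apply sum_le_sum_of_subset_of_nonneg
  · intro S hS
    rw [mem_image] at hS
    obtain ⟨n, hn, rfl⟩ := hS
    simp only [SQ, mem_filter, mem_Ioc] at hn
    rw [mem_powerset]
    intro l hl
    rw [Nat.mem_primeFactors] at hl
    simp only [mem_filter, mem_Ioc]
    exact ⟨⟨rough_prime_gt hn.2.2 hl.1 hl.2.1, (Nat.le_of_dvd (by omega) hl.2.1).trans hn.1.2⟩, hl.1⟩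
  · intro S _ _
    exact prod_nonneg fun l _ => hf l

lemma prod_le_exp (P : Finset ℕ) (f : ℕ → ℝ) (hf : ∀ l ∈ P, 0 ≤ f l) :
    ∏ l ∈ P, (1 + f l) ≤ Real.exp (∑ l ∈ P, f l) := by
  rw [Real.exp_sum]
  apply Finset.prod_le_prod
  · intro l hl; linarith [hf l hl]
  · intro l _; linarith [Real.add_one_le_exp (f l)]

/-- Mertens between `z` and `x` -/
lemma sum_inv_le : ∃ C : ℝ, 0 < C ∧ ∀ z x : ℕ, 2 ≤ z → z ≤ x →
    ∑ l ∈ (Ioc z x).filter Nat.Prime, (1 : ℝ) / l ≤ Real.log (Real.log x / Real.log z) + C := by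
  obtain ⟨C, hC, h⟩ := mertens2
  refine ⟨2 * C, by positivity, fun z x hz hzx => ?_⟩
  rw [← S1_sub z x hzx]
  have h1 := (abs_le.mp (h x (by omega))).2
  have h2 := (abs_le.mp (h z hz)).1
  have hlz : 0 < Real.log z := Real.log_pos (by exact_mod_cast (by omega : 1 < z))
  have hlx : 0 < Real.log x := Real.log_pos (by exact_mod_cast (by omega : 1 < x))
  rw [Real.log_div hlx.ne' hlz.ne']
  linarith

lemma log_zpow (z i : ℕ) (hz : 2 ≤ z) : Real.log ((z ^ (2 ^ i) : ℕ) : ℝ) / Real.log z = 2 ^ i := by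
  have hlz : 0 < Real.log z := Real.log_pos (by exact_mod_cast (by omega : 1 < z))
  push_cast
  rw [Real.log_pow]
  push_cast
  field_simp

lemma prod_inv_eq (n : ℕ) (hn : Squarefree n) : ∏ l ∈ n.primeFactors, (1 : ℝ) / l = 1 / n := by
  rw [prod_div_distrib, prod_const_one]
  congr 1
  rw [← Nat.cast_prod, Nat.prod_primeFactors_of_squarefree hn]

lemma prod_om_eq (n Y : ℕ) (s : ℝ) (hn : Squarefree n) :
    ∏ l ∈ n.primeFactors, ((if l ≤ Y then s else 1) / (l : ℝ)) = s ^ om Y n / n := by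
  rw [prod_div_distrib]
  congr 1
  · rw [prod_ite]
    simp only [prod_const, one_pow, mul_one]
    rfl
  · rw [← Nat.cast_prod, Nat.prod_primeFactors_of_squarefree hn]

/-- total mass of squarefree rough numbers -/
lemma mass_SQ : ∃ C : ℝ, 0 < C ∧ ∀ z M x : ℕ, 2 ≤ z → z ≤ x →
    ∑ n ∈ SQ z M x, (1 : ℝ) / n ≤ C * (Real.log x / Real.log z) := by
  obtain ⟨C, hC, h⟩ := sum_inv_le
  refine ⟨Real.exp C, Real.exp_pos _, fun z M x hz hzx => ?_⟩
  have hlz : 0 < Real.log z := Real.log_pos (by exact_mod_cast (by omega : 1 < z))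
  have hlx : 0 < Real.log x := Real.log_pos (by exact_mod_cast (by omega : 1 < x))
  calc ∑ n ∈ SQ z M x, (1 : ℝ) / n = ∑ n ∈ SQ z M x, ∏ l ∈ n.primeFactors, (1 : ℝ) / l := by
        refine sum_congr rfl fun n hn => ?_
        rw [prod_inv_eq n (mem_filter.mp hn).2.1]
    _ ≤ ∏ l ∈ (Ioc z x).filter Nat.Prime, (1 + (1 : ℝ) / l) := sqf_prod z M x _ fun l => by positivity
    _ ≤ Real.exp (∑ l ∈ (Ioc z x).filter Nat.Prime, (1 : ℝ) / l) := prod_le_exp _ _ fun l _ => by positivity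
    _ ≤ Real.exp (Real.log (Real.log x / Real.log z) + C) := Real.exp_le_exp.mpr (h z x hz hzx)
    _ = Real.exp C * (Real.log x / Real.log z) := by
        rw [Real.exp_add, Real.exp_log (by positivity)]; ring

/-- half weights -/
lemma mass_half : ∃ C : ℝ, 0 < C ∧ ∀ z M i : ℕ, 2 ≤ z →
    ∑ n ∈ SQ z M (z ^ (2 ^ i)), (1 / 2 : ℝ) ^ (n.primeFactors.card) / n ≤ C * Real.sqrt (2 ^ i) := by
  obtain ⟨C, hC, h⟩ := sum_inv_le
  refine ⟨Real.exp (C / 2), Real.exp_pos _, fun z M i hz => ?_⟩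
  have hlz : 0 < Real.log z := Real.log_pos (by exact_mod_cast (by omega : 1 < z))
  have hzx : z ≤ z ^ (2 ^ i) := Nat.le_self_pow (by positivity) z
  calc ∑ n ∈ SQ z M (z ^ (2 ^ i)), (1 / 2 : ℝ) ^ (n.primeFactors.card) / n
      = ∑ n ∈ SQ z M (z ^ (2 ^ i)), ∏ l ∈ n.primeFactors, ((1 / 2) * ((1 : ℝ) / l)) := by
        refine sum_congr rfl fun n hn => ?_
        rw [prod_mul_distrib, prod_inv_eq n (mem_filter.mp hn).2.1, prod_const]
        ring
    _ ≤ ∏ l ∈ (Ioc z (z ^ (2 ^ i))).filter Nat.Prime, (1 + (1 / 2) * ((1 : ℝ) / l)) :=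
        sqf_prod z M _ _ fun l => by positivity
    _ ≤ Real.exp (∑ l ∈ (Ioc z (z ^ (2 ^ i))).filter Nat.Prime, (1 / 2) * ((1 : ℝ) / l)) :=
        prod_le_exp _ _ fun l _ => by positivity
    _ ≤ Real.exp ((1 / 2) * (Real.log (2 ^ i) + C)) := by
        apply Real.exp_le_exp.mpr
        rw [← mul_sum]
        have h1 := h z (z ^ (2 ^ i)) hz hzx
        rw [log_zpow z i hz] at h1
        linarith
    _ = Real.exp (C / 2) * Real.sqrt (2 ^ i) := by
        rw [mul_add, Real.exp_add, mul_comm]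
        congr 1
        · congr 1; ring
        · rw [Real.sqrt_eq_rpow, Real.rpow_def_of_pos (by positivity)]
          congr 1; ring

lemma sum_inv_zpow : ∃ C : ℝ, 0 < C ∧ ∀ z x i : ℕ, 2 ≤ z →
    ∑ l ∈ (Ioc z x).filter (fun l => l.Prime ∧ l ≤ z ^ (2 ^ i)), (1 : ℝ) / l ≤ i * Real.log 2 + C := by
  obtain ⟨C, hC, h⟩ := sum_inv_le
  refine ⟨C, hC, fun z x i hz => ?_⟩
  have hzx : z ≤ z ^ (2 ^ i) := Nat.le_self_pow (by positivity) z
  have h1 := h z (z ^ (2 ^ i)) hz hzx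
  rw [log_zpow z i hz, Real.log_pow] at h1
  refine le_trans ?_ h1
  apply sum_le_sum_of_subset_of_nonneg
  · intro l hl; simp only [mem_filter, mem_Ioc] at hl ⊢; exact ⟨⟨hl.1.1, hl.2.2⟩, hl.2.1⟩
  · intro _ _ _; positivity

/-- Rankin sum -/
lemma rankin_sum : ∃ C : ℝ, 0 < C ∧ ∀ z M x i : ℕ, 2 ≤ z → z ≤ x →
    ∑ n ∈ SQ z M x, (71 / 50 : ℝ) ^ om (z ^ (2 ^ i)) n / n
      ≤ C * (Real.log x / Real.log z) * Real.exp (21 / 50 * (i * Real.log 2)) := by
  obtain ⟨C, hC, h⟩ := sum_inv_le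
  obtain ⟨D, hD, h'⟩ := sum_inv_zpow
  refine ⟨Real.exp (C + 21 / 50 * D), Real.exp_pos _, fun z M x i hz hzx => ?_⟩
  have hlz : 0 < Real.log z := Real.log_pos (by exact_mod_cast (by omega : 1 < z))
  have hlx : 0 < Real.log x := Real.log_pos (by exact_mod_cast (by omega : 1 < x))
  set Y := z ^ (2 ^ i) with hY
  calc ∑ n ∈ SQ z M x, (71 / 50 : ℝ) ^ om Y n / n
      = ∑ n ∈ SQ z M x, ∏ l ∈ n.primeFactors, ((if l ≤ Y then (71 / 50 : ℝ) else 1) / (l : ℝ)) := by
        refine sum_congr rfl fun n hn => ?_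
        rw [prod_om_eq n Y _ (mem_filter.mp hn).2.1]
    _ ≤ ∏ l ∈ (Ioc z x).filter Nat.Prime, (1 + (if l ≤ Y then (71 / 50 : ℝ) else 1) / (l : ℝ)) :=
        sqf_prod z M x _ fun l => by split_ifs <;> positivity
    _ ≤ Real.exp (∑ l ∈ (Ioc z x).filter Nat.Prime, (if l ≤ Y then (71 / 50 : ℝ) else 1) / (l : ℝ)) :=
        prod_le_exp _ _ fun l _ => by split_ifs <;> positivity
    _ ≤ Real.exp ((Real.log (Real.log x / Real.log z) + C) + 21 / 50 * (i * Real.log 2 + D)) := by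
        apply Real.exp_le_exp.mpr
        have e1 : ∑ l ∈ (Ioc z x).filter Nat.Prime, (if l ≤ Y then (71 / 50 : ℝ) else 1) / (l : ℝ)
            = ∑ l ∈ (Ioc z x).filter Nat.Prime, (1 : ℝ) / l
              + 21 / 50 * ∑ l ∈ (Ioc z x).filter (fun l => l.Prime ∧ l ≤ Y), (1 : ℝ) / l := by
          rw [mul_sum, ← filter_filter, sum_filter (fun l => l ≤ Y), ← sum_add_distrib]
          refine sum_congr rfl fun l _ => ?_
          split_ifs <;> ring
        rw [e1]
        have h1 := h z x hz hzx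
        have h2 := h' z x i hz
        rw [← hY] at h2
        linarith
    _ = _ := by
        have e2 : (Real.log (Real.log x / Real.log z) + C) + 21 / 50 * (i * Real.log 2 + D)
            = (C + 21 / 50 * D) + Real.log (Real.log x / Real.log z) + 21 / 50 * (i * Real.log 2) := by ring
        rw [e2, Real.exp_add, Real.exp_add (C + 21 / 50 * D), Real.exp_log (by positivity)]

/-- typical numbers -/
def typ (z : ℕ) (C2 : ℝ) (I n : ℕ) : Prop := ∀ i < I, (2 : ℝ) ^ om (z ^ (2 ^ i)) n ≤ C2 * (19 / 10) ^ i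

/-- the geometric ratio -/
noncomputable def rat : ℝ := Real.exp (21 / 50 * Real.log 2) / Real.sqrt (19 / 10)

lemma rat_lt_one : rat < 1 := by
  unfold rat
  rw [div_lt_one (by positivity)]
  apply Real.lt_sqrt_of_sq_lt
  rw [← Real.exp_nat_mul]
  have h1 : ((2 : ℕ) : ℝ) * (21 / 50 * Real.log 2) < Real.log (19 / 10) := by
    have h2 : Real.log ((2 : ℝ) ^ 21) < Real.log ((19 / 10 : ℝ) ^ 25) := by
      apply Real.log_lt_log (by positivity)
      norm_num
    rw [Real.log_pow, Real.log_pow] at h2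
    push_cast at *
    linarith
  calc Real.exp (((2 : ℕ) : ℝ) * (21 / 50 * Real.log 2)) < Real.exp (Real.log (19 / 10)) :=
        Real.exp_lt_exp.mpr h1
    _ = 19 / 10 := Real.exp_log (by norm_num)

lemma rat_pos : 0 < rat := by unfold rat; positivity

lemma sqrt_pow_eq (x : ℝ) (hx : 0 ≤ x) (n : ℕ) : Real.sqrt (x ^ n) = Real.sqrt x ^ n := by
  induction n with
  | zero => simp
  | succ n ih => rw [pow_succ, Real.sqrt_mul (by positivity), ih, pow_succ]

/-- atypical mass -/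
theorem atypical_mass : ∃ C : ℝ, 0 < C ∧ ∀ (z M x I : ℕ) (C2 : ℝ), 2 ≤ z → z ≤ x → 1 ≤ C2 →
    ∑ n ∈ (SQ z M x).filter (fun n => ¬ ∀ i < I, (2 : ℝ) ^ om (z ^ (2 ^ i)) n ≤ C2 * (19 / 10) ^ i), (1 : ℝ) / n
      ≤ C / Real.sqrt C2 * (Real.log x / Real.log z) := by
  obtain ⟨C, hC, h⟩ := rankin_sum
  refine ⟨C / (1 - rat), div_pos hC (by linarith [rat_lt_one]), fun z M x I C2 hz hzx hC2 => ?_⟩
  have hlz : 0 < Real.log z := Real.log_pos (by exact_mod_cast (by omega : 1 < z))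
  have hlx : 0 < Real.log x := Real.log_pos (by exact_mod_cast (by omega : 1 < x))
  have hsC : 0 < Real.sqrt C2 := Real.sqrt_pos.mpr (by linarith)
  have h1 : ∑ n ∈ (SQ z M x).filter (fun n => ¬ ∀ i < I, (2 : ℝ) ^ om (z ^ (2 ^ i)) n ≤ C2 * (19 / 10) ^ i), (1 : ℝ) / n
      ≤ ∑ i ∈ range I, ∑ n ∈ SQ z M x, ((71 / 50 : ℝ) ^ om (z ^ (2 ^ i)) n / n) / (Real.sqrt C2 * Real.sqrt (19 / 10) ^ i) := by
    rw [sum_comm, sum_filter]
    refine sum_le_sum fun n _ => ?_
    have hnn : ∀ i ∈ range I, 0 ≤ ((71 / 50 : ℝ) ^ om (z ^ (2 ^ i)) n / n) / (Real.sqrt C2 * Real.sqrt (19 / 10) ^ i) := by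
      intro i _; positivity
    by_cases hn : ¬ ∀ i < I, (2 : ℝ) ^ om (z ^ (2 ^ i)) n ≤ C2 * (19 / 10) ^ i
    · rw [if_pos hn]
      push Not at hn
      obtain ⟨i, hi, hlt⟩ := hn
      refine le_trans ?_ (single_le_sum hnn (mem_range.mpr hi))
      rw [div_div, mul_comm (n : ℝ), ← div_div]
      apply div_le_div_of_nonneg_right _ (by positivity)
      rw [le_div_iff₀ (by positivity), one_mul]
      have h2 : Real.sqrt C2 * Real.sqrt (19 / 10) ^ i = Real.sqrt (C2 * (19 / 10) ^ i) := by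
        rw [Real.sqrt_mul (by linarith)]
        congr 1
        rw [sqrt_pow_eq _ (by norm_num)]
      rw [h2]
      refine (Real.sqrt_le_sqrt hlt.le).trans ?_
      rw [sqrt_pow_eq _ (by norm_num)]
      apply pow_le_pow_left₀ (Real.sqrt_nonneg _)
      rw [Real.sqrt_le_left (by norm_num)]
      norm_num
    · rw [if_neg hn]
      exact sum_nonneg hnn
  refine h1.trans ?_
  have h2 : ∀ i ∈ range I, ∑ n ∈ SQ z M x, ((71 / 50 : ℝ) ^ om (z ^ (2 ^ i)) n / n) / (Real.sqrt C2 * Real.sqrt (19 / 10) ^ i)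
      ≤ (C / Real.sqrt C2 * (Real.log x / Real.log z)) * rat ^ i := by
    intro i _
    rw [← sum_div, div_le_iff₀ (by positivity)]
    refine (h z M x i hz hzx).trans (le_of_eq ?_)
    unfold rat
    rw [div_pow]
    have e1 : Real.exp (21 / 50 * Real.log 2) ^ i = Real.exp (21 / 50 * (i * Real.log 2)) := by
      rw [← Real.exp_nat_mul]; congr 1; ring
    rw [e1]
    field_simp
  refine (sum_le_sum h2).trans ?_
  rw [← mul_sum]
  have h3 : ∑ i ∈ range I, rat ^ i ≤ 1 / (1 - rat) := by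
    rw [geom_sum_eq rat_lt_one.ne]
    have h4 : 0 < 1 - rat := by linarith [rat_lt_one]
    have h5 : (rat ^ I - 1) / (rat - 1) = (1 - rat ^ I) / (1 - rat) := by
      rw [← neg_sub (1 : ℝ) (rat ^ I), ← neg_sub (1 : ℝ) rat, neg_div_neg_eq]
    rw [h5]
    apply div_le_div_of_nonneg_right _ h4.le
    have := pow_pos rat_pos I
    linarith
  calc (C / Real.sqrt C2 * (Real.log x / Real.log z)) * ∑ i ∈ range I, rat ^ i
      ≤ (C / Real.sqrt C2 * (Real.log x / Real.log z)) * (1 / (1 - rat)) := by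
        apply mul_le_mul_of_nonneg_left h3 (by positivity)
    _ = _ := by
        have : (1 - rat) ≠ 0 := by linarith [rat_lt_one]
        field_simp

/-- non-squarefree mass -/
theorem nonsq_mass : ∃ C : ℝ, 0 < C ∧ ∀ z M x : ℕ, 2 ≤ z → z ≤ x →
    ∑ n ∈ (Ioc M x).filter (fun n => Nat.Coprime n (WZ z) ∧ ¬ Squarefree n), (1 : ℝ) / n
      ≤ C / z * (Real.log x / Real.log z) := by
  obtain ⟨C, hC, h⟩ := mass_SQ
  refine ⟨C, hC, fun z M x hz hzx => ?_⟩
  have hz' : (0 : ℝ) < z := by exact_mod_cast (by omega : 0 < z)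
  set S := (Ioc M x).filter (fun n => Nat.Coprime n (WZ z) ∧ ¬ Squarefree n) with hS
  have h1 : ∀ n ∈ S, ∃ p : ℕ × ℕ, p.1 ∈ Ioc z x ∧ p.2 ∈ SQ z 0 x ∧ p.1 ^ 2 * p.2 = n := by
    intro n hn
    simp only [hS, mem_filter, mem_Ioc] at hn
    obtain ⟨a, b, hab, hsq⟩ := Nat.sq_mul_squarefree n
    have hn0 : 0 < n := by omega
    have hb0 : 0 < b := by
      rcases Nat.eq_zero_or_pos b with h | h
      · subst h; simp at hab; omega
      · exact h
    have ha0 : 0 < a := by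
      rcases Nat.eq_zero_or_pos a with h | h
      · subst h; simp at hab; omega
      · exact h
    have hbn : b ∣ n := by rw [← hab]; exact dvd_mul_of_dvd_left (dvd_pow_self b (by norm_num)) a
    have han : a ∣ n := by rw [← hab]; exact dvd_mul_left a _
    have hb1 : b ≠ 1 := by
      rintro rfl
      rw [one_pow, one_mul] at hab
      exact hn.2.2 (hab ▸ hsq)
    refine ⟨(b, a), ?_, ?_, hab⟩
    · simp only [mem_Ioc]
      obtain ⟨p, hp, hpb⟩ := Nat.exists_prime_and_dvd hb1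
      have h2 := rough_prime_gt hn.2.1 hp (hpb.trans hbn)
      exact ⟨lt_of_lt_of_le h2 (Nat.le_of_dvd hb0 hpb), (Nat.le_of_dvd hn0 hbn).trans hn.1.2⟩
    · simp only [SQ, mem_filter, mem_Ioc]
      exact ⟨⟨ha0, (Nat.le_of_dvd hn0 han).trans hn.1.2⟩, hsq, Nat.Coprime.coprime_dvd_left han hn.2.1⟩
  choose! g hg1 hg2 hg3 using h1
  have hinj : Set.InjOn g (S : Set ℕ) := by
    intro n hn m hm h2
    rw [← hg3 n hn, ← hg3 m hm, h2]
  calc ∑ n ∈ S, (1 : ℝ) / n = ∑ n ∈ S, (1 : ℝ) / (((g n).1 : ℝ) ^ 2 * (g n).2) := by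
        refine sum_congr rfl fun n hn => ?_
        congr 1
        exact_mod_cast (hg3 n hn).symm
    _ = ∑ p ∈ S.image g, (1 : ℝ) / ((p.1 : ℝ) ^ 2 * p.2) := by rw [sum_image hinj]
    _ ≤ ∑ p ∈ Ioc z x ×ˢ SQ z 0 x, (1 : ℝ) / ((p.1 : ℝ) ^ 2 * p.2) := by
        apply sum_le_sum_of_subset_of_nonneg
        · intro p hp
          rw [mem_image] at hp
          obtain ⟨n, hn, rfl⟩ := hp
          rw [mem_product]
          exact ⟨hg1 n hn, hg2 n hn⟩
        · intro _ _ _; positivity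
    _ = (∑ b ∈ Ioc z x, (1 : ℝ) / (b : ℝ) ^ 2) * ∑ a ∈ SQ z 0 x, (1 : ℝ) / a := by
        rw [sum_mul_sum, sum_product]
        refine sum_congr rfl fun b _ => sum_congr rfl fun a _ => ?_
        rw [div_mul_div_comm, one_mul]
    _ ≤ (1 / z) * (C * (Real.log x / Real.log z)) := by
        apply mul_le_mul (inv_sq_tail_le z x (by omega)) (h z 0 x hz hzx) (sum_nonneg fun _ _ => by positivity) (by positivity)
    _ = _ := by ring

end Pool.Agent.E456
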