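import Mathlib
import Pool.Agent.E456.SecondMoment
import Pool.Agent.E456.SqProd

/-!
# Sieve bound for `a k + 1` prime with weights `2^{-ω}`
-/

namespace Pool.Agent.E456

open Finset Filter

noncomputable def x3 (z Y k l n : ℕ) : ℝ :=
  if l ∣ n * k + 1 ∨ (l ≤ z ∧ l ∣ n) then 1 else if l ∣ n ∧ l ≤ Y then 1 / 2 else 0

lemma x3_bounds (z Y k l n : ℕ) : 0 ≤ x3 z Y k l n ∧ x3 z Y k l n ≤ 1 := by
  unfold x3; split_ifs <;> norm_num

lemma x3_per (z Y k l n : ℕ) : x3 z Y k l (n + l) = x3 z Y k l n := by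
  unfold x3
  have h1 : l ∣ n + l ↔ l ∣ n := by simp
  simp only [h1, dvd_shift]

lemma x3_sum_le (z Y k l : ℕ) (hl : 2 ≤ l) : ∑ n ∈ range l, x3 z Y k l n ≤ 3 := by
  have h1 : ∀ n ∈ range l, x3 z Y k l n ≤ x0 l n + rt l k n := by
    intro n _
    unfold x3 x0 rt
    by_cases h1 : l ≤ z <;> by_cases h2 : l ∣ n <;> by_cases h3 : l ∣ n * k + 1 <;>
      by_cases h4 : l ≤ Y <;> simp [h1, h2, h3, h4] <;> norm_num
  refine (sum_le_sum h1).trans ?_
  rw [sum_add_distrib, x0_sum l (by omega)]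
  linarith [rt_sum_le l k]

lemma x3_sum_ge (z Y k l : ℕ) (hl : l.Prime) (hzY : z ≤ Y) :
    1 + lz z l / 2 + lz Y l / 2 - 2 * dv l k ≤ ∑ n ∈ range l, x3 z Y k l n := by
  have hnn : 0 ≤ ∑ n ∈ range l, x3 z Y k l n := sum_nonneg fun n _ => (x3_bounds z Y k l n).1
  have hz := (lz_bounds z l).2
  have hY := (lz_bounds Y l).2
  by_cases h : l ∣ k
  · have : dv l k = 1 := by unfold dv; rw [if_pos h]
    linarith
  · have e1 : dv l k = 0 := by unfold dv; rw [if_neg h]
    have h4 : ∀ n ∈ range l, (lz z l / 2 + lz Y l / 2) * x0 l n + rt l k n ≤ x3 z Y k l n := by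
      intro n _
      have hn1 : l ∣ n → ¬ l ∣ n * k + 1 := by
        intro ha hb
        have := (Nat.dvd_add_right (dvd_mul_of_dvd_left ha k)).mp hb
        exact hl.one_lt.ne' (Nat.dvd_one.mp this)
      unfold x3 x0 rt lz
      by_cases g2 : l ∣ n
      · have g3 := hn1 g2
        by_cases g1 : l ≤ z
        · have g4 : l ≤ Y := g1.trans hzY
          simp [g1, g2, g3, g4]
          norm_num
        · by_cases g4 : l ≤ Y <;> simp [g1, g2, g3, g4]
      · by_cases g3 : l ∣ n * k + 1 <;> simp [g2, g3]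
    refine le_trans (le_of_eq ?_) (sum_le_sum h4)
    rw [sum_add_distrib, ← mul_sum, x0_sum l hl.pos, rt_sum_eq l k hl h, e1]
    ring

lemma pr_lz' (J z : ℕ) (hz : 6 ≤ z) : ∑ l ∈ pr 6 J, lz z l / l = S1 (min z (YY J)) - S1 6 := by
  have hY := YY_ge J
  rw [S1_sub 6 (min z (YY J)) (le_min hz hY)]
  unfold lz
  have h1 : ∀ l ∈ pr 6 J, (if l ≤ z then (1 : ℝ) else 0) / l = if l ≤ z then (1 : ℝ) / l else 0 := by
    intro l _; split_ifs <;> simp
  rw [sum_congr rfl h1, ← sum_filter]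
  congr 1
  ext l
  simp only [pr, mem_filter, mem_Ioc, le_min_iff, YY]
  tauto

lemma log_min_ge (z J : ℕ) (t : ℝ) (h1 : t ≤ Real.log z) (h2 : t ≤ Real.log (YY J)) :
    t ≤ Real.log ((min z (YY J) : ℕ) : ℝ) := by
  rcases le_total z (YY J) with h | h
  · rw [min_eq_left h]; exact h1
  · rw [min_eq_right h]; exact h2

/-- the weighted sieve bound -/
theorem A3 : ∃ K : ℝ, 0 < K ∧ ∀ z A Y k : ℕ, 6 ^ 12 ≤ z → z ≤ A → z ≤ Y → 0 < k →
    ∑ a ∈ (Ioc A (A ^ 2)).filter (fun a => Nat.Coprime a (WZ z) ∧ (a * k + 1).Prime), (1 / 2 : ℝ) ^ om Y a / a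
      ≤ K * Real.exp (2 * hh k) / Real.sqrt (Real.log z * min (Real.log Y) (Real.log A)) := by
  obtain ⟨K, hK, hs⟩ := sieve_upper_one
  obtain ⟨C, hC, hm⟩ := mertens2
  refine ⟨K * Real.exp (2 * C + 2 * S1 6) * 24 * 24, by positivity, fun z A Y k hz hzA hzY hk => ?_⟩
  have hA12 : 6 ^ 12 ≤ A := hz.trans hzA
  obtain ⟨J, hJ1, hJ2⟩ := exists_J A hA12
  have hYJ := YY_ge J
  have hYM' : YY J ≤ A := le_trans (Nat.le_self_pow (by norm_num) _) hJ1
  have hA0 : 0 < A := by omega
  have hMN : 3 * A ≤ A ^ 2 := by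
    rw [sq]; exact Nat.mul_le_mul_right A (by omega)
  have h1 := hs J A (A ^ 2) hJ1 hMN (x3 z Y k) (x3_bounds z Y k) (x3_per z Y k) (x3_sum_le z Y k)
  have h2 : ∑ a ∈ (Ioc A (A ^ 2)).filter (fun a => Nat.Coprime a (WZ z) ∧ (a * k + 1).Prime), (1 / 2 : ℝ) ^ om Y a / a
      ≤ ∑ n ∈ Ioc A (A ^ 2), (∏ l ∈ pr 6 J, (1 - x3 z Y k l n)) / n := by
    rw [sum_filter]
    refine sum_le_sum fun n hn => ?_
    rw [mem_Ioc] at hn
    have hnn : 0 ≤ ∏ l ∈ pr 6 J, (1 - x3 z Y k l n) :=
      prod_nonneg fun l _ => by linarith [(x3_bounds z Y k l n).2]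
    split_ifs with h
    · apply div_le_div_of_nonneg_right _ (by positivity)
      have h3 : ∀ l ∈ pr 6 J, 1 - x3 z Y k l n = if l ∣ n ∧ l ≤ Y then (1 / 2 : ℝ) else 1 := by
        intro l hl
        simp only [pr, mem_filter, mem_Ioc] at hl
        have hlY : l ≤ YY J := hl.1.2
        unfold x3
        rw [if_neg]
        · split_ifs <;> norm_num
        rintro (h4 | ⟨h4, h5⟩)
        · have := (Nat.prime_dvd_prime_iff_eq hl.2 h.2).mp h4
          have h6 : n ≤ n * k := Nat.le_mul_of_pos_right n hk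
          omega
        · have := rough_prime_gt h.1 hl.2 h5
          omega
      rw [prod_congr rfl h3, prod_ite]
      simp only [prod_const, one_pow, mul_one]
      apply pow_le_pow_of_le_one (by norm_num) (by norm_num)
      unfold om
      apply card_le_card
      intro l hl
      simp only [mem_filter, pr] at hl
      simp only [mem_filter, Nat.mem_primeFactors]
      exact ⟨⟨hl.1.2, hl.2.1, by omega⟩, hl.2.2⟩
    · exact div_nonneg hnn (by positivity)
  refine h2.trans (h1.trans ?_)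
  have hlz : 0 < Real.log z := Real.log_pos (by exact_mod_cast (by omega : 1 < z))
  have hlA : 0 < Real.log A := Real.log_pos (by exact_mod_cast (by omega : 1 < A))
  have hlYY : 0 < Real.log Y := Real.log_pos (by exact_mod_cast (by omega : 1 < Y))
  have hlzA : Real.log z ≤ Real.log A := Real.log_le_log (by exact_mod_cast (by omega : 0 < z)) (by exact_mod_cast hzA)
  have hlY := log_YY_ge A J (by omega) hJ2
  have hlNM : Real.log (((A ^ 2 : ℕ) : ℝ) / A) = Real.log A := by
    congr 1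
    have : (A : ℝ) ≠ 0 := by exact_mod_cast hA0.ne'
    push_cast
    field_simp
  rw [hlNM]
  set u : ℝ := Real.log ((min z (YY J) : ℕ) : ℝ) with hu
  set v : ℝ := Real.log ((min Y (YY J) : ℕ) : ℝ) with hv
  have hu1 : Real.log z / 24 ≤ u := log_min_ge z J _ (by linarith) (by linarith)
  have hv1 : min (Real.log Y) (Real.log A) / 24 ≤ v := by
    apply log_min_ge Y J
    · have := min_le_left (Real.log Y) (Real.log A)
      linarith
    · have := min_le_right (Real.log Y) (Real.log A)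
      linarith
  have hmin : 0 < min (Real.log Y) (Real.log A) := lt_min hlYY hlA
  have hu0 : 0 < u := by linarith
  have hv0 : 0 < v := by linarith
  have hlYJ : 0 < Real.log (YY J) := by linarith
  have h3 : Real.log (Real.log (YY J)) + Real.log u / 2 + Real.log v / 2 - (2 * C + 2 * S1 6)
      - 2 * hh k ≤ ∑ l ∈ pr 6 J, (∑ n ∈ range l, x3 z Y k l n) / l := by
    have h4 : ∀ l ∈ pr 6 J, ((1 : ℝ) / l) + (1 / 2) * (lz z l / l) + (1 / 2) * (lz Y l / l) - 2 * (dv l k / l)
        ≤ (∑ n ∈ range l, x3 z Y k l n) / l := by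
      intro l hl
      simp only [pr, mem_filter] at hl
      have h5 := x3_sum_ge z Y k l hl.2 hzY
      have hl0 : (0 : ℝ) < l := by exact_mod_cast hl.2.pos
      rw [le_div_iff₀ hl0]
      refine le_trans (le_of_eq ?_) h5
      field_simp
    refine le_trans ?_ (sum_le_sum h4)
    rw [sum_sub_distrib, sum_add_distrib, sum_add_distrib, ← mul_sum, ← mul_sum, ← mul_sum,
      pr_lz' J z (by omega), pr_lz' J Y (by omega)]
    have h5 := pr_sum_lower C hm J
    have h6 := (abs_le.mp (hm (min z (YY J)) (by omega))).1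
    have h7 := (abs_le.mp (hm (min Y (YY J)) (by omega))).1
    have h8 := pr_dv_le J k (by omega)
    rw [← hu] at h6
    rw [← hv] at h7
    linarith
  have hexp : Real.exp (-∑ l ∈ pr 6 J, (∑ n ∈ range l, x3 z Y k l n) / l)
      ≤ Real.exp (2 * C + 2 * S1 6) * Real.exp (2 * hh k) / (Real.log (YY J) * Real.sqrt (u * v)) := by
    calc _ ≤ Real.exp (-(Real.log (Real.log (YY J)) + Real.log u / 2 + Real.log v / 2 - (2 * C + 2 * S1 6)
        - 2 * hh k)) := Real.exp_le_exp.mpr (by linarith)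
      _ = _ := by
        have e1 : -(Real.log (Real.log (YY J)) + Real.log u / 2 + Real.log v / 2 - (2 * C + 2 * S1 6)
          - 2 * hh k) = ((2 * C + 2 * S1 6) + 2 * hh k) - (Real.log (Real.log (YY J)) + Real.log (Real.sqrt (u * v))) := by
          rw [Real.log_sqrt (by positivity), Real.log_mul hu0.ne' hv0.ne']
          ring
        rw [e1, Real.exp_sub, Real.exp_add (2 * C + 2 * S1 6), Real.exp_add (Real.log (Real.log (YY J))),
          Real.exp_log hlYJ, Real.exp_log (Real.sqrt_pos.mpr (by positivity))]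
  have hsq : Real.sqrt (Real.log z * min (Real.log Y) (Real.log A)) / 24 ≤ Real.sqrt (u * v) := by
    apply Real.le_sqrt_of_sq_le
    rw [div_pow, Real.sq_sqrt (by positivity)]
    calc Real.log z * min (Real.log Y) (Real.log A) / 24 ^ 2
        = (Real.log z / 24) * (min (Real.log Y) (Real.log A) / 24) := by ring
      _ ≤ u * v := by gcongr
  have hsq0 : 0 < Real.sqrt (Real.log z * min (Real.log Y) (Real.log A)) := Real.sqrt_pos.mpr (by positivity)
  calc K * Real.log A * Real.exp (-∑ l ∈ pr 6 J, (∑ n ∈ range l, x3 z Y k l n) / l)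
      ≤ K * Real.log A * (Real.exp (2 * C + 2 * S1 6) * Real.exp (2 * hh k) / (Real.log (YY J) * Real.sqrt (u * v))) := by
        apply mul_le_mul_of_nonneg_left hexp (by positivity)
    _ ≤ K * Real.log A * (Real.exp (2 * C + 2 * S1 6) * Real.exp (2 * hh k) /
          ((Real.log A / 24) * (Real.sqrt (Real.log z * min (Real.log Y) (Real.log A)) / 24))) := by
        gcongr
    _ = _ := by
        field_simp

end Pool.Agent.E456
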