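import Mathlib
import Pool.Agent.E456.SieveA3

/-!
# Summation over scales
-/

namespace Pool.Agent.E456

open Finset Filter

lemma block_split (z : ℕ) (hz : 1 ≤ z) (J : ℕ) (F : ℕ → ℝ) (P : ℕ → Prop) [DecidablePred P] :
    ∑ n ∈ (Ioc z (z ^ (2 ^ J))).filter P, F n
      = ∑ j ∈ range J, ∑ n ∈ (Ioc (z ^ (2 ^ j)) (z ^ (2 ^ (j + 1)))).filter P, F n := by
  induction J with
  | zero => simp
  | succ J ih =>
    rw [sum_range_succ, ← ih]
    have h1 : z ≤ z ^ (2 ^ J) := Nat.le_self_pow (by positivity) z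
    have h2 : z ^ (2 ^ J) ≤ z ^ (2 ^ (J + 1)) := u_mono z hz (Nat.le_succ J)
    rw [← Ioc_union_Ioc_eq_Ioc h1 h2, filter_union, sum_union]
    rw [Finset.disjoint_left]; intro x hx hx'; simp only [mem_filter, mem_Ioc] at hx hx'; omega

/-- `√2` -/
noncomputable def r2 : ℝ := Real.sqrt 2

lemma r2_sq : r2 ^ 2 = 2 := Real.sq_sqrt (by norm_num)

lemma r2_ge : (7 / 5 : ℝ) ≤ r2 := by
  apply Real.le_sqrt_of_sq_le; norm_num

lemma r2_le : r2 ≤ 3 / 2 := by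
  unfold r2
  rw [Real.sqrt_le_left (by norm_num)]
  norm_num

lemma r2_pos : 0 < r2 := by linarith [r2_ge]

lemma sqrt_two_pow (j : ℕ) : Real.sqrt (2 ^ j) = r2 ^ j := sqrt_pow_eq 2 (by norm_num) j

lemma r2_pow_sq (j : ℕ) : r2 ^ j * r2 ^ j = 2 ^ j := by
  rw [← mul_pow, ← sq, r2_sq]

lemma sum_r2_le (J : ℕ) : ∑ j ∈ range J, r2 ^ j ≤ 3 * r2 ^ J := by
  induction J with
  | zero => simp
  | succ J ih =>
    rw [sum_range_succ, pow_succ]
    have h1 := r2_ge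
    have h2 := pow_pos r2_pos J
    nlinarith

lemma sum_two_le (J : ℕ) : ∑ j ∈ range J, (2 : ℝ) ^ j ≤ 2 ^ J := by
  induction J with
  | zero => simp
  | succ J ih =>
    rw [sum_range_succ, pow_succ]
    linarith

lemma sum_inv_r2_le (J : ℕ) : ∑ j ∈ range J, 1 / r2 ^ j ≤ 4 := by
  have h : ∑ j ∈ range J, 1 / r2 ^ j ≤ 4 - 4 * (1 / r2 ^ J) := by
    induction J with
    | zero => simp
    | succ J ih =>
      rw [sum_range_succ]
      have h2 : 0 < 1 / r2 ^ J := by have := pow_pos r2_pos J; positivity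
      have h3 : 1 / r2 ^ (J + 1) = (1 / r2 ^ J) * (1 / r2) := by
        rw [pow_succ, div_mul_div_comm, one_mul]
      have h4 : 1 / r2 ≤ 5 / 7 := by
        rw [div_le_div_iff₀ r2_pos (by norm_num)]; linarith [r2_ge]
      have h5 : (1 / r2 ^ J) * (1 / r2) ≤ (1 / r2 ^ J) * (5 / 7) := mul_le_mul_of_nonneg_left h4 h2.le
      rw [h3]
      linarith
  have : 0 < 1 / r2 ^ J := by have := pow_pos r2_pos J; positivity
  linarith

lemma exists_scale (z x : ℕ) (hz : 2 ≤ z) (hx : z < x) : ∃ J : ℕ, z ^ (2 ^ J) < x ∧ x ≤ z ^ (2 ^ (J + 1)) := by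
  have hex : ∃ J, x ≤ z ^ (2 ^ (J + 1)) := by
    refine ⟨x, ?_⟩
    have h1 : x < 2 ^ x := Nat.lt_two_pow_self
    have h2 : 2 ^ x < z ^ (2 ^ x) := by
      calc 2 ^ x < 2 ^ (2 ^ x) := Nat.pow_lt_pow_right (by norm_num) h1
        _ ≤ z ^ (2 ^ x) := Nat.pow_le_pow_left hz _
    have h3 : z ^ (2 ^ x) ≤ z ^ (2 ^ (x + 1)) := u_mono z (by omega) (Nat.le_succ x)
    omega
  refine ⟨Nat.find hex, ?_, Nat.find_spec hex⟩
  rcases Nat.eq_zero_or_pos (Nat.find hex) with h0 | h0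
  · rw [h0]; simpa using hx
  · have h1 := Nat.find_min hex (Nat.sub_lt h0 one_pos)
    push Not at h1
    have e : Nat.find hex - 1 + 1 = Nat.find hex := by omega
    rw [e] at h1
    exact h1

lemma inv_sqrt_min (a b : ℝ) (ha : 0 < a) (hb : 0 < b) : 1 / Real.sqrt (min a b) ≤ 1 / Real.sqrt a + 1 / Real.sqrt b := by
  have h1 : 0 < 1 / Real.sqrt a := by have := Real.sqrt_pos.mpr ha; positivity
  have h2 : 0 < 1 / Real.sqrt b := by have := Real.sqrt_pos.mpr hb; positivity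
  rcases le_total a b with h | h
  · rw [min_eq_left h]; linarith
  · rw [min_eq_right h]; linarith

/-- one scale -/
lemma A3_scale : ∃ K : ℝ, 0 < K ∧ ∀ z i j k : ℕ, 6 ^ 12 ≤ z → 0 < k →
    ∑ a ∈ (Ioc (z ^ (2 ^ j)) (z ^ (2 ^ (j + 1)))).filter (fun a => Nat.Coprime a (WZ z) ∧ (a * k + 1).Prime),
      (1 / 2 : ℝ) ^ om (z ^ (2 ^ i)) a / a
      ≤ K * Real.exp (2 * hh k) / Real.log z * (1 / r2 ^ i + 1 / r2 ^ j) := by
  obtain ⟨K, hK, h⟩ := A3
  refine ⟨K, hK, fun z i j k hz hk => ?_⟩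
  have hz2 : 2 ≤ z := by omega
  have hlz : 0 < Real.log z := Real.log_pos (by exact_mod_cast (by omega : 1 < z))
  have hA : z ≤ z ^ (2 ^ j) := Nat.le_self_pow (by positivity) z
  have hY : z ≤ z ^ (2 ^ i) := Nat.le_self_pow (by positivity) z
  have h1 := h z (z ^ (2 ^ j)) (z ^ (2 ^ i)) k hz hA hY hk
  have e1 : (z ^ (2 ^ j)) ^ 2 = z ^ (2 ^ (j + 1)) := by rw [← pow_mul, pow_succ]
  rw [e1] at h1
  refine h1.trans ?_
  have e2 : ∀ i : ℕ, Real.log ((z ^ (2 ^ i) : ℕ) : ℝ) = 2 ^ i * Real.log z := by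
    intro i
    push_cast
    rw [Real.log_pow]
    push_cast
    ring
  rw [e2, e2, ← min_mul_of_nonneg _ _ hlz.le]
  have e3 : Real.log z * (min (2 ^ i) (2 ^ j) * Real.log z) = (Real.log z) ^ 2 * min (2 ^ i) (2 ^ j) := by ring
  rw [e3, Real.sqrt_mul (by positivity), Real.sqrt_sq hlz.le]
  have h3 := inv_sqrt_min ((2 : ℝ) ^ i) (2 ^ j) (by positivity) (by positivity)
  rw [sqrt_two_pow, sqrt_two_pow] at h3
  calc K * Real.exp (2 * hh k) / (Real.log z * Real.sqrt (min (2 ^ i) (2 ^ j)))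
      = K * Real.exp (2 * hh k) / Real.log z * (1 / Real.sqrt (min (2 ^ i) (2 ^ j))) := by
        rw [div_mul_div_comm, mul_one]
    _ ≤ _ := by gcongr

lemma log_block (z j a : ℕ) (ha : a ≤ z ^ (2 ^ (j + 1))) (ha0 : 0 < a) :
    Real.log a ≤ 2 * 2 ^ j * Real.log z := by
  have h1 : (a : ℝ) ≤ (z : ℝ) ^ (2 ^ (j + 1)) := by exact_mod_cast ha
  have h2 := Real.log_le_log (by exact_mod_cast ha0) h1
  rw [Real.log_pow] at h2
  push_cast at h2
  rw [pow_succ] at h2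
  linarith

/-- one scale, with logarithm -/
lemma A3_scale_log : ∃ K : ℝ, 0 < K ∧ ∀ z i j k : ℕ, 6 ^ 12 ≤ z → 0 < k →
    ∑ a ∈ (Ioc (z ^ (2 ^ j)) (z ^ (2 ^ (j + 1)))).filter (fun a => Nat.Coprime a (WZ z) ∧ (a * k + 1).Prime),
      Real.log a * ((1 / 2 : ℝ) ^ om (z ^ (2 ^ i)) a / a)
      ≤ K * Real.exp (2 * hh k) * (2 ^ j / r2 ^ i + r2 ^ j) := by
  obtain ⟨K, hK, h⟩ := A3_scale
  refine ⟨2 * K, by positivity, fun z i j k hz hk => ?_⟩
  have hlz : 0 < Real.log z := Real.log_pos (by exact_mod_cast (by omega : 1 < z))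
  have h1 := h z i j k hz hk
  have hr := pow_pos r2_pos j
  calc _ ≤ ∑ a ∈ (Ioc (z ^ (2 ^ j)) (z ^ (2 ^ (j + 1)))).filter (fun a => Nat.Coprime a (WZ z) ∧ (a * k + 1).Prime),
      (2 * 2 ^ j * Real.log z) * ((1 / 2 : ℝ) ^ om (z ^ (2 ^ i)) a / a) := by
        refine sum_le_sum fun a ha => ?_
        simp only [mem_filter, mem_Ioc] at ha
        apply mul_le_mul_of_nonneg_right (log_block z j a ha.1.2 (by omega)) (by positivity)
    _ = (2 * 2 ^ j * Real.log z) * ∑ a ∈ (Ioc (z ^ (2 ^ j)) (z ^ (2 ^ (j + 1)))).filter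
          (fun a => Nat.Coprime a (WZ z) ∧ (a * k + 1).Prime), ((1 / 2 : ℝ) ^ om (z ^ (2 ^ i)) a / a) := by
        rw [mul_sum]
    _ ≤ (2 * 2 ^ j * Real.log z) * (K * Real.exp (2 * hh k) / Real.log z * (1 / r2 ^ i + 1 / r2 ^ j)) := by
        apply mul_le_mul_of_nonneg_left h1 (by positivity)
    _ = _ := by
        have e : (2 : ℝ) ^ j * (1 / r2 ^ j) = r2 ^ j := by
          rw [← r2_pow_sq j]; field_simp
        have e2 : (2 * 2 ^ j * Real.log z) * (K * Real.exp (2 * hh k) / Real.log z * (1 / r2 ^ i + 1 / r2 ^ j))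
            = 2 * K * Real.exp (2 * hh k) * (2 ^ j / r2 ^ i + 2 ^ j * (1 / r2 ^ j)) := by
          have := hlz.ne'
          field_simp
        rw [e2, e]

/-- inner sum over `a` -/
theorem inner_sum : ∃ K : ℝ, 0 < K ∧ ∀ z i x k : ℕ, 6 ^ 12 ≤ z → z ^ (2 ^ i) < x → 0 < k →
    ∑ a ∈ (Ioc z x).filter (fun a => Nat.Coprime a (WZ z) ∧ (a * k + 1).Prime),
      Real.log a * ((1 / 2 : ℝ) ^ om (z ^ (2 ^ (i + 1))) a / a)
      ≤ K * Real.exp (2 * hh k) * (Real.log x / Real.log z) / r2 ^ i := by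
  obtain ⟨K, hK, h⟩ := A3_scale_log
  refine ⟨8 * K, by positivity, fun z i x k hz hix hk => ?_⟩
  have hz2 : 2 ≤ z := by omega
  have hlz : 0 < Real.log z := Real.log_pos (by exact_mod_cast (by omega : 1 < z))
  have hzx : z < x := lt_of_le_of_lt (Nat.le_self_pow (by positivity) z) hix
  obtain ⟨J, hJ1, hJ2⟩ := exists_scale z x hz2 hzx
  have hiJ : i ≤ J := by
    by_contra hlt
    push Not at hlt
    have h1 : z ^ (2 ^ (J + 1)) ≤ z ^ (2 ^ i) := u_mono z (by omega) hlt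
    omega
  have h1 : ∑ a ∈ (Ioc z x).filter (fun a => Nat.Coprime a (WZ z) ∧ (a * k + 1).Prime),
      Real.log a * ((1 / 2 : ℝ) ^ om (z ^ (2 ^ (i + 1))) a / a)
      ≤ ∑ a ∈ (Ioc z (z ^ (2 ^ (J + 1)))).filter (fun a => Nat.Coprime a (WZ z) ∧ (a * k + 1).Prime),
      Real.log a * ((1 / 2 : ℝ) ^ om (z ^ (2 ^ (i + 1))) a / a) := by
    apply sum_le_sum_of_subset_of_nonneg
    · intro a ha; simp only [mem_filter, mem_Ioc] at ha ⊢; exact ⟨⟨ha.1.1, ha.1.2.trans hJ2⟩, ha.2⟩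
    · intro a _ _
      exact mul_nonneg (Real.log_natCast_nonneg a) (by positivity)
  refine h1.trans ?_
  rw [block_split z (by omega)]
  have h2 : ∀ j ∈ range (J + 1), ∑ a ∈ (Ioc (z ^ (2 ^ j)) (z ^ (2 ^ (j + 1)))).filter
      (fun a => Nat.Coprime a (WZ z) ∧ (a * k + 1).Prime),
      Real.log a * ((1 / 2 : ℝ) ^ om (z ^ (2 ^ (i + 1))) a / a)
      ≤ K * Real.exp (2 * hh k) * (2 ^ j / r2 ^ (i + 1) + r2 ^ j) := fun j _ => h z (i + 1) j k hz hk
  refine (sum_le_sum h2).trans ?_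
  rw [← mul_sum, sum_add_distrib, ← sum_div]
  have h3 := sum_two_le (J + 1)
  have h4 := sum_r2_le (J + 1)
  have hri := pow_pos r2_pos i
  have hrJ := pow_pos r2_pos J
  have h5 : (∑ j ∈ range (J + 1), (2 : ℝ) ^ j) / r2 ^ (i + 1) ≤ 2 * 2 ^ J / r2 ^ i := by
    calc (∑ j ∈ range (J + 1), (2 : ℝ) ^ j) / r2 ^ (i + 1) ≤ 2 ^ (J + 1) / r2 ^ (i + 1) := by
          have := pow_pos r2_pos (i + 1)
          gcongr
      _ ≤ 2 ^ (J + 1) / r2 ^ i := by
          apply div_le_div_of_nonneg_left (by positivity) hri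
          apply pow_le_pow_right₀ (by linarith [r2_ge]) (Nat.le_succ i)
      _ = _ := by rw [pow_succ]; ring
  have h6 : ∑ j ∈ range (J + 1), r2 ^ j ≤ 6 * 2 ^ J / r2 ^ i := by
    calc ∑ j ∈ range (J + 1), r2 ^ j ≤ 3 * r2 ^ (J + 1) := h4
      _ ≤ 6 * r2 ^ J := by rw [pow_succ]; nlinarith [r2_le]
      _ = 6 * 2 ^ J / r2 ^ J := by
          rw [← r2_pow_sq J]; field_simp
      _ ≤ 6 * 2 ^ J / r2 ^ i := by
          apply div_le_div_of_nonneg_left (by positivity) hri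
          apply pow_le_pow_right₀ (by linarith [r2_ge]) hiJ
  have h7 : (2 : ℝ) ^ J ≤ Real.log x / Real.log z := by
    rw [← log_zpow z J hz2]
    apply div_le_div_of_nonneg_right _ hlz.le
    exact Real.log_le_log (by exact_mod_cast (by positivity)) (by exact_mod_cast hJ1.le)
  calc K * Real.exp (2 * hh k) * ((∑ j ∈ range (J + 1), (2 : ℝ) ^ j) / r2 ^ (i + 1) + ∑ j ∈ range (J + 1), r2 ^ j)
      ≤ K * Real.exp (2 * hh k) * (2 * 2 ^ J / r2 ^ i + 6 * 2 ^ J / r2 ^ i) := by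
        apply mul_le_mul_of_nonneg_left (add_le_add h5 h6) (by positivity)
    _ = 8 * K * Real.exp (2 * hh k) * 2 ^ J / r2 ^ i := by ring
    _ ≤ _ := by gcongr

lemma om_eq_card (Y a : ℕ) (ha : a ≤ Y) : om Y a = a.primeFactors.card := by
  unfold om
  congr 1
  apply filter_true_of_mem
  intro l hl
  exact (Nat.le_of_mem_primeFactors hl).trans ha

/-- small sum without logarithm -/
theorem small_sum : ∃ K : ℝ, 0 < K ∧ ∀ z I k : ℕ, 6 ^ 12 ≤ z → 0 < k →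
    ∑ a ∈ (Ioc z (z ^ (2 ^ I))).filter (fun a => Nat.Coprime a (WZ z) ∧ (a * k + 1).Prime),
      ((1 / 2 : ℝ) ^ a.primeFactors.card / a)
      ≤ K * Real.exp (2 * hh k) / Real.log z := by
  obtain ⟨K, hK, h⟩ := A3_scale
  refine ⟨8 * K, by positivity, fun z I k hz hk => ?_⟩
  have hlz : 0 < Real.log z := Real.log_pos (by exact_mod_cast (by omega : 1 < z))
  rw [block_split z (by omega)]
  have h2 : ∀ j ∈ range I, ∑ a ∈ (Ioc (z ^ (2 ^ j)) (z ^ (2 ^ (j + 1)))).filter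
      (fun a => Nat.Coprime a (WZ z) ∧ (a * k + 1).Prime),
      ((1 / 2 : ℝ) ^ a.primeFactors.card / a)
      ≤ K * Real.exp (2 * hh k) / Real.log z * (2 * (1 / r2 ^ j)) := by
    intro j _
    have h3 := h z (j + 1) j k hz hk
    have h4 : ∑ a ∈ (Ioc (z ^ (2 ^ j)) (z ^ (2 ^ (j + 1)))).filter
      (fun a => Nat.Coprime a (WZ z) ∧ (a * k + 1).Prime), ((1 / 2 : ℝ) ^ a.primeFactors.card / a)
      = ∑ a ∈ (Ioc (z ^ (2 ^ j)) (z ^ (2 ^ (j + 1)))).filter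
      (fun a => Nat.Coprime a (WZ z) ∧ (a * k + 1).Prime), ((1 / 2 : ℝ) ^ om (z ^ (2 ^ (j + 1))) a / a) := by
      refine sum_congr rfl fun a ha => ?_
      simp only [mem_filter, mem_Ioc] at ha
      rw [om_eq_card _ a ha.1.2]
    rw [h4]
    refine h3.trans ?_
    apply mul_le_mul_of_nonneg_left _ (by positivity)
    have h5 : 1 / r2 ^ (j + 1) ≤ 1 / r2 ^ j := by
      apply one_div_le_one_div_of_le (pow_pos r2_pos j)
      apply pow_le_pow_right₀ (by linarith [r2_ge]) (Nat.le_succ j)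
    linarith
  refine (sum_le_sum h2).trans ?_
  rw [← mul_sum, ← mul_sum]
  have h3 := sum_inv_r2_le I
  calc K * Real.exp (2 * hh k) / Real.log z * (2 * ∑ j ∈ range I, 1 / r2 ^ j)
      ≤ K * Real.exp (2 * hh k) / Real.log z * (2 * 4) := by gcongr
    _ = _ := by ring

/-- small sum with logarithm -/
theorem small_log : ∃ K : ℝ, 0 < K ∧ ∀ z I k : ℕ, 6 ^ 12 ≤ z → 0 < k →
    ∑ a ∈ (Ioc z (z ^ (2 ^ I))).filter (fun a => Nat.Coprime a (WZ z) ∧ (a * k + 1).Prime),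
      Real.log a * ((1 / 2 : ℝ) ^ a.primeFactors.card / a)
      ≤ K * Real.exp (2 * hh k) * r2 ^ I := by
  obtain ⟨K, hK, h⟩ := A3_scale_log
  refine ⟨6 * K, by positivity, fun z I k hz hk => ?_⟩
  rw [block_split z (by omega)]
  have h2 : ∀ j ∈ range I, ∑ a ∈ (Ioc (z ^ (2 ^ j)) (z ^ (2 ^ (j + 1)))).filter
      (fun a => Nat.Coprime a (WZ z) ∧ (a * k + 1).Prime),
      Real.log a * ((1 / 2 : ℝ) ^ a.primeFactors.card / a)
      ≤ K * Real.exp (2 * hh k) * (2 * r2 ^ j) := by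
    intro j _
    have h3 := h z (j + 1) j k hz hk
    have h4 : ∑ a ∈ (Ioc (z ^ (2 ^ j)) (z ^ (2 ^ (j + 1)))).filter
      (fun a => Nat.Coprime a (WZ z) ∧ (a * k + 1).Prime), Real.log a * ((1 / 2 : ℝ) ^ a.primeFactors.card / a)
      = ∑ a ∈ (Ioc (z ^ (2 ^ j)) (z ^ (2 ^ (j + 1)))).filter
      (fun a => Nat.Coprime a (WZ z) ∧ (a * k + 1).Prime), Real.log a * ((1 / 2 : ℝ) ^ om (z ^ (2 ^ (j + 1))) a / a) := by
      refine sum_congr rfl fun a ha => ?_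
      simp only [mem_filter, mem_Ioc] at ha
      rw [om_eq_card _ a ha.1.2]
    rw [h4]
    refine h3.trans ?_
    apply mul_le_mul_of_nonneg_left _ (by positivity)
    have hrj := pow_pos r2_pos j
    have h5 : (2 : ℝ) ^ j / r2 ^ (j + 1) ≤ r2 ^ j := by
      rw [div_le_iff₀ (pow_pos r2_pos _), pow_succ, ← mul_assoc, r2_pow_sq]
      have : (0 : ℝ) < 2 ^ j := by positivity
      nlinarith [r2_ge]
    linarith
  refine (sum_le_sum h2).trans ?_
  rw [← mul_sum, ← mul_sum]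
  have h3 := sum_r2_le I
  calc K * Real.exp (2 * hh k) * (2 * ∑ j ∈ range I, r2 ^ j)
      ≤ K * Real.exp (2 * hh k) * (2 * (3 * r2 ^ I)) := by gcongr
    _ = _ := by ring

end Pool.Agent.E456
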