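import Mathlib
import Pool.Agent.E456.Scales

/-!
# The sum over numbers with small `mm`
-/

namespace Pool.Agent.E456

open Finset Filter

lemma powerset_log {α : Type*} [DecidableEq α] (P : Finset α) (f g : α → ℝ) (hf : ∀ x ∈ P, 0 ≤ f x)
    (hg : ∀ x ∈ P, 0 ≤ g x) :
    ∑ S ∈ P.powerset, (∑ x ∈ S, g x) * ∏ x ∈ S, f x ≤ (∑ x ∈ P, g x * f x) * ∏ x ∈ P, (1 + f x) := by
  induction P using Finset.induction_on with
  | empty => simp
  | insert a P ha ih =>
    have ih' := ih (fun x hx => hf x (mem_insert_of_mem hx)) (fun x hx => hg x (mem_insert_of_mem hx))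
    have hfa := hf a (mem_insert_self a P)
    have hga := hg a (mem_insert_self a P)
    rw [sum_powerset_insert ha, sum_insert ha, prod_insert ha]
    have e1 : ∑ S ∈ P.powerset, (∑ x ∈ insert a S, g x) * ∏ x ∈ insert a S, f x
        = f a * ∑ S ∈ P.powerset, (∑ x ∈ S, g x) * ∏ x ∈ S, f x
          + g a * f a * ∏ x ∈ P, (1 + f x) := by
      rw [prod_one_add, mul_sum, mul_sum, ← sum_add_distrib]
      refine sum_congr rfl fun S hS => ?_
      have haS : a ∉ S := fun h => ha (mem_powerset.mp hS h)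
      rw [sum_insert haS, prod_insert haS]
      ring
    rw [e1]
    set A := ∑ S ∈ P.powerset, (∑ x ∈ S, g x) * ∏ x ∈ S, f x with hA
    set B := ∑ x ∈ P, g x * f x with hB
    set D := ∏ x ∈ P, (1 + f x) with hD
    have hD0 : 0 ≤ D := prod_nonneg fun x hx => by linarith [hf x (mem_insert_of_mem hx)]
    have h1 : (1 + f a) * A ≤ (1 + f a) * (B * D) := mul_le_mul_of_nonneg_left ih' (by linarith)
    have h2 : 0 ≤ g a * f a * f a * D := by positivity
    nlinarith

lemma card_pf_prod (T : Finset ℕ) (a : ℕ → ℕ) (h : Squarefree (∏ q ∈ T, a q)) :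
    (∏ q ∈ T, a q).primeFactors.card = ∑ q ∈ T, (a q).primeFactors.card := by
  induction T using Finset.induction_on with
  | empty => simp
  | insert x T hx ih =>
    rw [prod_insert hx] at h ⊢
    have hc : Nat.Coprime (a x) (∏ q ∈ T, a q) := Nat.coprime_of_squarefree_mul h
    have h2 : Squarefree (∏ q ∈ T, a q) := h.squarefree_of_dvd (dvd_mul_left _ _)
    rw [sum_insert hx, hc.primeFactors_mul, card_union_of_disjoint hc.disjoint_primeFactors, ih h2]

/-- admissible pairs -/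
def PP (z I R : ℕ) : Finset (ℕ × ℕ) :=
  ((Ioc z (z ^ (2 ^ I))) ×ˢ (Ioc 0 (R * z ^ (2 ^ I)))).filter (fun p => Nat.Coprime p.1 (WZ z) ∧ p.2.Prime ∧
    ((¬ p.2 ∣ p.1 ∧ p.1 ∣ p.2 - 1 ∧ p.2 ≤ R * p.1) ∨ (p.2 ∣ p.1 ∧ p.1 ∣ p.2 * (p.2 - 1) ∧ p.2 ^ 2 ≤ R * p.1)))

/-- weight of a pair -/
noncomputable def fP (p : ℕ × ℕ) : ℝ := (1 / 2 : ℝ) ^ p.1.primeFactors.card / (p.2 : ℝ) ^ ee p.1 p.2

lemma fP_nonneg (p : ℕ × ℕ) : 0 ≤ fP p := by unfold fP; positivity

/-- set of pairs attached to `n` -/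
lemma pairs_of (z I R n : ℕ) (hn : n ∈ SQ z 0 (z ^ (2 ^ I))) (hmn : mm n ≤ R * n) :
    ∃ S : Finset (ℕ × ℕ), S ⊆ PP z I R ∧ ∏ p ∈ S, p.1 = n ∧
      ∏ p ∈ S, fP p = (1 / 2 : ℝ) ^ n.primeFactors.card / mm n ∧ ∑ p ∈ S, Real.log p.1 = Real.log n := by
  simp only [SQ, mem_filter, mem_Ioc] at hn
  obtain ⟨⟨hn0, hnI⟩, hsq, hrough⟩ := hn
  obtain ⟨T, a, hTp, ha1, hprod, hmeq, hadvd⟩ := struct n hsq
  have hinj : Set.InjOn (fun q => (a q, q)) (T : Set ℕ) := by
    intro q _ q' _ h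
    exact (Prod.mk.inj h).2
  refine ⟨T.image (fun q => (a q, q)), ?_, ?_, ?_, ?_⟩
  · intro p hp
    rw [mem_image] at hp
    obtain ⟨q, hq, rfl⟩ := hp
    have hqp := hTp q hq
    have haq := ha1 q hq
    have hdvd : a q ∣ n := by rw [← hprod]; exact dvd_prod_of_mem a hq
    have hle : a q ≤ n := Nat.le_of_dvd hn0 hdvd
    have hrq : Nat.Coprime (a q) (WZ z) := Nat.Coprime.coprime_dvd_left hdvd hrough
    have hzq : z < a q := by
      obtain ⟨l, hl, hla⟩ := Nat.exists_prime_and_dvd (by omega : a q ≠ 1)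
      exact lt_of_lt_of_le (rough_prime_gt hrq hl hla) (Nat.le_of_dvd (by omega) hla)
    -- ratio bound
    have hratio : q ^ ee (a q) q ≤ R * a q := by
      have h1 : q ^ ee (a q) q * ∏ q' ∈ T.erase q, q' ^ ee (a q') q' ≤ R * (a q * ∏ q' ∈ T.erase q, a q') := by
        rw [mul_prod_erase T (fun q => q ^ ee (a q) q) hq, mul_prod_erase T a hq, hprod, ← hmeq]
        exact hmn
      have h2 : ∏ q' ∈ T.erase q, a q' ≤ ∏ q' ∈ T.erase q, q' ^ ee (a q') q' := by
        apply Finset.prod_le_prod'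
        intro q' hq'
        have hq'T := mem_of_mem_erase hq'
        have hpos : 0 < q' ^ ee (a q') q' := pow_pos (hTp q' hq'T).pos _
        exact (Nat.le_of_dvd (Nat.totient_pos.mpr hpos) (hadvd q' hq'T)).trans (Nat.totient_le _)
      have hpos : 0 < ∏ q' ∈ T.erase q, q' ^ ee (a q') q' :=
        prod_pos fun q' hq' => pow_pos (hTp q' (mem_of_mem_erase hq')).pos _
      have h3 : q ^ ee (a q) q * ∏ q' ∈ T.erase q, q' ^ ee (a q') q'
          ≤ (R * a q) * ∏ q' ∈ T.erase q, q' ^ ee (a q') q' := by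
        refine h1.trans ?_
        rw [← mul_assoc]
        exact Nat.mul_le_mul_left _ h2
      exact Nat.le_of_mul_le_mul_right h3 hpos
    have had := hadvd q hq
    simp only [PP, mem_filter, mem_product, mem_Ioc]
    have hbig : R * a q ≤ R * z ^ (2 ^ I) := Nat.mul_le_mul_left _ (hle.trans hnI)
    rcases ee_cases (a q) q with ⟨h1, h2⟩ | ⟨h1, h2⟩
    · rw [h1, pow_one] at hratio
      rw [h1, pow_one, Nat.totient_prime hqp] at had
      exact ⟨⟨⟨hzq, hle.trans hnI⟩, hqp.pos, hratio.trans hbig⟩, hrq, hqp, Or.inl ⟨h2, had, hratio⟩⟩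
    · rw [h1] at hratio
      rw [h1, Nat.totient_prime_pow hqp (by norm_num)] at had
      simp only [Nat.add_one_sub_one, pow_one] at had
      have hqq : q ≤ q ^ 2 := Nat.le_self_pow (by norm_num) q
      exact ⟨⟨⟨hzq, hle.trans hnI⟩, hqp.pos, hqq.trans (hratio.trans hbig)⟩, hrq, hqp, Or.inr ⟨h2, had, hratio⟩⟩
  · rw [prod_image hinj]
    exact hprod
  · rw [prod_image hinj]
    unfold fP
    simp only
    rw [prod_div_distrib, prod_pow_eq_pow_sum, hmeq]
    congr 1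
    · congr 1
      rw [← card_pf_prod T a (by rw [hprod]; exact hsq), hprod]
    · push_cast
      rfl
  · rw [sum_image hinj]
    simp only
    rw [← hprod]
    push_cast
    rw [Real.log_prod]
    intro q hq
    have := ha1 q hq
    exact_mod_cast (by omega : a q ≠ 0)

/-- the main inequality -/
theorem small_mm_sum (z I R : ℕ) :
    ∑ n ∈ (SQ z 0 (z ^ (2 ^ I))).filter (fun n => mm n ≤ R * n),
      Real.log n * ((1 / 2 : ℝ) ^ n.primeFactors.card / mm n)
      ≤ (∑ p ∈ PP z I R, Real.log p.1 * fP p) * Real.exp (∑ p ∈ PP z I R, fP p) := by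
  set A := (SQ z 0 (z ^ (2 ^ I))).filter (fun n => mm n ≤ R * n) with hA
  have h1 : ∀ n ∈ A, ∃ S : Finset (ℕ × ℕ), S ⊆ PP z I R ∧ ∏ p ∈ S, p.1 = n ∧
      ∏ p ∈ S, fP p = (1 / 2 : ℝ) ^ n.primeFactors.card / mm n ∧ ∑ p ∈ S, Real.log p.1 = Real.log n := by
    intro n hn
    rw [hA, mem_filter] at hn
    exact pairs_of z I R n hn.1 hn.2
  choose! S hS1 hS2 hS3 hS4 using h1
  have hinj : Set.InjOn S (A : Set ℕ) := by
    intro n hn m hm h
    rw [← hS2 n hn, ← hS2 m hm, h]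
  calc ∑ n ∈ A, Real.log n * ((1 / 2 : ℝ) ^ n.primeFactors.card / mm n)
      = ∑ n ∈ A, (∑ p ∈ S n, Real.log p.1) * ∏ p ∈ S n, fP p := by
        refine sum_congr rfl fun n hn => ?_
        rw [hS3 n hn, hS4 n hn]
    _ = ∑ U ∈ A.image S, (∑ p ∈ U, Real.log p.1) * ∏ p ∈ U, fP p := by rw [sum_image hinj]
    _ ≤ ∑ U ∈ (PP z I R).powerset, (∑ p ∈ U, Real.log p.1) * ∏ p ∈ U, fP p := by
        apply sum_le_sum_of_subset_of_nonneg
        · intro U hU
          rw [mem_image] at hU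
          obtain ⟨n, hn, rfl⟩ := hU
          exact mem_powerset.mpr (hS1 n hn)
        · intro U _ _
          exact mul_nonneg (sum_nonneg fun p _ => Real.log_natCast_nonneg _)
            (prod_nonneg fun p _ => fP_nonneg p)
    _ ≤ (∑ p ∈ PP z I R, Real.log p.1 * fP p) * ∏ p ∈ PP z I R, (1 + fP p) :=
        powerset_log _ _ _ (fun p _ => fP_nonneg p) (fun p _ => Real.log_natCast_nonneg _)
    _ ≤ _ := by
        apply mul_le_mul_of_nonneg_left
        · rw [Real.exp_sum]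
          apply Finset.prod_le_prod
          · intro p _; linarith [fP_nonneg p]
          · intro p _; linarith [Real.add_one_le_exp (fP p)]
        · exact sum_nonneg fun p _ => mul_nonneg (Real.log_natCast_nonneg _) (fP_nonneg p)

end Pool.Agent.E456
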