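import Mathlib
import Pool.Agent.E456.PowSum

/-!
# Bounds for the sums over admissible pairs
-/

namespace Pool.Agent.E456

open Finset Filter

lemma card_divisors_le (m : ℕ) : m.divisors.card ≤ 2 * Nat.sqrt m := by
  have hsub : m.divisors ⊆ Ioc 0 (Nat.sqrt m) ∪ (Ioc 0 (Nat.sqrt m)).image (fun d => m / d) := by
    intro d hd
    rw [Nat.mem_divisors] at hd
    obtain ⟨hdm, hm0⟩ := hd
    have hd0 : 0 < d := Nat.pos_of_dvd_of_pos hdm (Nat.pos_of_ne_zero hm0)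
    rw [mem_union, mem_Ioc]
    by_cases h : d ≤ Nat.sqrt m
    · exact Or.inl ⟨hd0, h⟩
    · right
      push Not at h
      rw [mem_image]
      refine ⟨m / d, ?_, Nat.div_div_self hdm hm0⟩
      rw [mem_Ioc]
      refine ⟨Nat.div_pos (Nat.le_of_dvd (Nat.pos_of_ne_zero hm0) hdm) hd0, ?_⟩
      have h1 : m < (Nat.sqrt m + 1) * (Nat.sqrt m + 1) := Nat.lt_succ_sqrt m
      have h2 : m < (Nat.sqrt m + 1) * d := lt_of_lt_of_le h1 (Nat.mul_le_mul_left _ h)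
      have h3 : m / d < Nat.sqrt m + 1 := (Nat.div_lt_iff_lt_mul hd0).mpr h2
      omega
  calc m.divisors.card ≤ _ := card_le_card hsub
    _ ≤ (Ioc 0 (Nat.sqrt m)).card + ((Ioc 0 (Nat.sqrt m)).image (fun d => m / d)).card := card_union_le _ _
    _ ≤ (Ioc 0 (Nat.sqrt m)).card + (Ioc 0 (Nat.sqrt m)).card := by
        apply Nat.add_le_add_left card_image_le
    _ = 2 * Nat.sqrt m := by rw [Nat.card_Ioc]; omega

/-- constant -/
noncomputable def c54 : ℝ := ∑' q : ℕ, 1 / (q : ℝ) ^ (5 / 4 : ℝ)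

lemma c54_nonneg : 0 ≤ c54 := tsum_nonneg fun q => by positivity

lemma sum_c54 (s : Finset ℕ) : ∑ q ∈ s, 1 / (q : ℝ) ^ (5 / 4 : ℝ) ≤ c54 := by
  apply Summable.sum_le_tsum
  · intro q _; positivity
  · exact Real.summable_one_div_nat_rpow.mpr (by norm_num)

/-- first type of pairs -/
def P1 (z I R : ℕ) : Finset (ℕ × ℕ) := (PP z I R).filter (fun p => ¬ p.2 ∣ p.1)
/-- second type of pairs -/
def P2 (z I R : ℕ) : Finset (ℕ × ℕ) := (PP z I R).filter (fun p => ¬ ¬ p.2 ∣ p.1)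

lemma PP_split (z I R : ℕ) (F : ℕ × ℕ → ℝ) :
    ∑ p ∈ PP z I R, F p = ∑ p ∈ P1 z I R, F p + ∑ p ∈ P2 z I R, F p := by
  unfold P1 P2
  rw [sum_filter_add_sum_filter_not]

lemma P1_sum (z I R : ℕ) (w : ℕ → ℝ) (hw : ∀ a, 0 ≤ w a) :
    ∑ p ∈ P1 z I R, w p.1 * fP p ≤ ∑ k ∈ Ioc 0 R, (1 / (k : ℝ)) *
      ∑ a ∈ (Ioc z (z ^ (2 ^ I))).filter (fun a => Nat.Coprime a (WZ z) ∧ (a * k + 1).Prime),
        w a * ((1 / 2 : ℝ) ^ a.primeFactors.card / a) := by
  have hstr : ∀ p ∈ P1 z I R, p.2 = p.1 * ((p.2 - 1) / p.1) + 1 ∧ 0 < (p.2 - 1) / p.1 ∧ (p.2 - 1) / p.1 ≤ R ∧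
      p.1 ∈ Ioc z (z ^ (2 ^ I)) ∧ Nat.Coprime p.1 (WZ z) ∧ p.2.Prime ∧ ee p.1 p.2 = 1 := by
    intro p hp
    simp only [P1, PP, mem_filter, mem_product] at hp
    obtain ⟨⟨⟨h1, h2⟩, h3, h4, h5⟩, h6⟩ := hp
    have h7 : p.1 ∣ p.2 - 1 ∧ p.2 ≤ R * p.1 := by
      rcases h5 with h5 | h5
      · exact h5.2
      · exact absurd h5.1 h6
    have ha0 : 0 < p.1 := by have := (mem_Ioc.mp h1).1; omega
    have h8 : p.1 * ((p.2 - 1) / p.1) = p.2 - 1 := Nat.mul_div_cancel' h7.1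
    have h9 := h4.two_le
    have h10 : 0 < (p.2 - 1) / p.1 := by
      rcases Nat.eq_zero_or_pos ((p.2 - 1) / p.1) with h | h
      · rw [h, mul_zero] at h8; omega
      · exact h
    refine ⟨by omega, h10, ?_, h1, h3, h4, ?_⟩
    · have h11 : p.1 * ((p.2 - 1) / p.1) ≤ p.1 * R := by rw [h8, mul_comm]; omega
      exact Nat.le_of_mul_le_mul_left h11 ha0
    · unfold ee; rw [if_neg h6]
  set tgt := ((Ioc 0 R) ×ˢ (Ioc z (z ^ (2 ^ I)))).filter
    (fun x => Nat.Coprime x.2 (WZ z) ∧ (x.2 * x.1 + 1).Prime) with htgt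
  set G : ℕ × ℕ → ℝ := fun x => (1 / (x.1 : ℝ)) * (w x.2 * ((1 / 2 : ℝ) ^ x.2.primeFactors.card / x.2)) with hG
  have hG0 : ∀ x, 0 ≤ G x := fun x => by
    simp only [hG]
    have := hw x.2
    positivity
  have hinj : Set.InjOn (fun p : ℕ × ℕ => ((p.2 - 1) / p.1, p.1)) (P1 z I R : Set (ℕ × ℕ)) := by
    intro p hp p' hp' h
    obtain ⟨h1, _⟩ := hstr p (mem_coe.mp hp)
    obtain ⟨h1', _⟩ := hstr p' (mem_coe.mp hp')
    simp only [Prod.mk.injEq] at h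
    ext
    · exact h.2
    · rw [h1, h1', h.1, h.2]
  calc ∑ p ∈ P1 z I R, w p.1 * fP p ≤ ∑ p ∈ P1 z I R, G ((p.2 - 1) / p.1, p.1) := by
        refine sum_le_sum fun p hp => ?_
        obtain ⟨h1, h2, h3, h4, h5, h6, h7⟩ := hstr p hp
        simp only [hG, fP]
        rw [h7, pow_one]
        have ha0 : (0 : ℝ) < p.1 := by
          have := (mem_Ioc.mp h4).1
          exact_mod_cast (by omega : 0 < p.1)
        have hk0 : (0 : ℝ) < ((p.2 - 1) / p.1 : ℕ) := by exact_mod_cast h2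
        have h8 : (p.1 : ℝ) * (((p.2 - 1) / p.1 : ℕ) : ℝ) ≤ p.2 := by
          have : p.1 * ((p.2 - 1) / p.1) ≤ p.2 := by omega
          exact_mod_cast this
        have hw1 := hw p.1
        calc w p.1 * ((1 / 2 : ℝ) ^ p.1.primeFactors.card / p.2)
            ≤ w p.1 * ((1 / 2 : ℝ) ^ p.1.primeFactors.card / ((p.1 : ℝ) * (((p.2 - 1) / p.1 : ℕ) : ℝ))) := by
              gcongr
          _ = _ := by field_simp
    _ = ∑ x ∈ (P1 z I R).image (fun p => ((p.2 - 1) / p.1, p.1)), G x := by rw [sum_image hinj]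
    _ ≤ ∑ x ∈ tgt, G x := by
        apply sum_le_sum_of_subset_of_nonneg
        · intro x hx
          rw [mem_image] at hx
          obtain ⟨p, hp, rfl⟩ := hx
          obtain ⟨h1, h2, h3, h4, h5, h6, h7⟩ := hstr p hp
          simp only [htgt, mem_filter, mem_product]
          exact ⟨⟨mem_Ioc.mpr ⟨h2, h3⟩, h4⟩, h5, h1 ▸ h6⟩
        · intro x _ _; exact hG0 x
    _ = _ := by
        rw [htgt, sum_filter, sum_product]
        refine sum_congr rfl fun k _ => ?_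
        rw [mul_sum, sum_filter]

lemma log_le_quarter (q : ℕ) (hq : 1 ≤ q) : Real.log q ≤ 4 * (q : ℝ) ^ (1 / 4 : ℝ) := by
  have hq' : (1 : ℝ) ≤ q := by exact_mod_cast hq
  have h1 : 0 < (q : ℝ) ^ (1 / 4 : ℝ) := by positivity
  have h2 := Real.log_le_sub_one_of_pos h1
  rw [Real.log_rpow (by linarith)] at h2
  linarith

lemma P2_sum (z I R : ℕ) (hz : 2 ≤ z) (w : ℕ → ℝ) (hw : ∀ a, 0 ≤ w a)
    (hw2 : ∀ a q : ℕ, 1 ≤ q → a ≤ q ^ 2 → 1 ≤ a → w a ≤ 8 * (q : ℝ) ^ (1 / 4 : ℝ)) :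
    ∑ p ∈ P2 z I R, w p.1 * fP p ≤ 16 * c54 := by
  have hstr : ∀ p ∈ P2 z I R, p.2 ∣ p.1 ∧ p.1 ∣ p.2 * (p.2 - 1) ∧ p.2.Prime ∧ z < p.1 ∧ ee p.1 p.2 = 2 ∧
      p.2 ∈ Ioc 0 (R * z ^ (2 ^ I)) := by
    intro p hp
    simp only [P2, PP, mem_filter, mem_product, not_not] at hp
    obtain ⟨⟨⟨h1, h2⟩, h3, h4, h5⟩, h6⟩ := hp
    refine ⟨h6, ?_, h4, (mem_Ioc.mp h1).1, ?_, h2⟩
    · rcases h5 with h5 | h5
      · exact absurd h6 h5.1
      · exact h5.2.1
    · unfold ee; rw [if_pos h6]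
  have h1 : ∀ p ∈ P2 z I R, w p.1 * fP p ≤ 8 * (p.2 : ℝ) ^ (1 / 4 : ℝ) / (p.2 : ℝ) ^ 2 := by
    intro p hp
    obtain ⟨h1, h2, h3, h4, h5, h6⟩ := hstr p hp
    unfold fP
    rw [h5]
    have hq2 := h3.two_le
    have h7 : p.1 ≤ p.2 ^ 2 := by
      have h8 := Nat.le_of_dvd (Nat.mul_pos h3.pos (by omega)) h2
      calc p.1 ≤ p.2 * (p.2 - 1) := h8
        _ ≤ p.2 * p.2 := Nat.mul_le_mul_left _ (Nat.sub_le _ _)
        _ = p.2 ^ 2 := (sq _).symm
    have h8 := hw2 p.1 p.2 (by omega) h7 (by omega)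
    have h9 : (1 / 2 : ℝ) ^ p.1.primeFactors.card ≤ 1 := pow_le_one₀ (by norm_num) (by norm_num)
    calc w p.1 * ((1 / 2 : ℝ) ^ p.1.primeFactors.card / (p.2 : ℝ) ^ 2)
        = (w p.1 * (1 / 2 : ℝ) ^ p.1.primeFactors.card) / (p.2 : ℝ) ^ 2 := by ring
      _ ≤ (8 * (p.2 : ℝ) ^ (1 / 4 : ℝ) * 1) / (p.2 : ℝ) ^ 2 := by
          have := hw p.1
          gcongr
      _ = _ := by rw [mul_one]
  refine (sum_le_sum h1).trans ?_
  have h2 : ∑ p ∈ P2 z I R, 8 * (p.2 : ℝ) ^ (1 / 4 : ℝ) / (p.2 : ℝ) ^ 2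
      = ∑ q ∈ Ioc 0 (R * z ^ (2 ^ I)), ∑ p ∈ (P2 z I R).filter (fun p => p.2 = q),
        8 * (p.2 : ℝ) ^ (1 / 4 : ℝ) / (p.2 : ℝ) ^ 2 :=
    (sum_fiberwise_of_maps_to (fun p hp => (hstr p hp).2.2.2.2.2) _).symm
  rw [h2]
  have h3 : ∀ q ∈ Ioc 0 (R * z ^ (2 ^ I)), ∑ p ∈ (P2 z I R).filter (fun p => p.2 = q),
        8 * (p.2 : ℝ) ^ (1 / 4 : ℝ) / (p.2 : ℝ) ^ 2 ≤ 16 * (1 / (q : ℝ) ^ (5 / 4 : ℝ)) := by
    intro q hq
    rw [mem_Ioc] at hq
    have hq1 : (1 : ℝ) ≤ q := by exact_mod_cast hq.1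
    have hq0 : (0 : ℝ) < q := by linarith
    have e1 : ∑ p ∈ (P2 z I R).filter (fun p => p.2 = q), 8 * (p.2 : ℝ) ^ (1 / 4 : ℝ) / (p.2 : ℝ) ^ 2
        = (((P2 z I R).filter (fun p => p.2 = q)).card : ℝ) * (8 * (q : ℝ) ^ (1 / 4 : ℝ) / (q : ℝ) ^ 2) := by
      rw [← nsmul_eq_mul, ← sum_const]
      refine sum_congr rfl fun p hp => ?_
      rw [(mem_filter.mp hp).2]
    rw [e1]
    have hcard : ((P2 z I R).filter (fun p => p.2 = q)).card ≤ 2 * Nat.sqrt (q - 1) := by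
      refine le_trans ?_ (card_divisors_le (q - 1))
      apply card_le_card_of_injOn (fun p => p.1 / q)
      · intro p hp
        simp only [coe_filter, Set.mem_ofPred_eq] at hp
        obtain ⟨hp1, hp2⟩ := hp
        obtain ⟨h1, h2, h3, _⟩ := hstr p hp1
        rw [hp2] at h1 h2 h3
        simp only [mem_coe, Nat.mem_divisors]
        obtain ⟨b, hb⟩ := h1
        rw [hb, Nat.mul_div_cancel_left b (by omega)]
        rw [hb] at h2
        refine ⟨Nat.dvd_of_mul_dvd_mul_left (by omega) h2, ?_⟩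
        have := h3.two_le
        omega
      · intro p hp p' hp' h
        simp only [coe_filter, Set.mem_ofPred_eq] at hp hp'
        obtain ⟨h1, _⟩ := hstr p hp.1
        obtain ⟨h1', _⟩ := hstr p' hp'.1
        rw [hp.2] at h1
        rw [hp'.2] at h1'
        simp only at h
        ext
        · rw [← Nat.div_mul_cancel h1, ← Nat.div_mul_cancel h1', h]
        · rw [hp.2, hp'.2]
    have hcard2 : (((P2 z I R).filter (fun p => p.2 = q)).card : ℝ) ≤ 2 * (q : ℝ) ^ (1 / 2 : ℝ) := by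
      calc (((P2 z I R).filter (fun p => p.2 = q)).card : ℝ) ≤ ((2 * Nat.sqrt (q - 1) : ℕ) : ℝ) := by
            exact_mod_cast hcard
        _ = 2 * ((Nat.sqrt (q - 1) : ℕ) : ℝ) := by push_cast; ring
        _ ≤ 2 * Real.sqrt q := by
            apply mul_le_mul_of_nonneg_left _ (by norm_num)
            refine (Real.nat_sqrt_le_real_sqrt).trans ?_
            apply Real.sqrt_le_sqrt
            exact_mod_cast Nat.sub_le q 1
        _ = _ := by rw [Real.sqrt_eq_rpow]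
    calc (((P2 z I R).filter (fun p => p.2 = q)).card : ℝ) * (8 * (q : ℝ) ^ (1 / 4 : ℝ) / (q : ℝ) ^ 2)
        ≤ (2 * (q : ℝ) ^ (1 / 2 : ℝ)) * (8 * (q : ℝ) ^ (1 / 4 : ℝ) / (q : ℝ) ^ 2) := by gcongr
      _ = 16 * (((q : ℝ) ^ (1 / 2 : ℝ) * (q : ℝ) ^ (1 / 4 : ℝ)) / (q : ℝ) ^ (2 : ℝ)) := by
          rw [Real.rpow_two]; ring
      _ = 16 * (1 / (q : ℝ) ^ (5 / 4 : ℝ)) := by
          rw [← Real.rpow_add hq0, ← Real.rpow_sub hq0]
          congr 1
          rw [one_div ((q : ℝ) ^ (5 / 4 : ℝ)), ← Real.rpow_neg hq0.le]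
          congr 1
          norm_num
  refine (sum_le_sum h3).trans ?_
  rw [← mul_sum]
  exact mul_le_mul_of_nonneg_left (sum_c54 _) (by norm_num)

/-- bound for `∑ f` -/
theorem A0_bound : ∃ K : ℝ, 0 < K ∧ ∀ z I R : ℕ, 6 ^ 12 ≤ z → 1 ≤ R →
    ∑ p ∈ PP z I R, fP p ≤ K * ((1 + Real.log R) / Real.log z + 1) := by
  obtain ⟨K, hK, h⟩ := small_sum
  set E : ℝ := Real.exp (2 * (2 * Real.exp 2)) with hE
  refine ⟨K * E + 16 * c54, by have := c54_nonneg; positivity, fun z I R hz hR => ?_⟩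
  have hlz : 0 < Real.log z := Real.log_pos (by exact_mod_cast (by omega : 1 < z))
  have hlR : 0 ≤ Real.log R := Real.log_natCast_nonneg R
  rw [PP_split]
  have h1 := P1_sum z I R (fun _ => 1) (fun _ => zero_le_one)
  have h2 := P2_sum z I R (by omega) (fun _ => 1) (fun _ => zero_le_one) (fun a q hq _ _ => by
    have : (1 : ℝ) ≤ (q : ℝ) ^ (1 / 4 : ℝ) := Real.one_le_rpow (by exact_mod_cast hq) (by norm_num)
    linarith)
  simp only [one_mul] at h1 h2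
  have h3 : ∑ k ∈ Ioc 0 R, (1 / (k : ℝ)) *
      ∑ a ∈ (Ioc z (z ^ (2 ^ I))).filter (fun a => Nat.Coprime a (WZ z) ∧ (a * k + 1).Prime),
        ((1 / 2 : ℝ) ^ a.primeFactors.card / a) ≤ K * E * ((1 + Real.log R) / Real.log z) := by
    calc _ ≤ ∑ k ∈ Ioc 0 R, (K / Real.log z) * (Real.exp (2 * hh k) / k) := by
          refine sum_le_sum fun k hk => ?_
          rw [mem_Ioc] at hk
          have h4 := h z I k hz hk.1
          calc _ ≤ (1 / (k : ℝ)) * (K * Real.exp (2 * hh k) / Real.log z) :=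
                mul_le_mul_of_nonneg_left h4 (by positivity)
            _ = _ := by ring
      _ = (K / Real.log z) * ∑ k ∈ Ioc 0 R, (Real.exp (2 * hh k) / k) := by rw [mul_sum]
      _ ≤ (K / Real.log z) * ((1 + Real.log R) * E) := by
          apply mul_le_mul_of_nonneg_left _ (by positivity)
          exact sum_exp_hh_div 2 (by norm_num) R hR
      _ = _ := by ring
  have hc := c54_nonneg
  have h4 : 0 ≤ (1 + Real.log R) / Real.log z := by positivity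
  have h5 : 0 ≤ 16 * c54 * ((1 + Real.log R) / Real.log z) := by positivity
  have h6 : 0 < K * E := by positivity
  calc _ ≤ K * E * ((1 + Real.log R) / Real.log z) + 16 * c54 := by linarith
    _ ≤ _ := by nlinarith

/-- bound for `∑ g f` -/
theorem A1_bound : ∃ K : ℝ, 0 < K ∧ ∀ z I R : ℕ, 6 ^ 12 ≤ z → 1 ≤ R →
    ∑ p ∈ PP z I R, Real.log p.1 * fP p ≤ K * (1 + Real.log R) * r2 ^ I := by
  obtain ⟨K, hK, h⟩ := small_log
  set E : ℝ := Real.exp (2 * (2 * Real.exp 2)) with hE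
  refine ⟨K * E + 16 * c54, by have := c54_nonneg; positivity, fun z I R hz hR => ?_⟩
  have hlR : 0 ≤ Real.log R := Real.log_natCast_nonneg R
  rw [PP_split]
  have h1 := P1_sum z I R (fun a => Real.log a) (fun a => Real.log_natCast_nonneg a)
  have h2 := P2_sum z I R (by omega) (fun a => Real.log a) (fun a => Real.log_natCast_nonneg a)
    (fun a q hq ha ha1 => by
      have h3 : Real.log a ≤ 2 * Real.log q := by
        have h4 : (a : ℝ) ≤ (q : ℝ) ^ 2 := by exact_mod_cast ha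
        have h5 := Real.log_le_log (by exact_mod_cast ha1) h4
        rw [Real.log_pow] at h5
        exact_mod_cast h5
      have h4 := log_le_quarter q hq
      linarith)
  have h3 : ∑ k ∈ Ioc 0 R, (1 / (k : ℝ)) *
      ∑ a ∈ (Ioc z (z ^ (2 ^ I))).filter (fun a => Nat.Coprime a (WZ z) ∧ (a * k + 1).Prime),
        Real.log a * ((1 / 2 : ℝ) ^ a.primeFactors.card / a) ≤ K * E * ((1 + Real.log R) * r2 ^ I) := by
    calc _ ≤ ∑ k ∈ Ioc 0 R, (K * r2 ^ I) * (Real.exp (2 * hh k) / k) := by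
          refine sum_le_sum fun k hk => ?_
          rw [mem_Ioc] at hk
          have h4 := h z I k hz hk.1
          calc _ ≤ (1 / (k : ℝ)) * (K * Real.exp (2 * hh k) * r2 ^ I) :=
                mul_le_mul_of_nonneg_left h4 (by positivity)
            _ = _ := by ring
      _ = (K * r2 ^ I) * ∑ k ∈ Ioc 0 R, (Real.exp (2 * hh k) / k) := by rw [mul_sum]
      _ ≤ (K * r2 ^ I) * ((1 + Real.log R) * E) := by
          apply mul_le_mul_of_nonneg_left _ (by have := pow_pos r2_pos I; positivity)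
          exact sum_exp_hh_div 2 (by norm_num) R hR
      _ = _ := by ring
  have hc := c54_nonneg
  have hr : 1 ≤ r2 ^ I := one_le_pow₀ (by linarith [r2_ge])
  have h4 : 1 ≤ (1 + Real.log R) * r2 ^ I := by nlinarith
  calc _ ≤ K * E * ((1 + Real.log R) * r2 ^ I) + 16 * c54 * 1 := by linarith
    _ ≤ K * E * ((1 + Real.log R) * r2 ^ I) + 16 * c54 * ((1 + Real.log R) * r2 ^ I) := by gcongr
    _ = _ := by ring

end Pool.Agent.E456
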