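import Mathlib
import Pool.Agent.E456.PairBounds

/-!
# The weighted sum of the block sums
-/

namespace Pool.Agent.E456

open Finset Filter

/-- block sum -/
noncomputable def BB (z i : ℕ) : ℝ := ∑ n ∈ SQ z (z ^ (2 ^ i)) (z ^ (2 ^ (i + 1))), (1 / 2 : ℝ) ^ n.primeFactors.card / mm n

lemma BB_nonneg (z i : ℕ) : 0 ≤ BB z i := sum_nonneg fun n _ => by positivity

lemma B_bound : ∃ K : ℝ, 0 < K ∧ ∀ z i R : ℕ, 6 ^ 12 ≤ z → 1 ≤ R →
    BB z i ≤ K * r2 ^ i / R + K * (1 + Real.log R) * r2 ^ i * Real.exp (K * ((1 + Real.log R) / Real.log z + 1))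
      / (2 ^ i * Real.log z) := by
  obtain ⟨C, hC, hh⟩ := mass_half
  obtain ⟨K0, hK0, h0⟩ := A0_bound
  obtain ⟨K1, hK1, h1⟩ := A1_bound
  set K := max (2 * C) (max K0 (2 * K1)) with hK
  have hKC : 2 * C ≤ K := le_max_left _ _
  have hKK0 : K0 ≤ K := (le_max_left _ _).trans (le_max_right _ _)
  have hKK1 : 2 * K1 ≤ K := (le_max_right _ _).trans (le_max_right _ _)
  have hKpos : 0 < K := lt_of_lt_of_le (by positivity) hKC
  refine ⟨K, hKpos, fun z i R hz hR => ?_⟩
  have hz2 : 2 ≤ z := by omega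
  have hlz : 0 < Real.log z := Real.log_pos (by exact_mod_cast (by omega : 1 < z))
  have hlR : 0 ≤ Real.log R := Real.log_natCast_nonneg R
  have hR' : (0 : ℝ) < R := by exact_mod_cast hR
  have hri := pow_pos r2_pos i
  unfold BB
  rw [← sum_filter_add_sum_filter_not (SQ z (z ^ (2 ^ i)) (z ^ (2 ^ (i + 1)))) (fun n => ¬ mm n ≤ R * n)]
  apply add_le_add
  · -- large mm
    calc ∑ n ∈ (SQ z (z ^ (2 ^ i)) (z ^ (2 ^ (i + 1)))).filter (fun n => ¬ mm n ≤ R * n),
          (1 / 2 : ℝ) ^ n.primeFactors.card / mm n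
        ≤ ∑ n ∈ (SQ z (z ^ (2 ^ i)) (z ^ (2 ^ (i + 1)))).filter (fun n => ¬ mm n ≤ R * n),
          (1 / R : ℝ) * ((1 / 2 : ℝ) ^ n.primeFactors.card / n) := by
          refine sum_le_sum fun n hn => ?_
          simp only [SQ, mem_filter, mem_Ioc, not_le] at hn
          have hn0 : (0 : ℝ) < n := by exact_mod_cast (by omega : 0 < n)
          have h2 : (R : ℝ) * n ≤ mm n := by exact_mod_cast hn.2.le
          calc (1 / 2 : ℝ) ^ n.primeFactors.card / mm n ≤ (1 / 2 : ℝ) ^ n.primeFactors.card / (R * n) := by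
                gcongr
            _ = _ := by field_simp
      _ ≤ ∑ n ∈ SQ z (z ^ (2 ^ i)) (z ^ (2 ^ (i + 1))), (1 / R : ℝ) * ((1 / 2 : ℝ) ^ n.primeFactors.card / n) := by
          apply sum_le_sum_of_subset_of_nonneg (filter_subset _ _)
          intro _ _ _; positivity
      _ = (1 / R : ℝ) * ∑ n ∈ SQ z (z ^ (2 ^ i)) (z ^ (2 ^ (i + 1))), ((1 / 2 : ℝ) ^ n.primeFactors.card / n) := by
          rw [mul_sum]
      _ ≤ (1 / R : ℝ) * (C * Real.sqrt (2 ^ (i + 1))) := by
          apply mul_le_mul_of_nonneg_left (hh z _ (i + 1) hz2) (by positivity)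
      _ ≤ K * r2 ^ i / R := by
          rw [sqrt_two_pow, pow_succ]
          have : C * (r2 ^ i * r2) ≤ K * r2 ^ i := by
            have h3 : C * r2 ≤ K := by nlinarith [r2_le]
            nlinarith
          calc (1 / R : ℝ) * (C * (r2 ^ i * r2)) ≤ (1 / R : ℝ) * (K * r2 ^ i) := by gcongr
            _ = _ := by ring
  · -- small mm
    have hsum := small_mm_sum z (i + 1) R
    have hA0 := h0 z (i + 1) R hz hR
    have hA1 := h1 z (i + 1) R hz hR
    have hA1' : 0 ≤ ∑ p ∈ PP z (i + 1) R, Real.log p.1 * fP p :=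
      sum_nonneg fun p _ => mul_nonneg (Real.log_natCast_nonneg _) (fP_nonneg p)
    calc ∑ n ∈ (SQ z (z ^ (2 ^ i)) (z ^ (2 ^ (i + 1)))).filter (fun n => ¬ ¬ mm n ≤ R * n),
          (1 / 2 : ℝ) ^ n.primeFactors.card / mm n
        ≤ ∑ n ∈ (SQ z (z ^ (2 ^ i)) (z ^ (2 ^ (i + 1)))).filter (fun n => ¬ ¬ mm n ≤ R * n),
          (1 / (2 ^ i * Real.log z)) * (Real.log n * ((1 / 2 : ℝ) ^ n.primeFactors.card / mm n)) := by
          refine sum_le_sum fun n hn => ?_
          simp only [SQ, mem_filter, mem_Ioc, not_not] at hn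
          have hn0 : (0 : ℝ) < n := by exact_mod_cast (by omega : 0 < n)
          have h2 : 2 ^ i * Real.log z ≤ Real.log n := by
            have h3 : ((z : ℝ) ^ (2 ^ i)) ≤ n := by exact_mod_cast hn.1.1.1.le
            have h4 := Real.log_le_log (by positivity) h3
            rw [Real.log_pow] at h4
            exact_mod_cast h4
          have h5 : 0 ≤ (1 / 2 : ℝ) ^ n.primeFactors.card / mm n := by positivity
          rw [← mul_assoc]
          have h6 : 1 ≤ (1 / (2 ^ i * Real.log z)) * Real.log n := by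
            rw [one_div_mul_eq_div, le_div_iff₀ (by positivity), one_mul]
            exact h2
          nlinarith
      _ ≤ ∑ n ∈ (SQ z 0 (z ^ (2 ^ (i + 1)))).filter (fun n => mm n ≤ R * n),
          (1 / (2 ^ i * Real.log z)) * (Real.log n * ((1 / 2 : ℝ) ^ n.primeFactors.card / mm n)) := by
          apply sum_le_sum_of_subset_of_nonneg
          · intro n hn
            simp only [SQ, mem_filter, mem_Ioc, not_not] at hn ⊢
            exact ⟨⟨⟨by omega, hn.1.1.2⟩, hn.1.2⟩, hn.2⟩
          · intro n _ _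
            have := Real.log_natCast_nonneg n
            positivity
      _ = (1 / (2 ^ i * Real.log z)) * ∑ n ∈ (SQ z 0 (z ^ (2 ^ (i + 1)))).filter (fun n => mm n ≤ R * n),
          (Real.log n * ((1 / 2 : ℝ) ^ n.primeFactors.card / mm n)) := by rw [mul_sum]
      _ ≤ (1 / (2 ^ i * Real.log z)) * ((K * (1 + Real.log R) * r2 ^ i) *
            Real.exp (K * ((1 + Real.log R) / Real.log z + 1))) := by
          apply mul_le_mul_of_nonneg_left _ (by positivity)
          refine hsum.trans ?_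
          apply mul_le_mul _ _ (Real.exp_pos _).le (by positivity)
          · refine hA1.trans ?_
            rw [pow_succ]
            have h3 : K1 * r2 ≤ K := by nlinarith [r2_le]
            calc K1 * (1 + Real.log R) * (r2 ^ i * r2) = (K1 * r2) * ((1 + Real.log R) * r2 ^ i) := by ring
              _ ≤ K * ((1 + Real.log R) * r2 ^ i) := by gcongr
              _ = _ := by ring
          · apply Real.exp_le_exp.mpr
            refine hA0.trans ?_
            gcongr
      _ = _ := by ring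

lemma geom_le (M : ℕ) (t : ℝ) (ht0 : 0 ≤ t) (ht : t < 1) : ∑ i ∈ range M, t ^ i ≤ 1 / (1 - t) := by
  rw [geom_sum_eq ht.ne]
  have h5 : (t ^ M - 1) / (t - 1) = (1 - t ^ M) / (1 - t) := by
    rw [← neg_sub (1 : ℝ) (t ^ M), ← neg_sub (1 : ℝ) t, neg_div_neg_eq]
  rw [h5]
  apply div_le_div_of_nonneg_right _ (by linarith)
  have := pow_nonneg ht0 M
  linarith

lemma two_add_le (i : ℕ) : (2 : ℝ) + i ≤ 200 * (101 / 100) ^ i := by
  have h := one_add_mul_le_pow (a := (1 / 100 : ℝ)) (by norm_num) i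
  have e : (1 : ℝ) + 1 / 100 = 101 / 100 := by norm_num
  rw [e] at h
  have : (0 : ℝ) ≤ i := by positivity
  linarith

/-- weighted sum of block sums -/
theorem B_total : ∃ K : ℝ, 0 < K ∧ ∃ z0 : ℕ, 6 ^ 12 ≤ z0 ∧ ∀ z : ℕ, z0 ≤ z → ∀ M : ℕ,
    ∑ i ∈ range M, (19 / 10 : ℝ) ^ i / r2 ^ i * BB z i ≤ K / Real.sqrt (Real.log z) := by
  obtain ⟨K, hK, hB⟩ := B_bound
  have hl102 : 0 < Real.log (102 / 100) := Real.log_pos (by norm_num)
  obtain ⟨z1, hz1⟩ := (log_ge_eventually (K / Real.log (102 / 100) + 1)).exists_forall_of_atTop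
  refine ⟨20 * K + 200 * K * Real.exp (3 * K) * 50, by positivity, max (6 ^ 12) z1, le_max_left _ _, fun z hz M => ?_⟩
  have hz12 : 6 ^ 12 ≤ z := (le_max_left _ _).trans hz
  have hlz1 := hz1 z ((le_max_right _ _).trans hz)
  set Z : ℝ := Real.log z with hZ
  have hZ1 : 1 ≤ Z := by
    have : 0 ≤ K / Real.log (102 / 100) := by positivity
    linarith
  have hZ0 : 0 < Z := by linarith
  set s : ℝ := Real.sqrt Z with hs
  have hs1 : 1 ≤ s := Real.one_le_sqrt.mpr hZ1
  have hss : s * s = Z := Real.mul_self_sqrt hZ0.le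
  have hlZ : 0 ≤ Real.log Z := Real.log_nonneg hZ1
  have hlogs : 1 + Real.log Z / 2 ≤ s := by
    have h1 := Real.log_le_sub_one_of_pos (by linarith : 0 < s)
    have h2 : Real.log s = Real.log Z / 2 := Real.log_sqrt hZ0.le
    linarith
  have hKZ : Real.exp (K / Z) ≤ 102 / 100 := by
    rw [← Real.exp_log (by norm_num : (0 : ℝ) < 102 / 100)]
    apply Real.exp_le_exp.mpr
    rw [div_le_iff₀ hZ0]
    have h1 : K / Real.log (102 / 100) ≤ Z := by linarith
    rw [div_le_iff₀ hl102] at h1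
    linarith
  -- termwise
  have hterm : ∀ i ∈ range M, (19 / 10 : ℝ) ^ i / r2 ^ i * BB z i
      ≤ (K / s) * (95 / 100) ^ i + (200 * K * Real.exp (3 * K) / s) * (98 / 100) ^ i := by
    intro i _
    set R : ℕ := ⌈2 ^ i * s⌉₊ with hR
    have hr := pow_pos r2_pos i
    have h2i : (1 : ℝ) ≤ 2 ^ i := one_le_pow₀ (by norm_num)
    have h2is : 1 ≤ 2 ^ i * s := by nlinarith
    have hRge : 2 ^ i * s ≤ (R : ℝ) := Nat.le_ceil _
    have hRlt : (R : ℝ) < 2 ^ i * s + 1 := Nat.ceil_lt_add_one (by linarith)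
    have hR1 : 1 ≤ R := by
      have : (1 : ℝ) ≤ R := h2is.trans hRge
      exact_mod_cast this
    have hR0 : (0 : ℝ) < R := by exact_mod_cast hR1
    have hlogR : 1 + Real.log R ≤ 2 + i + Real.log Z / 2 := by
      have h1 : (R : ℝ) ≤ 2 * (2 ^ i * s) := by linarith
      have h2 := Real.log_le_log hR0 h1
      rw [Real.log_mul (by norm_num) (by positivity), Real.log_mul (by positivity) (by positivity), Real.log_pow] at h2
      have h3 : Real.log s = Real.log Z / 2 := Real.log_sqrt hZ0.le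
      have h4 := Real.log_two_lt_d9
      have h5 : (i : ℝ) * Real.log 2 ≤ i * 1 := by gcongr; linarith
      linarith
    have hlogR' : 1 + Real.log R ≤ (2 + i) * s := by
      have h1 : 2 + (i : ℝ) + Real.log Z / 2 ≤ (2 + i) * (1 + Real.log Z / 2) := by
        have : (0 : ℝ) ≤ i := by positivity
        nlinarith
      calc 1 + Real.log R ≤ (2 + i) * (1 + Real.log Z / 2) := hlogR.trans h1
        _ ≤ (2 + i) * s := by gcongr
    have hlR : 0 ≤ Real.log R := Real.log_natCast_nonneg R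
    have hexp : Real.exp (K * ((1 + Real.log R) / Z + 1)) ≤ Real.exp (3 * K) * (102 / 100) ^ i := by
      have h1 : K * ((1 + Real.log R) / Z + 1) ≤ 3 * K + i * (K / Z) := by
        have h2 : (1 + Real.log R) / Z ≤ 2 + i / Z := by
          rw [div_le_iff₀ hZ0]
          have h3 : (2 + (i : ℝ) / Z) * Z = 2 * Z + i := by field_simp
          rw [h3]
          have h4 : 2 + Real.log Z / 2 ≤ 2 * Z := by
            have : s ≤ Z := by nlinarith
            linarith
          linarith
        calc K * ((1 + Real.log R) / Z + 1) ≤ K * ((2 + i / Z) + 1) := by gcongr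
          _ = 3 * K + i * (K / Z) := by ring
      calc Real.exp (K * ((1 + Real.log R) / Z + 1)) ≤ Real.exp (3 * K + i * (K / Z)) := Real.exp_le_exp.mpr h1
        _ = Real.exp (3 * K) * Real.exp (K / Z) ^ i := by
            rw [Real.exp_add, ← Real.exp_nat_mul]
        _ ≤ _ := by gcongr
    have hb := hB z i R hz12 hR1
    rw [← hZ] at hb
    have hcoef : 0 ≤ (19 / 10 : ℝ) ^ i / r2 ^ i := by positivity
    refine (mul_le_mul_of_nonneg_left hb hcoef).trans ?_
    rw [mul_add]
    apply add_le_add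
    · calc (19 / 10 : ℝ) ^ i / r2 ^ i * (K * r2 ^ i / R) = K * (19 / 10) ^ i / R := by field_simp
        _ ≤ K * (19 / 10) ^ i / (2 ^ i * s) := by gcongr
        _ = (K / s) * ((19 / 10) ^ i / 2 ^ i) := by field_simp
        _ = (K / s) * ((19 / 10) / 2) ^ i := by rw [← div_pow]
        _ = _ := by norm_num
    · calc (19 / 10 : ℝ) ^ i / r2 ^ i * (K * (1 + Real.log R) * r2 ^ i * Real.exp (K * ((1 + Real.log R) / Z + 1)) / (2 ^ i * Z))
          = K * (1 + Real.log R) * Real.exp (K * ((1 + Real.log R) / Z + 1)) * (19 / 10) ^ i / (2 ^ i * Z) := by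
            field_simp
        _ ≤ K * ((2 + i) * s) * (Real.exp (3 * K) * (102 / 100) ^ i) * (19 / 10) ^ i / (2 ^ i * Z) := by gcongr
        _ ≤ K * ((200 * (101 / 100) ^ i) * s) * (Real.exp (3 * K) * (102 / 100) ^ i) * (19 / 10) ^ i / (2 ^ i * Z) := by
            have := two_add_le i
            gcongr
        _ = (200 * K * Real.exp (3 * K) / s) * ((101 / 100) ^ i * (102 / 100) ^ i * (19 / 10) ^ i / 2 ^ i) := by
            rw [← hss]; field_simp
        _ = (200 * K * Real.exp (3 * K) / s) * ((101 / 100) * (102 / 100) * (19 / 10) / 2) ^ i := by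
            rw [← mul_pow, ← mul_pow, ← div_pow]
        _ ≤ _ := by
            apply mul_le_mul_of_nonneg_left _ (by positivity)
            apply pow_le_pow_left₀ (by norm_num)
            norm_num
  refine (sum_le_sum hterm).trans ?_
  rw [sum_add_distrib, ← mul_sum, ← mul_sum]
  have g1 := geom_le M (95 / 100) (by norm_num) (by norm_num)
  have g2 := geom_le M (98 / 100) (by norm_num) (by norm_num)
  have e1 : (1 : ℝ) / (1 - 95 / 100) = 20 := by norm_num
  have e2 : (1 : ℝ) / (1 - 98 / 100) = 50 := by norm_num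
  rw [e1] at g1
  rw [e2] at g2
  calc _ ≤ (K / s) * 20 + (200 * K * Real.exp (3 * K) / s) * 50 := by gcongr
    _ = _ := by ring

end Pool.Agent.E456
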