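import Mathlib
import Pool.Agent.E456.BSum

/-!
# Numbers whose least `m` is composite
-/

namespace Pool.Agent.E456

open Finset Filter

/-- nontrivial factorizations -/
def DN (n : ℕ) : Finset (ℕ × ℕ) := n.divisorsAntidiagonal.filter (fun p => 1 < p.1 ∧ 1 < p.2)

lemma sum_DN_le (X A A' : Finset ℕ) (H : ℕ → ℕ → ℝ) (hH : ∀ a a', 0 ≤ H a a')
    (h : ∀ n ∈ X, ∀ p ∈ DN n, p.1 ∈ A ∧ p.2 ∈ A') :
    ∑ n ∈ X, ∑ p ∈ DN n, H p.1 p.2 ≤ ∑ a' ∈ A', ∑ a ∈ A, H a a' := by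
  have hdisj : (X : Set ℕ).PairwiseDisjoint DN := by
    intro n _ m _ hne
    rw [Function.onFun, Finset.disjoint_left]
    intro p hp hp'
    simp only [DN, mem_filter, Nat.mem_divisorsAntidiagonal] at hp hp'
    exact hne (hp.1.1.symm.trans hp'.1.1)
  rw [← sum_biUnion hdisj]
  rw [sum_comm, ← sum_product']
  apply sum_le_sum_of_subset_of_nonneg
  · intro p hp
    rw [mem_biUnion] at hp
    obtain ⟨n, hn, hpn⟩ := hp
    rw [mem_product]
    exact h n hn p hpn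
  · intro p _ _
    exact hH p.1 p.2

/-- sum over multipliers -/
lemma sum_k_le (K a' : ℕ) (ha' : 0 < a') :
    ∑ k ∈ (Ioc 0 K).filter (fun k => k * mm a' ≤ K * a'), Real.exp (2 * hh k)
      ≤ (K * a' / mm a' : ℝ) * Real.exp (2 * (2 * Real.exp 2)) := by
  have hmm : 0 < mm a' := (mm_spec a' ha').1
  have h1 : ∑ k ∈ (Ioc 0 K).filter (fun k => k * mm a' ≤ K * a'), Real.exp (2 * hh k)
      ≤ ∑ k ∈ Ioc 0 (K * a' / mm a'), Real.exp (2 * hh k) := by
    apply sum_le_sum_of_subset_of_nonneg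
    · intro k hk
      simp only [mem_filter, mem_Ioc] at hk ⊢
      exact ⟨hk.1.1, (Nat.le_div_iff_mul_le hmm).mpr hk.2⟩
    · intro _ _ _; positivity
  refine h1.trans ((sum_exp_hh 2 (by norm_num) _).trans ?_)
  apply mul_le_mul_of_nonneg_right _ (Real.exp_pos _).le
  have := Nat.cast_div_le (α := ℝ) (m := K * a') (n := mm a')
  push_cast at this
  exact this

/-- the typical composite numbers -/
theorem X1_bound : ∃ K1 : ℝ, 0 < K1 ∧ ∃ z0 : ℕ, 6 ^ 12 ≤ z0 ∧ ∀ (z N K M : ℕ) (C2 : ℝ) (X : Finset ℕ),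
    z0 ≤ z → z < N ^ 8 → 1 < N → N ^ 8 ≤ z ^ (2 ^ M) → 1 ≤ C2 →
    (∀ n ∈ X, n ∈ SQ z N (N ^ 8) ∧ (∀ i < M + 1, (2 : ℝ) ^ om (z ^ (2 ^ i)) n ≤ C2 * (19 / 10) ^ i) ∧
      Real.log n ≤ 2 * ∑ p ∈ DN n, Real.log p.1 * cnt K p.1 p.2) →
    ∑ n ∈ X, (1 : ℝ) / n ≤ K1 * C2 * K / (Real.log z * Real.sqrt (Real.log z)) := by
  obtain ⟨Ki, hKi, hinner⟩ := inner_sum
  obtain ⟨Kb, hKb, z0, hz0, hB⟩ := B_total
  set E : ℝ := Real.exp (2 * (2 * Real.exp 2)) with hE
  refine ⟨2 * 8 * (19 / 10) * Ki * E * Kb, by positivity, z0, hz0, ?_⟩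
  intro z N K M C2 X hz hzN hN hNM hC2 hX
  have hz12 : 6 ^ 12 ≤ z := hz0.trans hz
  have hz2 : 2 ≤ z := by omega
  have hlz : 0 < Real.log z := Real.log_pos (by exact_mod_cast (by omega : 1 < z))
  have hL : 0 < Real.log N := Real.log_pos (by exact_mod_cast hN)
  set L : ℝ := Real.log N with hLdef
  -- the weight
  set H : ℕ → ℕ → ℝ := fun a a' => ∑ i ∈ range M,
    (if a' ∈ Ioc (z ^ (2 ^ i)) (z ^ (2 ^ (i + 1))) then
      C2 * (19 / 10) ^ (i + 1) * ((1 / 2 : ℝ) ^ a'.primeFactors.card / a') *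
        (Real.log a * ((1 / 2 : ℝ) ^ om (z ^ (2 ^ (i + 1))) a / a)) * cnt K a a' else 0) with hHdef
  have hH0 : ∀ a a', 0 ≤ H a a' := by
    intro a a'
    simp only [hHdef]
    refine sum_nonneg fun i _ => ?_
    have := Real.log_natCast_nonneg a
    split_ifs <;> positivity
  -- facts about factorizations
  have hfact : ∀ n ∈ X, ∀ p ∈ DN n, p.1 ∈ (Ioc z (N ^ 8)).filter (fun a => Nat.Coprime a (WZ z)) ∧
      p.2 ∈ SQ z z (N ^ 8) := by
    intro n hn p hp
    obtain ⟨h1, _, _⟩ := hX n hn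
    simp only [SQ, mem_filter, mem_Ioc] at h1
    simp only [DN, mem_filter, Nat.mem_divisorsAntidiagonal] at hp
    have hd1 : p.1 ∣ n := Dvd.intro _ hp.1.1
    have hd2 : p.2 ∣ n := Dvd.intro_left _ hp.1.1
    have hn0 : 0 < n := by omega
    have hr1 := Nat.Coprime.coprime_dvd_left hd1 h1.2.2
    have hr2 := Nat.Coprime.coprime_dvd_left hd2 h1.2.2
    have hgt : ∀ d : ℕ, 1 < d → Nat.Coprime d (WZ z) → z < d := by
      intro d hd hc
      obtain ⟨l, hl, hld⟩ := Nat.exists_prime_and_dvd (by omega : d ≠ 1)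
      exact lt_of_lt_of_le (rough_prime_gt hc hl hld) (Nat.le_of_dvd (by omega) hld)
    simp only [SQ, mem_filter, mem_Ioc]
    exact ⟨⟨⟨hgt _ hp.2.1 hr1, (Nat.le_of_dvd hn0 hd1).trans h1.1.2⟩, hr1⟩,
      ⟨⟨hgt _ hp.2.2 hr2, (Nat.le_of_dvd hn0 hd2).trans h1.1.2⟩, h1.2.1.squarefree_of_dvd hd2, hr2⟩⟩
  have hstep1 : ∑ n ∈ X, (1 : ℝ) / n ≤ (2 / L) * ∑ n ∈ X, ∑ p ∈ DN n, H p.1 p.2 := by
    rw [mul_sum]
    refine sum_le_sum fun n hn => ?_
    obtain ⟨h1, h2, h3⟩ := hX n hn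
    have h1' := h1
    simp only [SQ, mem_filter, mem_Ioc] at h1'
    have hn0 : (0 : ℝ) < n := by exact_mod_cast (by omega : 0 < n)
    have hLn : L ≤ Real.log n := Real.log_le_log (by exact_mod_cast (by omega : 0 < N)) (by exact_mod_cast h1'.1.1.le)
    have h4 : 1 ≤ (2 / L) * ∑ p ∈ DN n, Real.log p.1 * cnt K p.1 p.2 := by
      rw [div_mul_eq_mul_div, le_div_iff₀ hL, one_mul]
      linarith
    have h5 : ∀ p ∈ DN n, (Real.log p.1 * cnt K p.1 p.2) / n ≤ H p.1 p.2 := by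
      intro p hp
      obtain ⟨hp1, hp2⟩ := hfact n hn p hp
      simp only [SQ, mem_filter, mem_Ioc] at hp1 hp2
      simp only [DN, mem_filter, Nat.mem_divisorsAntidiagonal] at hp
      obtain ⟨i, hi1, hi2⟩ := exists_scale z p.2 hz2 hp2.1.1
      have hiM : i < M := by
        by_contra hlt
        push Not at hlt
        have h6 : z ^ (2 ^ M) ≤ z ^ (2 ^ i) := u_mono z (by omega) hlt
        omega
      simp only [hHdef]
      have hnn : ∀ i ∈ range M, 0 ≤ (if p.2 ∈ Ioc (z ^ (2 ^ i)) (z ^ (2 ^ (i + 1))) then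
        C2 * (19 / 10) ^ (i + 1) * ((1 / 2 : ℝ) ^ p.2.primeFactors.card / p.2) *
        (Real.log p.1 * ((1 / 2 : ℝ) ^ om (z ^ (2 ^ (i + 1))) p.1 / p.1)) * cnt K p.1 p.2 else 0) := by
        intro i _
        have := Real.log_natCast_nonneg p.1
        split_ifs <;> positivity
      refine le_trans ?_ (single_le_sum hnn (mem_range.mpr hiM))
      rw [if_pos (mem_Ioc.mpr ⟨hi1, hi2⟩)]
      have hty := h2 (i + 1) (by omega)
      have hcop : Nat.Coprime p.1 p.2 := by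
        have hsq : Squarefree (p.1 * p.2) := by rw [hp.1.1]; exact h1'.2.1
        exact Nat.coprime_of_squarefree_mul hsq
      have hom : om (z ^ (2 ^ (i + 1))) n = om (z ^ (2 ^ (i + 1))) p.1 + p.2.primeFactors.card := by
        rw [← om_eq_card (z ^ (2 ^ (i + 1))) p.2 hi2, ← hp.1.1]
        unfold om
        rw [hcop.primeFactors_mul, filter_union, card_union_of_disjoint]
        exact disjoint_filter_filter hcop.disjoint_primeFactors
      rw [hom] at hty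
      have hone : 1 ≤ C2 * (19 / 10) ^ (i + 1) * (1 / 2 : ℝ) ^ p.2.primeFactors.card
          * (1 / 2 : ℝ) ^ om (z ^ (2 ^ (i + 1))) p.1 := by
        set m := om (z ^ (2 ^ (i + 1))) p.1 + p.2.primeFactors.card with hm
        have h6 : (0 : ℝ) < (1 / 2) ^ m := by positivity
        have h7 : (2 : ℝ) ^ m * (1 / 2) ^ m = 1 := by rw [← mul_pow]; norm_num
        calc (1 : ℝ) = (2 : ℝ) ^ m * (1 / 2) ^ m := h7.symm
          _ ≤ (C2 * (19 / 10) ^ (i + 1)) * (1 / 2) ^ m := mul_le_mul_of_nonneg_right hty h6.le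
          _ = _ := by rw [hm, pow_add]; ring
      have hn' : (n : ℝ) = p.1 * p.2 := by exact_mod_cast hp.1.1.symm
      have ha0 : (0 : ℝ) < p.1 := by exact_mod_cast (by omega : 0 < p.1)
      have ha'0 : (0 : ℝ) < p.2 := by exact_mod_cast (by omega : 0 < p.2)
      have hc0 : 0 ≤ (Real.log p.1 * cnt K p.1 p.2) / (p.1 * p.2) := by
        have := Real.log_natCast_nonneg p.1
        positivity
      rw [hn']
      calc (Real.log p.1 * cnt K p.1 p.2) / (p.1 * p.2)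
          ≤ (C2 * (19 / 10) ^ (i + 1) * (1 / 2 : ℝ) ^ p.2.primeFactors.card
          * (1 / 2 : ℝ) ^ om (z ^ (2 ^ (i + 1))) p.1) * ((Real.log p.1 * cnt K p.1 p.2) / (p.1 * p.2)) := by
            nlinarith
        _ = _ := by field_simp
    calc (1 : ℝ) / n ≤ ((2 / L) * ∑ p ∈ DN n, Real.log p.1 * cnt K p.1 p.2) / n := by gcongr
      _ = (2 / L) * ∑ p ∈ DN n, (Real.log p.1 * cnt K p.1 p.2) / n := by
          rw [mul_div_assoc, sum_div]
      _ ≤ _ := by
          apply mul_le_mul_of_nonneg_left (sum_le_sum h5) (by positivity)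
  refine hstep1.trans ?_
  have hstep2 := sum_DN_le X ((Ioc z (N ^ 8)).filter (fun a => Nat.Coprime a (WZ z))) (SQ z z (N ^ 8)) H hH0 hfact
  refine (mul_le_mul_of_nonneg_left hstep2 (by positivity)).trans ?_
  -- expand and bound
  have hstep3 : ∑ a' ∈ SQ z z (N ^ 8), ∑ a ∈ (Ioc z (N ^ 8)).filter (fun a => Nat.Coprime a (WZ z)), H a a'
      ≤ ∑ i ∈ range M, (C2 * (19 / 10) ^ (i + 1) * (Ki * (8 * L / Real.log z) / r2 ^ i) * (K * E)) * BB z i := by
    have e1 : ∀ a' ∈ SQ z z (N ^ 8), ∑ a ∈ (Ioc z (N ^ 8)).filter (fun a => Nat.Coprime a (WZ z)), H a a'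
        ≤ ∑ i ∈ range M, (if a' ∈ Ioc (z ^ (2 ^ i)) (z ^ (2 ^ (i + 1))) then
          (C2 * (19 / 10) ^ (i + 1) * (Ki * (8 * L / Real.log z) / r2 ^ i) * (K * E)) *
            ((1 / 2 : ℝ) ^ a'.primeFactors.card / mm a') else 0) := by
      intro a' ha'
      simp only [SQ, mem_filter, mem_Ioc] at ha'
      have ha'0 : 0 < a' := by omega
      have ha'0' : (0 : ℝ) < a' := by exact_mod_cast ha'0
      have hmm : 0 < mm a' := (mm_spec a' ha'0).1
      have hmm' : (0 : ℝ) < mm a' := by exact_mod_cast hmm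
      simp only [hHdef]
      rw [sum_comm]
      refine sum_le_sum fun i hi => ?_
      by_cases hblk : a' ∈ Ioc (z ^ (2 ^ i)) (z ^ (2 ^ (i + 1)))
      · simp only [if_pos hblk]
        have hscale : z ^ (2 ^ i) < N ^ 8 := lt_of_lt_of_le (mem_Ioc.mp hblk).1 ha'.1.2
        have e2 : ∀ a ∈ (Ioc z (N ^ 8)).filter (fun a => Nat.Coprime a (WZ z)),
            C2 * (19 / 10) ^ (i + 1) * ((1 / 2 : ℝ) ^ a'.primeFactors.card / a') *
            (Real.log a * ((1 / 2 : ℝ) ^ om (z ^ (2 ^ (i + 1))) a / a)) * cnt K a a'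
            = ∑ k ∈ (Ioc 0 K).filter (fun k => k * mm a' ≤ K * a'), (if (a * k + 1).Prime then
              (C2 * (19 / 10) ^ (i + 1) * ((1 / 2 : ℝ) ^ a'.primeFactors.card / a')) *
              (Real.log a * ((1 / 2 : ℝ) ^ om (z ^ (2 ^ (i + 1))) a / a)) else 0) := by
          intro a _
          rw [← sum_filter, sum_const, nsmul_eq_mul, mul_comm]
          congr 2
          unfold cnt
          rw [filter_filter]
          congr 1
          ext k
          simp only [mem_filter, mem_Ioc]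
          tauto
        rw [sum_congr rfl e2, sum_comm]
        have e3 : ∀ k ∈ (Ioc 0 K).filter (fun k => k * mm a' ≤ K * a'),
            ∑ a ∈ (Ioc z (N ^ 8)).filter (fun a => Nat.Coprime a (WZ z)), (if (a * k + 1).Prime then
              (C2 * (19 / 10) ^ (i + 1) * ((1 / 2 : ℝ) ^ a'.primeFactors.card / a')) *
              (Real.log a * ((1 / 2 : ℝ) ^ om (z ^ (2 ^ (i + 1))) a / a)) else 0)
            ≤ (C2 * (19 / 10) ^ (i + 1) * ((1 / 2 : ℝ) ^ a'.primeFactors.card / a')) *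
              (Ki * Real.exp (2 * hh k) * (8 * L / Real.log z) / r2 ^ i) := by
          intro k hk
          simp only [mem_filter, mem_Ioc] at hk
          rw [← sum_filter, filter_filter, ← mul_sum]
          apply mul_le_mul_of_nonneg_left _ (by positivity)
          have h9 := hinner z i (N ^ 8) k hz12 hscale hk.1.1
          rw [log_N8, ← hLdef] at h9
          exact h9
        refine (sum_le_sum e3).trans ?_
        have e4 := sum_k_le K a' ha'0
        rw [← hE] at e4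
        have hr := pow_pos r2_pos i
        calc ∑ k ∈ (Ioc 0 K).filter (fun k => k * mm a' ≤ K * a'),
            (C2 * (19 / 10) ^ (i + 1) * ((1 / 2 : ℝ) ^ a'.primeFactors.card / a')) *
              (Ki * Real.exp (2 * hh k) * (8 * L / Real.log z) / r2 ^ i)
            = (C2 * (19 / 10) ^ (i + 1) * ((1 / 2 : ℝ) ^ a'.primeFactors.card / a')) *
              (Ki * (8 * L / Real.log z) / r2 ^ i) *
              ∑ k ∈ (Ioc 0 K).filter (fun k => k * mm a' ≤ K * a'), Real.exp (2 * hh k) := by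
              rw [mul_sum]
              refine sum_congr rfl fun k _ => ?_
              ring
          _ ≤ (C2 * (19 / 10) ^ (i + 1) * ((1 / 2 : ℝ) ^ a'.primeFactors.card / a')) *
              (Ki * (8 * L / Real.log z) / r2 ^ i) * ((K * a' / mm a' : ℝ) * E) := by
              apply mul_le_mul_of_nonneg_left e4 (by positivity)
          _ = _ := by field_simp
      · simp only [if_neg hblk, sum_const_zero, le_refl]
    refine (sum_le_sum e1).trans ?_
    rw [sum_comm]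
    refine sum_le_sum fun i _ => ?_
    rw [← sum_filter, ← mul_sum]
    have hr := pow_pos r2_pos i
    apply mul_le_mul_of_nonneg_left _ (by positivity)
    unfold BB
    apply sum_le_sum_of_subset_of_nonneg
    · intro a' ha'
      simp only [SQ, mem_filter, mem_Ioc] at ha' ⊢
      exact ⟨ha'.2, ha'.1.2⟩
    · intro _ _ _; positivity
  refine (mul_le_mul_of_nonneg_left hstep3 (by positivity)).trans ?_
  have hstep4 : ∑ i ∈ range M, (C2 * (19 / 10) ^ (i + 1) * (Ki * (8 * L / Real.log z) / r2 ^ i) * (K * E)) * BB z i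
      = (C2 * (19 / 10) * (Ki * (8 * L / Real.log z)) * (K * E)) * ∑ i ∈ range M, (19 / 10 : ℝ) ^ i / r2 ^ i * BB z i := by
    rw [mul_sum]
    refine sum_congr rfl fun i _ => ?_
    rw [pow_succ]
    ring
  rw [hstep4]
  have hB' := hB z hz M
  calc (2 / L) * ((C2 * (19 / 10) * (Ki * (8 * L / Real.log z)) * (K * E)) * ∑ i ∈ range M, (19 / 10 : ℝ) ^ i / r2 ^ i * BB z i)
      ≤ (2 / L) * ((C2 * (19 / 10) * (Ki * (8 * L / Real.log z)) * (K * E)) * (Kb / Real.sqrt (Real.log z))) := by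
        gcongr
    _ = _ := by field_simp

/-- the powerful case -/
theorem X2_bound (ε : ℝ) (hε : 0 < ε) : ∀ᶠ N : ℕ in atTop, ∀ X : Finset ℕ,
    (∀ n ∈ X, n ∈ Ioc N (N ^ 8) ∧ ∃ s t n' : ℕ, 0 < s ∧ 0 < t ∧ 0 < n' ∧ t ≤ KK N ∧ n' ≤ n ∧ s ^ 2 ≤ KK N * n ∧
      n < s ^ 4 + 1 ∧ n = n' * (s * s.totient / t) ∧ s ^ 2 * n' ≤ KK N * n) →
    ∑ n ∈ X, (1 : ℝ) / n ≤ ε := by
  filter_upwards [log_pow_eventually 12 ((18 / ε) ^ 4), log_ge_eventually 1, log_ge_eventually ε,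
    eventually_ge_atTop 2] with N h1 h2 h2' h3 X hX
  set L : ℝ := Real.log N with hL
  have hL0 : 0 < L := by linarith
  have hKK : (KK N : ℝ) ≤ L := Nat.floor_le hL0.le
  set s0 := Nat.sqrt (Nat.sqrt N) with hs0
  have hs04 : s0 ^ 4 ≤ N := by
    have e1 : s0 * s0 ≤ Nat.sqrt N := Nat.sqrt_le (Nat.sqrt N)
    have e2 : Nat.sqrt N * Nat.sqrt N ≤ N := Nat.sqrt_le N
    calc s0 ^ 4 = (s0 * s0) * (s0 * s0) := by ring
      _ ≤ Nat.sqrt N * Nat.sqrt N := Nat.mul_le_mul e1 e1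
      _ ≤ N := e2
  have hs0big : N < (s0 + 1) ^ 4 := by
    have e1 : Nat.sqrt N < (s0 + 1) * (s0 + 1) := Nat.lt_succ_sqrt (Nat.sqrt N)
    have e2 : N < (Nat.sqrt N + 1) * (Nat.sqrt N + 1) := Nat.lt_succ_sqrt N
    calc N < (Nat.sqrt N + 1) * (Nat.sqrt N + 1) := e2
      _ ≤ ((s0 + 1) * (s0 + 1)) * ((s0 + 1) * (s0 + 1)) := Nat.mul_le_mul e1 e1
      _ = (s0 + 1) ^ 4 := by ring
  have hs0L : 9 * L ^ 3 / ε ≤ s0 := by
    have e1 : (18 / ε * L ^ 3) ^ 4 < ((s0 : ℝ) + 1) ^ 4 := by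
      calc (18 / ε * L ^ 3) ^ 4 = (18 / ε) ^ 4 * L ^ 12 := by ring
        _ ≤ (N : ℝ) := h1
        _ < ((s0 : ℝ) + 1) ^ 4 := by exact_mod_cast hs0big
    have e2 : 18 / ε * L ^ 3 < (s0 : ℝ) + 1 := lt_of_pow_lt_pow_left₀ 4 (by positivity) e1
    have e3 : 1 ≤ 9 * L ^ 3 / ε := by
      rw [le_div_iff₀ hε]
      have : L ≤ L ^ 3 := le_self_pow₀ h2 (by norm_num)
      linarith
    have e4 : 18 / ε * L ^ 3 = 2 * (9 * L ^ 3 / ε) := by ring
    linarith
  have hs0pos : 0 < s0 := by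
    rcases Nat.eq_zero_or_pos s0 with h | h
    · rw [h] at hs0L
      have : 0 < 9 * L ^ 3 / ε := by positivity
      simp only [Nat.cast_zero] at hs0L
      linarith
    · exact h
  have hs0R : (0 : ℝ) < s0 := by exact_mod_cast hs0pos
  have hch : ∀ n ∈ X, ∃ x : ℕ × ℕ × ℕ, x.1 ∈ Ioc s0 (KK N * N ^ 8) ∧ x.2.1 ∈ Ioc 0 (KK N) ∧ x.2.2 ∈ Ioc 0 (N ^ 8) ∧
      n = x.2.2 * (x.1 * x.1.totient / x.2.1) ∧ x.1 ^ 2 * x.2.2 ≤ KK N * n := by
    intro n hn
    obtain ⟨h4, s, t, n', hs, ht, hn', htK, hn'n, hs2, hns, heq, hle⟩ := hX n hn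
    rw [mem_Ioc] at h4
    refine ⟨(s, t, n'), ?_, mem_Ioc.mpr ⟨ht, htK⟩, mem_Ioc.mpr ⟨hn', hn'n.trans h4.2⟩, heq, hle⟩
    rw [mem_Ioc]
    constructor
    · by_contra hlt
      push Not at hlt
      have : s ^ 4 ≤ s0 ^ 4 := Nat.pow_le_pow_left hlt 4
      omega
    · calc s ≤ s ^ 2 := Nat.le_self_pow (by norm_num) s
        _ ≤ KK N * n := hs2
        _ ≤ KK N * N ^ 8 := Nat.mul_le_mul_left _ h4.2
  choose! g hg1 hg2 hg3 hg4 hg5 using hch
  have hinj : Set.InjOn g (X : Set ℕ) := by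
    intro n hn m hm h
    rw [hg4 n hn, hg4 m hm, h]
  calc ∑ n ∈ X, (1 : ℝ) / n ≤ ∑ n ∈ X, (KK N : ℝ) / (((g n).1 : ℝ) ^ 2 * (g n).2.2) := by
        refine sum_le_sum fun n hn => ?_
        have hn0 : (0 : ℝ) < n := by
          have := (mem_Ioc.mp (hX n hn).1).1
          exact_mod_cast (by omega : 0 < n)
        have e1 : (0 : ℝ) < (g n).1 := by
          have := (mem_Ioc.mp (hg1 n hn)).1
          exact_mod_cast (by omega : 0 < (g n).1)
        have e2 : (0 : ℝ) < (g n).2.2 := by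
          have := (mem_Ioc.mp (hg3 n hn)).1
          exact_mod_cast this
        rw [div_le_div_iff₀ hn0 (by positivity), one_mul]
        exact_mod_cast hg5 n hn
    _ = ∑ x ∈ X.image g, (KK N : ℝ) / ((x.1 : ℝ) ^ 2 * x.2.2) := by rw [sum_image hinj]
    _ ≤ ∑ x ∈ (Ioc s0 (KK N * N ^ 8)) ×ˢ ((Ioc 0 (KK N)) ×ˢ (Ioc 0 (N ^ 8))), (KK N : ℝ) / ((x.1 : ℝ) ^ 2 * x.2.2) := by
        apply sum_le_sum_of_subset_of_nonneg
        · intro x hx
          rw [mem_image] at hx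
          obtain ⟨n, hn, rfl⟩ := hx
          simp only [mem_product]
          exact ⟨hg1 n hn, hg2 n hn, hg3 n hn⟩
        · intro _ _ _; positivity
    _ = (KK N : ℝ) * ((∑ s ∈ Ioc s0 (KK N * N ^ 8), (1 : ℝ) / (s : ℝ) ^ 2) * ((KK N : ℝ) * ∑ n' ∈ Ioc 0 (N ^ 8), (1 : ℝ) / n')) := by
        rw [sum_product]
        simp_rw [sum_product, sum_const, Nat.card_Ioc, tsub_zero, nsmul_eq_mul]
        rw [sum_mul, mul_sum]
        refine sum_congr rfl fun s _ => ?_
        rw [mul_sum, mul_sum, mul_sum, mul_sum]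
        refine sum_congr rfl fun n' _ => ?_
        ring
    _ ≤ L * ((1 / s0) * (L * (1 + 8 * L))) := by
        have e1 := inv_sq_tail_le s0 (KK N * N ^ 8) hs0pos
        have e2 := harmonic_le (N ^ 8)
        rw [log_N8, ← hL] at e2
        gcongr
    _ ≤ L * ((1 / s0) * (L * (9 * L))) := by
        gcongr
        linarith
    _ = (9 * L ^ 3) / s0 := by ring
    _ ≤ ε := by
        rw [div_le_iff₀ hs0R]
        rw [div_le_iff₀ hε] at hs0L
        linarith

end Pool.Agent.E456
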