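import Mathlib
import Pool.Agent.E456.Composite

/-!
# Positive logarithmic mass of `n` with `m_n = p_n`
-/

namespace Pool.Agent.E456

open Finset Filter

/-- least prime `≡ 1 mod n` -/
noncomputable def pn (n : ℕ) : ℕ := sInf {p : ℕ | p.Prime ∧ p ≡ 1 [MOD n]}

/-- bad numbers -/
noncomputable def Bad (z N : ℕ) : Finset ℕ := by
  classical
  exact (Ioc N (N ^ 8)).filter (fun n => Nat.Coprime n (WZ z) ∧ mm n ≤ KK N * n ∧ ¬ (mm n).Prime)

lemma mem_Bad (z N n : ℕ) : n ∈ Bad z N ↔ n ∈ Ioc N (N ^ 8) ∧ Nat.Coprime n (WZ z) ∧ mm n ≤ KK N * n ∧ ¬ (mm n).Prime := by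
  unfold Bad
  rw [mem_filter]

theorem bad_mass (ε : ℝ) (hε : 0 < ε) : ∃ z : ℕ, 6 ^ 12 ≤ z ∧ ∀ᶠ N : ℕ in atTop,
    ∑ n ∈ Bad z N, (1 : ℝ) / n ≤ ε * Real.log N / Real.log z := by
  classical
  obtain ⟨Ca, hCa, hat⟩ := atypical_mass
  obtain ⟨Cn, hCn, hns⟩ := nonsq_mass
  obtain ⟨K1, hK1, z0, hz0, hX1⟩ := X1_bound
  -- choice of C2
  set C2 : ℝ := max 1 ((32 * Ca / ε) ^ 2) with hC2
  have hC21 : 1 ≤ C2 := le_max_left _ _
  have hsC2 : 32 * Ca / ε ≤ Real.sqrt C2 := by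
    apply Real.le_sqrt_of_sq_le
    exact le_max_right _ _
  have hsC2pos : 0 < Real.sqrt C2 := Real.sqrt_pos.mpr (by linarith)
  -- choice of z
  obtain ⟨z1, hz1⟩ := (log_ge_eventually ((4 * K1 * C2 / ε) ^ 2)).exists_forall_of_atTop
  obtain ⟨z2, hz2⟩ := exists_nat_gt (32 * Cn / ε)
  set z : ℕ := max z0 (max z1 z2) with hz
  have hzz0 : z0 ≤ z := le_max_left _ _
  have hzz1 : z1 ≤ z := (le_max_left _ _).trans (le_max_right _ _)
  have hzz2 : z2 ≤ z := (le_max_right _ _).trans (le_max_right _ _)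
  have hz12 : 6 ^ 12 ≤ z := hz0.trans hzz0
  refine ⟨z, hz12, ?_⟩
  have hz2' : 2 ≤ z := by omega
  have hlz : 0 < Real.log z := Real.log_pos (by exact_mod_cast (by omega : 1 < z))
  have hzpos : (0 : ℝ) < z := by exact_mod_cast (by omega : 0 < z)
  have hlz1 := hz1 z hzz1
  have hslz : 4 * K1 * C2 / ε ≤ Real.sqrt (Real.log z) := Real.le_sqrt_of_sq_le hlz1
  have hslz0 : 0 < Real.sqrt (Real.log z) := Real.sqrt_pos.mpr hlz
  have hz2'' : 32 * Cn / ε ≤ z := hz2.le.trans (by exact_mod_cast hzz2)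
  filter_upwards [X2_bound (ε / (4 * Real.log z)) (by positivity), eventually_ge_atTop (z + 1), log_ge_eventually 1]
    with N hX2 hNz hL1
  set L : ℝ := Real.log N with hL
  have hL0 : 0 < L := by linarith
  have hKK : (KK N : ℝ) ≤ L := Nat.floor_le hL0.le
  have hN1 : 1 < N := by omega
  have hzN8 : z < N ^ 8 := lt_of_lt_of_le hNz (Nat.le_self_pow (by norm_num) N)
  -- M
  set M : ℕ := N ^ 8 with hM
  have hNM : N ^ 8 ≤ z ^ (2 ^ M) := by
    have h1 : M < 2 ^ M := Nat.lt_two_pow_self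
    have h2 : 2 ^ M < z ^ (2 ^ M) := by
      calc 2 ^ M < 2 ^ (2 ^ M) := Nat.pow_lt_pow_right (by norm_num) h1
        _ ≤ z ^ (2 ^ M) := Nat.pow_le_pow_left hz2' _
    omega
  -- the four sets
  set S1 := (Ioc N (N ^ 8)).filter (fun n => Nat.Coprime n (WZ z) ∧ ¬ Squarefree n) with hS1
  set S2 := (SQ z N (N ^ 8)).filter (fun n => ¬ ∀ i < M + 1, (2 : ℝ) ^ om (z ^ (2 ^ i)) n ≤ C2 * (19 / 10) ^ i) with hS2
  set S3 := (SQ z N (N ^ 8)).filter (fun n => (∀ i < M + 1, (2 : ℝ) ^ om (z ^ (2 ^ i)) n ≤ C2 * (19 / 10) ^ i) ∧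
      Real.log n ≤ 2 * ∑ p ∈ DN n, Real.log p.1 * cnt (KK N) p.1 p.2) with hS3
  set S4 := (Ioc N (N ^ 8)).filter (fun n => ∃ s t n' : ℕ, 0 < s ∧ 0 < t ∧ 0 < n' ∧ t ≤ KK N ∧ n' ≤ n ∧
      s ^ 2 ≤ KK N * n ∧ n < s ^ 4 + 1 ∧ n = n' * (s * s.totient / t) ∧ s ^ 2 * n' ≤ KK N * n) with hS4
  have hcover : Bad z N ⊆ S1 ∪ (S2 ∪ (S3 ∪ S4)) := by
    intro n hn
    rw [mem_Bad] at hn
    obtain ⟨hnI, hc, hmK, hmp⟩ := hn
    simp only [mem_union]
    by_cases hsq : Squarefree n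
    · have hSQ : n ∈ SQ z N (N ^ 8) := by
        simp only [SQ, mem_filter]; exact ⟨hnI, hsq, hc⟩
      by_cases hty : ∀ i < M + 1, (2 : ℝ) ^ om (z ^ (2 ^ i)) n ≤ C2 * (19 / 10) ^ i
      · right; right
        have hn1 : 1 < n := by rw [mem_Ioc] at hnI; omega
        rcases dichotomy n (KK N) hsq hn1 hmK hmp with h | h
        · left
          rw [hS3, mem_filter]
          exact ⟨hSQ, hty, h⟩
        · right
          rw [hS4, mem_filter]
          exact ⟨hnI, h⟩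
      · right; left
        rw [hS2, mem_filter]
        exact ⟨hSQ, hty⟩
    · left
      rw [hS1, mem_filter]
      exact ⟨hnI, hc, hsq⟩
  have hnn : ∀ n : ℕ, (0 : ℝ) ≤ 1 / n := fun n => by positivity
  have hun : ∀ A B : Finset ℕ, ∑ n ∈ A ∪ B, (1 : ℝ) / n ≤ ∑ n ∈ A, (1 : ℝ) / n + ∑ n ∈ B, (1 : ℝ) / n := by
    intro A B
    rw [← sum_union_inter]
    have : 0 ≤ ∑ n ∈ A ∩ B, (1 : ℝ) / n := sum_nonneg fun n _ => hnn n
    linarith
  have hsum : ∑ n ∈ Bad z N, (1 : ℝ) / n ≤ ∑ n ∈ S1, (1 : ℝ) / n + (∑ n ∈ S2, (1 : ℝ) / n +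
      (∑ n ∈ S3, (1 : ℝ) / n + ∑ n ∈ S4, (1 : ℝ) / n)) := by
    calc ∑ n ∈ Bad z N, (1 : ℝ) / n ≤ ∑ n ∈ S1 ∪ (S2 ∪ (S3 ∪ S4)), (1 : ℝ) / n :=
          sum_le_sum_of_subset_of_nonneg hcover fun n _ _ => hnn n
      _ ≤ _ := by
          have a1 := hun S1 (S2 ∪ (S3 ∪ S4))
          have a2 := hun S2 (S3 ∪ S4)
          have a3 := hun S3 S4
          linarith
  have hlog8 : Real.log ((N ^ 8 : ℕ) : ℝ) = 8 * L := by rw [log_N8]
  -- bounds
  have b1 : ∑ n ∈ S1, (1 : ℝ) / n ≤ ε / 4 * (L / Real.log z) := by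
    have h := hns z N (N ^ 8) hz2' hzN8.le
    rw [hlog8] at h
    refine h.trans ?_
    have h2 : Cn / z ≤ ε / 32 := by
      rw [div_le_div_iff₀ hzpos (by norm_num)]
      rw [div_le_iff₀ hε] at hz2''
      linarith
    calc Cn / z * (8 * L / Real.log z) ≤ ε / 32 * (8 * L / Real.log z) := by gcongr
      _ = _ := by ring
  have b2 : ∑ n ∈ S2, (1 : ℝ) / n ≤ ε / 4 * (L / Real.log z) := by
    have h := hat z N (N ^ 8) (M + 1) C2 hz2' hzN8.le hC21
    rw [hlog8] at h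
    refine h.trans ?_
    have h2 : Ca / Real.sqrt C2 ≤ ε / 32 := by
      rw [div_le_div_iff₀ hsC2pos (by norm_num)]
      rw [div_le_iff₀ hε] at hsC2
      linarith
    calc Ca / Real.sqrt C2 * (8 * L / Real.log z) ≤ ε / 32 * (8 * L / Real.log z) := by gcongr
      _ = _ := by ring
  have b3 : ∑ n ∈ S3, (1 : ℝ) / n ≤ ε / 4 * (L / Real.log z) := by
    have h := hX1 z N (KK N) M C2 S3 hzz0 hzN8 hN1 hNM hC21 (by
      intro n hn
      rw [hS3, mem_filter] at hn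
      exact ⟨hn.1, hn.2.1, hn.2.2⟩)
    refine h.trans ?_
    have h2 : K1 * C2 / Real.sqrt (Real.log z) ≤ ε / 4 := by
      rw [div_le_div_iff₀ hslz0 (by norm_num)]
      rw [div_le_iff₀ hε] at hslz
      linarith
    calc K1 * C2 * (KK N) / (Real.log z * Real.sqrt (Real.log z))
        ≤ K1 * C2 * L / (Real.log z * Real.sqrt (Real.log z)) := by gcongr
      _ = (K1 * C2 / Real.sqrt (Real.log z)) * (L / Real.log z) := by field_simp
      _ ≤ _ := by gcongr
  have b4 : ∑ n ∈ S4, (1 : ℝ) / n ≤ ε / 4 * (L / Real.log z) := by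
    have h := hX2 S4 (by
      intro n hn
      rw [hS4, mem_filter] at hn
      exact hn)
    refine h.trans ?_
    calc ε / (4 * Real.log z) = ε / 4 * (1 / Real.log z) := by field_simp
      _ ≤ _ := by gcongr
  calc _ ≤ _ := hsum
    _ ≤ ε / 4 * (L / Real.log z) + (ε / 4 * (L / Real.log z) + (ε / 4 * (L / Real.log z) + ε / 4 * (L / Real.log z))) := by
        linarith
    _ = _ := by ring

/-- numbers with at least one prime -/
noncomputable def Good (z N : ℕ) : Finset ℕ :=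
  (Ioc N (N ^ 8)).filter (fun n => Nat.Coprime n (WZ z) ∧ 1 ≤ rr N n)

theorem good_mass : ∃ c : ℝ, 0 < c ∧ ∀ z : ℕ, 6 ≤ z → ∀ᶠ N : ℕ in atTop,
    c * Real.log N / Real.log z ≤ ∑ n ∈ Good z N, (1 : ℝ) / n := by
  obtain ⟨c, hc, h1⟩ := first_moment
  obtain ⟨C, hC, h2⟩ := second_moment
  refine ⟨c ^ 2 / C, by positivity, fun z hz => ?_⟩
  filter_upwards [h1 z (by omega), h2 z hz] with N hN1 hN2
  set R := (Ioc N (N ^ 8)).filter (fun n => Nat.Coprime n (WZ z)) with hR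
  set lam : ℝ := c / C with hlam
  have hlam0 : 0 < lam := by positivity
  have h3 : ∑ n ∈ R, (rr N n : ℝ) / n ≤ lam / 2 * ∑ n ∈ R, (rr N n : ℝ) ^ 2 / n
      + 1 / (2 * lam) * ∑ n ∈ Good z N, (1 : ℝ) / n := by
    have e1 : ∑ n ∈ Good z N, (1 : ℝ) / n = ∑ n ∈ R, (if 1 ≤ rr N n then (1 : ℝ) / n else 0) := by
      rw [← sum_filter, hR, filter_filter]
      rfl
    rw [e1, mul_sum, mul_sum, ← sum_add_distrib]
    refine sum_le_sum fun n _ => ?_
    by_cases h : 1 ≤ rr N n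
    · rw [if_pos h]
      have e2 : lam / 2 * ((rr N n : ℝ) ^ 2 / n) + 1 / (2 * lam) * (1 / n)
          = (lam / 2 * (rr N n : ℝ) ^ 2 + 1 / (2 * lam)) / n := by ring
      rw [e2]
      apply div_le_div_of_nonneg_right _ (by positivity)
      have e3 : lam / 2 * (rr N n : ℝ) ^ 2 + 1 / (2 * lam) - rr N n = (lam * rr N n - 1) ^ 2 / (2 * lam) := by
        field_simp
        ring
      have e4 : 0 ≤ (lam * (rr N n : ℝ) - 1) ^ 2 / (2 * lam) := by positivity
      linarith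
    · have h0 : rr N n = 0 := by omega
      rw [if_neg h, h0]
      simp
  set X : ℝ := Real.log N / Real.log z with hX
  have e5 : c * Real.log N / Real.log z = c * X := by rw [hX]; ring
  have e6 : C * Real.log N / Real.log z = C * X := by rw [hX]; ring
  rw [e5] at hN1
  rw [e6] at hN2
  have h4 : lam / 2 * ∑ n ∈ R, (rr N n : ℝ) ^ 2 / n ≤ lam / 2 * (C * X) := by gcongr
  have h5 : lam / 2 * (C * X) = c * X / 2 := by rw [hlam]; field_simp
  have h6 : c * X / 2 ≤ 1 / (2 * lam) * ∑ n ∈ Good z N, (1 : ℝ) / n := by linarith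
  have h7 : c * X / 2 * (2 * lam) ≤ ∑ n ∈ Good z N, (1 : ℝ) / n := by
    rw [one_div_mul_eq_div, le_div_iff₀ (by positivity)] at h6
    exact h6
  calc c ^ 2 / C * Real.log N / Real.log z = c * X / 2 * (2 * lam) := by rw [hX, hlam]; ring
    _ ≤ _ := h7

lemma good_not_bad (z N n : ℕ) (hg : n ∈ Good z N) (hb : n ∉ Bad z N) : ¬ (mm n < pn n) := by
  intro hlt
  apply hb
  rw [mem_Bad]
  simp only [Good, mem_filter] at hg
  obtain ⟨hI, hc, hr⟩ := hg
  have hn0 : 0 < n := by rw [mem_Ioc] at hI; omega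
  refine ⟨hI, hc, ?_, ?_⟩
  · have h1 : 0 < ((Ioc 0 (KK N)).filter (fun k => (n * k + 1).Prime)).card := hr
    obtain ⟨k, hk⟩ := card_pos.mp h1
    simp only [mem_filter, mem_Ioc] at hk
    have h2 : pn n ≤ n * k + 1 := by
      apply Nat.sInf_le
      refine ⟨hk.2, ?_⟩
      have : n * k + 1 ≡ 0 + 1 [MOD n] := Nat.ModEq.add_right 1 (Nat.modEq_zero_iff_dvd.mpr (Dvd.intro k rfl))
      simpa using this
    have h3 : n * k ≤ n * KK N := Nat.mul_le_mul_left _ hk.1.2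
    have h4 : n * KK N = KK N * n := mul_comm _ _
    omega
  · intro hp
    obtain ⟨h1, h2⟩ := mm_spec n hn0
    rw [Nat.totient_prime hp] at h2
    have h3 : pn n ≤ mm n := by
      apply Nat.sInf_le
      refine ⟨hp, ?_⟩
      exact ((Nat.modEq_iff_dvd' hp.one_le).mpr h2).symm
    omega

/-- The set of `n` with `m_n ≥ p_n` has positive logarithmic mass on `(N, N^8]`. -/
theorem main_mass : ∃ c : ℝ, 0 < c ∧ ∀ᶠ N : ℕ in atTop,
    c * Real.log N ≤ ∑ n ∈ (Ioc N (N ^ 8)).filter (fun n => ¬ (mm n < pn n)), (1 : ℝ) / n := by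
  classical
  obtain ⟨c, hc, hg⟩ := good_mass
  obtain ⟨z, hz, hb⟩ := bad_mass (c / 2) (by positivity)
  have hlz : 0 < Real.log z := Real.log_pos (by exact_mod_cast (by omega : 1 < z))
  refine ⟨c / 2 / Real.log z, by positivity, ?_⟩
  filter_upwards [hb, hg z (by omega)] with N h1 h2
  have h3 : ∑ n ∈ Good z N, (1 : ℝ) / n ≤ ∑ n ∈ Bad z N, (1 : ℝ) / n
      + ∑ n ∈ (Ioc N (N ^ 8)).filter (fun n => ¬ (mm n < pn n)), (1 : ℝ) / n := by
    have hsub : Good z N ⊆ Bad z N ∪ (Ioc N (N ^ 8)).filter (fun n => ¬ (mm n < pn n)) := by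
      intro n hn
      rw [mem_union]
      by_cases h : n ∈ Bad z N
      · exact Or.inl h
      · right
        rw [mem_filter]
        exact ⟨(mem_filter.mp hn).1, good_not_bad z N n hn h⟩
    calc _ ≤ ∑ n ∈ Bad z N ∪ (Ioc N (N ^ 8)).filter (fun n => ¬ (mm n < pn n)), (1 : ℝ) / n :=
          sum_le_sum_of_subset_of_nonneg hsub fun n _ _ => by positivity
      _ ≤ _ := by
          rw [← sum_union_inter]
          have : 0 ≤ ∑ n ∈ Bad z N ∩ (Ioc N (N ^ 8)).filter (fun n => ¬ (mm n < pn n)), (1 : ℝ) / n :=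
            sum_nonneg fun n _ => by positivity
          linarith
  have e1 : c / 2 / Real.log z * Real.log N = c * Real.log N / Real.log z - c / 2 * Real.log N / Real.log z := by
    field_simp
    ring
  rw [e1]
  linarith

/-- partial summation -/
lemma log_mass_le (P : ℕ → Prop) [DecidablePred P] (ε : ℝ) (hε : 0 ≤ ε) (M X : ℕ) (hM : 1 ≤ M) (hMX : M ≤ X)
    (h : ∀ t, M ≤ t → (((range (t + 1)).filter P).card : ℝ) ≤ ε * t) :
    ∑ n ∈ (Ioc M X).filter P, (1 : ℝ) / n ≤ (((range (X + 1)).filter P).card : ℝ) / X + ε * ∑ n ∈ Ioc M X, (1 : ℝ) / n := by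
  induction X, hMX using Nat.le_induction with
  | base => simp; positivity
  | succ X hX ih =>
    have hX0 : (0 : ℝ) < X := by exact_mod_cast (by omega : 0 < X)
    have hins : Ioc M (X + 1) = insert (X + 1) (Ioc M X) := by
      ext x; simp only [mem_Ioc, mem_insert]; omega
    have hnot : X + 1 ∉ Ioc M X := by simp
    rw [hins, sum_insert hnot, filter_insert, range_add_one, filter_insert]
    have hX' := h X hX
    have key : (((range (X + 1)).filter P).card : ℝ) / X ≤ (((range (X + 1)).filter P).card : ℝ) / ((X + 1 : ℕ) : ℝ)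
        + ε * (1 / ((X + 1 : ℕ) : ℝ)) := by
      push_cast
      rw [div_add' _ _ _ (by positivity), div_le_div_iff₀ hX0 (by positivity)]
      have e : ε * (1 / ((X : ℝ) + 1)) * ((X : ℝ) + 1) = ε := by field_simp
      rw [e]
      nlinarith
    split_ifs with hp
    · rw [sum_insert (by simp), card_insert_of_notMem (by simp)]
      push_cast at *
      have e2 : ((((range (X + 1)).filter P).card : ℝ) + 1) / ((X : ℝ) + 1)
          = (((range (X + 1)).filter P).card : ℝ) / ((X : ℝ) + 1) + 1 / ((X : ℝ) + 1) := by ring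
      rw [e2]
      linarith
    · push_cast at *
      linarith

theorem final : ¬ Tendsto
      (fun N : ℕ =>
        (((Finset.range N).filter (fun n : ℕ => mm n < pn n)).card : ℝ) / (N : ℝ)) atTop (nhds 1) := by
  intro htend
  obtain ⟨c, hc, hmain⟩ := main_mass
  set ε : ℝ := c / 64 with hε
  have hε0 : 0 < ε := by positivity
  have h1 := (tendsto_order.mp htend).1 (1 - ε) (by linarith)
  obtain ⟨N0, hN0⟩ := h1.exists_forall_of_atTop
  obtain ⟨N1, hN1⟩ := hmain.exists_forall_of_atTop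
  obtain ⟨N2, hN2⟩ := (log_ge_eventually 1).exists_forall_of_atTop
  set N : ℕ := max (max N0 N1) (max N2 1) with hN
  have hNN0 : N0 ≤ N := (le_max_left _ _).trans (le_max_left _ _)
  have hNN1 : N1 ≤ N := (le_max_right _ _).trans (le_max_left _ _)
  have hNN2 : N2 ≤ N := (le_max_left _ _).trans (le_max_right _ _)
  have hNN3 : 1 ≤ N := (le_max_right _ _).trans (le_max_right _ _)
  have hcount : ∀ t, N ≤ t → (((range (t + 1)).filter (fun n => ¬ (mm n < pn n))).card : ℝ) ≤ 2 * ε * t := by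
    intro t ht
    have h2 := hN0 (t + 1) (by omega)
    have ht0 : (0 : ℝ) < ((t + 1 : ℕ) : ℝ) := by positivity
    have ht1 : (1 : ℝ) ≤ t := by exact_mod_cast (by omega : 1 ≤ t)
    rw [lt_div_iff₀ ht0] at h2
    have h3 : ((range (t + 1)).filter (fun n => mm n < pn n)).card + ((range (t + 1)).filter (fun n => ¬ (mm n < pn n))).card
        = t + 1 := by
      rw [card_filter_add_card_filter_not, card_range]
    have h4 : (((range (t + 1)).filter (fun n => mm n < pn n)).card : ℝ)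
        + (((range (t + 1)).filter (fun n => ¬ (mm n < pn n))).card : ℝ) = t + 1 := by exact_mod_cast h3
    push_cast at h2
    nlinarith
  have h2 := log_mass_le (fun n => ¬ (mm n < pn n)) (2 * ε) (by positivity) N (N ^ 8) hNN3
    (Nat.le_self_pow (by norm_num) N) hcount
  have h3 := hN1 N hNN1
  have h4 := hN2 N hNN2
  have h5 := harmonic_upper N (N ^ 8) hNN3 (Nat.le_self_pow (by norm_num) N)
  rw [log_ratio_N8 N hNN3] at h5
  have h6 := hcount (N ^ 8) (Nat.le_self_pow (by norm_num) N)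
  have hN8 : (0 : ℝ) < ((N ^ 8 : ℕ) : ℝ) := by
    have : 0 < N ^ 8 := pow_pos (by omega) 8
    exact_mod_cast this
  have h7 : (((range (N ^ 8 + 1)).filter (fun n => ¬ (mm n < pn n))).card : ℝ) / ((N ^ 8 : ℕ) : ℝ) ≤ 2 * ε := by
    rw [div_le_iff₀ hN8]
    exact h6
  have h8 : 2 * ε * ∑ n ∈ Ioc N (N ^ 8), (1 : ℝ) / n ≤ 2 * ε * (7 * Real.log N) := by gcongr
  have h9 : c * Real.log N ≤ 2 * ε + 2 * ε * (7 * Real.log N) := by linarith
  rw [hε] at h9
  nlinarith

end Pool.Agent.E456
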