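import Pool.Agent.E456.Final

/-!
# MP_6380c3_nt: positive lower logarithmic density and positive upper density of `m_n = p_n`
-/

set_option autoImplicit false

namespace Pool.Agent.E456

open Finset Filter

/-- `m_n = p_n` -/
def Eq75 (n : ℕ) : Prop :=
  ∃ q : ℕ, IsLeast {m : ℕ | 0 < m ∧ n ∣ Nat.totient m} q ∧
    IsLeast {p : ℕ | p.Prime ∧ p ≡ 1 [MOD n]} q

lemma eq75_of_not_lt {n : ℕ} (hn : 0 < n) (h : ¬ (mm n < pn n)) : Eq75 n := by
  have h1 : mm n ∈ {m : ℕ | 0 < m ∧ n ∣ Nat.totient m} := Nat.sInf_mem (mm_set_nonempty n hn)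
  obtain ⟨p, hp, _, hpn⟩ := Nat.exists_prime_gt_modEq_one n hn.ne'
  have hne : {p : ℕ | p.Prime ∧ p ≡ 1 [MOD n]}.Nonempty := ⟨p, hp, hpn⟩
  have h2 : pn n ∈ {p : ℕ | p.Prime ∧ p ≡ 1 [MOD n]} := Nat.sInf_mem hne
  have h3 : mm n ≤ pn n := by
    apply Nat.sInf_le
    refine ⟨h2.1.pos, ?_⟩
    rw [Nat.totient_prime h2.1]
    exact (Nat.modEq_iff_dvd' h2.1.one_le).1 h2.2.symm
  have h4 : mm n = pn n := le_antisymm h3 (not_lt.1 h)
  refine ⟨mm n, ⟨h1, fun m hm => Nat.sInf_le hm⟩, ?_⟩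
  rw [h4]
  exact ⟨h2, fun m hm => Nat.sInf_le hm⟩

open Classical in
theorem eq_mass : ∃ c : ℝ, 0 < c ∧ ∀ᶠ N : ℕ in atTop,
    c * Real.log N ≤ ∑ n ∈ (Ioc N (N ^ 8)).filter Eq75, (1 : ℝ) / n := by
  obtain ⟨c, hc, h⟩ := main_mass
  refine ⟨c, hc, ?_⟩
  filter_upwards [h] with N hN
  refine hN.trans ?_
  apply sum_le_sum_of_subset_of_nonneg
  · intro n hn
    rw [mem_filter] at hn ⊢
    exact ⟨hn.1, eq75_of_not_lt (by have := (mem_Ioc.1 hn.1).1; omega) hn.2⟩
  · intro n _ _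
    positivity

open Classical in
theorem own_log : ∃ c : ℝ, 0 < c ∧ ∀ᶠ N : ℕ in atTop,
    c * Real.log N ≤ ∑ n ∈ (Icc 1 N).filter Eq75, (1 : ℝ) / n := by
  obtain ⟨c, hc, h⟩ := eq_mass
  obtain ⟨N1, hN1⟩ := h.exists_forall_of_atTop
  refine ⟨c / 16, by positivity, ?_⟩
  filter_upwards [eventually_ge_atTop ((max N1 2 + 1) ^ 8)] with N hN
  -- M with M^8 ≤ N < (M+1)^8
  set M := Nat.findGreatest (fun M => M ^ 8 ≤ N) N with hM
  have hle : (max N1 2 + 1) ≤ N := (Nat.le_self_pow (by norm_num) _).trans hN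
  have hM1 : M ^ 8 ≤ N := by
    have := Nat.findGreatest_spec (P := fun M => M ^ 8 ≤ N) (m := max N1 2 + 1) hle hN
    exact this
  have hM2 : max N1 2 + 1 ≤ M := Nat.le_findGreatest hle hN
  have hM3 : N < (M + 1) ^ 8 := by
    by_contra hcon
    push Not at hcon
    have h2 : M + 1 ≤ N := (Nat.le_self_pow (by norm_num) _).trans hcon
    have := Nat.le_findGreatest (P := fun M => M ^ 8 ≤ N) h2 hcon
    omega
  have hmx1 := le_max_left N1 2
  have hmx2 := le_max_right N1 2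
  have hMN1 : N1 ≤ M := by omega
  have hM22 : 2 ≤ M := by omega
  have hN0 : 0 < N := by omega
  have key := hN1 M hMN1
  have hlog : Real.log N ≤ 16 * Real.log M := by
    have h2 : M + 1 ≤ M ^ 2 := by nlinarith
    have h3 : N ≤ M ^ 16 := by
      calc N ≤ (M + 1) ^ 8 := hM3.le
        _ ≤ (M ^ 2) ^ 8 := Nat.pow_le_pow_left h2 8
        _ = M ^ 16 := by rw [← pow_mul]
    calc Real.log N ≤ Real.log ((M ^ 16 : ℕ) : ℝ) :=
          Real.log_le_log (by exact_mod_cast hN0) (by exact_mod_cast h3)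
      _ = 16 * Real.log M := by push_cast; rw [Real.log_pow]; norm_num
  have hsub : ∑ n ∈ (Ioc M (M ^ 8)).filter Eq75, (1 : ℝ) / n ≤
      ∑ n ∈ (Icc 1 N).filter Eq75, (1 : ℝ) / n := by
    apply sum_le_sum_of_subset_of_nonneg
    · intro n hn
      rw [mem_filter, mem_Ioc] at hn
      rw [mem_filter, mem_Icc]
      exact ⟨⟨by omega, hn.1.2.trans hM1⟩, hn.2⟩
    · intro n _ _
      positivity
  calc c / 16 * Real.log N ≤ c / 16 * (16 * Real.log M) := by gcongr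
    _ = c * Real.log M := by ring
    _ ≤ _ := key.trans hsub

open Classical in
theorem own_nat : ∃ c : ℝ, 0 < c ∧ ∃ᶠ N : ℕ in atTop,
    c * N ≤ (((Icc 1 N).filter Eq75).card : ℝ) := by
  obtain ⟨c, hc, hmain⟩ := eq_mass
  refine ⟨c / 64, by positivity, ?_⟩
  intro hcon
  obtain ⟨N0, hN0⟩ := hcon.exists_forall_of_atTop
  obtain ⟨N1, hN1⟩ := hmain.exists_forall_of_atTop
  obtain ⟨N2, hN2⟩ := (log_ge_eventually 1).exists_forall_of_atTop
  set ε : ℝ := c / 64 with hε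
  have hε0 : 0 < ε := by positivity
  -- numbers `≥ 1`
  have hex : ∃ N3 : ℕ, (1 : ℝ) ≤ ε * N3 := by
    obtain ⟨n, hn⟩ := exists_nat_gt (1 / ε)
    refine ⟨n, ?_⟩
    rw [div_lt_iff₀ hε0] at hn
    linarith
  obtain ⟨N3, hN3⟩ := hex
  set N : ℕ := max (max N0 N1) (max (max N2 N3) 1) with hN
  have hNN0 : N0 ≤ N := (le_max_left _ _).trans (le_max_left _ _)
  have hNN1 : N1 ≤ N := (le_max_right _ _).trans (le_max_left _ _)
  have hNN2 : N2 ≤ N := (le_max_left _ _).trans ((le_max_left _ _).trans (le_max_right _ _))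
  have hNN3' : N3 ≤ N := (le_max_right _ _).trans ((le_max_left _ _).trans (le_max_right _ _))
  have hNN3 : 1 ≤ N := (le_max_right _ _).trans (le_max_right _ _)
  have hcount : ∀ t, N ≤ t → (((range (t + 1)).filter Eq75).card : ℝ) ≤ 2 * ε * t := by
    intro t ht
    have h1 := hN0 t (hNN0.trans ht)
    push Not at h1
    have h2 : ((range (t + 1)).filter Eq75).card ≤ ((Icc 1 t).filter Eq75).card + 1 := by
      have hsub : (range (t + 1)).filter Eq75 ⊆ insert 0 ((Icc 1 t).filter Eq75) := by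
        intro n hn
        rw [mem_filter, mem_range] at hn
        rw [mem_insert, mem_filter, mem_Icc]
        rcases Nat.eq_zero_or_pos n with h0 | h0
        · exact Or.inl h0
        · exact Or.inr ⟨⟨h0, by omega⟩, hn.2⟩
      exact (card_le_card hsub).trans (card_insert_le _ _)
    have h3 : (((range (t + 1)).filter Eq75).card : ℝ) ≤ (((Icc 1 t).filter Eq75).card : ℝ) + 1 := by
      exact_mod_cast h2
    have h4 : (1 : ℝ) ≤ ε * t := by
      have : (N3 : ℝ) ≤ t := by exact_mod_cast hNN3'.trans ht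
      nlinarith
    linarith
  have h2 := log_mass_le Eq75 (2 * ε) (by positivity) N (N ^ 8) hNN3
    (Nat.le_self_pow (by norm_num) N) hcount
  have h3 := hN1 N hNN1
  have h4 := hN2 N hNN2
  have h5 := harmonic_upper N (N ^ 8) hNN3 (Nat.le_self_pow (by norm_num) N)
  rw [log_ratio_N8 N hNN3] at h5
  have h6 := hcount (N ^ 8) (Nat.le_self_pow (by norm_num) N)
  have hN8 : (0 : ℝ) < ((N ^ 8 : ℕ) : ℝ) := by
    have : 0 < N ^ 8 := pow_pos (by omega) 8
    exact_mod_cast this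
  have h7 : (((range (N ^ 8 + 1)).filter Eq75).card : ℝ) / ((N ^ 8 : ℕ) : ℝ) ≤ 2 * ε := by
    rw [div_le_iff₀ hN8]
    exact h6
  have h8 : 2 * ε * ∑ n ∈ Ioc N (N ^ 8), (1 : ℝ) / n ≤ 2 * ε * (7 * Real.log N) := by gcongr
  have h9 : c * Real.log N ≤ 2 * ε + 2 * ε * (7 * Real.log N) := by linarith
  rw [hε] at h9
  nlinarith

end Pool.Agent.E456
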